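import Pool.Agent.Helper7.Stuck.BlockA

open MeasureTheory ProbabilityTheory Filter Topology
open scoped NNReal ENNReal

namespace Pool.Agent.Helper7.Stuck

universe u

theorem blk_dom (L : ℕ) (hL : 1 ≤ L) (K : ℕ) (V : ℤ → ℕ) (hV : Adm K V) (f : St → ℝ)
    (hf : ∀ z, |f z| ≤ 1) (h : ℕ → ℤ) (d0 : St) (β : ℝ)
    (hβ : ∀ i ≤ L, |((dpath h d0 i).2.1 : ℝ)| ≤ β) (A B : ℝ) (hB : 0 ≤ B)
    (hG : ∀ z z', |f z - f z'| ≤ A + B * blkU L (z - z' - dpath h d0 L)) :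
    ∀ (r i : ℕ), i + r = L → ∀ (x : Fin r → ℤ) (z z' : St),
      |blkTh K V r x f z - blkTh K V r (fun j => x j + h (i + j)) f z'| ≤
        (A + r * (B * (1 + 4 / (L:ℝ)) ^ L * (2 * β + 4 * (L:ℝ) ^ 3))) +
          B * (1 + 4 / (L:ℝ)) ^ r * blkU L (z - z' - dpath h d0 i) := by
  have hβ0 : 0 ≤ β := (abs_nonneg _).trans (hβ 0 (Nat.zero_le _))
  have hL0 : (0:ℝ) < L := by exact_mod_cast hL
  have hq : 1 ≤ 1 + 4 / (L:ℝ) := by
    have : 0 < 4 / (L:ℝ) := by positivity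
    linarith
  intro r
  induction r with
  | zero =>
    intro i hi x z z'
    have hi : i = L := by omega
    subst hi
    simpa [blkTh] using hG z z'
  | succ r ih =>
    intro i hi x z z'
    have h1 := blk_step L hL K V hV
      (blkTh K V r (fun j => x j.succ) f)
      (blkTh K V r (fun j => x j.succ + h ((i + 1) + j)) f)
      (fun z => blkTh_abs K V r _ f hf z) (fun z => blkTh_abs K V r _ f hf z)
      (A + r * (B * (1 + 4 / (L:ℝ)) ^ L * (2 * β + 4 * (L:ℝ) ^ 3)))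
      (B * (1 + 4 / (L:ℝ)) ^ r) (by positivity) (dpath h d0 i) (h i) β
      (hβ (i + 1) (by omega))
      (fun z z' => ih (i + 1) (by omega) (fun j => x j.succ) z z') (x 0) z z'
    have h2 : blkTh K V (r + 1) (fun j => x j + h (i + j)) f =
        blkT K V (x 0 + h i) (blkTh K V r (fun j => x j.succ + h ((i + 1) + j)) f) := by
      have h3 : (fun j : Fin r => x j.succ + h (i + ((j.succ : Fin (r + 1)) : ℕ))) =
          fun j : Fin r => x j.succ + h ((i + 1) + j) := by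
        funext j
        rw [Fin.val_succ]
        congr 2
        omega
      rw [← h3]
      rfl
    rw [h2]
    refine h1.trans ?_
    have h3 : (1 + 4 / (L:ℝ)) ^ r ≤ (1 + 4 / (L:ℝ)) ^ L :=
      pow_le_pow_right₀ hq (by omega)
    have h4 : B * (1 + 4 / (L:ℝ)) ^ r * (2 * β + 4 * (L:ℝ) ^ 3) ≤
        B * (1 + 4 / (L:ℝ)) ^ L * (2 * β + 4 * (L:ℝ) ^ 3) := by
      apply mul_le_mul_of_nonneg_right _ (by positivity)
      exact mul_le_mul_of_nonneg_left h3 hB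
    push_cast
    refine le_of_sub_nonneg ?_
    have h5 : A + ((r:ℝ) + 1) * (B * (1 + 4 / (L:ℝ)) ^ L * (2 * β + 4 * (L:ℝ) ^ 3)) +
        B * (1 + 4 / (L:ℝ)) ^ (r + 1) * blkU L (z - z' - dpath h d0 i) -
        (A + (r:ℝ) * (B * (1 + 4 / (L:ℝ)) ^ L * (2 * β + 4 * (L:ℝ) ^ 3)) +
          B * (1 + 4 / (L:ℝ)) ^ r * (2 * β + 4 * (L:ℝ) ^ 3) +
          B * (1 + 4 / (L:ℝ)) ^ r * (1 + 4 / (L:ℝ)) * blkU L (z - z' - dpath h d0 i)) =
        B * (1 + 4 / (L:ℝ)) ^ L * (2 * β + 4 * (L:ℝ) ^ 3) -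
          B * (1 + 4 / (L:ℝ)) ^ r * (2 * β + 4 * (L:ℝ) ^ 3) := by ring
    rw [h5]
    linarith

theorem blk_pow (L : ℕ) (hL : 1 ≤ L) : (1 + 4 / (L:ℝ)) ^ L ≤ 55 := by
  have hL0 : (0:ℝ) < L := by exact_mod_cast hL
  have h1 : (1 + 4 / (L:ℝ)) ^ L ≤ Real.exp 4 := by
    have h2 : 1 + 4 / (L:ℝ) ≤ Real.exp (4 / L) := by
      have := Real.add_one_le_exp (4 / (L:ℝ))
      linarith
    have h3 : (1 + 4 / (L:ℝ)) ^ L ≤ (Real.exp (4 / L)) ^ L :=
      pow_le_pow_left₀ (by positivity) h2 _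
    rw [← Real.exp_nat_mul] at h3
    have h4 : (L:ℝ) * (4 / L) = 4 := by field_simp
    rwa [h4] at h3
  have h2 : Real.exp 4 = Real.exp 1 ^ 4 := by
    rw [← Real.exp_nat_mul]
    norm_num
  have h3 := Real.exp_one_lt_d9
  have h4 : Real.exp 1 ^ 4 ≤ 2.7182818286 ^ 4 :=
    pow_le_pow_left₀ (Real.exp_pos 1).le h3.le 4
  rw [h2] at h1
  refine h1.trans (h4.trans ?_)
  norm_num

theorem blk_rpow (p c x U : ℝ) (hp : 0 ≤ p) (hp1 : p ≤ 1) (hc : 0 < c) (hx : 0 ≤ x)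
    (hU : (x / c) ^ 2 ≤ U) : x ^ p ≤ c ^ p * (1 + U) := by
  have h1 : x = c * (x / c) := by field_simp
  have h0 : 0 ≤ x / c := by positivity
  have h2 : (x / c) ^ p ≤ 1 + (x / c) ^ 2 := by
    rcases le_total (x / c) 1 with h | h
    · have := Real.rpow_le_one h0 h hp
      nlinarith [sq_nonneg (x / c)]
    · have h3 := Real.rpow_le_rpow_of_exponent_le h (show p ≤ 2 by linarith)
      rw [Real.rpow_two] at h3
      linarith
  conv_lhs => rw [h1]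
  rw [Real.mul_rpow hc.le h0]
  exact mul_le_mul_of_nonneg_left (h2.trans (by linarith)) (Real.rpow_nonneg hc.le p)

theorem blk_rho (L : ℕ) (hL : 1 ≤ L) (s : ℝ) (hs : 0 < s) (d e : St) :
    rho (d + e) ≤ rho d + (s ^ (1/2 : ℝ) + (s * L) ^ (1/3 : ℝ)
      + 512 * (s * (L:ℝ) ^ 2) ^ (1/4 : ℝ)) * (1 + blkU L e / s ^ 2) := by
  have hL0 : (0:ℝ) < L := by exact_mod_cast hL
  have hsub : ∀ (p : ℝ) (a b : ℤ), 0 ≤ p → p ≤ 1 →
      |((a + b : ℤ) : ℝ)| ^ p ≤ |(a:ℝ)| ^ p + |(b:ℝ)| ^ p := by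
    intro p a b hp hp1
    have h1 : |((a + b : ℤ) : ℝ)| ≤ |(a:ℝ)| + |(b:ℝ)| := by
      push_cast
      exact abs_add_le _ _
    exact (Real.rpow_le_rpow (abs_nonneg _) h1 hp).trans
      (Real.rpow_add_le_add_rpow (abs_nonneg _) (abs_nonneg _) hp hp1)
  have h1 := hsub (1/2) d.1 e.1 (by norm_num) (by norm_num)
  have h2 := hsub (1/3) d.2.1 e.2.1 (by norm_num) (by norm_num)
  have h3 := hsub (1/4) d.2.2 e.2.2 (by norm_num) (by norm_num)
  have u1 : 0 ≤ (e.1:ℝ) ^ 2 := sq_nonneg _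
  have u2 : 0 ≤ (e.2.1:ℝ) ^ 2 / (L:ℝ) ^ 2 := by positivity
  have u3 : 0 ≤ (e.2.2:ℝ) ^ 2 / (L:ℝ) ^ 4 := by positivity
  have g1 := blk_rpow (1/2) s |(e.1:ℝ)| (blkU L e / s ^ 2) (by norm_num) (by norm_num) hs
    (abs_nonneg _) (by
      rw [div_pow, sq_abs]
      apply div_le_div_of_nonneg_right _ (by positivity)
      unfold blkU
      linarith)
  have g2 := blk_rpow (1/3) (s * L) |(e.2.1:ℝ)| (blkU L e / s ^ 2) (by norm_num) (by norm_num)
    (by positivity) (abs_nonneg _) (by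
      rw [div_pow, sq_abs, mul_pow, mul_comm, ← div_div]
      apply div_le_div_of_nonneg_right _ (by positivity)
      unfold blkU
      linarith)
  have g3 := blk_rpow (1/4) (s * (L:ℝ) ^ 2) |(e.2.2:ℝ)| (blkU L e / s ^ 2) (by norm_num)
    (by norm_num) (by positivity) (abs_nonneg _) (by
      rw [div_pow, sq_abs, mul_pow, mul_comm, ← div_div, ← pow_mul]
      apply div_le_div_of_nonneg_right _ (by positivity)
      unfold blkU
      norm_num
      linarith)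
  unfold rho
  simp only [Prod.fst_add, Prod.snd_add]
  nlinarith [h1, h2, h3, g1, g2, g3]

theorem block (K : ℕ) (V : ℤ → ℕ) (hV : Adm K V) (L : ℕ) (hL : 1 ≤ L) (h : ℕ → ℤ) (β : ℝ)
    (z z' : St) (hβ : ∀ i ≤ L, |((dpath h (z - z') i).2.1 : ℝ)| ≤ β)
    (f : St → ℝ) (hf1 : ∀ z, |f z| ≤ 1) (k : ℝ) (hk : 0 ≤ k)
    (hf : ∀ z z', |f z - f z'| ≤ k * rho (z - z')) (s : ℝ) (hs : 0 < s)
    (hs2 : 55 * (L:ℝ) * (2 * β + 4 * (L:ℝ) ^ 3) ≤ s ^ 2) :
    |(Tp V)^[L] f z - (Tp V)^[L] f z'| ≤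
      k * (rho (dpath h (z - z') L) + 2 * (s ^ (1/2 : ℝ) + (s * L) ^ (1/3 : ℝ)
        + 512 * (s * (L:ℝ) ^ 2) ^ (1/4 : ℝ)))
      + 7 * √(∑ i ∈ Finset.range L, (h i : ℝ) ^ 2 / K) := by
  have hβ0 : 0 ≤ β := (abs_nonneg _).trans (hβ 0 (Nat.zero_le _))
  have hL0 : (0:ℝ) < L := by exact_mod_cast hL
  obtain ⟨Q, hQ⟩ : ∃ Q, Q = s ^ (1/2 : ℝ) + (s * L) ^ (1/3 : ℝ)
        + 512 * (s * (L:ℝ) ^ 2) ^ (1/4 : ℝ) := ⟨_, rfl⟩
  have hQ0 : 0 ≤ Q := by rw [hQ]; positivity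
  rw [← hQ]
  have hG : ∀ w w', |f w - f w'| ≤ k * (rho (dpath h (z - z') L) + Q) +
      (k * Q / s ^ 2) * blkU L (w - w' - dpath h (z - z') L) := by
    intro w w'
    have h1 := blk_rho L hL s hs (dpath h (z - z') L) (w - w' - dpath h (z - z') L)
    rw [← hQ, add_sub_cancel] at h1
    refine (hf w w').trans ?_
    refine (mul_le_mul_of_nonneg_left h1 hk).trans (le_of_eq ?_)
    field_simp
    ring
  have hdom := blk_dom L hL K V hV f hf1 h (z - z') β hβ (k * (rho (dpath h (z - z') L) + Q))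
    (k * Q / s ^ 2) (by positivity) hG L 0 (by omega)
  have hx : ∀ x : Fin L → ℤ, |blkTh K V L x f z -
      blkTh K V L (fun j => x j + h (0 + j)) f z'| ≤
        k * (rho (dpath h (z - z') L) + 2 * Q) := by
    intro x
    refine (hdom x z z').trans ?_
    have h1 : blkU L (z - z' - dpath h (z - z') 0) = 0 := by
      have : z - z' - dpath h (z - z') 0 = 0 := sub_self _
      rw [this]
      simp [blkU]
    rw [h1, mul_zero, add_zero]
    have h2 := blk_pow L hL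
    have h3 : (L:ℝ) * (k * Q / s ^ 2 * (1 + 4 / (L:ℝ)) ^ L * (2 * β + 4 * (L:ℝ) ^ 3)) ≤
        k * Q / s ^ 2 * (55 * (L:ℝ) * (2 * β + 4 * (L:ℝ) ^ 3)) := by
      have h4 : (L:ℝ) * (k * Q / s ^ 2 * (1 + 4 / (L:ℝ)) ^ L * (2 * β + 4 * (L:ℝ) ^ 3)) =
          (k * Q / s ^ 2 * L * (2 * β + 4 * (L:ℝ) ^ 3)) * (1 + 4 / (L:ℝ)) ^ L := by ring
      rw [h4]
      refine (mul_le_mul_of_nonneg_left h2 (by positivity)).trans (le_of_eq (by ring))
    have h4 : k * Q / s ^ 2 * (55 * (L:ℝ) * (2 * β + 4 * (L:ℝ) ^ 3)) ≤ k * Q := by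
      refine (mul_le_mul_of_nonneg_left hs2 (by positivity)).trans (le_of_eq ?_)
      field_simp
    linarith
  rw [blk_iter K V hV f hf1 L z, blk_iter K V hV f hf1 L z']
  have hi : ∀ (z : St) (y : Fin L → ℤ), Integrable (fun x : Fin L → ℤ => blkTh K V L (x + y) f z)
      (Measure.pi fun _ : Fin L => nb K) := fun z y =>
    blk_int _ _ 1 fun x => blkTh_abs K V L _ f hf1 z
  have hi0 : ∀ (z : St), Integrable (fun x : Fin L → ℤ => blkTh K V L x f z)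
      (Measure.pi fun _ : Fin L => nb K) := fun z =>
    blk_int _ _ 1 fun x => blkTh_abs K V L _ f hf1 z
  have h5 : |∫ x, blkTh K V L x f z ∂(Measure.pi fun _ : Fin L => nb K) -
      ∫ x, blkTh K V L (x + (fun j : Fin L => h (j:ℕ))) f z' ∂(Measure.pi fun _ : Fin L => nb K)| ≤
        k * (rho (dpath h (z - z') L) + 2 * Q) := by
    rw [← integral_sub (hi0 z) (hi z' _)]
    apply blk_abs_int
    intro x
    have := hx x
    simp only [Nat.zero_add] at this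
    exact this
  have h6 := prod_shift K hV.pos L (fun j => h j) (fun x => blkTh K V L x f z')
    (fun x => blkTh_abs K V L x f hf1 z')
  rw [Fin.sum_univ_eq_sum_range (fun i => (h i : ℝ) ^ 2 / K) L] at h6
  have h7 := abs_sub_le
    (∫ x, blkTh K V L x f z ∂(Measure.pi fun _ : Fin L => nb K))
    (∫ x, blkTh K V L (x + (fun j : Fin L => h (j:ℕ))) f z' ∂(Measure.pi fun _ : Fin L => nb K))
    (∫ x, blkTh K V L x f z' ∂(Measure.pi fun _ : Fin L => nb K))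
  linarith

end Pool.Agent.Helper7.Stuck
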