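import Pool.Agent.Helper7.Stuck.NB3

/-!
Preliminaries for the block estimate: splitting off a common noise.
-/

open MeasureTheory ProbabilityTheory Filter Topology
open scoped NNReal ENNReal

namespace Pool.Agent.Helper7.Stuck

/-- one step with the part `x` of the noise fixed -/
noncomputable def blkT (K : ℕ) (V : ℤ → ℕ) (x : ℤ) (f : St → ℝ) (z : St) : ℝ :=
  ∫ y, f (z.1 + x + y, z.2.1 + z.1, z.2.2 + z.2.1) ∂(nb (V (z.2.1 + z.1) - K))

/-- several steps with parts of the noise fixed -/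
noncomputable def blkTh (K : ℕ) (V : ℤ → ℕ) : (L : ℕ) → (Fin L → ℤ) → (St → ℝ) → St → ℝ
  | 0, _, f => f
  | L + 1, x, f => blkT K V (x 0) (blkTh K V L (fun i => x i.succ) f)

theorem blk_int {α : Type*} [MeasurableSpace α] [DiscreteMeasurableSpace α] (μ : Measure α)
    [IsFiniteMeasure μ] (g : α → ℝ) (C : ℝ) (hg : ∀ x, |g x| ≤ C) : Integrable g μ :=
  Integrable.of_bound (Measurable.of_discrete.aestronglyMeasurable) C
    (Filter.Eventually.of_forall fun x => by simpa [Real.norm_eq_abs] using hg x)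

theorem blk_abs_int {α : Type*} [MeasurableSpace α] (μ : Measure α)
    [IsProbabilityMeasure μ] (g : α → ℝ) (C : ℝ) (hg : ∀ x, |g x| ≤ C) : |∫ x, g x ∂μ| ≤ C := by
  have := norm_integral_le_of_norm_le_const (μ := μ) (f := g) (C := C)
    (Filter.Eventually.of_forall fun x => by simpa [Real.norm_eq_abs] using hg x)
  simpa [Real.norm_eq_abs] using this

theorem blkT_abs (K : ℕ) (V : ℤ → ℕ) (x : ℤ) (f : St → ℝ) (hf : ∀ z, |f z| ≤ 1) (z : St) :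
    |blkT K V x f z| ≤ 1 := blk_abs_int _ _ _ fun _ => hf _

theorem blkTh_abs (K : ℕ) (V : ℤ → ℕ) (L : ℕ) (x : Fin L → ℤ) (f : St → ℝ)
    (hf : ∀ z, |f z| ≤ 1) (z : St) : |blkTh K V L x f z| ≤ 1 := by
  induction L generalizing z with
  | zero => exact hf z
  | succ L ih => exact blkT_abs K V _ _ (fun z => ih _ z) z

theorem blk_Tp (K : ℕ) (V : ℤ → ℕ) (hV : Adm K V) (f : St → ℝ) (hf : ∀ z, |f z| ≤ 1) (z : St) :
    Tp V f z = ∫ x, blkT K V x f z ∂(nb K) := by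
  unfold Tp blkT
  have h1 : V (z.2.1 + z.1) = K + (V (z.2.1 + z.1) - K) := by
    have := hV.ge (z.2.1 + z.1)
    omega
  conv_lhs => rw [h1]
  rw [integral_nb_add]
  · simp only [add_assoc]
  · exact blk_int _ _ 1 fun _ => hf _

theorem blk_iter (K : ℕ) (V : ℤ → ℕ) (hV : Adm K V) (f : St → ℝ) (hf : ∀ z, |f z| ≤ 1)
    (L : ℕ) (z : St) : (Tp V)^[L] f z =
      ∫ x, blkTh K V L x f z ∂(Measure.pi fun _ : Fin L => nb K) := by
  induction L generalizing z with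
  | zero =>
    simp [blkTh]
  | succ L ih =>
    rw [Function.iterate_succ', Function.comp_apply]
    have h1 : (Tp V)^[L] f =
        fun z => ∫ x, blkTh K V L x f z ∂(Measure.pi fun _ : Fin L => nb K) := funext ih
    rw [h1]
    have hb : ∀ z, |∫ x, blkTh K V L x f z ∂(Measure.pi fun _ : Fin L => nb K)| ≤ 1 :=
      fun z => blk_abs_int _ _ _ fun x => blkTh_abs K V L x f hf z
    rw [blk_Tp K V hV _ hb]
    have h2 := (measurePreserving_piFinSuccAbove (fun _ : Fin (L+1) => nb K) 0)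
    rw [← h2.symm.integral_comp' (g := fun x => blkTh K V (L+1) x f z)]
    rw [integral_prod]
    · refine integral_congr_ae (Filter.Eventually.of_forall fun x0 => ?_)
      simp only
      unfold blkT
      rw [integral_integral_swap]
      · refine integral_congr_ae (Filter.Eventually.of_forall fun x' => ?_)
        rfl
      · exact blk_int _ _ 1 fun p => blkTh_abs K V L _ f hf _
    · exact blk_int _ _ 1 fun p => blkTh_abs K V (L+1) _ f hf _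

theorem blk_diff (v w : ℕ) (F F' H : ℤ → ℝ) (hF : ∀ y, |F y| ≤ 1) (hF' : ∀ y, |F' y| ≤ 1)
    (hH : Integrable H (nb v)) (h : ∀ y y', |F (y + y') - F' y'| ≤ H y) :
    |∫ x, F x ∂(nb (v + w)) - ∫ x, F' x ∂(nb w)| ≤ ∫ x, H x ∂(nb v) := by
  rw [integral_nb_add v w F (blk_int _ _ 1 hF)]
  have h1 : ∫ x, F' x ∂(nb w) = ∫ y, (∫ x, F' x ∂(nb w)) ∂(nb v) := by simp
  have h2 : ∀ y, |∫ y', F (y + y') ∂(nb w)| ≤ 1 := fun y => blk_abs_int _ _ _ fun _ => hF _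
  rw [h1, ← integral_sub (blk_int _ _ 1 h2) (integrable_const _)]
  refine (abs_integral_le_integral_abs).trans ?_
  refine integral_mono ?_ hH ?_
  · refine blk_int _ _ 2 fun y => ?_
    rw [abs_abs]
    have h3 : |∫ x, F' x ∂(nb w)| ≤ 1 := blk_abs_int _ _ _ hF'
    have h4 := abs_sub (∫ y', F (y + y') ∂(nb w)) (∫ x, F' x ∂(nb w))
    linarith [h2 y]
  · intro y
    simp only
    rw [← integral_sub (blk_int _ _ 1 fun _ => hF _) (blk_int _ _ 1 hF')]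
    exact blk_abs_int _ _ _ fun y' => h y y'

/-- the quadratic potential -/
noncomputable def blkU (L : ℕ) (e : St) : ℝ :=
  (e.1:ℝ) ^ 2 + (e.2.1:ℝ) ^ 2 / (L:ℝ) ^ 2 + (e.2.2:ℝ) ^ 2 / (L:ℝ) ^ 4

theorem blk_alg (L e1 e2 e3 v β : ℝ) (hL : 1 ≤ L) (hv : v ≤ β + |e1| + |e2|) :
    e1 ^ 2 + 2 * v + (e2 + e1) ^ 2 / L ^ 2 + (e3 + e2) ^ 2 / L ^ 4 ≤
      (1 + 4 / L) * (e1 ^ 2 + e2 ^ 2 / L ^ 2 + e3 ^ 2 / L ^ 4) + (2 * β + 4 * L ^ 3) := by
  have hL0 : 0 < L := by linarith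
  obtain ⟨t, ht⟩ : ∃ t, t = 1 / L := ⟨_, rfl⟩
  have htL : t * L = 1 := by rw [ht]; field_simp
  have ht0 : 0 < t := by rw [ht]; positivity
  have ht1 : t ≤ 1 := by rw [ht, div_le_one hL0]; exact hL
  obtain ⟨q, hq⟩ : ∃ q, q = e2 * t := ⟨_, rfl⟩
  obtain ⟨r, hr⟩ : ∃ r, r = e3 * t ^ 2 := ⟨_, rfl⟩
  have he2 : e2 = q * L := by rw [hq, mul_assoc, htL, mul_one]
  have h1 : (e2 + e1) ^ 2 / L ^ 2 = (q + t * e1) ^ 2 := by
    rw [hq, ht]; field_simp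
  have h2 : (e3 + e2) ^ 2 / L ^ 4 = (r + t * q) ^ 2 := by
    rw [hr, hq, ht]; field_simp
  have h3 : e2 ^ 2 / L ^ 2 = q ^ 2 := by rw [hq, ht]; field_simp
  have h4 : e3 ^ 2 / L ^ 4 = r ^ 2 := by rw [hr, ht]; field_simp
  have h5 : 4 / L = 4 * t := by rw [ht]; ring
  rw [h1, h2, h3, h4, h5]
  have h6 : 2 * |e1| ≤ e1 ^ 2 * t / 2 + 2 * L := by
    have h7 : 0 ≤ (|e1| - 2 * L) ^ 2 * t := by positivity
    have h8 : |e1| ^ 2 = e1 ^ 2 := sq_abs e1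
    nlinarith [h7, h8, htL]
  have h7 : 2 * |e2| ≤ q ^ 2 * t / 2 + 2 * L ^ 3 := by
    rw [he2, abs_mul, abs_of_pos hL0]
    have h7 : 0 ≤ (|q| - 2 * L ^ 2) ^ 2 * t := by positivity
    have h8 : |q| ^ 2 = q ^ 2 := sq_abs q
    have h9 : L ^ 4 * t = L ^ 3 := by
      calc L ^ 4 * t = L ^ 3 * (t * L) := by ring
        _ = L ^ 3 := by rw [htL, mul_one]
    have h10 : L ^ 2 * t = L := by
      calc L ^ 2 * t = L * (t * L) := by ring
        _ = L := by rw [htL, mul_one]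
    have h11 : (|q| - 2 * L ^ 2) ^ 2 * t = q ^ 2 * t - 4 * |q| * (L ^ 2 * t) + 4 * (L ^ 4 * t) := by
      rw [← h8]; ring
    rw [h9, h10] at h11
    nlinarith [h7, h11]
  have h8 : (q + t * e1) ^ 2 ≤ q ^ 2 + t * (e1 ^ 2 + q ^ 2) + t * e1 ^ 2 := by
    have h9 : 0 ≤ t * (e1 - q) ^ 2 := by positivity
    have h10 : t ^ 2 * e1 ^ 2 ≤ t * e1 ^ 2 := by
      have : t ^ 2 ≤ t := by nlinarith
      exact mul_le_mul_of_nonneg_right this (sq_nonneg _)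
    nlinarith [h9, h10]
  have h9 : (r + t * q) ^ 2 ≤ r ^ 2 + t * (q ^ 2 + r ^ 2) + t * q ^ 2 := by
    have h9 : 0 ≤ t * (q - r) ^ 2 := by positivity
    have h10 : t ^ 2 * q ^ 2 ≤ t * q ^ 2 := by
      have : t ^ 2 ≤ t := by nlinarith
      exact mul_le_mul_of_nonneg_right this (sq_nonneg _)
    nlinarith [h9, h10]
  have h10 : L ≤ L ^ 3 := by nlinarith [sq_nonneg (L - 1), mul_pos hL0 hL0]
  have h11 : 0 ≤ t * e1 ^ 2 := by positivity
  have h12 : 0 ≤ t * q ^ 2 := by positivity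
  have h13 : 0 ≤ t * r ^ 2 := by positivity
  nlinarith [h6, h7, h8, h9, h10, h11, h12, h13, hv]

theorem blk_quad (L : ℕ) (A B : ℝ) (v : ℕ) (σ : ℤ) (hσ : σ = 1 ∨ σ = -1) (e : St) (p q : ℤ) :
    Integrable (fun y : ℤ => A + B * blkU L (e.1 + σ * y, p, q)) (nb v) ∧
    ∫ y : ℤ, (A + B * blkU L (e.1 + σ * y, p, q)) ∂(nb v) =
      A + B * ((e.1:ℝ) ^ 2 + 2 * v + (p:ℝ) ^ 2 / (L:ℝ) ^ 2 + (q:ℝ) ^ 2 / (L:ℝ) ^ 4) := by
  obtain ⟨hm1, hm2⟩ := nb_mean v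
  obtain ⟨hv1, hv2⟩ := nb_var v
  have hσ2 : (σ:ℝ) ^ 2 = 1 := by
    rcases hσ with rfl | rfl <;> norm_num
  have h1 : (fun y : ℤ => A + B * blkU L (e.1 + σ * y, p, q)) = fun y : ℤ =>
      (A + B * ((e.1:ℝ) ^ 2 + (p:ℝ) ^ 2 / (L:ℝ) ^ 2 + (q:ℝ) ^ 2 / (L:ℝ) ^ 4)) +
        ((B * 2 * e.1 * σ) * (y:ℝ) + B * (y:ℝ) ^ 2) := by
    funext y
    unfold blkU
    push_cast
    linear_combination (B * (y:ℝ) ^ 2) * hσ2
  rw [h1]
  have h2 : Integrable (fun y : ℤ => (B * 2 * e.1 * σ) * (y:ℝ) + B * (y:ℝ) ^ 2) (nb v) :=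
    (hm1.const_mul _).add (hv1.const_mul _)
  refine ⟨(integrable_const _).add h2, ?_⟩
  rw [integral_add (integrable_const _) h2, integral_add (hm1.const_mul _) (hv1.const_mul _),
    integral_const_mul, integral_const_mul, hm2, hv2]
  simp
  ring

theorem blk_step (L : ℕ) (hL : 1 ≤ L) (K : ℕ) (V : ℤ → ℕ) (hV : Adm K V) (g g' : St → ℝ)
    (hg : ∀ z, |g z| ≤ 1) (hg' : ∀ z, |g' z| ≤ 1) (A B : ℝ) (hB : 0 ≤ B) (d : St) (h : ℤ)
    (β : ℝ) (hβ : |((d.2.1 + d.1 : ℤ) : ℝ)| ≤ β)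
    (hG : ∀ z z', |g z - g' z'| ≤
      A + B * blkU L (z - z' - (d.1 - h, d.2.1 + d.1, d.2.2 + d.2.1)))
    (x : ℤ) (z z' : St) :
    |blkT K V x g z - blkT K V (x + h) g' z'| ≤
      (A + B * (2 * β + 4 * (L:ℝ) ^ 3)) + B * (1 + 4 / L) * blkU L (z - z' - d) := by
  have hLr : (1:ℝ) ≤ L := by exact_mod_cast hL
  set e : St := z - z' - d with he
  -- the main bound, given the coupling
  have key : ∀ (v : ℕ) (σ : ℤ), σ = 1 ∨ σ = -1 →
      (v:ℝ) ≤ |(((z.2.1 + z.1) - (z'.2.1 + z'.1) : ℤ) : ℝ)| →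
      ∫ y : ℤ, (A + B * blkU L (e.1 + σ * y, e.2.1 + e.1, e.2.2 + e.2.1)) ∂(nb v) ≤
        (A + B * (2 * β + 4 * (L:ℝ) ^ 3)) + B * (1 + 4 / L) * blkU L e := by
    intro v σ hσ hv
    rw [(blk_quad L A B v σ hσ e (e.2.1 + e.1) (e.2.2 + e.2.1)).2]
    have h1 : (z.2.1 + z.1) - (z'.2.1 + z'.1) = (d.2.1 + d.1) + e.1 + e.2.1 := by
      rw [he]
      simp only [Prod.fst_sub, Prod.snd_sub]
      ring
    have h2 : (v:ℝ) ≤ β + |(e.1:ℝ)| + |(e.2.1:ℝ)| := by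
      rw [h1] at hv
      push_cast at hv hβ
      have h3 := abs_add_le ((d.2.1:ℝ) + d.1 + e.1) (e.2.1:ℝ)
      have h4 := abs_add_le ((d.2.1:ℝ) + d.1) (e.1:ℝ)
      linarith
    have h3 := blk_alg L e.1 e.2.1 e.2.2 v β hLr h2
    have h4 := mul_le_mul_of_nonneg_left h3 hB
    unfold blkU
    push_cast at h4 ⊢
    nlinarith [h4]
  unfold blkT
  rcases le_total (V (z'.2.1 + z'.1)) (V (z.2.1 + z.1)) with hle | hle
  · -- larger variance at `z`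
    obtain ⟨v, hv⟩ : ∃ v, V (z.2.1 + z.1) - K = v + (V (z'.2.1 + z'.1) - K) := by
      refine ⟨V (z.2.1 + z.1) - V (z'.2.1 + z'.1), ?_⟩
      have := hV.ge (z'.2.1 + z'.1)
      omega
    have hv' : (v:ℝ) ≤ |(((z.2.1 + z.1) - (z'.2.1 + z'.1) : ℤ) : ℝ)| := by
      have h1 := hV.lip (z.2.1 + z.1) (z'.2.1 + z'.1)
      have h2 : (v : ℤ) = (V (z.2.1 + z.1) : ℤ) - V (z'.2.1 + z'.1) := by
        have := hV.ge (z'.2.1 + z'.1)
        omega
      rw [← h2, abs_of_nonneg (Int.natCast_nonneg v)] at h1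
      rw [← Int.cast_abs]
      exact_mod_cast h1
    rw [hv]
    refine (blk_diff v _ (fun y => g (z.1 + x + y, z.2.1 + z.1, z.2.2 + z.2.1))
      (fun y => g' (z'.1 + (x + h) + y, z'.2.1 + z'.1, z'.2.2 + z'.2.1))
      (fun y => A + B * blkU L (e.1 + 1 * y, e.2.1 + e.1, e.2.2 + e.2.1))
      (fun _ => hg _) (fun _ => hg' _)
      (blk_quad L A B v 1 (Or.inl rfl) e (e.2.1 + e.1) (e.2.2 + e.2.1)).1 ?_).trans
      (key v 1 (Or.inl rfl) hv')
    intro y y'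
    refine (hG _ _).trans (le_of_eq ?_)
    congr 3
    rw [he]
    ext
    · simp only [Prod.fst_sub]; ring
    · simp only [Prod.fst_sub, Prod.snd_sub]; ring
    · simp only [Prod.fst_sub, Prod.snd_sub]; ring
  · -- larger variance at `z'`
    obtain ⟨v, hv⟩ : ∃ v, V (z'.2.1 + z'.1) - K = v + (V (z.2.1 + z.1) - K) := by
      refine ⟨V (z'.2.1 + z'.1) - V (z.2.1 + z.1), ?_⟩
      have := hV.ge (z.2.1 + z.1)
      omega
    have hv' : (v:ℝ) ≤ |(((z.2.1 + z.1) - (z'.2.1 + z'.1) : ℤ) : ℝ)| := by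
      have h1 := hV.lip (z'.2.1 + z'.1) (z.2.1 + z.1)
      have h2 : (v : ℤ) = (V (z'.2.1 + z'.1) : ℤ) - V (z.2.1 + z.1) := by
        have := hV.ge (z.2.1 + z.1)
        omega
      rw [← h2, abs_of_nonneg (Int.natCast_nonneg v), abs_sub_comm] at h1
      rw [← Int.cast_abs]
      exact_mod_cast h1
    rw [hv, abs_sub_comm]
    refine (blk_diff v _
      (fun y => g' (z'.1 + (x + h) + y, z'.2.1 + z'.1, z'.2.2 + z'.2.1))
      (fun y => g (z.1 + x + y, z.2.1 + z.1, z.2.2 + z.2.1))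
      (fun y => A + B * blkU L (e.1 + (-1) * y, e.2.1 + e.1, e.2.2 + e.2.1))
      (fun _ => hg' _) (fun _ => hg _)
      (blk_quad L A B v (-1) (Or.inr rfl) e (e.2.1 + e.1) (e.2.2 + e.2.1)).1 ?_).trans
      (key v (-1) (Or.inr rfl) hv')
    intro y y'
    rw [abs_sub_comm]
    refine (hG _ _).trans (le_of_eq ?_)
    congr 3
    rw [he]
    ext
    · simp only [Prod.fst_sub]; ring
    · simp only [Prod.fst_sub, Prod.snd_sub]; ring
    · simp only [Prod.fst_sub, Prod.snd_sub]; ring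

end Pool.Agent.Helper7.Stuck
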