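import Pool.Agent.Helper7.Stuck.NB1

open MeasureTheory ProbabilityTheory Filter Topology
open scoped NNReal ENNReal

namespace Pool.Agent.Helper7.Stuck

universe u

/-- The box of (rescaled) radius `r` around `z`. -/
def bx (lam r : ℝ) (z : St) : Set St := {z' | dist (sc lam z') (sc lam z) ≤ r}

theorem box_mem_iff {lam r : ℝ} (hlam : 0 < lam) {z z' : St} :
    z' ∈ bx lam r z ↔ |(z'.1 : ℝ) - z.1| ≤ r * lam ^ 2 ∧ |(z'.2.1 : ℝ) - z.2.1| ≤ r * lam ^ 3 ∧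
      |(z'.2.2 : ℝ) - z.2.2| ≤ r * lam ^ 4 := by
  have key : ∀ (a b : ℝ) (k : ℕ), dist (a / lam ^ k) (b / lam ^ k) ≤ r ↔ |a - b| ≤ r * lam ^ k := by
    intro a b k
    rw [Real.dist_eq, ← sub_div, abs_div, abs_of_pos (pow_pos hlam k), div_le_iff₀ (pow_pos hlam k)]
  unfold bx sc
  rw [Set.mem_ofPred_eq, Prod.dist_eq, Prod.dist_eq, max_le_iff, max_le_iff]
  simp only [key]

theorem box_integrable (v : ℕ) (g : ℤ → ℝ) (h0 : ∀ x, 0 ≤ g x) (h1 : ∀ x, g x ≤ 1) :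
    Integrable g (nb v) := by
  refine Integrable.of_bound (C := 1) (Measurable.of_discrete.aestronglyMeasurable) ?_
  refine Filter.Eventually.of_forall (fun x => ?_)
  rw [Real.norm_eq_abs, abs_of_nonneg (h0 x)]
  exact h1 x

theorem box_RvOn_mem (Q : Set St) (V : ℤ → ℕ) (f : St → ℝ) (h : ∀ z, 0 ≤ f z ∧ f z ≤ 1) (z : St) :
    0 ≤ RvOn Q V f z ∧ RvOn Q V f z ≤ 1 := by
  unfold RvOn
  by_cases hz : z ∈ Q
  · rw [Set.indicator_of_mem hz]
    unfold Rv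
    refine ⟨integral_nonneg (fun x => (h _).1), ?_⟩
    have h1 : ∫ x, f (z.1 - x, z.2.1 - z.1, z.2.2 - z.2.1) ∂(nb (V (z.2.1 - z.1))) ≤
        ∫ x, (1:ℝ) ∂(nb (V (z.2.1 - z.1))) := by
      refine integral_mono (box_integrable _ _ (fun x => (h _).1) (fun x => (h _).2))
        (integrable_const _) (fun x => (h _).2)
    simpa using h1
  · rw [Set.indicator_of_notMem hz]
    exact ⟨le_refl 0, zero_le_one⟩

theorem box_iter_mem (Q : Set St) (V : ℤ → ℕ) (f : St → ℝ) (h : ∀ z, 0 ≤ f z ∧ f z ≤ 1) (l : ℕ) :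
    ∀ z : St, 0 ≤ (RvOn Q V)^[l] f z ∧ (RvOn Q V)^[l] f z ≤ 1 := by
  induction l with
  | zero => exact h
  | succ l ih =>
    intro z
    rw [Function.iterate_succ_apply']
    exact box_RvOn_mem Q V _ ih z

theorem box_sq_int (v : ℕ) (a : ℝ) :
    Integrable (fun x : ℤ => (a - x) ^ 2) (nb v) ∧ ∫ x : ℤ, (a - x) ^ 2 ∂(nb v) = a ^ 2 + 2 * v := by
  have h1 := nb_mean v
  have h2 := nb_var v
  have e : (fun x : ℤ => (a - x) ^ 2) = fun x : ℤ => a ^ 2 - 2 * a * x + (x:ℝ) ^ 2 := by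
    funext x
    ring
  have i1 : Integrable (fun x : ℤ => a ^ 2 - 2 * a * (x:ℝ)) (nb v) :=
    (integrable_const _).sub (h1.1.const_mul _)
  rw [e]
  refine ⟨i1.add h2.1, ?_⟩
  rw [integral_add i1 h2.1, integral_sub (integrable_const _) (h1.1.const_mul _),
    integral_const_mul, h1.2, h2.2]
  simp

theorem box_step (D r lam : ℝ) (hD : 1 ≤ D) (hr : 0 < r) (hr1 : r ≤ 1) (hlam : 1 ≤ lam)
    (V : ℤ → ℕ)
    (hV : ∀ m : ℤ, |(m:ℝ)| ≤ (D + 1) * lam ^ 3 → (V m : ℝ) ≤ (D + 1) * lam ^ 3)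
    (z : St) (hz1 : |(z.1:ℝ)| ≤ D * lam ^ 2) (hz2 : |(z.2.1:ℝ)| ≤ D * lam ^ 3)
    (i : ℕ) (hi : (i:ℝ) * (D + r) ≤ r * lam) (l : ℕ) :
    ∀ z' : St, l ≤ i → |(z'.2.1:ℝ) - z.2.1| ≤ ((i:ℝ) - l) * (D + r) * lam ^ 2 →
      |(z'.2.2:ℝ) - z.2.2| ≤ ((i:ℝ) - l) * (D + r) * lam ^ 3 →
      1 - (RvOn (bx lam r z) V)^[l] ((bx lam r z).indicator 1) z' ≤
        (((z'.1:ℝ) - z.1) ^ 2 + 2 * (D + 1) * lam ^ 3 * l) / (r ^ 2 * lam ^ 4) := by
  have hlam0 : 0 < lam := by linarith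
  have hden : 0 < r ^ 2 * lam ^ 4 := by positivity
  -- the case where the first coordinate is far
  have hfar : ∀ (z' : St) (l : ℕ), ¬ |(z'.1 : ℝ) - z.1| ≤ r * lam ^ 2 →
      1 ≤ (((z'.1:ℝ) - z.1) ^ 2 + 2 * (D + 1) * lam ^ 3 * l) / (r ^ 2 * lam ^ 4) := by
    intro z' l h
    rw [le_div_iff₀ hden, one_mul]
    have h1 : (r * lam ^ 2) ^ 2 ≤ |(z'.1 : ℝ) - z.1| ^ 2 :=
      pow_le_pow_left₀ (by positivity) (not_le.1 h).le 2
    rw [sq_abs] at h1
    have h2 : 0 ≤ 2 * (D + 1) * lam ^ 3 * l := by positivity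
    nlinarith [h1, h2]
  -- membership in the box
  have hbox : ∀ (z' : St) (l : ℕ), l ≤ i → |(z'.1 : ℝ) - z.1| ≤ r * lam ^ 2 →
      |(z'.2.1:ℝ) - z.2.1| ≤ ((i:ℝ) - l) * (D + r) * lam ^ 2 →
      |(z'.2.2:ℝ) - z.2.2| ≤ ((i:ℝ) - l) * (D + r) * lam ^ 3 → z' ∈ bx lam r z := by
    intro z' l hl h1 h2 h3
    rw [box_mem_iff hlam0]
    have hl' : ((i:ℝ) - l) * (D + r) ≤ r * lam := by
      refine le_trans (mul_le_mul_of_nonneg_right ?_ (by linarith)) hi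
      linarith [Nat.cast_nonneg (α := ℝ) l]
    refine ⟨h1, h2.trans ?_, h3.trans ?_⟩
    · calc ((i:ℝ) - l) * (D + r) * lam ^ 2 ≤ (r * lam) * lam ^ 2 :=
            mul_le_mul_of_nonneg_right hl' (by positivity)
        _ = r * lam ^ 3 := by ring
    · calc ((i:ℝ) - l) * (D + r) * lam ^ 3 ≤ (r * lam) * lam ^ 3 :=
            mul_le_mul_of_nonneg_right hl' (by positivity)
        _ = r * lam ^ 4 := by ring
  have hind : ∀ z' : St, 0 ≤ (bx lam r z).indicator (1 : St → ℝ) z' ∧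
      (bx lam r z).indicator (1 : St → ℝ) z' ≤ 1 := by
    intro z'
    by_cases h : z' ∈ bx lam r z
    · rw [Set.indicator_of_mem h]
      simp
    · rw [Set.indicator_of_notMem h]
      simp
  induction l with
  | zero =>
    intro z' hl h2 h3
    rw [Function.iterate_zero, id_eq]
    by_cases h1 : |(z'.1 : ℝ) - z.1| ≤ r * lam ^ 2
    · rw [Set.indicator_of_mem (hbox z' 0 hl h1 h2 h3)]
      rw [Pi.one_apply, sub_self]
      positivity
    · have := hfar z' 0 h1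
      linarith [(hind z').1]
  | succ l ih =>
    intro z' hl h2 h3
    have hmem := box_iter_mem (bx lam r z) V _ hind l
    by_cases h1 : |(z'.1 : ℝ) - z.1| ≤ r * lam ^ 2
    · have hz' := hbox z' (l+1) hl h1 h2 h3
      have hz'' := (box_mem_iff hlam0).1 hz'
      rw [Function.iterate_succ_apply']
      unfold RvOn at hmem ih ⊢
      rw [Set.indicator_of_mem hz']
      unfold Rv at hmem ih ⊢
      set F := (fun f : St → ℝ => (bx lam r z).indicator fun z =>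
        ∫ x, f (z.1 - x, z.2.1 - z.1, z.2.2 - z.2.1) ∂(nb (V (z.2.1 - z.1))))^[l]
          ((bx lam r z).indicator 1) with hF
      have hint : Integrable (fun x => F (z'.1 - x, z'.2.1 - z'.1, z'.2.2 - z'.2.1))
          (nb (V (z'.2.1 - z'.1))) := box_integrable _ _ (fun x => (hmem _).1) (fun x => (hmem _).2)
      have hsq := box_sq_int (V (z'.2.1 - z'.1)) ((z'.1:ℝ) - z.1)
      have hδ' : |(z'.1:ℝ)| ≤ (D + r) * lam ^ 2 := by
        have : |(z'.1:ℝ)| ≤ |(z'.1:ℝ) - z.1| + |(z.1:ℝ)| := by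
          have := abs_add_le ((z'.1:ℝ) - z.1) z.1
          simpa using this
        nlinarith
      have hm' : |(z'.2.1:ℝ)| ≤ (D + r) * lam ^ 3 := by
        have : |(z'.2.1:ℝ)| ≤ |(z'.2.1:ℝ) - z.2.1| + |(z.2.1:ℝ)| := by
          have := abs_add_le ((z'.2.1:ℝ) - z.2.1) z.2.1
          simpa using this
        nlinarith [hz''.2.1]
      have hm'' : |((z'.2.1 - z'.1 : ℤ):ℝ) - z.2.1| ≤ ((i:ℝ) - l) * (D + r) * lam ^ 2 := by
        push_cast
        have : |(z'.2.1:ℝ) - z'.1 - z.2.1| ≤ |(z'.2.1:ℝ) - z.2.1| + |(z'.1:ℝ)| := by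
          have := abs_sub ((z'.2.1:ℝ) - z.2.1) z'.1
          have e : (z'.2.1:ℝ) - z'.1 - z.2.1 = ((z'.2.1:ℝ) - z.2.1) - z'.1 := by ring
          rw [e]
          exact this
        push_cast at h2
        nlinarith
      have hs'' : |((z'.2.2 - z'.2.1 : ℤ):ℝ) - z.2.2| ≤ ((i:ℝ) - l) * (D + r) * lam ^ 3 := by
        push_cast
        have : |(z'.2.2:ℝ) - z'.2.1 - z.2.2| ≤ |(z'.2.2:ℝ) - z.2.2| + |(z'.2.1:ℝ)| := by
          have := abs_sub ((z'.2.2:ℝ) - z.2.2) z'.2.1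
          have e : (z'.2.2:ℝ) - z'.2.1 - z.2.2 = ((z'.2.2:ℝ) - z.2.2) - z'.2.1 := by ring
          rw [e]
          exact this
        push_cast at h3
        nlinarith
      have hVle : (V (z'.2.1 - z'.1) : ℝ) ≤ (D + 1) * lam ^ 3 := by
        refine hV _ ?_
        have h4 : |((z'.2.1 - z'.1 : ℤ):ℝ)| ≤ |((z'.2.1 - z'.1 : ℤ):ℝ) - z.2.1| + |(z.2.1:ℝ)| := by
          have := abs_add_le (((z'.2.1 - z'.1 : ℤ):ℝ) - z.2.1) z.2.1
          simpa using this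
        have h5 : ((i:ℝ) - l) * (D + r) ≤ r * lam := by
          refine le_trans (mul_le_mul_of_nonneg_right ?_ (by linarith)) hi
          linarith [Nat.cast_nonneg (α := ℝ) l]
        have h6 : ((i:ℝ) - l) * (D + r) * lam ^ 2 ≤ r * lam * lam ^ 2 :=
          mul_le_mul_of_nonneg_right h5 (by positivity)
        have h7 : r * lam * lam ^ 2 ≤ 1 * lam ^ 3 := by
          have : r * lam * lam ^ 2 = r * lam ^ 3 := by ring
          rw [this]
          exact mul_le_mul_of_nonneg_right hr1 (by positivity)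
        linarith
      have hstep : ∀ x : ℤ, 1 - F (z'.1 - x, z'.2.1 - z'.1, z'.2.2 - z'.2.1) ≤
          ((((z'.1:ℝ) - z.1) - x) ^ 2 + 2 * (D + 1) * lam ^ 3 * l) / (r ^ 2 * lam ^ 4) := by
        intro x
        have := ih (z'.1 - x, z'.2.1 - z'.1, z'.2.2 - z'.2.1) (by omega) hm'' hs''
        have e : (((z'.1 - x : ℤ) : ℝ) - z.1) = ((z'.1:ℝ) - z.1) - x := by
          push_cast
          ring
        simp only [e] at this
        exact this
      have hI1 : 1 - ∫ x, F (z'.1 - x, z'.2.1 - z'.1, z'.2.2 - z'.2.1) ∂(nb (V (z'.2.1 - z'.1)))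
          = ∫ x, (1 - F (z'.1 - x, z'.2.1 - z'.1, z'.2.2 - z'.2.1)) ∂(nb (V (z'.2.1 - z'.1))) := by
        rw [integral_sub (integrable_const _) hint]
        simp
      have hI2 : ∫ x : ℤ, ((((z'.1:ℝ) - z.1) - x) ^ 2 + 2 * (D + 1) * lam ^ 3 * l) /
          (r ^ 2 * lam ^ 4) ∂(nb (V (z'.2.1 - z'.1))) =
          (((z'.1:ℝ) - z.1) ^ 2 + 2 * (V (z'.2.1 - z'.1)) + 2 * (D + 1) * lam ^ 3 * l) /
          (r ^ 2 * lam ^ 4) := by
        rw [integral_div, integral_add hsq.1 (integrable_const _), hsq.2]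
        simp
      rw [hI1]
      have hmono := integral_mono (μ := nb (V (z'.2.1 - z'.1)))
        (f := fun x => 1 - F (z'.1 - x, z'.2.1 - z'.1, z'.2.2 - z'.2.1))
        (g := fun x : ℤ => ((((z'.1:ℝ) - z.1) - x) ^ 2 + 2 * (D + 1) * lam ^ 3 * l) /
          (r ^ 2 * lam ^ 4)) ((integrable_const _).sub hint)
          ((hsq.1.add (integrable_const _)).div_const _) hstep
      refine hmono.trans ?_
      rw [hI2]
      refine div_le_div_of_nonneg_right ?_ hden.le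
      push_cast
      nlinarith
    · have := hfar z' (l+1) h1
      linarith [(box_iter_mem (bx lam r z) V _ hind (l+1) z').1]

theorem box_exit (D r : ℝ) (hD : 1 ≤ D) (hr : 0 < r) (hr1 : r ≤ 1) :
    ∃ C τ0 : ℝ, 0 < C ∧ 0 < τ0 ∧ ∀ lam : ℝ, 1 ≤ lam → ∀ V : ℤ → ℕ,
    (∀ m : ℤ, |(m:ℝ)| ≤ (D + 1) * lam ^ 3 → (V m : ℝ) ≤ (D + 1) * lam ^ 3) →
    ∀ z : St, |(z.1:ℝ)| ≤ D * lam ^ 2 → |(z.2.1:ℝ)| ≤ D * lam ^ 3 →
    ∀ (i : ℕ) (τ : ℝ), τ ≤ τ0 → (i:ℝ) ≤ τ * lam →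
    1 - C * τ ≤ (RvOn (bx lam r z) V)^[i] ((bx lam r z).indicator 1) z := by
  refine ⟨2 * (D + 1) / r ^ 2, r / (D + r), by positivity, by positivity, ?_⟩
  intro lam hlam V hV z hz1 hz2 i τ hτ hi
  have hlam0 : 0 < lam := by linarith
  have hDr : 0 < D + r := by linarith
  have hi' : (i:ℝ) * (D + r) ≤ r * lam := by
    rw [le_div_iff₀ hDr] at hτ
    calc (i:ℝ) * (D + r) ≤ (τ * lam) * (D + r) := mul_le_mul_of_nonneg_right hi hDr.le
      _ = (τ * (D + r)) * lam := by ring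
      _ ≤ r * lam := mul_le_mul_of_nonneg_right hτ hlam0.le
  have h := box_step D r lam hD hr hr1 hlam V hV z hz1 hz2 i hi' i z le_rfl (by simp) (by simp)
  have h2 : (((z.1:ℝ) - z.1) ^ 2 + 2 * (D + 1) * lam ^ 3 * i) / (r ^ 2 * lam ^ 4) ≤
      2 * (D + 1) / r ^ 2 * τ := by
    rw [div_le_iff₀ (by positivity)]
    have e : 2 * (D + 1) / r ^ 2 * τ * (r ^ 2 * lam ^ 4) = 2 * (D + 1) * lam ^ 3 * (τ * lam) := by
      field_simp
    rw [e, sub_self]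
    have := mul_le_mul_of_nonneg_left hi (by positivity : 0 ≤ 2 * (D + 1) * lam ^ 3)
    linarith
  linarith

end Pool.Agent.Helper7.Stuck
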