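import Pool.Agent.Helper7.Stuck.NB1

open MeasureTheory ProbabilityTheory Filter Topology
open scoped NNReal ENNReal

namespace Pool.Agent.Helper7.Stuck

universe u

/-! ### the central limit theorem for `nb` -/

theorem quant_nb_one : nb 1 = gam := by
  show Measure.dirac 0 ∗ gam = gam
  exact Measure.dirac_zero_conv gam

theorem quant_isProb_gam : IsProbabilityMeasure gam := by
  rw [← quant_nb_one]
  infer_instance

/-- division by `√2` -/
noncomputable def quantL : ℤ →+ ℝ := (AddMonoidHom.mulRight (√2)⁻¹).comp (Int.castAddHom ℝ)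

theorem quantL_apply (x : ℤ) : quantL x = x * (√2)⁻¹ := rfl

theorem quant_charFun (n : ℕ) (t : ℝ) :
    charFun ((nb n).map quantL) t = charFun (gam.map quantL) t ^ n := by
  have := quant_isProb_gam
  induction n with
  | zero =>
    rw [pow_zero]
    show charFun ((Measure.dirac 0).map quantL) t = 1
    rw [Measure.map_dirac, map_zero, charFun_dirac]
    simp
  | succ n ih =>
    show charFun ((nb n ∗ gam).map quantL) t = _
    rw [Measure.map_conv_addMonoidHom _ Measurable.of_discrete]
    have : IsProbabilityMeasure ((nb n).map quantL) :=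
      Measure.isProbabilityMeasure_map Measurable.of_discrete.aemeasurable
    have : IsProbabilityMeasure (gam.map quantL) :=
      Measure.isProbabilityMeasure_map Measurable.of_discrete.aemeasurable
    rw [charFun_conv, ih, pow_succ]

theorem quant_clt_charFun (t : ℝ) :
    Tendsto (fun n : ℕ => charFun ((nb n).map (fun x : ℤ => (√n)⁻¹ * quantL x)) t) atTop
      (𝓝 (charFun (gaussianReal 0 1) t)) := by
  have := quant_isProb_gam
  have h0 : gam[fun x : ℤ => quantL x] = 0 := by
    have := (nb_mean 1).2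
    rw [quant_nb_one] at this
    simp only [quantL_apply]
    rw [integral_mul_const, this, zero_mul]
  have h1 : gam[(fun x : ℤ => quantL x) ^ 2] = 1 := by
    have := (nb_var 1).2
    rw [quant_nb_one] at this
    simp only [Pi.pow_apply, quantL_apply, mul_pow]
    rw [integral_mul_const, this, inv_pow, Real.sq_sqrt (by norm_num)]
    norm_num
  have h := tendsto_charFun_inv_sqrt_mul_pow (P := gam) (X := fun x : ℤ => quantL x)
    Measurable.of_discrete.aemeasurable h0 h1 t
  have h2 : charFun (gaussianReal 0 1) t = Complex.exp (- t ^ 2 / 2) := by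
    rw [charFun_gaussianReal]
    simp [neg_div]
  rw [h2]
  refine h.congr fun n => ?_
  rw [charFun_map_mul_comp Measurable.of_discrete.aemeasurable]
  exact (quant_charFun n _).symm

theorem quant_clt (y : ℝ) :
    Tendsto (fun n : ℕ => (nb n).real (Set.Iic ⌊√(2 * n) * y⌋)) atTop
      (𝓝 ((gaussianReal 0 1).real (Set.Iic y))) := by
  have hp : ∀ n : ℕ, IsProbabilityMeasure ((nb n).map (fun x : ℤ => (√n)⁻¹ * quantL x)) :=
    fun n => Measure.isProbabilityMeasure_map Measurable.of_discrete.aemeasurable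
  let μs : ℕ → ProbabilityMeasure ℝ := fun n => ⟨_, hp n⟩
  let μ : ProbabilityMeasure ℝ := ⟨gaussianReal 0 1, inferInstance⟩
  have hlim : Tendsto μs atTop (𝓝 μ) :=
    ProbabilityMeasure.tendsto_iff_tendsto_charFun.2 fun t => quant_clt_charFun t
  have hfr : (μ : Measure ℝ) (frontier (Set.Iic y)) = 0 := by
    rw [frontier_Iic]
    have : NullSingletonClass (gaussianReal 0 1) := nullSingletonClass_gaussianReal one_ne_zero
    show gaussianReal 0 1 {y} = 0
    exact measure_singleton y
  have h1 := ProbabilityMeasure.tendsto_measure_of_null_frontier_of_tendsto' hlim hfr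
  have h2 := (ENNReal.tendsto_toReal (measure_ne_top (μ : Measure ℝ) _)).comp h1
  refine h2.congr' ?_
  filter_upwards [eventually_ge_atTop 1] with n hn
  have hn' : (0:ℝ) < n := by exact_mod_cast hn
  show ((nb n).map (fun x : ℤ => (√n)⁻¹ * quantL x)).real (Set.Iic y) = _
  rw [map_measureReal_apply Measurable.of_discrete measurableSet_Iic]
  congr 1
  ext x
  simp only [Set.mem_preimage, Set.mem_Iic, quantL_apply, Int.le_floor]
  rw [Real.sqrt_mul (by norm_num)]
  have hs2 : 0 < √(2:ℝ) := by positivity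
  have hsn : 0 < √(n:ℝ) := Real.sqrt_pos.2 hn'
  constructor
  · intro h
    calc (x:ℝ) = √2 * √n * ((√n)⁻¹ * (x * (√2)⁻¹)) := by field_simp
      _ ≤ _ := by gcongr
  · intro h
    calc (√n)⁻¹ * (x * (√2)⁻¹) ≤ (√n)⁻¹ * ((√2 * √n * y) * (√2)⁻¹) := by gcongr
      _ = y := by field_simp

/-! ### the quantile transform -/

/-- the distribution function of the standard Gaussian law -/
noncomputable def quantPhi (x : ℝ) : ℝ := (gaussianReal 0 1).real (Set.Iic x)

theorem quantPhi_sub {x y : ℝ} (h : x ≤ y) :
    quantPhi y - quantPhi x = (gaussianReal 0 1).real (Set.Ioc x y) := by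
  have h1 : Set.Ioc x y = Set.Iic y \ Set.Iic x := by
    ext z
    simp only [Set.mem_Ioc, Set.mem_sdiff, Set.mem_Iic, not_le]
    exact and_comm
  unfold quantPhi
  rw [h1, measureReal_sdiff (Set.Iic_subset_Iic.2 h) measurableSet_Iic]

theorem quantPhi_strictMono : StrictMono quantPhi := by
  intro x y h
  have h1 := quantPhi_sub h.le
  have h2 : 0 < (gaussianReal 0 1).real (Set.Ioc x y) := by
    rw [measureReal_def, ENNReal.toReal_pos_iff]
    refine ⟨?_, measure_lt_top _ _⟩
    rw [pos_iff_ne_zero]
    intro h3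
    have h4 := gaussianReal_absolutelyContinuous' 0 one_ne_zero h3
    rw [Real.volume_Ioc, ENNReal.ofReal_eq_zero] at h4
    linarith
  linarith

theorem quantPhi_pos (x : ℝ) : 0 < quantPhi x :=
  lt_of_le_of_lt measureReal_nonneg (quantPhi_strictMono (sub_one_lt x))

theorem quantPhi_lt_one (x : ℝ) : quantPhi x < 1 :=
  lt_of_lt_of_le (quantPhi_strictMono (lt_add_one x)) measureReal_le_one

theorem quantPhi_measurable : Measurable quantPhi := quantPhi_strictMono.monotone.measurable

theorem quantPhi_lip {x y : ℝ} (h : x ≤ y) : quantPhi y - quantPhi x ≤ y - x := by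
  rw [quantPhi_sub h]
  have h1 : gaussianReal 0 1 (Set.Ioc x y) ≤ ENNReal.ofReal (y - x) := by
    rw [gaussianReal_apply 0 one_ne_zero]
    calc ∫⁻ z in Set.Ioc x y, gaussianPDF 0 1 z ≤ ∫⁻ z in Set.Ioc x y, 1 := by
          refine lintegral_mono fun z => ?_
          unfold gaussianPDF
          rw [ENNReal.ofReal_le_one]
          unfold gaussianPDFReal
          have h2 : Real.exp (-(z - 0) ^ 2 / (2 * ((1:ℝ≥0):ℝ))) ≤ 1 := by
            rw [Real.exp_le_one_iff]
            have : (0:ℝ) ≤ (z - 0) ^ 2 := sq_nonneg _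
            simp only [NNReal.coe_one, mul_one]
            linarith
          have h3 : (√(2 * Real.pi * ((1:ℝ≥0):ℝ)))⁻¹ ≤ 1 := by
            apply inv_le_one_of_one_le₀
            rw [Real.one_le_sqrt]
            simp only [NNReal.coe_one, mul_one]
            have := Real.pi_gt_three
            linarith
          calc _ ≤ (1:ℝ) * 1 := by gcongr
            _ = 1 := one_mul 1
      _ = ENNReal.ofReal (y - x) := by simp
  rw [measureReal_def]
  calc _ ≤ (ENNReal.ofReal (y - x)).toReal := ENNReal.toReal_mono ENNReal.ofReal_ne_top h1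
    _ = y - x := ENNReal.toReal_ofReal (by linarith)

theorem quantPhi_continuous : Continuous quantPhi := by
  have : LipschitzWith 1 quantPhi := by
    apply LipschitzWith.of_le_add
    intro x y
    rcases le_total x y with h | h
    · have := quantPhi_strictMono.monotone h
      have := dist_nonneg (x := x) (y := y)
      linarith
    · have := quantPhi_lip h
      rw [Real.dist_eq, abs_of_nonneg (by linarith)]
      linarith
  exact this.continuous

theorem quantPhi_atBot : Tendsto quantPhi atBot (𝓝 0) := by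
  have := tendsto_cdf_atBot (gaussianReal 0 1)
  refine this.congr fun x => ?_
  rw [cdf_eq_real]
  rfl

theorem quantPhi_atTop : Tendsto quantPhi atTop (𝓝 1) := by
  have := tendsto_cdf_atTop (gaussianReal 0 1)
  refine this.congr fun x => ?_
  rw [cdf_eq_real]
  rfl

theorem quantPhi_surj {t : ℝ} (h0 : 0 < t) (h1 : t < 1) : ∃ y, quantPhi y = t := by
  obtain ⟨a, ha⟩ := (quantPhi_atBot.eventually (gt_mem_nhds h0)).exists
  obtain ⟨b, hb⟩ := (quantPhi_atTop.eventually (lt_mem_nhds h1)).exists
  exact mem_range_of_exists_le_of_exists_ge quantPhi_continuous ⟨a, ha.le⟩ ⟨b, hb.le⟩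

/-- `quantPhi` of a Gaussian variable is uniform -/
theorem quantPhi_unif {t : ℝ} (h0 : 0 ≤ t) (h1 : t ≤ 1) :
    (gaussianReal 0 1).real {x | quantPhi x ≤ t} = t := by
  rcases h0.eq_or_lt with rfl | h0
  · have : {x | quantPhi x ≤ 0} = ∅ := by
      ext x
      simp [quantPhi_pos x]
    rw [this, measureReal_empty]
  rcases h1.eq_or_lt with rfl | h1
  · have : {x | quantPhi x ≤ 1} = Set.univ := by
      ext x
      simp [(quantPhi_lt_one x).le]
    rw [this, probReal_univ]
  obtain ⟨y, rfl⟩ := quantPhi_surj h0 h1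
  have : {x | quantPhi x ≤ quantPhi y} = Set.Iic y := by
    ext x
    exact quantPhi_strictMono.le_iff_le
  rw [this]
  rfl

theorem quant_Iic_cdf (v : ℕ) (k : ℤ) :
    (nb v).real (Set.Iic k) = cdf ((nb v).map (fun x : ℤ => (x : ℝ))) k := by
  have : IsProbabilityMeasure ((nb v).map (fun x : ℤ => (x : ℝ))) :=
    Measure.isProbabilityMeasure_map Measurable.of_discrete.aemeasurable
  rw [cdf_eq_real, map_measureReal_apply Measurable.of_discrete measurableSet_Iic]
  congr 1
  ext x
  simp

theorem quant_Iic_atTop (v : ℕ) :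
    Tendsto (fun k : ℤ => (nb v).real (Set.Iic k)) atTop (𝓝 1) := by
  simp only [quant_Iic_cdf]
  exact (tendsto_cdf_atTop _).comp tendsto_intCast_atTop_atTop

theorem quant_Iic_atBot (v : ℕ) :
    Tendsto (fun k : ℤ => (nb v).real (Set.Iic k)) atBot (𝓝 0) := by
  simp only [quant_Iic_cdf]
  exact (tendsto_cdf_atBot _).comp (tendsto_intCast_atBot_iff.2 tendsto_id)

/-- the quantile transform -/
noncomputable def quantQ (v : ℕ) (x : ℝ) : ℤ := sInf {k : ℤ | quantPhi x ≤ (nb v).real (Set.Iic k)}

theorem quantQ_le_iff (v : ℕ) (x : ℝ) (k : ℤ) :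
    quantQ v x ≤ k ↔ quantPhi x ≤ (nb v).real (Set.Iic k) := by
  have hmono : Monotone (fun k : ℤ => (nb v).real (Set.Iic k)) := by
    intro a b hab
    exact measureReal_mono (Set.Iic_subset_Iic.2 hab)
  have hne : {k : ℤ | quantPhi x ≤ (nb v).real (Set.Iic k)}.Nonempty := by
    obtain ⟨k, hk⟩ := ((quant_Iic_atTop v).eventually (lt_mem_nhds (quantPhi_lt_one x))).exists
    exact ⟨k, hk.le⟩
  have hbd : BddBelow {k : ℤ | quantPhi x ≤ (nb v).real (Set.Iic k)} := by
    obtain ⟨k, hk⟩ := ((quant_Iic_atBot v).eventually (gt_mem_nhds (quantPhi_pos x))).exists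
    refine ⟨k, fun m hm => ?_⟩
    by_contra hcon
    push Not at hcon
    have h1 := hmono hcon.le
    have h2 : quantPhi x ≤ (nb v).real (Set.Iic m) := hm
    simp only at h1
    linarith
  constructor
  · intro h
    exact (Int.csInf_mem hne hbd : quantPhi x ≤ (nb v).real (Set.Iic (quantQ v x))).trans
      (hmono h)
  · intro h
    exact csInf_le hbd h

theorem quantQ_measurable (v : ℕ) : Measurable (quantQ v) := by
  apply measurable_of_Iic
  intro k
  have : quantQ v ⁻¹' Set.Iic k = quantPhi ⁻¹' Set.Iic ((nb v).real (Set.Iic k)) := by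
    ext x
    exact quantQ_le_iff v x k
  rw [this]
  exact quantPhi_measurable measurableSet_Iic

theorem quantQ_law (v : ℕ) : (gaussianReal 0 1).map (quantQ v) = nb v := by
  have : IsProbabilityMeasure ((gaussianReal 0 1).map (quantQ v)) :=
    Measure.isProbabilityMeasure_map (quantQ_measurable v).aemeasurable
  apply Measure.ext_of_Iic
  intro k
  have h1 : ((gaussianReal 0 1).map (quantQ v)).real (Set.Iic k) = (nb v).real (Set.Iic k) := by
    rw [map_measureReal_apply (quantQ_measurable v) measurableSet_Iic]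
    have : quantQ v ⁻¹' Set.Iic k = {x | quantPhi x ≤ (nb v).real (Set.Iic k)} := by
      ext x
      exact quantQ_le_iff v x k
    rw [this]
    exact quantPhi_unif measureReal_nonneg measureReal_le_one
  rw [measureReal_def, measureReal_def] at h1
  exact (ENNReal.toReal_eq_toReal_iff' (measure_ne_top _ _) (measure_ne_top _ _)).1 h1

/-- pointwise convergence of the quantile transform -/
theorem quantQ_tendsto (x : ℝ) :
    Tendsto (fun n : ℕ => (quantQ n x : ℝ) / √(2 * n)) atTop (𝓝 x) := by
  rw [tendsto_order]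
  have hpos : ∀ᶠ n : ℕ in atTop, 0 < √(2 * (n:ℝ)) := by
    filter_upwards [eventually_ge_atTop 1] with n hn
    have : (0:ℝ) < n := by exact_mod_cast hn
    positivity
  constructor
  · intro y hy
    obtain ⟨y', hy1, hy2⟩ := exists_between hy
    have h1 := quant_clt y'
    have h2 : (gaussianReal 0 1).real (Set.Iic y') < quantPhi x := quantPhi_strictMono hy2
    filter_upwards [h1.eventually (gt_mem_nhds h2), hpos] with n hn hp
    have h3 : ¬ quantQ n x ≤ ⌊√(2 * n) * y'⌋ := by
      rw [quantQ_le_iff]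
      exact not_le.2 hn
    rw [Int.le_floor, not_le] at h3
    rw [lt_div_iff₀ hp]
    calc y * √(2 * n) < y' * √(2 * n) := by gcongr
      _ = √(2 * n) * y' := mul_comm _ _
      _ < _ := h3
  · intro y hy
    obtain ⟨y', hy1, hy2⟩ := exists_between hy
    have h1 := quant_clt y'
    have h2 : quantPhi x < (gaussianReal 0 1).real (Set.Iic y') := quantPhi_strictMono hy1
    filter_upwards [h1.eventually (lt_mem_nhds h2), hpos] with n hn hp
    have h3 : quantQ n x ≤ ⌊√(2 * n) * y'⌋ := by
      rw [quantQ_le_iff]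
      exact hn.le
    rw [Int.le_floor] at h3
    rw [div_lt_iff₀ hp]
    calc _ ≤ √(2 * n) * y' := h3
      _ = y' * √(2 * n) := mul_comm _ _
      _ < y * √(2 * n) := by gcongr

/-! ### the error in `L²` -/

theorem quant_integrable_sq (v : ℕ) :
    Integrable (fun x : ℝ => (quantQ v x : ℝ) ^ 2) (gaussianReal 0 1) := by
  have h := (nb_var v).1
  rw [← quantQ_law v, integrable_map_measure (by fun_prop)
    (quantQ_measurable v).aemeasurable] at h
  exact h

theorem quant_integral_sq (v : ℕ) :
    ∫ x, (quantQ v x : ℝ) ^ 2 ∂(gaussianReal 0 1) = 2 * v := by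
  have h := (nb_var v).2
  rw [← quantQ_law v, integral_map (quantQ_measurable v).aemeasurable (by fun_prop)] at h
  exact h

theorem quant_memLp (v : ℕ) : MemLp (fun x : ℝ => (quantQ v x : ℝ)) 2 (gaussianReal 0 1) := by
  have hm : Measurable (fun x : ℝ => (quantQ v x : ℝ)) :=
    Measurable.of_discrete.comp (quantQ_measurable v)
  rw [memLp_two_iff_integrable_sq hm.aestronglyMeasurable]
  exact quant_integrable_sq v

theorem quant_memLp_id : MemLp (fun x : ℝ => x) 2 (gaussianReal 0 1) := memLp_id_gaussianReal 2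

theorem quant_id_sq : ∫ x, x ^ 2 ∂(gaussianReal 0 1) = 1 := by
  have h := variance_of_integral_eq_zero (μ := gaussianReal 0 1) (X := id)
    measurable_id.aemeasurable (by simp [integral_id_gaussianReal])
  rw [variance_id_gaussianReal] at h
  simpa using h.symm

/-- the normalised quantile transform -/
noncomputable def quantX (v : ℕ) (x : ℝ) : ℝ := (quantQ v x : ℝ) / √(2 * v)

theorem quantX_memLp (v : ℕ) : MemLp (quantX v) 2 (gaussianReal 0 1) := by
  have := (quant_memLp v).mul_const (√(2 * v))⁻¹
  exact this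

theorem quantX_measurable (v : ℕ) : Measurable (quantX v) := by
  have hm : Measurable (fun x : ℝ => (quantQ v x : ℝ)) :=
    Measurable.of_discrete.comp (quantQ_measurable v)
  exact hm.div_const _

theorem quantX_sq {v : ℕ} (hv : 1 ≤ v) : ∫ x, quantX v x ^ 2 ∂(gaussianReal 0 1) = 1 := by
  have hv' : (0:ℝ) < v := by exact_mod_cast hv
  unfold quantX
  simp only [div_pow]
  rw [integral_div, quant_integral_sq, Real.sq_sqrt (by positivity), div_self (by positivity)]

theorem quantX_paral {v : ℕ} (hv : 1 ≤ v) :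
    ∫ x, (quantX v x + x) ^ 2 ∂(gaussianReal 0 1) + ∫ x, (quantX v x - x) ^ 2 ∂(gaussianReal 0 1)
      = 4 := by
  have h1 : Integrable (fun x => (quantX v x + x) ^ 2) (gaussianReal 0 1) :=
    ((quantX_memLp v).add quant_memLp_id).integrable_sq
  have h2 : Integrable (fun x => (quantX v x - x) ^ 2) (gaussianReal 0 1) :=
    ((quantX_memLp v).sub quant_memLp_id).integrable_sq
  rw [← integral_add h1 h2]
  have h3 : ∀ x : ℝ, (quantX v x + x) ^ 2 + (quantX v x - x) ^ 2
      = 2 * quantX v x ^ 2 + 2 * x ^ 2 := by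
    intro x
    ring
  calc _ = ∫ x, (2 * quantX v x ^ 2 + 2 * x ^ 2) ∂(gaussianReal 0 1) :=
        integral_congr_ae (ae_of_all _ h3)
    _ = 4 := by
        rw [integral_add ((quantX_memLp v).integrable_sq.const_mul 2)
          (quant_memLp_id.integrable_sq.const_mul 2), integral_const_mul, integral_const_mul,
          quantX_sq hv, quant_id_sq]
        norm_num

theorem quantX_tendsto :
    Tendsto (fun n : ℕ => ∫ x, (quantX n x - x) ^ 2 ∂(gaussianReal 0 1)) atTop (𝓝 0) := by
  have hfatou := lintegral_liminf_le (μ := gaussianReal 0 1) (u := atTop)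
    (f := fun (n : ℕ) (x : ℝ) => ENNReal.ofReal ((quantX n x + x) ^ 2))
    (fun n => (((quantX_measurable n).add measurable_id).pow_const 2).ennreal_ofReal)
  have h1 : ∀ x : ℝ, liminf (fun n : ℕ => ENNReal.ofReal ((quantX n x + x) ^ 2)) atTop
      = ENNReal.ofReal (4 * x ^ 2) := by
    intro x
    apply Tendsto.liminf_eq
    apply ENNReal.tendsto_ofReal
    have h2 : Tendsto (fun n : ℕ => quantX n x) atTop (𝓝 x) := quantQ_tendsto x
    have h3 := (h2.add_const x).pow 2
    have h4 : (x + x) ^ 2 = 4 * x ^ 2 := by ring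
    rwa [h4] at h3
  simp only [h1] at hfatou
  have h2 : ∫⁻ x, ENNReal.ofReal (4 * x ^ 2) ∂(gaussianReal 0 1) = ENNReal.ofReal 4 := by
    rw [← ofReal_integral_eq_lintegral_ofReal (quant_memLp_id.integrable_sq.const_mul 4)
      (ae_of_all _ fun x => by positivity), integral_const_mul, quant_id_sq, mul_one]
  have h3 : ∀ n : ℕ, ∫⁻ x, ENNReal.ofReal ((quantX n x + x) ^ 2) ∂(gaussianReal 0 1)
      = ENNReal.ofReal (∫ x, (quantX n x + x) ^ 2 ∂(gaussianReal 0 1)) := by
    intro n
    have h1 : Integrable (fun x => (quantX n x + x) ^ 2) (gaussianReal 0 1) :=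
      ((quantX_memLp n).add quant_memLp_id).integrable_sq
    rw [← ofReal_integral_eq_lintegral_ofReal h1 (ae_of_all _ fun x => sq_nonneg _)]
  rw [h2] at hfatou
  simp only [h3] at hfatou
  rw [tendsto_order]
  constructor
  · intro a ha
    exact Eventually.of_forall fun n => lt_of_lt_of_le ha (integral_nonneg fun x => sq_nonneg _)
  · intro a ha
    have h4 : ENNReal.ofReal (4 - a) < ENNReal.ofReal 4 := by
      rw [ENNReal.ofReal_lt_ofReal_iff (by norm_num)]
      linarith
    have h5 := eventually_lt_of_lt_liminf (lt_of_lt_of_le h4 hfatou)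
    filter_upwards [h5, eventually_ge_atTop 1] with n hn hn1
    have h6 := quantX_paral hn1
    have h7 : 4 - a < ∫ x, (quantX n x + x) ^ 2 ∂(gaussianReal 0 1) := by
      rcases lt_or_ge (4 - a) 0 with h8 | h8
      · exact lt_of_lt_of_le h8 (integral_nonneg fun x => sq_nonneg _)
      · exact (ENNReal.ofReal_lt_ofReal_iff_of_nonneg h8).1 hn
    linarith

/-- the error -/
theorem quant_err_eq {v : ℕ} (hv : 1 ≤ v) :
    ∫ x, ((quantQ v x : ℝ) - √(2 * v) * x) ^ 2 ∂(gaussianReal 0 1)
      = 2 * v * ∫ x, (quantX v x - x) ^ 2 ∂(gaussianReal 0 1) := by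
  have hv' : (0:ℝ) < v := by exact_mod_cast hv
  rw [← integral_const_mul]
  congr 1
  funext x
  have hs : 0 < √(2 * (v:ℝ)) := by positivity
  have h1 : √(2 * (v:ℝ)) ^ 2 = 2 * v := Real.sq_sqrt (by positivity)
  have h2 : (quantQ v x : ℝ) = √(2 * (v:ℝ)) * quantX v x := by
    unfold quantX
    field_simp
  rw [h2]
  linear_combination ((quantX v x - x) ^ 2) * h1

theorem exists_quant : ∃ (q : ℕ → ℝ → ℤ) (om : ℕ → ℝ), IsQuant q om := by
  refine ⟨quantQ, fun v => (∫ x, ((quantQ v x : ℝ) - √(2 * v) * x) ^ 2 ∂(gaussianReal 0 1)) / v,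
    quantQ_measurable, quantQ_law, ?_, ?_, ?_, ?_⟩
  · intro v
    exact ((quant_memLp v).sub (quant_memLp_id.const_mul (√(2 * v)))).integrable_sq
  · intro v
    rcases Nat.eq_zero_or_pos v with rfl | hv
    · have h1 := quant_integral_sq 0
      simp only [CharP.cast_eq_zero, mul_zero, Real.sqrt_zero, zero_mul, sub_zero] at h1 ⊢
      exact h1.le
    · have hv' : (0:ℝ) < v := by exact_mod_cast hv
      rw [mul_div_cancel₀ _ hv'.ne']
  · intro v
    exact div_nonneg (integral_nonneg fun x => sq_nonneg _) (Nat.cast_nonneg v)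
  · have h1 := quantX_tendsto.const_mul 2
    rw [mul_zero] at h1
    refine h1.congr' ?_
    filter_upwards [eventually_ge_atTop 1] with v hv
    have hv' : (0:ℝ) < v := by exact_mod_cast hv
    rw [quant_err_eq hv]
    field_simp

end Pool.Agent.Helper7.Stuck
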