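import Pool.Agent.Helper7.Stuck.Scheme
import Pool.Agent.Helper7.Stuck.Quant

/-!
STUCK CLOSE, part 3: the noise.
-/

open MeasureTheory ProbabilityTheory Filter Topology
open scoped NNReal ENNReal

namespace Pool.Agent.Helper7.Stuck

/-- Kolmogorov's maximal inequality for square integrable martingale differences. -/
theorem cl_kol {Ω : Type*} [mΩ : MeasurableSpace Ω] (P : Measure Ω) [IsProbabilityMeasure P]
    (𝒢 : Filtration ℕ mΩ) (D : ℕ → Ω → ℝ)
    (hm : ∀ i, Measurable[𝒢 (i+1)] (D i)) (hi : ∀ i, Integrable (fun ω => D i ω ^ 2) P)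
    (h0 : ∀ i E, MeasurableSet[𝒢 i] E → ∫ ω in E, D i ω ∂P = 0) (v : ℝ)
    (hv : ∀ i, ∫ ω, D i ω ^ 2 ∂P ≤ v) (n : ℕ) (η : ℝ) (hη : 0 < η) :
    P {ω | ∃ l ≤ n, η < |∑ i ∈ Finset.range l, D i ω|} ≤ ENNReal.ofReal (n * v / η ^ 2) := by
  have hmD : ∀ i, Measurable (D i) := fun i => (hm i).mono (𝒢.le _) le_rfl
  have hL2 : ∀ i, MemLp (D i) 2 P := fun i =>
    (memLp_two_iff_integrable_sq (hmD i).aestronglyMeasurable).2 (hi i)
  have hL1 : ∀ i, Integrable (D i) P := fun i => (hL2 i).integrable (by norm_num)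
  set S : ℕ → Ω → ℝ := fun l ω => ∑ i ∈ Finset.range l, D i ω with hS
  have hSm : ∀ l, Measurable[𝒢 l] (S l) := by
    intro l
    refine Finset.measurable_sum _ fun i hi => ?_
    exact (hm i).mono (𝒢.mono (Finset.mem_range.1 hi)) le_rfl
  have hSL2 : ∀ l, MemLp (S l) 2 P := by
    intro l
    exact memLp_finsetSum _ fun i _ => hL2 i
  have hcond : ∀ i, P[D i | 𝒢 i] =ᵐ[P] 0 := by
    intro i
    refine (ae_eq_condExp_of_forall_setIntegral_eq (𝒢.le i) (hL1 i) (fun s _ _ => ?_)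
      (fun s hs _ => ?_) ?_).symm
    · exact integrableOn_zero
    · rw [h0 i s hs]
      simp
    · exact stronglyMeasurable_zero.aestronglyMeasurable
  have hSD : ∀ i, Integrable (S i * D i) P := fun i => (hSL2 i).integrable_mul (hL2 i)
  have hcross : ∀ i E, MeasurableSet[𝒢 i] E → ∫ ω in E, S i ω * D i ω ∂P = 0 := by
    intro i E hE
    have h1 := condExp_mul_of_stronglyMeasurable_left (m := 𝒢 i) (hSm i).stronglyMeasurable
      (hSD i) (hL1 i)
    have h2 := setIntegral_condExp (𝒢.le i) (hSD i) hE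
    have h3 : ∫ ω in E, (P[S i * D i | 𝒢 i]) ω ∂P = 0 := by
      rw [← integral_zero Ω ℝ (μ := P.restrict E)]
      apply integral_congr_ae
      apply ae_restrict_of_ae
      filter_upwards [h1, hcond i] with ω h4 h5
      rw [h4, Pi.mul_apply, h5]
      simp
    rw [h3] at h2
    exact h2.symm
  have hSsq : ∀ l, Integrable (fun ω => S l ω ^ 2) P := fun l => (hSL2 l).integrable_sq
  have hstep : ∀ i ω, S (i+1) ω ^ 2 = S i ω ^ 2 + (2 * (S i ω * D i ω) + D i ω ^ 2) := by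
    intro i ω
    simp only [hS]
    rw [Finset.sum_range_succ]
    ring
  have hint : ∀ i E, MeasurableSet[𝒢 i] E → ∫ ω in E, S (i+1) ω ^ 2 ∂P =
      ∫ ω in E, S i ω ^ 2 ∂P + ∫ ω in E, D i ω ^ 2 ∂P := by
    intro i E hE
    have h1 : ∫ ω in E, S (i+1) ω ^ 2 ∂P =
        ∫ ω in E, (S i ω ^ 2 + (2 * (S i ω * D i ω) + D i ω ^ 2)) ∂P :=
      integral_congr_ae (ae_of_all _ (hstep i))
    have i1 : Integrable (fun ω => S i ω ^ 2) (P.restrict E) := (hSsq i).integrableOn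
    have i2 : Integrable (fun ω => 2 * (S i ω * D i ω)) (P.restrict E) :=
      ((hSD i).const_mul 2).integrableOn
    have i3 : Integrable (fun ω => D i ω ^ 2) (P.restrict E) := (hi i).integrableOn
    have h2 : ∫ ω in E, (S i ω ^ 2 + (2 * (S i ω * D i ω) + D i ω ^ 2)) ∂P =
        ∫ ω in E, S i ω ^ 2 ∂P + ∫ ω in E, (2 * (S i ω * D i ω) + D i ω ^ 2) ∂P :=
      integral_add i1 (i2.add i3)
    have h3 : ∫ ω in E, (2 * (S i ω * D i ω) + D i ω ^ 2) ∂P =
        ∫ ω in E, 2 * (S i ω * D i ω) ∂P + ∫ ω in E, D i ω ^ 2 ∂P :=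
      integral_add i2 i3
    rw [h1, h2, h3, integral_const_mul, hcross i E hE]
    ring
  have hsub : Submartingale (fun l ω => S l ω ^ 2) 𝒢 P := by
    refine submartingale_of_setIntegral_le_succ ?_ hSsq ?_
    · intro l
      exact ((hSm l).pow_const 2).stronglyMeasurable
    · intro i E hE
      rw [hint i E hE]
      have : 0 ≤ ∫ ω in E, D i ω ^ 2 ∂P := integral_nonneg fun ω => sq_nonneg _
      linarith
  have hbd : ∀ l : ℕ, ∫ ω, S l ω ^ 2 ∂P ≤ l * v := by
    intro l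
    induction l with
    | zero => simp [hS]
    | succ l ih =>
      have h1 := hint l Set.univ MeasurableSet.univ
      simp only [Measure.restrict_univ] at h1
      rw [h1]
      push_cast
      linarith [hv l]
  have hmax := maximal_ineq hsub (fun l ω => sq_nonneg _) (ε := Real.toNNReal (η ^ 2)) n
  have hη2 : 0 < η ^ 2 := by positivity
  have hcoe : ((Real.toNNReal (η ^ 2) : ℝ≥0) : ℝ) = η ^ 2 := Real.coe_toNNReal _ hη2.le
  set B : Set Ω := {ω | ((Real.toNNReal (η ^ 2) : ℝ≥0) : ℝ) ≤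
    (Finset.range (n + 1)).sup' Finset.nonempty_range_add_one fun k => S k ω ^ 2} with hB
  have hsubset : {ω | ∃ l ≤ n, η < |∑ i ∈ Finset.range l, D i ω|} ⊆ B := by
    rintro ω ⟨l, hl, h1⟩
    rw [hB, Set.mem_ofPred_eq, hcoe, Finset.le_sup'_iff]
    refine ⟨l, Finset.mem_range.2 (by omega), ?_⟩
    have h2 : |η| ≤ |S l ω| := by
      rw [abs_of_pos hη]
      exact h1.le
    exact sq_le_sq.2 h2
  refine (measure_mono hsubset).trans ?_
  have h5 : ∫ ω in B, S n ω ^ 2 ∂P ≤ n * v :=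
    (setIntegral_le_integral (hSsq n) (ae_of_all _ fun ω => sq_nonneg _)).trans (hbd n)
  have h6 : ENNReal.ofReal (η ^ 2) * P B ≤ ENNReal.ofReal (n * v) := by
    have h7 : ((Real.toNNReal (η ^ 2) : ℝ≥0) : ℝ≥0∞) = ENNReal.ofReal (η ^ 2) := rfl
    rw [← h7]
    exact hmax.trans (ENNReal.ofReal_le_ofReal h5)
  rw [ENNReal.ofReal_div_of_pos hη2, ENNReal.le_div_iff_mul_le
    (Or.inl (by positivity)) (Or.inl ENNReal.ofReal_ne_top), mul_comm]
  exact h6

/-- Freezing an independent variable. -/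
theorem cl_split {Ω : Type*} (𝒢 : MeasurableSpace Ω) [mΩ : MeasurableSpace Ω] (P : Measure Ω)
    [IsProbabilityMeasure P] (hle : 𝒢 ≤ mΩ) (N : Ω → ℝ) (hN : Measurable N)
    (hind : Indep 𝒢 (MeasurableSpace.comap N inferInstance) P) (Z : Ω → St)
    (hZ : ∀ z, MeasurableSet[𝒢] (Z ⁻¹' {z})) (φ : St → ℝ → ℝ) (hφ : ∀ z, Measurable (φ z))
    (ν : Measure ℝ) [IsProbabilityMeasure ν] (hν : P.map N = ν) (C : ℝ)
    (h2 : ∀ z, Integrable (fun x => φ z x ^ 2) ν) (h2' : ∀ z, ∫ x, φ z x ^ 2 ∂ν ≤ C)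
    (h1 : ∀ z, ∫ x, φ z x ∂ν = 0) :
    Integrable (fun ω => φ (Z ω) (N ω) ^ 2) P ∧ ∫ ω, φ (Z ω) (N ω) ^ 2 ∂P ≤ C ∧
      ∀ E, MeasurableSet[𝒢] E → ∫ ω in E, φ (Z ω) (N ω) ∂P = 0 := by
  have hZm : Measurable Z := measurable_to_countable' fun z => hle _ (hZ z)
  have hφm : Measurable (fun p : St × ℝ => φ p.1 p.2) :=
    measurable_from_prod_countable_right hφ
  have hDm : Measurable (fun ω => φ (Z ω) (N ω)) := hφm.comp (hZm.prodMk hN)
  have hC : 0 ≤ C := le_trans (integral_nonneg fun x => sq_nonneg _) (h2' 0)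
  -- independence
  have hindF : IndepFun Z N P := by
    have hZc : MeasurableSpace.comap Z inferInstance ≤ 𝒢 := by
      rw [← measurable_iff_comap_le]
      exact @measurable_to_countable' _ _ _ _ 𝒢 _ hZ
    exact indep_of_indep_of_le_left hind hZc
  have hprod := (indepFun_iff_map_prod_eq_prod_map_map hZm.aemeasurable hN.aemeasurable).1 hindF
  rw [hν] at hprod
  have : IsProbabilityMeasure (P.map Z) := Measure.isProbabilityMeasure_map hZm.aemeasurable
  have hlin : ∫⁻ ω, ENNReal.ofReal (φ (Z ω) (N ω) ^ 2) ∂P ≤ ENNReal.ofReal C := by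
    have e1 : ∫⁻ ω, ENNReal.ofReal (φ (Z ω) (N ω) ^ 2) ∂P =
        ∫⁻ p, ENNReal.ofReal (φ p.1 p.2 ^ 2) ∂(P.map (fun ω => (Z ω, N ω))) := by
      rw [lintegral_map (by fun_prop) (hZm.prodMk hN)]
    rw [e1, hprod, lintegral_prod _ (by fun_prop)]
    calc ∫⁻ z, ∫⁻ x, ENNReal.ofReal (φ z x ^ 2) ∂ν ∂(P.map Z) ≤
        ∫⁻ _, ENNReal.ofReal C ∂(P.map Z) := by
          apply lintegral_mono
          intro z
          beta_reduce
          rw [← ofReal_integral_eq_lintegral_ofReal (h2 z) (ae_of_all _ fun x => sq_nonneg _)]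
          exact ENNReal.ofReal_le_ofReal (h2' z)
      _ = ENNReal.ofReal C := by simp
  have hint2 : Integrable (fun ω => φ (Z ω) (N ω) ^ 2) P := by
    refine ⟨(hDm.pow_const 2).aestronglyMeasurable, ?_⟩
    rw [hasFiniteIntegral_iff_ofReal (ae_of_all _ fun ω => sq_nonneg _)]
    exact hlin.trans_lt ENNReal.ofReal_lt_top
  have hL2 : MemLp (fun ω => φ (Z ω) (N ω)) 2 P :=
    (memLp_two_iff_integrable_sq hDm.aestronglyMeasurable).2 hint2
  have hL1 : Integrable (fun ω => φ (Z ω) (N ω)) P := hL2.integrable (by norm_num)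
  refine ⟨hint2, ?_, ?_⟩
  · rw [integral_eq_lintegral_of_nonneg_ae (ae_of_all _ fun ω => sq_nonneg _)
      (hDm.pow_const 2).aestronglyMeasurable]
    exact ENNReal.toReal_le_of_le_ofReal hC hlin
  · intro E hE
    have hz : ∀ z : St, ∫ ω in E ∩ Z ⁻¹' {z}, φ (Z ω) (N ω) ∂P = 0 := by
      intro z
      have hEz : MeasurableSet[𝒢] (E ∩ Z ⁻¹' {z}) := hE.inter (hZ z)
      have e1 : ∫ ω in E ∩ Z ⁻¹' {z}, φ (Z ω) (N ω) ∂P =
          ∫ ω in E ∩ Z ⁻¹' {z}, φ z (N ω) ∂P := by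
        apply setIntegral_congr_fun (hle _ hEz)
        rintro ω ⟨_, hω⟩
        simp only [Set.mem_preimage, Set.mem_singleton_iff] at hω
        simp only [hω]
      rw [e1]
      have hzL2 : MemLp (φ z) 2 ν :=
        (memLp_two_iff_integrable_sq (hφ z).aestronglyMeasurable).2 (h2 z)
      have hzL1 : Integrable (φ z) ν := hzL2.integrable (by norm_num)
      have hzi : Integrable (fun ω => φ z (N ω)) P := by
        rw [← hν] at hzL1
        exact hzL1.comp_measurable hN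
      have e2 := condExp_indep_eq (μ := P) (f := fun ω => φ z (N ω)) hN.comap_le hle
        (by
          apply Measurable.stronglyMeasurable
          exact (hφ z).comp (comap_measurable N)) hind.symm
      have e3 := setIntegral_condExp hle hzi hEz
      rw [← e3]
      have e4 : ∫ ω, φ z (N ω) ∂P = 0 := by
        rw [← h1 z, ← hν, integral_map hN.aemeasurable (hφ z).aestronglyMeasurable]
      rw [← integral_zero Ω ℝ (μ := P.restrict (E ∩ Z ⁻¹' {z}))]
      apply integral_congr_ae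
      apply ae_restrict_of_ae
      filter_upwards [e2] with ω h4
      rw [h4, e4]
    have hU : ⋃ z : St, E ∩ Z ⁻¹' {z} = E := by
      ext ω
      simp
    have hs := hasSum_integral_iUnion (μ := P) (f := fun ω => φ (Z ω) (N ω))
      (s := fun z : St => E ∩ Z ⁻¹' {z}) (fun z => (hle _ hE).inter (hle _ (hZ z))) (by
        intro z z' hzz
        rw [Function.onFun, Set.disjoint_left]
        rintro ω ⟨_, h3⟩ ⟨_, h4⟩
        simp only [Set.mem_preimage, Set.mem_singleton_iff] at h3 h4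
        exact hzz (h3.symm.trans h4)) hL1.integrableOn
    rw [hU] at hs
    have hs0 : HasSum (fun z : St => ∫ ω in E ∩ Z ⁻¹' {z}, φ (Z ω) (N ω) ∂P) 0 := by
      simp only [hz]
      exact hasSum_zero
    exact hs.unique hs0

/-- The noise increments. -/
noncomputable def clnz (q : ℕ → ℝ → ℤ) (ε lam : ℝ) (z : St) (x : ℝ) : ℝ :=
  if ε * lam ^ 3 ≤ (z.2.1 : ℝ) then
    (1 / (√lam * √(2 * (z.2.1.natAbs : ℝ)))) *
      ((q z.2.1.natAbs x : ℝ) - √(2 * (z.2.1.natAbs : ℝ)) * x) else 0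

theorem clnz_meas (q : ℕ → ℝ → ℤ) (om : ℕ → ℝ) (hq : IsQuant q om) (ε lam : ℝ) (z : St) :
    Measurable (clnz q ε lam z) := by
  unfold clnz
  split_ifs
  · have h1 : Measurable (fun x => ((q z.2.1.natAbs x : ℤ) : ℝ)) :=
      (measurable_of_countable (fun k : ℤ => (k : ℝ))).comp (hq.meas _)
    exact (h1.sub (measurable_id.const_mul _)).const_mul _
  · exact measurable_const

theorem clnz_sq (q : ℕ → ℝ → ℤ) (om : ℕ → ℝ) (hq : IsQuant q om) (ε lam : ℝ) (hε : 0 < ε)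
    (hlam : 0 < lam) (c : ℝ) (hc : ∀ v : ℕ, ε * lam ^ 3 ≤ v → om v ≤ c) (hc0 : 0 ≤ c) (z : St) :
    Integrable (fun x => clnz q ε lam z x ^ 2) (gaussianReal 0 1) ∧
      ∫ x, clnz q ε lam z x ^ 2 ∂(gaussianReal 0 1) ≤ c / (2 * lam) := by
  unfold clnz
  split_ifs with h
  · set v : ℕ := z.2.1.natAbs with hv
    have hv1 : ε * lam ^ 3 ≤ (v:ℝ) := by
      refine h.trans ?_
      rw [hv, Nat.cast_natAbs]
      push_cast
      exact le_abs_self _
    have hv0 : 0 < (v:ℝ) := lt_of_lt_of_le (by positivity) hv1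
    have e1 : ∀ x, ((1 / (√lam * √(2 * (v : ℝ)))) * ((q v x : ℝ) - √(2 * (v : ℝ)) * x)) ^ 2 =
        (1 / (lam * (2 * v))) * ((q v x : ℝ) - √(2 * v) * x) ^ 2 := by
      intro x
      rw [mul_pow, div_pow, mul_pow, Real.sq_sqrt hlam.le, Real.sq_sqrt (by positivity)]
      ring
    simp only [e1]
    refine ⟨(hq.int v).const_mul _, ?_⟩
    rw [integral_const_mul]
    calc (1 / (lam * (2 * v))) * ∫ x, ((q v x : ℝ) - √(2 * v) * x) ^ 2 ∂(gaussianReal 0 1) ≤
        (1 / (lam * (2 * v))) * (v * c) := by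
          apply mul_le_mul_of_nonneg_left _ (by positivity)
          exact (hq.err v).trans (mul_le_mul_of_nonneg_left (hc v hv1) hv0.le)
      _ = c / (2 * lam) := by
        field_simp
  · constructor
    · simp
    · simp
      positivity

theorem clnz_mean (q : ℕ → ℝ → ℤ) (om : ℕ → ℝ) (hq : IsQuant q om) (ε lam : ℝ) (z : St) :
    ∫ x, clnz q ε lam z x ∂(gaussianReal 0 1) = 0 := by
  unfold clnz
  split_ifs
  · set v : ℕ := z.2.1.natAbs with hv
    have h1 := nb_mean v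
    rw [← hq.law v] at h1
    have h2 : Integrable (fun x => ((q v x : ℤ) : ℝ)) (gaussianReal 0 1) :=
      h1.1.comp_measurable (hq.meas v)
    have h3 : ∫ x, ((q v x : ℤ) : ℝ) ∂(gaussianReal 0 1) = 0 := by
      have h6 := integral_map (μ := gaussianReal 0 1) (hq.meas v).aemeasurable
        h1.1.aestronglyMeasurable
      rw [← h6]
      exact h1.2
    have h4 : Integrable (fun x : ℝ => x) (gaussianReal 0 1) := by
      have := memLp_id_gaussianReal (μ := 0) (v := 1) 1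
      exact this.integrable (by norm_num)
    have h5 : ∫ x, x ∂(gaussianReal 0 1) = 0 := integral_id_gaussianReal
    rw [integral_const_mul, integral_sub h2 (h4.const_mul _), integral_const_mul, h3, h5]
    simp
  · simp

theorem cl_gt_le (lam : ℝ) (hlam : 0 < lam) (i : ℕ) : gt lam i ≤ gt lam (i+1) := by
  unfold gt
  apply Real.toNNReal_le_toNNReal
  push_cast
  gcongr
  linarith

theorem cl_gt_coe (lam : ℝ) (hlam : 0 < lam) (i : ℕ) : (gt lam i : ℝ) = i / lam :=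
  Real.coe_toNNReal _ (by positivity)

theorem cl_gt_mono (lam : ℝ) (hlam : 0 < lam) : Monotone (gt lam) :=
  monotone_nat_of_le_succ (cl_gt_le lam hlam)

/-- The accumulated noise. -/
noncomputable def clbz {Ω : Type*} (q : ℕ → ℝ → ℤ) (ε lam : ℝ) (W : ℝ≥0 → Ω → ℝ) (a : St)
    (l : ℕ) (ω : Ω) : ℝ :=
  ∑ i ∈ Finset.range l, clnz q ε lam (scheme q lam W a i ω)
    (√lam * (W (gt lam (i+1)) ω - W (gt lam i) ω))

theorem cl_noise1 {Ω : Type*} [mΩ : MeasurableSpace Ω] (P : Measure Ω)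
    [IsProbabilityMeasure P] (ℱ : Filtration ℝ≥0 mΩ) (W : ℝ≥0 → Ω → ℝ)
    (hW : IsBrownianReal W P) (hWm : ∀ t, Measurable[ℱ t] (W t))
    (hWi : ∀ s t, s ≤ t → Indep (ℱ s) (MeasurableSpace.comap (fun ω => W t ω - W s ω)
      inferInstance) P)
    (q : ℕ → ℝ → ℤ) (om : ℕ → ℝ) (hq : IsQuant q om) (ε lam : ℝ) (hε : 0 < ε) (hlam : 0 < lam)
    (a : St) (c : ℝ) (hc : ∀ v : ℕ, ε * lam ^ 3 ≤ v → om v ≤ c) (hc0 : 0 ≤ c) (n : ℕ) (κ : ℝ)
    (hκ : 0 < κ) :
    P {ω | ∃ l ≤ n, κ < |clbz q ε lam W a l ω|} ≤ ENNReal.ofReal (n * (c / (2 * lam)) / κ ^ 2) := by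
  have hch := scheme_isChain P ℱ W hW hWm hWi q om hq lam hlam a
  have hWm' : ∀ t, Measurable (W t) := fun t => (hWm t).mono (ℱ.le t) le_rfl
  let 𝒢 : Filtration ℕ mΩ :=
    { seq := fun i => ℱ (gt lam i)
      mono' := hch.mono
      le' := hch.le }
  set N : ℕ → Ω → ℝ := fun i ω => √lam * (W (gt lam (i+1)) ω - W (gt lam i) ω) with hN
  have hNm' : ∀ i, Measurable[ℱ (gt lam (i+1))] (N i) := by
    intro i
    have h1 : Measurable[ℱ (gt lam (i+1))] (W (gt lam i)) :=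
      (hWm _).mono (ℱ.mono (cl_gt_le lam hlam i)) le_rfl
    exact ((hWm _).sub h1).const_mul _
  have hNm : ∀ i, Measurable (N i) := fun i => (hNm' i).mono (ℱ.le _) le_rfl
  have hlaw : ∀ i, P.map (N i) = gaussianReal 0 1 := by
    intro i
    have h1 := hW.hasLaw_sub (gt lam (i+1)) (gt lam i)
    have h2 := h1.map_eq
    have h3 : P.map (N i) = (P.map (fun ω => W (gt lam (i+1)) ω - W (gt lam i) ω)).map
        (fun x => √lam * x) := by
      rw [Measure.map_map (by fun_prop) (by fun_prop)]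
      rfl
    rw [h3]
    change Measure.map (fun x => √lam * x) (Measure.map (W (gt lam (i+1)) - W (gt lam i)) P) = _
    rw [h2, gaussianReal_map_const_mul]
    congr 1
    · simp
    · apply NNReal.eq
      have h4 : dist ((gt lam (i+1) : ℝ≥0) : ℝ) ((gt lam i : ℝ≥0) : ℝ) = 1 / lam := by
        rw [cl_gt_coe lam hlam, cl_gt_coe lam hlam, Real.dist_eq]
        push_cast
        rw [← sub_div, add_sub_cancel_left, abs_of_pos (by positivity)]
      change (√lam) ^ 2 * dist ((gt lam (i+1) : ℝ≥0) : ℝ) ((gt lam i : ℝ≥0) : ℝ) = 1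
      rw [h4, Real.sq_sqrt hlam.le]
      field_simp
  have hind : ∀ i, Indep (ℱ (gt lam i)) (MeasurableSpace.comap (N i) inferInstance) P := by
    intro i
    have h1 := hWi _ _ (cl_gt_le lam hlam i)
    refine indep_of_indep_of_le_right h1 ?_
    rw [← measurable_iff_comap_le]
    exact (comap_measurable (fun ω => W (gt lam (i+1)) ω - W (gt lam i) ω)).const_mul _
  have hsp := fun i => cl_split (ℱ (gt lam i)) P (ℱ.le _) (N i) (hNm i) (hind i)
    (scheme q lam W a i) (hch.meas_Z i) (clnz q ε lam) (clnz_meas q om hq ε lam) (gaussianReal 0 1)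
    (hlaw i) (c / (2 * lam)) (fun z => (clnz_sq q om hq ε lam hε hlam c hc hc0 z).1)
    (fun z => (clnz_sq q om hq ε lam hε hlam c hc hc0 z).2) (clnz_mean q om hq ε lam)
  refine cl_kol P 𝒢 (fun i ω => clnz q ε lam (scheme q lam W a i ω) (N i ω)) ?_
    (fun i => (hsp i).1) (fun i E hE => (hsp i).2.2 E hE) (c / (2 * lam)) (fun i => (hsp i).2.1)
    n κ hκ
  intro i
  have h1 : Measurable (fun p : St × ℝ => clnz q ε lam p.1 p.2) :=
    measurable_from_prod_countable_right (clnz_meas q om hq ε lam)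
  have h2 : Measurable[ℱ (gt lam (i+1))] (scheme q lam W a i) :=
    @measurable_to_countable' _ _ _ _ (ℱ (gt lam (i+1))) _
      fun z => hch.mono (Nat.le_succ i) _ (hch.meas_Z i z)
  exact h1.comp (h2.prodMk (hNm' i))

/-- The noise is uniformly small. -/
theorem cl_noise {Ω : Type*} [mΩ : MeasurableSpace Ω] (P : Measure Ω)
    [IsProbabilityMeasure P] (ℱ : Filtration ℝ≥0 mΩ) (W : ℝ≥0 → Ω → ℝ)
    (hW : IsBrownianReal W P) (hWm : ∀ t, Measurable[ℱ t] (W t))
    (hWi : ∀ s t, s ≤ t → Indep (ℱ s) (MeasurableSpace.comap (fun ω => W t ω - W s ω)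
      inferInstance) P)
    (q : ℕ → ℝ → ℤ) (om : ℕ → ℝ) (hq : IsQuant q om) (ε : ℝ) (hε : 0 < ε)
    (lam : ℕ → ℝ) (hlam : Tendsto lam atTop atTop) (a : ℕ → St) (T κ : ℝ) (hT : 0 < T)
    (hκ : 0 < κ) :
    Tendsto (fun n => P {ω | ∃ l : ℕ, (l:ℝ) ≤ T * lam n ∧ κ < |clbz q ε (lam n) W (a n) l ω|})
      atTop (𝓝 0) := by
  rw [ENNReal.tendsto_nhds_zero]
  intro e he
  by_cases het : e = ⊤
  · exact Eventually.of_forall fun n => het ▸ le_top
  have he' : 0 < e.toReal := ENNReal.toReal_pos he.ne' het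
  -- choose c
  set c : ℝ := e.toReal * κ ^ 2 / T with hc
  have hc0 : 0 < c := by positivity
  obtain ⟨v0, hv0⟩ := eventually_atTop.1 (hq.lim.eventually (ge_mem_nhds hc0))
  have hlarge : ∀ᶠ n in atTop, (v0:ℝ) ≤ ε * lam n ^ 3 := by
    have h1 : Tendsto (fun n => ε * lam n ^ 3) atTop atTop :=
      ((tendsto_pow_atTop (by norm_num)).comp hlam).const_mul_atTop hε
    exact h1.eventually_ge_atTop _
  filter_upwards [hlarge, hlam.eventually_gt_atTop 0] with n h1 h2
  have h3 : {ω | ∃ l : ℕ, (l:ℝ) ≤ T * lam n ∧ κ < |clbz q ε (lam n) W (a n) l ω|} ⊆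
      {ω | ∃ l ≤ ⌊T * lam n⌋₊, κ < |clbz q ε (lam n) W (a n) l ω|} := by
    rintro ω ⟨l, h4, h5⟩
    exact ⟨l, Nat.le_floor h4, h5⟩
  refine (measure_mono h3).trans ?_
  refine (cl_noise1 P ℱ W hW hWm hWi q om hq ε (lam n) hε h2 (a n) c (fun v hv => ?_) hc0.le
    ⌊T * lam n⌋₊ κ hκ).trans ?_
  · apply hv0
    exact_mod_cast h1.trans hv
  · rw [← ENNReal.ofReal_toReal het]
    apply ENNReal.ofReal_le_ofReal
    have h4 : (⌊T * lam n⌋₊ : ℝ) ≤ T * lam n := Nat.floor_le (by positivity)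
    calc (⌊T * lam n⌋₊ : ℝ) * (c / (2 * lam n)) / κ ^ 2 ≤
        (T * lam n) * (c / (2 * lam n)) / κ ^ 2 := by gcongr
      _ = e.toReal / 2 := by
        rw [hc]
        field_simp
      _ ≤ e.toReal := by linarith

end Pool.Agent.Helper7.Stuck
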