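import Pool.Agent.Helper7.Stuck.Close2

/-!
STUCK CLOSE, part 4: the stochastic integral path by path.
-/

open MeasureTheory ProbabilityTheory Filter Topology
open scoped NNReal ENNReal

namespace Pool.Agent.Helper7.Stuck

theorem cl_G (p : ℝ → ℝ) (hp : Continuous p) (m0 x : ℝ) :
    HasDerivAt (fun x => m0 + ∫ y in (0:ℝ)..x, p y) (p x) x := by
  have h1 : HasDerivAt (fun x => ∫ y in (0:ℝ)..x, p y) (p x) x :=
    intervalIntegral.integral_hasDerivAt_right (hp.intervalIntegrable _ _)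
      (hp.stronglyMeasurableAtFilter _ _) hp.continuousAt
  exact h1.const_add m0

theorem cl_mcont (p m : ℝ → ℝ) (m0 t : ℝ) (hp : Continuous p)
    (hm : ∀ x, 0 ≤ x → x ≤ t → m x = m0 + ∫ y in (0:ℝ)..x, p y)
    (hpos : ∀ x, 0 ≤ x → x ≤ t → 0 < m x) :
    ContinuousOn (fun x => p x / √(2 * m x)) (Set.Icc 0 t) := by
  have h1 : ContinuousOn m (Set.Icc 0 t) := by
    have h2 : ContinuousOn (fun x => m0 + ∫ y in (0:ℝ)..x, p y) (Set.Icc 0 t) :=
      fun x _ => (cl_G p hp m0 x).continuousAt.continuousWithinAt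
    exact h2.congr fun x hx => hm x hx.1 hx.2
  refine hp.continuousOn.div ((continuousOn_const.mul h1).sqrt) fun x hx => ?_
  have := hpos x hx.1 hx.2
  exact (Real.sqrt_pos.2 (by linarith)).ne'

/-- The square root of twice the primitive. -/
theorem cl_sigma (p m : ℝ → ℝ) (m0 t : ℝ) (hp : Continuous p)
    (hm : ∀ x, 0 ≤ x → x ≤ t → m x = m0 + ∫ y in (0:ℝ)..x, p y)
    (hpos : ∀ x, 0 ≤ x → x ≤ t → 0 < m x) (a b : ℝ) (ha : 0 ≤ a) (hab : a ≤ b) (hb : b ≤ t) :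
    √(2 * m b) - √(2 * m a) = ∫ x in a..b, p x / √(2 * m x) := by
  set G : ℝ → ℝ := fun x => m0 + ∫ y in (0:ℝ)..x, p y with hG
  have hmG : ∀ x, 0 ≤ x → x ≤ t → m x = G x := hm
  have hsub : Set.uIcc a b ⊆ Set.Icc 0 t := by
    rw [Set.uIcc_of_le hab]
    exact Set.Icc_subset_Icc ha hb
  have h1 : ∫ x in a..b, p x / √(2 * m x) = ∫ x in a..b, p x / √(2 * G x) := by
    apply intervalIntegral.integral_congr
    intro x hx
    have := hsub hx
    simp only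
    rw [hmG x this.1 this.2]
  have h2 : ∫ x in a..b, p x / √(2 * G x) = √(2 * G b) - √(2 * G a) := by
    apply intervalIntegral.integral_eq_sub_of_hasDerivAt (f := fun x => √(2 * G x))
    · intro x hx
      have h3 := hsub hx
      have h4 : 0 < G x := by
        rw [← hmG x h3.1 h3.2]
        exact hpos x h3.1 h3.2
      have h5 : HasDerivAt (fun x => 2 * G x) (2 * p x) x := (cl_G p hp m0 x).const_mul 2
      have h6 := h5.sqrt (by positivity)
      have h7 : 2 * p x / (2 * √(2 * G x)) = p x / √(2 * G x) := by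
        rw [mul_div_mul_left _ _ (by norm_num : (2:ℝ) ≠ 0)]
      rw [h7] at h6
      exact h6
    · apply ContinuousOn.intervalIntegrable
      have h3 := (cl_mcont p m m0 t hp hm hpos).mono hsub
      refine h3.congr fun x hx => ?_
      have := hsub hx
      beta_reduce
      rw [hmG x this.1 this.2]
  rw [h1, h2, hmG a ha (hab.trans hb), hmG b (ha.trans hab) hb]

/-- Riemann sums along a partition. -/
theorem cl_rsum (p m g : ℝ → ℝ) (m0 t ε R : ℝ) (hε : 0 < ε) (hp : Continuous p)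
    (hg : Continuous g) (hm : ∀ x, 0 ≤ x → x ≤ t → m x = m0 + ∫ y in (0:ℝ)..x, p y)
    (hpos : ∀ x, 0 ≤ x → x ≤ t → ε ≤ m x) (hR : ∀ x, 0 ≤ x → x ≤ t → |p x| ≤ R)
    (τ : ℕ → ℝ) (n : ℕ) (h0 : τ 0 = 0) (hn : τ n = t) (hτ : ∀ i < n, τ i ≤ τ (i+1))
    (κ : ℝ) (hκ : 0 ≤ κ)
    (hosc : ∀ i < n, ∀ x, τ i ≤ x → x ≤ τ (i+1) → |g x - g (τ (i+1))| ≤ κ) :
    |∑ i ∈ Finset.range n, √(2 * m (τ i)) * (g (τ (i+1)) - g (τ i)) -
      (√(2 * m t) * g t - √(2 * m 0) * g 0 - ∫ x in (0:ℝ)..t, g x * (p x / √(2 * m x)))| ≤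
      κ * (R / √(2 * ε)) * t := by
  have hpos' : ∀ x, 0 ≤ x → x ≤ t → 0 < m x := fun x h1 h2 => hε.trans_le (hpos x h1 h2)
  have hmono : ∀ i j, i ≤ j → j ≤ n → τ i ≤ τ j := by
    intro i j hij
    induction hij with
    | refl => intro _; exact le_rfl
    | step _ ih => intro h; exact (ih (by omega)).trans (hτ _ (by omega))
  have hτ0 : ∀ i ≤ n, 0 ≤ τ i := fun i hi => h0 ▸ hmono 0 i (Nat.zero_le _) hi
  have hτt : ∀ i ≤ n, τ i ≤ t := fun i hi => hn ▸ hmono i n hi le_rfl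
  have hsub : ∀ i < n, Set.uIcc (τ i) (τ (i+1)) ⊆ Set.Icc 0 t := by
    intro i hi
    rw [Set.uIcc_of_le (hτ i hi)]
    exact Set.Icc_subset_Icc (hτ0 i hi.le) (hτt (i+1) hi)
  have hc := cl_mcont p m m0 t hp hm hpos'
  have key := cl_rs g (fun x => √(2 * m x)) (fun x => p x / √(2 * m x)) τ κ (R / √(2 * ε)) hκ n
    hτ (fun i hi => cl_sigma p m m0 t hp hm hpos' (τ i) (τ (i+1)) (hτ0 i hi.le) (hτ i hi)
      (hτt (i+1) hi)) hosc (by
      intro i hi x hx1 hx2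
      have h1 : 0 ≤ x := (hτ0 i hi.le).trans hx1
      have h2 : x ≤ t := hx2.trans (hτt (i+1) hi)
      have h3 : 0 < √(2 * ε) := Real.sqrt_pos.2 (by linarith)
      have h4 : √(2 * ε) ≤ √(2 * m x) := Real.sqrt_le_sqrt (by linarith [hpos x h1 h2])
      rw [abs_div, abs_of_nonneg (Real.sqrt_nonneg (2 * m x))]
      exact div_le_div₀ ((abs_nonneg _).trans (hR x h1 h2)) (hR x h1 h2) h3 h4)
    (fun i hi => (hc.mono (hsub i hi)).intervalIntegrable)
    (fun i hi => ((hg.continuousOn.mul hc).mono (hsub i hi)).intervalIntegrable)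
  rw [hn, h0] at key
  simpa using key

theorem cl_alive_mono {Ω : Type*} (ε : ℝ) (ξ : ℝ≥0 → Ω → E3) (s t : ℝ≥0) (hst : s ≤ t) (ω : Ω)
    (h : Alive ε ξ t ω) : Alive ε ξ s ω := fun y hy => h y (hy.trans hst)

open Classical in
/-- The frozen equation while alive. -/
theorem cl_alive_int {Ω : Type*} (ε : ℝ) (ξ : ℝ≥0 → Ω → E3) (ω : Ω) (f f' : E3 → ℝ) (c : ℝ)
    (hs : ∀ t : ℝ≥0, f (ξ t ω) = c +
      ∫ x in (0:ℝ)..t, if Alive ε ξ x.toNNReal ω then f' (ξ x.toNNReal ω) else 0)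
    (t : ℝ≥0) (ht : Alive ε ξ t ω) (x : ℝ) (hx : 0 ≤ x) (hxt : x ≤ t) :
    f (ξ x.toNNReal ω) = c + ∫ y in (0:ℝ)..x, f' (ξ y.toNNReal ω) := by
  rw [hs x.toNNReal, Real.coe_toNNReal x hx]
  congr 1
  apply intervalIntegral.integral_congr
  intro y hy
  rw [Set.uIcc_of_le hx] at hy
  have h1 : Alive ε ξ y.toNNReal ω := by
    apply cl_alive_mono ε ξ _ t _ ω ht
    exact Real.toNNReal_le_iff_le_coe.2 (hy.2.trans hxt)
  simp only [h1, if_true]

open Classical in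
/-- Convergence of the Riemann sums, path by path. -/
theorem cl_path_tendsto {Ω : Type*} (ε : ℝ) (hε : 0 < ε) (W : ℝ≥0 → Ω → ℝ) (ξ : ℝ≥0 → Ω → E3)
    (ω : Ω) (c : ℝ) (hW : Continuous fun t => W t ω) (hc : Continuous fun t => ξ t ω)
    (hs : ∀ t : ℝ≥0, (ξ t ω).2.1 = c +
      ∫ x in (0:ℝ)..t, if Alive ε ξ x.toNNReal ω then (ξ x.toNNReal ω).1 else 0)
    (t : ℝ≥0) (ht : Alive ε ξ t ω) :
    Tendsto (fun N : ℕ => ∑ j ∈ Finset.range N,
      sig ε ξ (t * j / N) ω * (W (t * (j + 1) / N) ω - W (t * j / N) ω)) atTop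
      (𝓝 (√(2 * (ξ t ω).2.1) * W t ω - √(2 * (ξ 0 ω).2.1) * W 0 ω -
        ∫ x in (0:ℝ)..t, W x.toNNReal ω *
          ((ξ x.toNNReal ω).1 / √(2 * (ξ x.toNNReal ω).2.1)))) := by
  set p : ℝ → ℝ := fun x => (ξ x.toNNReal ω).1 with hp
  set m : ℝ → ℝ := fun x => (ξ x.toNNReal ω).2.1 with hm
  set g : ℝ → ℝ := fun x => W x.toNNReal ω with hg
  have hcR : Continuous fun x : ℝ => ξ x.toNNReal ω := hc.comp continuous_real_toNNReal
  have hpc : Continuous p := continuous_fst.comp hcR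
  have hgc : Continuous g := hW.comp continuous_real_toNNReal
  have hmi : ∀ x, 0 ≤ x → x ≤ (t:ℝ) → m x = c + ∫ y in (0:ℝ)..x, p y := fun x hx hxt =>
    cl_alive_int ε ξ ω (fun z => z.2.1) (fun z => z.1) c hs t ht x hx hxt
  have hpos : ∀ x, 0 ≤ x → x ≤ (t:ℝ) → ε ≤ m x := fun x _ hxt =>
    (ht _ (Real.toNNReal_le_iff_le_coe.2 hxt)).le
  obtain ⟨R, hR⟩ := (isCompact_Icc (a := (0:ℝ)) (b := (t:ℝ))).exists_bound_of_continuousOn
    hpc.continuousOn
  have hR' : ∀ x, 0 ≤ x → x ≤ (t:ℝ) → |p x| ≤ R := fun x h1 h2 => hR x ⟨h1, h2⟩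
  have hR0 : 0 ≤ R := (abs_nonneg _).trans (hR' 0 le_rfl t.2)
  have hunif : UniformContinuousOn g (Set.Icc 0 (t:ℝ)) :=
    isCompact_Icc.uniformContinuousOn_of_continuous hgc.continuousOn
  rw [Metric.tendsto_atTop]
  intro e he
  set K : ℝ := R / √(2 * ε) * t + 1 with hK
  have hK0 : 0 < K := by
    have : 0 ≤ R / √(2 * ε) * t := mul_nonneg (div_nonneg hR0 (Real.sqrt_nonneg _)) t.2
    linarith
  obtain ⟨δ, hδ, hδ'⟩ := Metric.uniformContinuousOn_iff.1 hunif (e / K) (by positivity)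
  obtain ⟨N0, hN0⟩ := exists_nat_gt ((t:ℝ) / δ)
  refine ⟨N0 + 1, fun N hN => ?_⟩
  have hNpos : 0 < (N:ℝ) := by
    have : 0 < N := by omega
    exact_mod_cast this
  have hNN : (N:ℝ≥0) ≠ 0 := by
    intro h
    have : ((N:ℝ≥0) : ℝ) = 0 := by rw [h]; rfl
    rw [NNReal.coe_natCast] at this
    exact hNpos.ne' this
  have hNt : (t:ℝ) / N < δ := by
    rw [div_lt_iff₀ hNpos]
    rw [div_lt_iff₀ hδ] at hN0
    have h1 : (N0:ℝ) ≤ N := by exact_mod_cast (by omega : N0 ≤ N)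
    calc (t:ℝ) < N0 * δ := hN0
      _ ≤ N * δ := by gcongr
      _ = δ * N := mul_comm _ _
  set τ : ℕ → ℝ := fun i => (t:ℝ) * i / N with hτ
  have hτN : τ N = t := by
    simp only [hτ]
    field_simp
  have hτs : ∀ i, τ (i+1) = τ i + t / N := by
    intro i
    simp only [hτ]
    push_cast
    field_simp
  have htN : 0 ≤ (t:ℝ) / N := div_nonneg t.2 hNpos.le
  have hτ0 : ∀ i, 0 ≤ τ i := fun i => by
    simp only [hτ]
    exact div_nonneg (mul_nonneg t.2 (Nat.cast_nonneg _)) hNpos.le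
  have hτt : ∀ i ≤ N, τ i ≤ t := by
    intro i hi
    simp only [hτ]
    rw [div_le_iff₀ hNpos]
    have : (i:ℝ) ≤ N := by exact_mod_cast hi
    exact mul_le_mul_of_nonneg_left this t.2
  have key := cl_rsum p m g c t ε R hε hpc hgc hmi hpos hR' τ N (by simp [hτ]) hτN
    (fun i _ => by rw [hτs]; linarith) (e / K) (by positivity) (by
      intro i hi x hx1 hx2
      have h1 : x ∈ Set.Icc (0:ℝ) t := ⟨(hτ0 i).trans hx1, hx2.trans (hτt _ hi)⟩
      have h2 : τ (i+1) ∈ Set.Icc (0:ℝ) t := ⟨hτ0 _, hτt _ hi⟩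
      have h3 := hδ' x h1 (τ (i+1)) h2 (by
        rw [Real.dist_eq, abs_sub_comm, abs_of_nonneg (by linarith)]
        rw [hτs]
        linarith)
      rw [Real.dist_eq] at h3
      exact h3.le)
  have hsum : ∑ j ∈ Finset.range N,
      sig ε ξ (t * j / N) ω * (W (t * (j + 1) / N) ω - W (t * j / N) ω) =
      ∑ i ∈ Finset.range N, √(2 * m (τ i)) * (g (τ (i+1)) - g (τ i)) := by
    apply Finset.sum_congr rfl
    intro j hj
    have hj := Finset.mem_range.1 hj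
    have e1 : (τ j).toNNReal = t * j / N := by
      apply NNReal.eq
      rw [Real.coe_toNNReal _ (hτ0 j)]
      simp only [hτ]
      push_cast
      ring
    have e2 : (τ (j+1)).toNNReal = t * (j + 1) / N := by
      apply NNReal.eq
      rw [Real.coe_toNNReal _ (hτ0 _)]
      simp only [hτ]
      push_cast
      ring
    have e3 : Alive ε ξ (t * j / N) ω := by
      apply cl_alive_mono ε ξ _ t _ ω ht
      rw [← e1]
      exact Real.toNNReal_le_iff_le_coe.2 (hτt j hj.le)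
    simp only [hg, hm, e1, e2]
    unfold sig
    rw [if_pos e3, abs_of_pos (hε.trans (e3 _ le_rfl))]
  have h0 : m 0 = (ξ 0 ω).2.1 := by
    simp only [hm, Real.toNNReal_zero]
  have h0' : g 0 = W 0 ω := by
    simp only [hg, Real.toNNReal_zero]
  have ht' : m t = (ξ t ω).2.1 := by
    simp only [hm, Real.toNNReal_coe]
  have ht'' : g t = W t ω := by
    simp only [hg, Real.toNNReal_coe]
  rw [h0, h0', ht', ht''] at key
  rw [hsum, Real.dist_eq]
  refine key.trans_lt ?_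
  have h5 : e / K * (R / √(2 * ε)) * t = e * ((R / √(2 * ε) * t) / K) := by ring
  rw [h5]
  have h6 : (R / √(2 * ε) * t) / K < 1 := by
    rw [div_lt_one hK0, hK]
    linarith
  nlinarith

open Classical in
/-- The equation for the first component, for a fixed time. -/
theorem cl_sde1 {Ω : Type*} [mΩ : MeasurableSpace Ω] (P : Measure Ω)
    [IsProbabilityMeasure P] (ℱ : Filtration ℝ≥0 mΩ) (W : ℝ≥0 → Ω → ℝ) (ε : ℝ) (hε : 0 < ε)
    (z0 : E3) (ξ : ℝ≥0 → Ω → E3) (hξ : IsFrozenSol P ℱ W ε z0 ξ) (t : ℝ≥0) :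
    ∀ᵐ ω ∂P, Alive ε ξ t ω → (ξ t ω).1 - z0.1 =
      √(2 * (ξ t ω).2.1) * W t ω - √(2 * (ξ 0 ω).2.1) * W 0 ω -
        ∫ x in (0:ℝ)..t, W x.toNNReal ω *
          ((ξ x.toNNReal ω).1 / √(2 * (ξ x.toNNReal ω).2.1)) := by
  obtain ⟨ns, hns, hns'⟩ := (hξ.sde_δ t).exists_seq_tendsto_ae
  filter_upwards [hns', hξ.sde_m, hξ.brownian.cont] with ω h1 h2 h3 ht
  have h4 := cl_path_tendsto ε hε W ξ ω z0.2.1 h3 (hξ.cont ω) h2 t ht
  exact tendsto_nhds_unique h1 (h4.comp hns.tendsto_atTop)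

end Pool.Agent.Helper7.Stuck
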