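import Pool.Agent.Helper7.Stuck.Close1
import Pool.Agent.Helper7.Stuck.Close3
import Pool.Agent.Helper7.Stuck.Close4

/-!
STUCK CLOSE, part 5: the comparison, path by path.
-/

open MeasureTheory ProbabilityTheory Filter Topology
open scoped NNReal ENNReal

namespace Pool.Agent.Helper7.Stuck

universe u

theorem cl_inc (f F : ℝ → ℝ) (c t : ℝ) (hf : Continuous f)
    (hF : ∀ x, 0 ≤ x → x ≤ t → F x = c + ∫ y in (0:ℝ)..x, f y) (a b κ : ℝ) (ha : 0 ≤ a)
    (hab : a ≤ b) (hb : b ≤ t) (hosc : ∀ x, a ≤ x → x ≤ b → |f x - f b| ≤ κ) :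
    |F b - F a - (b - a) * f b| ≤ (b - a) * κ := by
  have h1 : F b - F a - (b - a) * f b = ∫ x in a..b, (f x - f b) := by
    have h2 := intervalIntegral.integral_add_adjacent_intervals (μ := volume) (f := f) (a := 0)
      (b := a) (c := b) (hf.intervalIntegrable _ _) (hf.intervalIntegrable _ _)
    rw [hF b (ha.trans hab) hb, hF a ha (hab.trans hb), intervalIntegral.integral_sub
      (hf.intervalIntegrable _ _) intervalIntegrable_const, intervalIntegral.integral_const,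
      ← h2, smul_eq_mul]
    ring
  rw [h1, ← Real.norm_eq_abs]
  have h3 : ‖∫ x in a..b, (f x - f b)‖ ≤ κ * |b - a| := by
    apply intervalIntegral.norm_integral_le_of_norm_le_const
    intro x hx
    rw [Set.uIoc_of_le hab] at hx
    rw [Real.norm_eq_abs]
    exact hosc x hx.1.le hx.2
  rw [abs_of_nonneg (sub_nonneg.2 hab)] at h3
  linarith

/-- One step of the rescaled scheme. -/
theorem cl_step {Ω : Type*} (q : ℕ → ℝ → ℤ) (ε lam : ℝ) (hε : 0 < ε) (hlam : 0 < lam)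
    (W : ℝ≥0 → Ω → ℝ) (a : St) (i : ℕ) (ω : Ω)
    (h : ε * lam ^ 3 ≤ ((scheme q lam W a i ω).2.1 : ℝ)) :
    (sc lam (scheme q lam W a (i+1) ω)).1 - (sc lam (scheme q lam W a i ω)).1 =
      √(2 * (sc lam (scheme q lam W a i ω)).2.1) * ((W (gt lam (i+1)) ω - W (gt lam i) ω) +
        (clbz q ε lam W a (i+1) ω - clbz q ε lam W a i ω)) := by
  have hb : clbz q ε lam W a (i+1) ω - clbz q ε lam W a i ω =
      clnz q ε lam (scheme q lam W a i ω) (√lam * (W (gt lam (i+1)) ω - W (gt lam i) ω)) := by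
    unfold clbz
    rw [Finset.sum_range_succ]
    ring
  rw [hb]
  set z : St := scheme q lam W a i ω with hz
  set dW : ℝ := W (gt lam (i+1)) ω - W (gt lam i) ω with hdW
  have hs : scheme q lam W a (i+1) ω = stp z (q z.2.1.natAbs (√lam * dW)) := rfl
  rw [hs]
  unfold clnz
  rw [if_pos h]
  have hm : 0 < (z.2.1 : ℝ) := lt_of_lt_of_le (by positivity) h
  have hv : ((z.2.1.natAbs : ℕ) : ℝ) = (z.2.1 : ℝ) := by
    have : (0:ℤ) < z.2.1 := by exact_mod_cast hm
    rw [Nat.cast_natAbs]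
    push_cast
    exact abs_of_pos hm
  set X : ℤ := q z.2.1.natAbs (√lam * dW) with hX
  have hsl : 0 < √lam := Real.sqrt_pos.2 hlam
  have hsv : 0 < √(2 * (z.2.1 : ℝ)) := Real.sqrt_pos.2 (by positivity)
  have hsq : √lam * √lam = lam := Real.mul_self_sqrt hlam.le
  have e1 : √(2 * ((z.2.1 : ℝ) / lam ^ 3)) = √(2 * (z.2.1 : ℝ)) / (lam * √lam) := by
    have h3 : lam ^ 3 = (lam * √lam) ^ 2 := by
      rw [mul_pow, Real.sq_sqrt hlam.le]
      ring
    rw [h3, mul_div_assoc', Real.sqrt_div (by positivity), Real.sqrt_sq (by positivity)]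
  simp only [sc, stp]
  rw [e1, hv]
  push_cast
  have e2 : (1 / (√lam * √(2 * (z.2.1 : ℝ)))) * ((X:ℝ) - √(2 * (z.2.1 : ℝ)) * (√lam * dW)) =
      (X:ℝ) / (√lam * √(2 * (z.2.1 : ℝ))) - dW := by
    field_simp
  rw [e2]
  have e3 : √(2 * (z.2.1 : ℝ)) / (lam * √lam) *
      (dW + ((X:ℝ) / (√lam * √(2 * (z.2.1 : ℝ))) - dW)) = (X:ℝ) / (lam * (√lam * √lam)) := by
    field_simp
    ring
  rw [e3, hsq]
  field_simp
  ring

theorem cl_step2 (lam : ℝ) (hlam : 0 < lam) (z : St) (x : ℤ) :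
    (sc lam (stp z x)).2.1 = (sc lam z).2.1 + 1 / lam * (sc lam (stp z x)).1 := by
  simp only [sc, stp]
  push_cast
  field_simp

theorem cl_step3 (lam : ℝ) (hlam : 0 < lam) (z : St) (x : ℤ) :
    (sc lam (stp z x)).2.2 = (sc lam z).2.2 + 1 / lam * (sc lam (stp z x)).2.1 := by
  simp only [sc, stp]
  push_cast
  field_simp

open Classical in
/-- The comparison for a single path. -/
theorem cl_final (ε R T w η : ℝ) (hε : 0 < ε) (hR : 0 < R) (hT : 0 < T) (hw : 0 ≤ w)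
    (hη : 0 < η) : ∃ κ lam0 : ℝ, 0 < κ ∧ 0 < lam0 ∧
      ∀ (Ω : Type u) (q : ℕ → ℝ → ℤ) (W : ℝ≥0 → Ω → ℝ) (ξ : ℝ≥0 → Ω → E3) (z0 : E3) (lam : ℝ)
        (a : St) (ω : Ω), lam0 ≤ lam → dist (sc lam a) z0 ≤ κ → ξ 0 ω = z0 →
        (Continuous fun t => W t ω) → (Continuous fun t => ξ t ω) →
        (∀ t : ℝ≥0, (ξ t ω).2.1 = z0.2.1 +
          ∫ x in (0:ℝ)..t, if Alive ε ξ x.toNNReal ω then (ξ x.toNNReal ω).1 else 0) →
        (∀ t : ℝ≥0, (ξ t ω).2.2 = z0.2.2 +
          ∫ x in (0:ℝ)..t, if Alive ε ξ x.toNNReal ω then (ξ x.toNNReal ω).2.1 else 0) →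
        (∀ i : ℕ, Alive ε ξ (gt lam i) ω → (ξ (gt lam i) ω).1 - z0.1 =
          √(2 * (ξ (gt lam i) ω).2.1) * W (gt lam i) ω - √(2 * (ξ 0 ω).2.1) * W 0 ω -
          ∫ x in (0:ℝ)..(gt lam i), W x.toNNReal ω *
            ((ξ x.toNNReal ω).1 / √(2 * (ξ x.toNNReal ω).2.1))) →
        (∀ x : ℝ, 0 ≤ x → x ≤ T → |W x.toNNReal ω| ≤ w) →
        (∀ x y : ℝ, 0 ≤ x → x ≤ T → 0 ≤ y → y ≤ T → |x - y| ≤ 1 / lam →
          |W x.toNNReal ω - W y.toNNReal ω| ≤ κ ∧
            dist (ξ x.toNNReal ω) (ξ y.toNNReal ω) ≤ κ) →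
        (∀ l : ℕ, (l:ℝ) ≤ T * lam → |clbz q ε lam W a l ω| ≤ κ) →
        ∀ l : ℕ, (l:ℝ) ≤ T * lam → (∀ i < l, good ε R lam (scheme q lam W a) ξ i ω) →
          dist (sc lam (scheme q lam W a l ω)) (ξ (gt lam l) ω) ≤ η := by
  obtain ⟨C, h0, hC, hh0, hG⟩ := cl_gronwall ε R T w hε hR.le hT.le hw
  set K3 : ℝ := 3 * √(2 * R) + C + 1 with hK3
  have hK3pos : 0 < K3 := by positivity
  set κ1 : ℝ := min 1 (η / (2 * K3)) with hκ1
  have hκ1pos : 0 < κ1 := by positivity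
  have hκ1le : κ1 ≤ 1 := min_le_left _ _
  have hκ1K : K3 * κ1 ≤ η / 2 := by
    calc K3 * κ1 ≤ K3 * (η / (2 * K3)) := by
          apply mul_le_mul_of_nonneg_left (min_le_right _ _) hK3pos.le
      _ = η / 2 := by field_simp
  set K4 : ℝ := 1 + R / √(2 * ε) * T with hK4
  have hK4pos : 1 ≤ K4 := by
    have : 0 ≤ R / √(2 * ε) * T := by positivity
    linarith
  set κ : ℝ := κ1 / K4 with hκ
  have hκpos : 0 < κ := by positivity
  have hκle : κ ≤ κ1 := div_le_self hκ1pos.le hK4pos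
  set R1 : ℝ := R + 3 * √(2 * R) with hR1
  have hR1pos : 0 < R1 := by positivity
  refine ⟨κ, max (max 1 (1 / h0)) (2 * (R + R1) / η), hκpos, by positivity, ?_⟩
  intro Ω q W ξ z0 lam a ω hlam0 ha hξ0 hWc hξc hsm hss hsδ hWw hosc hbz l hl hgood
  have hlam1 : 1 ≤ lam := le_trans (le_trans (le_max_left _ _) (le_max_left _ _)) hlam0
  have hlamh : 1 / h0 ≤ lam := le_trans (le_trans (le_max_right _ _) (le_max_left _ _)) hlam0
  have hlamR : 2 * (R + R1) / η ≤ lam := le_trans (le_max_right _ _) hlam0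
  have hlam : 0 < lam := by linarith
  set h : ℝ := 1 / lam with hh
  have hhpos : 0 < h := by positivity
  have hh1 : h ≤ 1 := by
    rw [hh, div_le_one hlam]
    exact hlam1
  have hhh0 : h ≤ h0 := by
    rw [hh, div_le_iff₀ hlam]
    rw [div_le_iff₀ hh0] at hlamh
    linarith
  have hhR : h * (R + R1) ≤ η / 2 := by
    rw [div_le_iff₀ hη] at hlamR
    rw [hh, one_div, ← div_eq_inv_mul, div_le_iff₀ hlam]
    linarith
  rcases Nat.eq_zero_or_pos l with rfl | hlpos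
  · -- l = 0
    have e1 : gt lam 0 = 0 := by simp [gt]
    rw [e1, hξ0]
    have e2 : scheme q lam W a 0 ω = a := rfl
    rw [e2]
    refine ha.trans ?_
    have : κ1 ≤ η := by
      have : 1 ≤ K3 := by
        rw [hK3]
        have := Real.sqrt_nonneg (2 * R)
        linarith
      nlinarith
    linarith
  obtain ⟨J, rfl⟩ : ∃ J, l = J + 1 := ⟨l - 1, by omega⟩
  have hgJ := hgood J (by omega)
  set τ : ℕ → ℝ := fun i => (i:ℝ) / lam with hτ
  have hgtτ : ∀ i, gt lam i = (τ i).toNNReal := fun i => rfl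
  have hτ0 : ∀ i, 0 ≤ τ i := fun i => by simp only [hτ]; positivity
  have hτs : ∀ i, τ (i+1) = τ i + h := by
    intro i
    simp only [hτ, hh]
    push_cast
    ring
  have hτT : ∀ i ≤ J + 1, τ i ≤ T := by
    intro i hi
    simp only [hτ]
    rw [div_le_iff₀ hlam]
    refine le_trans ?_ hl
    exact_mod_cast hi
  have hτmono : Monotone τ := monotone_nat_of_le_succ fun i => by rw [hτs]; linarith
  have hcR : Continuous fun x : ℝ => ξ x.toNNReal ω := hξc.comp continuous_real_toNNReal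
  set p : ℝ → ℝ := fun x => (ξ x.toNNReal ω).1 with hp
  set m : ℝ → ℝ := fun x => (ξ x.toNNReal ω).2.1 with hm
  set s : ℝ → ℝ := fun x => (ξ x.toNNReal ω).2.2 with hs
  set g : ℝ → ℝ := fun x => W x.toNNReal ω with hg
  have hpc : Continuous p := continuous_fst.comp hcR
  have hmc : Continuous m := (continuous_fst.comp continuous_snd).comp hcR
  have hgc : Continuous g := hWc.comp continuous_real_toNNReal
  -- goodness of ξ
  have hξg : ∀ x, 0 ≤ x → x ≤ τ J → ε < m x ∧ ‖ξ x.toNNReal ω‖ ≤ R := by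
    intro x hx hxJ
    apply hgJ.2
    rw [hgtτ]
    exact Real.toNNReal_le_toNNReal hxJ
  have hAJ : Alive ε ξ (gt lam J) ω := fun y hy => (hgJ.2 y hy).1
  have hgJc : ((gt lam J : ℝ≥0) : ℝ) = τ J := cl_gt_coe lam hlam J
  have hmi : ∀ x, 0 ≤ x → x ≤ τ J → m x = z0.2.1 + ∫ y in (0:ℝ)..x, p y := fun x hx hxt =>
    cl_alive_int ε ξ ω (fun z => z.2.1) (fun z => z.1) z0.2.1 hsm (gt lam J) hAJ x hx
      (by rw [hgJc]; exact hxt)
  have hsi : ∀ x, 0 ≤ x → x ≤ τ J → s x = z0.2.2 + ∫ y in (0:ℝ)..x, m y := fun x hx hxt =>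
    cl_alive_int ε ξ ω (fun z => z.2.2) (fun z => z.2.1) z0.2.2 hss (gt lam J) hAJ x hx
      (by rw [hgJc]; exact hxt)
  have hcomp1 : ∀ z z' : E3, |z.1 - z'.1| ≤ dist z z' := fun z z' => by
    rw [← Real.dist_eq, Prod.dist_eq]
    exact le_max_left _ _
  have hcomp2 : ∀ z z' : E3, |z.2.1 - z'.2.1| ≤ dist z z' := fun z z' => by
    rw [← Real.dist_eq, Prod.dist_eq, Prod.dist_eq]
    exact (le_max_left _ _).trans (le_max_right _ _)
  have hcomp3 : ∀ z z' : E3, |z.2.2 - z'.2.2| ≤ dist z z' := fun z z' => by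
    rw [← Real.dist_eq, Prod.dist_eq, Prod.dist_eq]
    exact (le_max_right _ _).trans (le_max_right _ _)
  have hnorm1 : ∀ z : E3, |z.1| ≤ ‖z‖ := fun z => by
    rw [← Real.norm_eq_abs]
    exact norm_fst_le z
  have hnorm2 : ∀ z : E3, |z.2.1| ≤ ‖z‖ := fun z => by
    rw [← Real.norm_eq_abs]
    exact (norm_fst_le z.2).trans (norm_snd_le z)
  have hoscb : ∀ i < J + 1, ∀ x, τ i ≤ x → x ≤ τ (i+1) →
      |g x - g (τ (i+1))| ≤ κ ∧ dist (ξ x.toNNReal ω) (ξ (τ (i+1)).toNNReal ω) ≤ κ := by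
    intro i hi x hx1 hx2
    apply hosc x (τ (i+1)) ((hτ0 i).trans hx1) (hx2.trans (hτT _ (by omega))) (hτ0 _)
      (hτT _ (by omega))
    rw [abs_sub_comm, abs_of_nonneg (by linarith)]
    have := hτs i
    linarith
  set D : ℕ → ℝ := fun i => (sc lam (scheme q lam W a i ω)).1 with hD
  set M : ℕ → ℝ := fun i => (sc lam (scheme q lam W a i ω)).2.1 with hM
  set S : ℕ → ℝ := fun i => (sc lam (scheme q lam W a i ω)).2.2 with hS
  have hM2 : ∀ i, M (i+1) = M i + h * D (i+1) := fun i => cl_step2 lam hlam _ _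
  have hS2 : ∀ i, S (i+1) = S i + h * M (i+1) := fun i => cl_step3 lam hlam _ _
  have hMalive : ∀ i ≤ J, ε * lam ^ 3 ≤ ((scheme q lam W a i ω).2.1 : ℝ) := fun i hi =>
    (hgJ.1 i hi).1
  have hD2 : ∀ i ≤ J, D (i+1) - D i = √(2 * M i) * ((g (τ (i+1)) - g (τ i)) +
      (clbz q ε lam W a (i+1) ω - clbz q ε lam W a i ω)) := fun i hi =>
    cl_step q ε lam hε hlam W a i ω (hMalive i hi)
  have hbl : ∀ i ≤ J + 1, |clbz q ε lam W a i ω| ≤ κ := by
    intro i hi
    apply hbz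
    refine le_trans ?_ hl
    exact_mod_cast hi
  have hMε : ∀ i ≤ J, ε ≤ M i := by
    intro i hi
    have := hMalive i hi
    simp only [hM, sc]
    rw [le_div_iff₀ (by positivity)]
    exact this
  have hDR : ∀ i ≤ J, |D i| ≤ R := fun i hi => (hnorm1 _).trans (hgJ.1 i hi).2
  have hMR : ∀ i ≤ J, M i ≤ R := fun i hi =>
    (le_abs_self _).trans ((hnorm2 _).trans (hgJ.1 i hi).2)
  have key := hG κ1 h J D M S (fun i => p (τ i)) (fun i => m (τ i)) (fun i => s (τ i))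
    (fun i => g (τ i)) (fun i => clbz q ε lam W a i ω) hκ1pos.le hκ1le hhpos hhh0 (by
      have := hτT J (by omega)
      simp only [hτ] at this
      rw [hh, mul_one_div]
      exact this) hMε hDR hMR
    (fun i hi => (hξg _ (hτ0 i) (hτmono hi)).1.le)
    (fun i hi => (hnorm1 _).trans (hξg _ (hτ0 i) (hτmono hi)).2)
    (fun i hi => hD2 i hi.le) (fun i _ => hM2 i) (fun i _ => hS2 i)
    (by
      intro i hi
      have h1 := cl_inc p m z0.2.1 (τ J) hpc hmi (τ i) (τ (i+1)) κ (hτ0 i)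
        (hτmono (Nat.le_succ i)) (hτmono hi) (fun x hx1 hx2 =>
          (hcomp1 _ _).trans (hoscb i (by omega) x hx1 hx2).2)
      rw [hτs i, add_sub_cancel_left] at h1
      rw [← hτs i] at h1
      refine h1.trans ?_
      exact mul_le_mul_of_nonneg_left hκle hhpos.le)
    (by
      intro i hi
      have h1 := cl_inc m s z0.2.2 (τ J) hmc hsi (τ i) (τ (i+1)) κ (hτ0 i)
        (hτmono (Nat.le_succ i)) (hτmono hi) (fun x hx1 hx2 =>
          (hcomp2 _ _).trans (hoscb i (by omega) x hx1 hx2).2)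
      rw [hτs i, add_sub_cancel_left] at h1
      rw [← hτs i] at h1
      refine h1.trans ?_
      exact mul_le_mul_of_nonneg_left hκle hhpos.le)
    (by
      intro j hj
      have hτjJ : τ j ≤ τ J := hτmono hj
      have h1 := cl_rsum p m g z0.2.1 (τ j) ε R hε hpc hgc
        (fun x hx hxt => hmi x hx (hxt.trans hτjJ))
        (fun x hx hxt => (hξg x hx (hxt.trans hτjJ)).1.le)
        (fun x hx hxt => (hnorm1 _).trans (hξg x hx (hxt.trans hτjJ)).2) τ j
        (by simp [hτ]) rfl (fun i _ => hτmono (Nat.le_succ i)) κ hκpos.le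
        (fun i hi x hx1 hx2 => (hoscb i (by omega) x hx1 hx2).1)
      have h2 := hsδ j (cl_alive_mono ε ξ _ _ (cl_gt_mono lam hlam hj) ω hAJ)
      rw [cl_gt_coe lam hlam j] at h2
      have e0 : p (τ 0) = z0.1 := by
        have : τ 0 = 0 := by simp [hτ]
        simp only [hp, this, Real.toNNReal_zero, hξ0]
      have e1 : m 0 = (ξ 0 ω).2.1 := by simp only [hm, Real.toNNReal_zero]
      have e2 : g 0 = W 0 ω := by simp only [hg, Real.toNNReal_zero]
      rw [e1, e2] at h1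
      have h3 : p (τ j) - z0.1 = √(2 * m (τ j)) * g (τ j) - √(2 * (ξ 0 ω).2.1) * W 0 ω -
          ∫ x in (0:ℝ)..(τ j), g x * (p x / √(2 * m x)) := h2
      rw [← h3] at h1
      rw [e0, abs_sub_comm]
      refine h1.trans ?_
      have h4 : κ * (R / √(2 * ε)) * τ j ≤ κ * (R / √(2 * ε)) * T := by
        apply mul_le_mul_of_nonneg_left (hτT j (by omega)) (by positivity)
      refine h4.trans ?_
      have h5 : κ * K4 = κ1 := by
        rw [hκ]
        field_simp
      have h6 : κ * (R / √(2 * ε)) * T ≤ κ * K4 := by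
        rw [hK4]
        nlinarith
      linarith)
    (fun i hi => hWw _ (hτ0 i) (hτT i (by omega)))
    (fun i hi => (hbl i (by omega)).trans hκle)
    (by
      have e0 : τ 0 = 0 := by simp [hτ]
      have e1 : scheme q lam W a 0 ω = a := rfl
      simp only [hD, hp, e0, Real.toNNReal_zero, hξ0, e1]
      exact ((hcomp1 _ _).trans ha).trans hκle)
    (by
      have e0 : τ 0 = 0 := by simp [hτ]
      have e1 : scheme q lam W a 0 ω = a := rfl
      simp only [hM, hm, e0, Real.toNNReal_zero, hξ0, e1]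
      exact ((hcomp2 _ _).trans ha).trans hκle)
    (by
      have e0 : τ 0 = 0 := by simp [hτ]
      have e1 : scheme q lam W a 0 ω = a := rfl
      simp only [hS, hs, e0, Real.toNNReal_zero, hξ0, e1]
      exact ((hcomp3 _ _).trans ha).trans hκle)
    J le_rfl
  obtain ⟨k1, k2, k3⟩ := key
  -- the last step
  have hlast := hoscb J (by omega) (τ J) le_rfl (hτmono (Nat.le_succ J))
  have hMJ : 0 ≤ √(2 * M J) := Real.sqrt_nonneg _
  have hMJR : √(2 * M J) ≤ √(2 * R) := Real.sqrt_le_sqrt (by linarith [hMR J le_rfl])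
  have f1 : |D (J+1) - D J| ≤ √(2 * R) * (3 * κ) := by
    rw [hD2 J le_rfl, abs_mul, abs_of_nonneg hMJ]
    apply mul_le_mul hMJR _ (abs_nonneg _) (Real.sqrt_nonneg _)
    have b1 := hbl J (by omega)
    have b2 := hbl (J+1) le_rfl
    have b3 := hlast.1
    rw [abs_sub_comm] at b3
    calc |(g (τ (J+1)) - g (τ J)) + (clbz q ε lam W a (J+1) ω - clbz q ε lam W a J ω)| ≤
        |g (τ (J+1)) - g (τ J)| + |clbz q ε lam W a (J+1) ω - clbz q ε lam W a J ω| :=
          abs_add_le _ _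
      _ ≤ |g (τ (J+1)) - g (τ J)| + (|clbz q ε lam W a (J+1) ω| + |clbz q ε lam W a J ω|) := by
        gcongr
        exact abs_sub _ _
      _ ≤ 3 * κ := by linarith
  have hsR := Real.sqrt_nonneg (2 * R)
  have f2 : |D (J+1)| ≤ R1 := by
    have : |D (J+1)| ≤ |D (J+1) - D J| + |D J| := by
      calc |D (J+1)| = |(D (J+1) - D J) + D J| := by rw [sub_add_cancel]
        _ ≤ _ := abs_add_le _ _
    have h7 := hDR J le_rfl
    have h8 : √(2 * R) * (3 * κ) ≤ √(2 * R) * (3 * 1) := by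
      gcongr
      exact hκle.trans hκ1le
    rw [hR1]
    linarith
  have f3 : |M (J+1) - M J| ≤ h * R1 := by
    rw [hM2, add_sub_cancel_left, abs_mul, abs_of_pos hhpos]
    exact mul_le_mul_of_nonneg_left f2 hhpos.le
  have f4 : |M (J+1)| ≤ R + R1 := by
    have : |M (J+1)| ≤ |M (J+1) - M J| + |M J| := by
      calc |M (J+1)| = |(M (J+1) - M J) + M J| := by rw [sub_add_cancel]
        _ ≤ _ := abs_add_le _ _
    have h7 : |M J| ≤ R := (hnorm2 _).trans (hgJ.1 J le_rfl).2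
    have h8 : h * R1 ≤ 1 * R1 := by gcongr
    linarith
  have f5 : |S (J+1) - S J| ≤ h * (R + R1) := by
    rw [hS2, add_sub_cancel_left, abs_mul, abs_of_pos hhpos]
    exact mul_le_mul_of_nonneg_left f4 hhpos.le
  have f3' : h * R1 ≤ h * (R + R1) := by
    apply mul_le_mul_of_nonneg_left _ hhpos.le
    linarith
  have g1 : |p (τ J) - p (τ (J+1))| ≤ κ1 := ((hcomp1 _ _).trans hlast.2).trans hκle
  have g2 : |m (τ J) - m (τ (J+1))| ≤ κ1 := ((hcomp2 _ _).trans hlast.2).trans hκle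
  have g3 : |s (τ J) - s (τ (J+1))| ≤ κ1 := ((hcomp3 _ _).trans hlast.2).trans hκle
  have tri : ∀ x y z t : ℝ, |x - t| ≤ |x - y| + |y - z| + |z - t| := by
    intro x y z t
    calc |x - t| = |(x - y) + (y - z) + (z - t)| := by ring_nf
      _ ≤ _ := abs_add_three _ _ _
  have hfin : h * (R + R1) + K3 * κ1 ≤ η := by linarith
  have r1 : √(2 * R) * (3 * κ) ≤ √(2 * R) * (3 * κ1) := by gcongr
  have r2 : 0 ≤ h * (R + R1) := by positivity
  have r3 : 0 ≤ √(2 * R) * κ1 := by positivity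
  have r4 : K3 * κ1 = 3 * (√(2 * R) * κ1) + C * κ1 + κ1 := by
    rw [hK3]
    ring
  rw [Prod.dist_eq, Prod.dist_eq]
  apply max_le
  · rw [Real.dist_eq]
    have t1 := tri (D (J+1)) (D J) (p (τ J)) (p (τ (J+1)))
    change |D (J+1) - p (τ (J+1))| ≤ η
    linarith
  apply max_le
  · rw [Real.dist_eq]
    have t1 := tri (M (J+1)) (M J) (m (τ J)) (m (τ (J+1)))
    change |M (J+1) - m (τ (J+1))| ≤ η
    linarith
  · rw [Real.dist_eq]
    have t1 := tri (S (J+1)) (S J) (s (τ J)) (s (τ (J+1)))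
    change |S (J+1) - s (τ (J+1))| ≤ η
    linarith

end Pool.Agent.Helper7.Stuck
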