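import Pool.Agent.Helper7.Stuck.Scheme
import Pool.Agent.Helper7.Stuck.Quant
import Pool.Agent.Helper7.Stuck.Close5

/-!
STUCK CLOSE: the scheme stays close to the solution of the frozen equation.
-/

open MeasureTheory ProbabilityTheory Filter Topology
open scoped NNReal ENNReal

namespace Pool.Agent.Helper7.Stuck

universe u

theorem cl_tend {Ω X : Type*} [mΩ : MeasurableSpace Ω] [TopologicalSpace X]
    [TopologicalSpace.SeparableSpace X] [Nonempty X] (P : Measure Ω) [IsProbabilityMeasure P]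
    (f : X → Ω → ℝ) (hf : ∀ x, Measurable (f x)) (U : ℕ → Set X) (hU : ∀ n, IsOpen (U n))
    (κ : ℕ → ℝ) (hev : ∀ᵐ ω ∂P, ∀ᶠ n in atTop, ∀ x ∈ U n, f x ω ≤ κ n) :
    ∃ E : ℕ → Set Ω, Tendsto (fun n => P (E n)) atTop (𝓝 0) ∧
      ∀ n ω, Continuous (fun x => f x ω) → (∃ x ∈ U n, κ n < f x ω) → ω ∈ E n := by
  set d : ℕ → X := TopologicalSpace.denseSeq X with hd
  have hdd : DenseRange d := TopologicalSpace.denseRange_denseSeq X
  refine ⟨fun n => ⋃ k, {ω | d k ∈ U n ∧ κ n < f (d k) ω}, ?_, ?_⟩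
  · have hm : ∀ n, MeasurableSet (⋃ k, {ω | d k ∈ U n ∧ κ n < f (d k) ω}) := by
      intro n
      refine MeasurableSet.iUnion fun k => ?_
      exact (MeasurableSet.const _).inter (measurableSet_lt measurable_const (hf _))
    have h1 := tendsto_measure_of_ae_tendsto_indicator_of_isFiniteMeasure (μ := P)
      (As := fun n => ⋃ k, {ω | d k ∈ U n ∧ κ n < f (d k) ω}) atTop MeasurableSet.empty hm (by
        filter_upwards [hev] with ω h2
        filter_upwards [h2] with n h3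
        simp only [Set.mem_iUnion, Set.mem_ofPred_eq, Set.mem_empty_iff_false, iff_false,
          not_exists, not_and, not_lt]
        exact fun k hk => h3 _ hk)
    simpa using h1
  · intro n ω hc ⟨x, hx, hκ⟩
    have hO : IsOpen (U n ∩ {x | κ n < f x ω}) :=
      (hU n).inter (isOpen_lt continuous_const hc)
    obtain ⟨k, hk⟩ := hdd.exists_mem_open hO ⟨x, hx, hκ⟩
    exact Set.mem_iUnion.2 ⟨k, hk.1, hk.2⟩

theorem close_before {Ω : Type*} [mΩ : MeasurableSpace Ω] (P : Measure Ω)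
    [IsProbabilityMeasure P] (ℱ : Filtration ℝ≥0 mΩ) (W : ℝ≥0 → Ω → ℝ) (ε : ℝ) (hε : 0 < ε)
    (z0 : E3) (hz0 : ε < z0.2.1) (ξ : ℝ≥0 → Ω → E3) (hξ : IsFrozenSol P ℱ W ε z0 ξ)
    (q : ℕ → ℝ → ℤ) (om : ℕ → ℝ) (hq : IsQuant q om)
    (lam : ℕ → ℝ) (hlam : Tendsto lam atTop atTop) (a : ℕ → St)
    (ha : Tendsto (fun n => sc (lam n) (a n)) atTop (𝓝 z0)) (T R η : ℝ) (hT : 0 < T)
    (hR : 0 < R) (hη : 0 < η) :
    Tendsto (fun n => P {ω | (∀ y : ℝ≥0, (y:ℝ) ≤ T + 1 → ‖ξ y ω‖ ≤ R) ∧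
      ∃ l : ℕ, (l:ℝ) ≤ T * lam n ∧
        (∀ i < l, good ε R (lam n) (scheme q (lam n) W (a n)) ξ i ω) ∧
        η < dist (sc (lam n) (scheme q (lam n) W (a n) l ω)) (ξ (gt (lam n) l) ω)})
      atTop (𝓝 0) := by
  classical
  have hWm : ∀ t, Measurable (W t) := fun t => (hξ.adaptedW t).mono (ℱ.le t) le_rfl
  have hξm : ∀ t, Measurable (ξ t) := fun t => (hξ.adapted t).mono (ℱ.le t) le_rfl
  set T1 : ℝ≥0 := (T + 1).toNNReal with hT1
  have hT1c : (T1 : ℝ) = T + 1 := Real.coe_toNNReal _ (by linarith)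
  have hcpt : IsCompact (Set.Icc (0:ℝ≥0) T1) := isCompact_Icc
  -- the supremum
  obtain ⟨E1, hE1, hE1'⟩ := cl_tend P (fun x ω => |W x ω|) (fun x => (hWm x).abs)
    (fun _ => Set.Iio T1) (fun _ => isOpen_Iio) (fun n => (n:ℝ)) (by
      filter_upwards [hξ.brownian.cont] with ω hc
      obtain ⟨C, hC⟩ := hcpt.exists_bound_of_continuousOn (f := fun x => W x ω) hc.continuousOn
      filter_upwards [eventually_ge_atTop ⌈C⌉₊] with n hn x hx
      have h1 := hC x ⟨bot_le, (Set.mem_Iio.1 hx).le⟩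
      rw [Real.norm_eq_abs] at h1
      exact h1.trans ((Nat.le_ceil C).trans (by exact_mod_cast hn)))
  rw [ENNReal.tendsto_nhds_zero]
  intro e he
  have he4 : 0 < e / 4 := ENNReal.div_pos he.ne' (by norm_num)
  rw [ENNReal.tendsto_nhds_zero] at hE1
  obtain ⟨k, hk⟩ := (hE1 (e / 4) he4).exists
  obtain ⟨κ, lam0, hκ, hlam0, hF⟩ := cl_final ε R T (k:ℝ) η hε hR hT (Nat.cast_nonneg k) hη
  -- oscillation
  set f2 : ℝ≥0 × ℝ≥0 → Ω → ℝ := fun x ω =>
    max |W x.1 ω - W x.2 ω| (dist (ξ x.1 ω) (ξ x.2 ω)) with hf2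
  obtain ⟨E2, hE2, hE2'⟩ := cl_tend P f2 (fun x => by
      simp only [hf2]
      exact ((hWm _).sub (hWm _)).abs.max ((hξm _).dist (hξm _)))
    (fun n => {x | x.1 < T1 ∧ x.2 < T1 ∧ dist x.1 x.2 < 2 / lam n})
    (fun n => by
      have o1 : IsOpen {x : ℝ≥0 × ℝ≥0 | x.1 < T1} := isOpen_lt continuous_fst continuous_const
      have o2 : IsOpen {x : ℝ≥0 × ℝ≥0 | x.2 < T1} := isOpen_lt continuous_snd continuous_const
      have o3 : IsOpen {x : ℝ≥0 × ℝ≥0 | dist x.1 x.2 < 2 / lam n} :=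
        isOpen_lt (continuous_fst.dist continuous_snd) continuous_const
      exact o1.inter (o2.inter o3))
    (fun _ => κ) (by
      filter_upwards [hξ.brownian.cont] with ω hc
      have u1 := hcpt.uniformContinuousOn_of_continuous (f := fun x => W x ω) hc.continuousOn
      have u2 := hcpt.uniformContinuousOn_of_continuous (f := fun x => ξ x ω)
        (hξ.cont ω).continuousOn
      obtain ⟨δ1, hδ1, h1⟩ := Metric.uniformContinuousOn_iff.1 u1 κ hκ
      obtain ⟨δ2, hδ2, h2⟩ := Metric.uniformContinuousOn_iff.1 u2 κ hκ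
      have h3 : Tendsto (fun n => 2 / lam n) atTop (𝓝 0) := hlam.const_div_atTop 2
      filter_upwards [h3.eventually (gt_mem_nhds (lt_min hδ1 hδ2))] with n hn x hx
      obtain ⟨x1, x2, x3⟩ := hx
      have m1 : x.1 ∈ Set.Icc (0:ℝ≥0) T1 := ⟨bot_le, x1.le⟩
      have m2 : x.2 ∈ Set.Icc (0:ℝ≥0) T1 := ⟨bot_le, x2.le⟩
      have k1 := h1 x.1 m1 x.2 m2 ((x3.trans hn).trans_le (min_le_left _ _))
      have k2 := h2 x.1 m1 x.2 m2 ((x3.trans hn).trans_le (min_le_right _ _))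
      rw [Real.dist_eq] at k1
      exact max_le k1.le k2.le)
  -- noise
  have hE3 := cl_noise P ℱ W hξ.brownian hξ.adaptedW hξ.indep q om hq ε hε lam hlam a T κ hT hκ
  rw [ENNReal.tendsto_nhds_zero] at hE2 hE3
  -- the almost sure properties
  have hae : ∀ᵐ ω ∂P, ∀ n i : ℕ, Alive ε ξ (gt (lam n) i) ω → (ξ (gt (lam n) i) ω).1 - z0.1 =
      √(2 * (ξ (gt (lam n) i) ω).2.1) * W (gt (lam n) i) ω - √(2 * (ξ 0 ω).2.1) * W 0 ω -
      ∫ x in (0:ℝ)..(gt (lam n) i), W x.toNNReal ω *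
        ((ξ x.toNNReal ω).1 / √(2 * (ξ x.toNNReal ω).2.1)) :=
    ae_all_iff.2 fun n => ae_all_iff.2 fun i => cl_sde1 P ℱ W ε hε z0 ξ hξ _
  filter_upwards [hE2 (e / 4) he4, hE3 (e / 4) he4, hlam.eventually_ge_atTop lam0,
    ha.eventually (Metric.closedBall_mem_nhds z0 hκ)] with n h2 h3 h4 h5
  set E3' : Set Ω := {ω | ∃ l : ℕ, (l:ℝ) ≤ T * lam n ∧ κ < |clbz q ε (lam n) W (a n) l ω|}
    with hE3'
  have hlamn : 0 < lam n := hlam0.trans_le h4
  have hle : {ω | (∀ y : ℝ≥0, (y:ℝ) ≤ T + 1 → ‖ξ y ω‖ ≤ R) ∧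
      ∃ l : ℕ, (l:ℝ) ≤ T * lam n ∧
        (∀ i < l, good ε R (lam n) (scheme q (lam n) W (a n)) ξ i ω) ∧
        η < dist (sc (lam n) (scheme q (lam n) W (a n) l ω)) (ξ (gt (lam n) l) ω)} ≤ᵐ[P]
      (E1 k ∪ E2 n ∪ E3' : Set Ω) := by
    filter_upwards [hξ.brownian.cont, hξ.sde_m, hξ.sde_s, hae] with ω a1 a2 a3 a4
    rintro ⟨-, l, hl, hg, hd⟩
    by_contra hcon
    have hcon' : ω ∉ (E1 k ∪ E2 n ∪ E3' : Set Ω) := hcon
    simp only [Set.mem_union, not_or] at hcon'
    obtain ⟨⟨c1, c2⟩, c3⟩ := hcon'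
    have key := hF Ω q W ξ z0 (lam n) (a n) ω h4 (Metric.mem_closedBall.1 h5) (hξ.init ω) a1
      (hξ.cont ω) a2 a3 (fun i => a4 n i) (by
        intro x hx hxT
        by_contra hlt
        apply c1
        apply hE1' k ω (by fun_prop)
        refine ⟨x.toNNReal, ?_, not_le.1 hlt⟩
        rw [Set.mem_Iio, hT1]
        exact (Real.toNNReal_lt_toNNReal_iff (by linarith)).2 (by linarith)) (by
        intro x y hx hxT hy hyT hxy
        by_contra hlt
        apply c2
        apply hE2' n ω ?_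
        · refine ⟨(x.toNNReal, y.toNNReal), ⟨?_, ?_, ?_⟩, ?_⟩
          · rw [hT1]
            exact (Real.toNNReal_lt_toNNReal_iff (by linarith)).2 (by linarith)
          · rw [hT1]
            exact (Real.toNNReal_lt_toNNReal_iff (by linarith)).2 (by linarith)
          · rw [NNReal.dist_eq, Real.coe_toNNReal x hx, Real.coe_toNNReal y hy]
            refine hxy.trans_lt ?_
            gcongr
            norm_num
          · simp only [hf2]
            rw [lt_max_iff]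
            by_contra hno
            rw [not_or, not_lt, not_lt] at hno
            exact hlt hno
        · simp only [hf2]
          have hc1 := hξ.cont ω
          have i1 : Continuous fun x : ℝ≥0 × ℝ≥0 => W x.1 ω := a1.comp continuous_fst
          have i2 : Continuous fun x : ℝ≥0 × ℝ≥0 => W x.2 ω := a1.comp continuous_snd
          have i3 : Continuous fun x : ℝ≥0 × ℝ≥0 => ξ x.1 ω := hc1.comp continuous_fst
          have i4 : Continuous fun x : ℝ≥0 × ℝ≥0 => ξ x.2 ω := hc1.comp continuous_snd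
          exact (i1.sub i2).abs.max (i3.dist i4)) (by
        intro l' hl'
        by_contra hlt
        exact c3 ⟨l', hl', not_le.1 hlt⟩) l hl hg
    exact absurd key (not_le.2 hd)
  refine (measure_mono_ae hle).trans ?_
  calc P (E1 k ∪ E2 n ∪ E3') ≤ P (E1 k ∪ E2 n) + P E3' := measure_union_le _ _
    _ ≤ (P (E1 k) + P (E2 n)) + P E3' := by
      gcongr
      exact measure_union_le _ _
    _ ≤ (e / 4 + e / 4) + e / 4 := by gcongr
    _ ≤ (e / 4 + e / 4) + (e / 4 + e / 4) := by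
      gcongr
      exact le_self_add
    _ = e := by
      have : e / 4 + e / 4 = e / 2 := by
        have h6 : e / 4 = (e / 2) / 2 := by
          rw [ENNReal.div_eq_inv_mul, ENNReal.div_eq_inv_mul, ENNReal.div_eq_inv_mul, ← mul_assoc,
            ← ENNReal.mul_inv (by norm_num) (by norm_num)]
          norm_num
        rw [h6, ENNReal.add_halves]
      rw [this, ENNReal.add_halves]

end Pool.Agent.Helper7.Stuck
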