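import Pool.Agent.Helper7.Stuck.Defs

/-!
STUCK CLOSE, part 1: deterministic estimates (discrete Gronwall).
-/

open MeasureTheory ProbabilityTheory Filter Topology
open scoped NNReal ENNReal

namespace Pool.Agent.Helper7.Stuck

/-- Abel summation. -/
theorem cl_abel (u g : ℕ → ℝ) (n : ℕ) :
    ∑ i ∈ Finset.range n, u i * (g (i+1) - g i) =
      u n * g n - u 0 * g 0 - ∑ i ∈ Finset.range n, g (i+1) * (u (i+1) - u i) := by
  induction n with
  | zero => simp
  | succ n ih =>
    rw [Finset.sum_range_succ, Finset.sum_range_succ, ih]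
    ring

theorem cl_abel_bound (u g : ℕ → ℝ) (n : ℕ) (G : ℝ) (hg : ∀ i ≤ n, |g i| ≤ G) :
    |∑ i ∈ Finset.range n, u i * (g (i+1) - g i)| ≤
      G * (|u n| + |u 0| + ∑ i ∈ Finset.range n, |u (i+1) - u i|) := by
  rw [cl_abel]
  have h1 : |u n * g n| ≤ G * |u n| := by
    rw [abs_mul, mul_comm]
    exact mul_le_mul_of_nonneg_right (hg n le_rfl) (abs_nonneg _)
  have h2 : |u 0 * g 0| ≤ G * |u 0| := by
    rw [abs_mul, mul_comm]
    exact mul_le_mul_of_nonneg_right (hg 0 (Nat.zero_le _)) (abs_nonneg _)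
  have h3 : |∑ i ∈ Finset.range n, g (i+1) * (u (i+1) - u i)| ≤
      G * ∑ i ∈ Finset.range n, |u (i+1) - u i| := by
    rw [Finset.mul_sum]
    refine (Finset.abs_sum_le_sum_abs _ _).trans (Finset.sum_le_sum fun i hi => ?_)
    rw [abs_mul]
    exact mul_le_mul_of_nonneg_right (hg _ (Finset.mem_range.1 hi)) (abs_nonneg _)
  have h4 := abs_sub (u n * g n - u 0 * g 0) (∑ i ∈ Finset.range n, g (i+1) * (u (i+1) - u i))
  have h5 := abs_sub (u n * g n) (u 0 * g 0)
  calc _ ≤ |u n * g n - u 0 * g 0| + |∑ i ∈ Finset.range n, g (i+1) * (u (i+1) - u i)| := h4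
    _ ≤ (|u n * g n| + |u 0 * g 0|) + |∑ i ∈ Finset.range n, g (i+1) * (u (i+1) - u i)| := by
      linarith
    _ ≤ _ := by
      rw [mul_add, mul_add]
      linarith

/-- `√(2a)` is Lipschitz on `[ε, ∞)`. -/
theorem cl_sqrt_lip (ε a b : ℝ) (hε : 0 < ε) (ha : ε ≤ a) (hb : ε ≤ b) :
    |√(2 * a) - √(2 * b)| ≤ 1 / √(2 * ε) * |a - b| := by
  have hE : 0 < √(2 * ε) := Real.sqrt_pos.2 (by linarith)
  have h1 : √(2 * ε) ≤ √(2 * a) := Real.sqrt_le_sqrt (by linarith)
  have h2 : √(2 * ε) ≤ √(2 * b) := Real.sqrt_le_sqrt (by linarith)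
  have h3 : (√(2 * a) - √(2 * b)) * (√(2 * a) + √(2 * b)) = 2 * (a - b) := by
    have e1 : √(2 * a) ^ 2 = 2 * a := Real.sq_sqrt (by linarith)
    have e2 : √(2 * b) ^ 2 = 2 * b := Real.sq_sqrt (by linarith)
    ring_nf
    ring_nf at e1 e2
    linarith
  have h4 : |√(2 * a) - √(2 * b)| * (√(2 * a) + √(2 * b)) = 2 * |a - b| := by
    have := congrArg abs h3
    rw [abs_mul, abs_mul, abs_of_pos (by linarith : 0 < √(2 * a) + √(2 * b))] at this
    rw [this, abs_of_pos (by norm_num : (0:ℝ) < 2)]
  have h5 : |√(2 * a) - √(2 * b)| * (2 * √(2 * ε)) ≤ 2 * |a - b| := by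
    rw [← h4]
    apply mul_le_mul_of_nonneg_left (by linarith) (abs_nonneg _)
  rw [one_div, ← div_eq_inv_mul, le_div_iff₀ hE]
  linarith

/-- Second differences of `√(2a)`. -/
theorem cl_sqrt_diff2 (ε a a' b b' : ℝ) (hε : 0 < ε) (ha : ε ≤ a) (ha' : ε ≤ a') (hb : ε ≤ b)
    (hb' : ε ≤ b') :
    |(√(2 * a') - √(2 * b')) - (√(2 * a) - √(2 * b))| ≤
      1 / √(2 * ε) * (|(a' - a) - (b' - b)| +
        1 / (4 * ε) * |b' - b| * (|a - b| + |a' - b'|)) := by
  have hE : 0 < √(2 * ε) := Real.sqrt_pos.2 (by linarith)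
  set fa := √(2 * a) with hfa
  set fa' := √(2 * a') with hfa'
  set fb := √(2 * b) with hfb
  set fb' := √(2 * b') with hfb'
  have h1 : √(2 * ε) ≤ fa := Real.sqrt_le_sqrt (by linarith)
  have h2 : √(2 * ε) ≤ fa' := Real.sqrt_le_sqrt (by linarith)
  have h3 : √(2 * ε) ≤ fb := Real.sqrt_le_sqrt (by linarith)
  have h4 : √(2 * ε) ≤ fb' := Real.sqrt_le_sqrt (by linarith)
  have e1 : fa ^ 2 = 2 * a := Real.sq_sqrt (by linarith)
  have e2 : fa' ^ 2 = 2 * a' := Real.sq_sqrt (by linarith)
  have e3 : fb ^ 2 = 2 * b := Real.sq_sqrt (by linarith)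
  have e4 : fb' ^ 2 = 2 * b' := Real.sq_sqrt (by linarith)
  have eE : √(2 * ε) ^ 2 = 2 * ε := Real.sq_sqrt (by linarith)
  have p1 : 0 < fa + fa' := by linarith
  have p2 : 0 < fb + fb' := by linarith
  -- the identity
  have key : (fa' - fb') - (fa - fb) = ((a' - a) - (b' - b)) * (2 / (fa + fa')) +
      (b' - b) * (2 * ((fb - fa) + (fb' - fa')) / ((fa + fa') * (fb + fb'))) := by
    have q1 : fa' - fa = (a' - a) * (2 / (fa + fa')) := by
      rw [mul_div_assoc', eq_div_iff p1.ne']
      nlinarith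
    have q2 : fb' - fb = (b' - b) * (2 / (fb + fb')) := by
      rw [mul_div_assoc', eq_div_iff p2.ne']
      nlinarith
    have q3 : (fa' - fb') - (fa - fb) = (fa' - fa) - (fb' - fb) := by ring
    rw [q3, q1, q2]
    field_simp
    ring
  rw [key]
  have r1 : |((a' - a) - (b' - b)) * (2 / (fa + fa'))| ≤
      1 / √(2 * ε) * |(a' - a) - (b' - b)| := by
    rw [abs_mul, mul_comm]
    apply mul_le_mul_of_nonneg_right _ (abs_nonneg _)
    rw [abs_of_pos (by positivity), div_le_div_iff₀ p1 hE]
    linarith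
  have l1 := cl_sqrt_lip ε a b hε ha hb
  have l2 := cl_sqrt_lip ε a' b' hε ha' hb'
  have r2 : |(b' - b) * (2 * ((fb - fa) + (fb' - fa')) / ((fa + fa') * (fb + fb')))| ≤
      1 / √(2 * ε) * (1 / (4 * ε) * |b' - b| * (|a - b| + |a' - b'|)) := by
    have s1 : |(fb - fa) + (fb' - fa')| ≤ 1 / √(2 * ε) * (|a - b| + |a' - b'|) := by
      calc |(fb - fa) + (fb' - fa')| ≤ |fb - fa| + |fb' - fa'| := abs_add_le _ _
        _ = |fa - fb| + |fa' - fb'| := by rw [abs_sub_comm fb, abs_sub_comm fb']
        _ ≤ _ := by rw [mul_add]; exact add_le_add l1 l2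
    have s2 : 8 * ε ≤ (fa + fa') * (fb + fb') := by
      calc 8 * ε = (2 * √(2 * ε)) * (2 * √(2 * ε)) := by nlinarith
        _ ≤ (fa + fa') * (fb + fb') := by
          apply mul_le_mul (by linarith) (by linarith) (by positivity) (by positivity)
    rw [abs_mul, abs_div, abs_mul, abs_of_pos (mul_pos p1 p2),
      abs_of_pos (by norm_num : (0:ℝ) < 2)]
    have s3 : 2 * |(fb - fa) + (fb' - fa')| / ((fa + fa') * (fb + fb')) ≤
        2 * (1 / √(2 * ε) * (|a - b| + |a' - b'|)) / (8 * ε) := by
      apply div_le_div₀ (by positivity) (by linarith) (by positivity) s2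
    calc |b' - b| * (2 * |(fb - fa) + (fb' - fa')| / ((fa + fa') * (fb + fb'))) ≤
        |b' - b| * (2 * (1 / √(2 * ε) * (|a - b| + |a' - b'|)) / (8 * ε)) :=
          mul_le_mul_of_nonneg_left s3 (abs_nonneg _)
      _ = _ := by
        field_simp
        ring
  calc _ ≤ _ := abs_add_le _ _
    _ ≤ _ := add_le_add r1 r2
    _ = _ := by ring

/-- Discrete Gronwall estimate comparing the scheme with the sampled solution. -/
theorem cl_gronwall (ε R T w : ℝ) (hε : 0 < ε) (hR : 0 ≤ R) (hT : 0 ≤ T) (hw : 0 ≤ w) :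
    ∃ C h0 : ℝ, 0 < C ∧ 0 < h0 ∧ ∀ (κ h : ℝ) (J : ℕ) (D M S p m s Wv b : ℕ → ℝ),
      0 ≤ κ → κ ≤ 1 → 0 < h → h ≤ h0 → (J:ℝ) * h ≤ T →
      (∀ i ≤ J, ε ≤ M i) → (∀ i ≤ J, |D i| ≤ R) → (∀ i ≤ J, M i ≤ R) →
      (∀ i ≤ J, ε ≤ m i) → (∀ i ≤ J, |p i| ≤ R) →
      (∀ i < J, D (i+1) - D i = √(2 * M i) * ((Wv (i+1) - Wv i) + (b (i+1) - b i))) →
      (∀ i < J, M (i+1) = M i + h * D (i+1)) → (∀ i < J, S (i+1) = S i + h * M (i+1)) →
      (∀ i < J, |m (i+1) - m i - h * p (i+1)| ≤ h * κ) →
      (∀ i < J, |s (i+1) - s i - h * m (i+1)| ≤ h * κ) →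
      (∀ j ≤ J, |p j - p 0 - ∑ i ∈ Finset.range j, √(2 * m i) * (Wv (i+1) - Wv i)| ≤ κ) →
      (∀ i ≤ J, |Wv i| ≤ w) → (∀ i ≤ J, |b i| ≤ κ) →
      |D 0 - p 0| ≤ κ → |M 0 - m 0| ≤ κ → |S 0 - s 0| ≤ κ →
      ∀ j ≤ J, |D j - p j| ≤ C * κ ∧ |M j - m j| ≤ C * κ ∧ |S j - s j| ≤ C * κ := by
  set c : ℝ := 1 / √(2 * ε) with hc
  have hE : 0 < √(2 * ε) := Real.sqrt_pos.2 (by linarith)
  have hc0 : 0 < c := by positivity
  set A : ℝ := 2 + (2 * √(2 * R) + c * R * T) + w * c * ((1 + T) + 1 + T +
    (R + 1) / (4 * ε) * (2 * T * (1 + T))) with hA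
  set B : ℝ := 1 + w * c * (2 + (R + 1) / (4 * ε) * (2 * T)) with hB
  have hA0 : 0 < A := by positivity
  have hB1 : 1 ≤ B := by
    rw [hB]
    have : 0 ≤ w * c * (2 + (R + 1) / (4 * ε) * (2 * T)) := by positivity
    linarith
  have hB0 : 0 < B := by linarith
  set K : ℝ := Real.exp (2 * B * T) * (1 + A) with hK
  have hK0 : 0 < K := by positivity
  refine ⟨A + B * K + (1 + T) * (1 + T + K) + 1, min 1 (1 / (2 * B)), by positivity,
    by positivity, ?_⟩
  intro κ h J D M S p m s Wv b hκ hκ1 hh hh0 hJ hM hD hMR hm hp h1 h2 h2' h3 h3' h4 hW hb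
    hx0 hy0 hz0
  have hh1 : h ≤ 1 := hh0.trans (min_le_left _ _)
  have hBh : B * h ≤ 1 / 2 := by
    have : h ≤ 1 / (2 * B) := hh0.trans (min_le_right _ _)
    rw [le_div_iff₀ (by positivity)] at this
    linarith
  have hjh : ∀ j ≤ J, (j:ℝ) * h ≤ T := by
    intro j hj
    have : (j:ℝ) ≤ J := by exact_mod_cast hj
    exact (mul_le_mul_of_nonneg_right this hh.le).trans hJ
  set G : ℕ → ℝ := fun j => h * ∑ i ∈ Finset.range (j+1), |D i - p i| with hG
  have hG0 : ∀ j, 0 ≤ G j := fun j => by
    rw [hG]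
    exact mul_nonneg hh.le (Finset.sum_nonneg fun i _ => abs_nonneg _)
  have hGs : ∀ j, G (j+1) = G j + h * |D (j+1) - p (j+1)| := by
    intro j
    simp only [hG]
    rw [Finset.sum_range_succ _ (j+1), mul_add]
  have hGm : Monotone G := by
    apply monotone_nat_of_le_succ
    intro j
    rw [hGs]
    have := mul_nonneg hh.le (abs_nonneg (D (j+1) - p (j+1)))
    linarith
  -- the estimate for `y`
  have hy : ∀ j ≤ J, |M j - m j| ≤ κ + j * h * κ + G j := by
    intro j
    induction j with
    | zero =>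
      intro _
      have := hG0 0
      simp only [Nat.cast_zero, zero_mul, add_zero]
      linarith
    | succ j ih =>
      intro hj
      have i1 := ih (by omega)
      have i2 := h2 j (by omega)
      have i3 := h3 j (by omega)
      have i4 : M (j+1) - m (j+1) = (M j - m j) + h * (D (j+1) - p (j+1)) -
          (m (j+1) - m j - h * p (j+1)) := by
        rw [i2]
        ring
      have i5 : |M (j+1) - m (j+1)| ≤ |M j - m j| + h * |D (j+1) - p (j+1)| + h * κ := by
        rw [i4]
        calc _ ≤ |(M j - m j) + h * (D (j+1) - p (j+1))| + |m (j+1) - m j - h * p (j+1)| :=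
              abs_sub _ _
          _ ≤ (|M j - m j| + |h * (D (j+1) - p (j+1))|) + h * κ :=
              add_le_add (abs_add_le _ _) i3
          _ = _ := by rw [abs_mul, abs_of_pos hh]
      rw [hGs]
      push_cast
      linarith
  have hy' : ∀ j ≤ J, ∀ i ≤ j, |M i - m i| ≤ (1 + T) * κ + G j := by
    intro j hj i hi
    have i1 := hy i (hi.trans hj)
    have i2 := hjh i (hi.trans hj)
    have i3 := hGm hi
    have i4 : (i:ℝ) * h * κ ≤ T * κ := mul_le_mul_of_nonneg_right i2 hκ
    linarith
  -- the estimate for `x`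
  have hx : ∀ j ≤ J, |D j - p j| ≤ A * κ + B * G j := by
    intro j hj
    set v : ℕ → ℝ := fun i => √(2 * M i) - √(2 * m i) with hv
    have hDj : ∀ k ≤ J, D k - D 0 = ∑ i ∈ Finset.range k,
        √(2 * M i) * ((Wv (i+1) - Wv i) + (b (i+1) - b i)) := by
      intro k
      induction k with
      | zero => intro _; simp
      | succ k ih =>
        intro hk
        rw [Finset.sum_range_succ, ← ih (by omega), ← h1 k (by omega)]
        ring
    have e1 : D j - p j = (D 0 - p 0) + (∑ i ∈ Finset.range j, √(2 * M i) * (b (i+1) - b i)) +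
        (∑ i ∈ Finset.range j, v i * (Wv (i+1) - Wv i)) -
        (p j - p 0 - ∑ i ∈ Finset.range j, √(2 * m i) * (Wv (i+1) - Wv i)) := by
      have q1 : ∑ i ∈ Finset.range j, √(2 * M i) * ((Wv (i+1) - Wv i) + (b (i+1) - b i)) =
          (∑ i ∈ Finset.range j, √(2 * M i) * (b (i+1) - b i)) +
          (∑ i ∈ Finset.range j, v i * (Wv (i+1) - Wv i)) +
          ∑ i ∈ Finset.range j, √(2 * m i) * (Wv (i+1) - Wv i) := by
        rw [← Finset.sum_add_distrib, ← Finset.sum_add_distrib]
        apply Finset.sum_congr rfl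
        intro i _
        simp only [hv]
        ring
      have q2 := hDj j hj
      rw [q1] at q2
      linarith
    -- first sum
    have f1 : |∑ i ∈ Finset.range j, √(2 * M i) * (b (i+1) - b i)| ≤
        κ * (2 * √(2 * R) + c * R * T) := by
      refine (cl_abel_bound (fun i => √(2 * M i)) b j κ (fun i hi => hb i (hi.trans hj))).trans ?_
      apply mul_le_mul_of_nonneg_left _ hκ
      have g1 : |√(2 * M j)| ≤ √(2 * R) := by
        rw [abs_of_nonneg (Real.sqrt_nonneg _)]
        exact Real.sqrt_le_sqrt (by linarith [hMR j hj])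
      have g2 : |√(2 * M 0)| ≤ √(2 * R) := by
        rw [abs_of_nonneg (Real.sqrt_nonneg _)]
        exact Real.sqrt_le_sqrt (by linarith [hMR 0 (Nat.zero_le _)])
      have g3 : ∑ i ∈ Finset.range j, |√(2 * M (i+1)) - √(2 * M i)| ≤ c * R * T := by
        have g4 : ∀ i ∈ Finset.range j, |√(2 * M (i+1)) - √(2 * M i)| ≤ c * R * h := by
          intro i hi
          have hi := Finset.mem_range.1 hi
          have := cl_sqrt_lip ε (M (i+1)) (M i) hε (hM _ (by omega)) (hM _ (by omega))
          rw [h2 i (by omega)] at this ⊢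
          refine this.trans ?_
          rw [add_sub_cancel_left, abs_mul, abs_of_pos hh, ← hc]
          have g5 := hD (i+1) (by omega)
          calc c * (h * |D (i+1)|) ≤ c * (h * R) := by gcongr
            _ = c * R * h := by ring
        refine (Finset.sum_le_sum g4).trans ?_
        rw [Finset.sum_const, Finset.card_range, nsmul_eq_mul]
        have := hjh j hj
        calc (j:ℝ) * (c * R * h) = c * R * (j * h) := by ring
          _ ≤ c * R * T := by gcongr
      linarith
    -- second sum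
    have f2 : |∑ i ∈ Finset.range j, v i * (Wv (i+1) - Wv i)| ≤
        w * (c * ((1 + T) * κ + G j) + c * κ + (c * (G j + T * κ) + c * ((R + 1) / (4 * ε)) *
          (2 * T * ((1 + T) * κ + G j)))) := by
      refine (cl_abel_bound v Wv j w (fun i hi => hW i (hi.trans hj))).trans ?_
      apply mul_le_mul_of_nonneg_left _ hw
      have g1 : |v j| ≤ c * ((1 + T) * κ + G j) := by
        refine (cl_sqrt_lip ε (M j) (m j) hε (hM _ hj) (hm _ hj)).trans ?_
        exact mul_le_mul_of_nonneg_left (hy' j hj j le_rfl) hc0.le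
      have g2 : |v 0| ≤ c * κ := by
        refine (cl_sqrt_lip ε (M 0) (m 0) hε (hM _ (Nat.zero_le _)) (hm _ (Nat.zero_le _))).trans ?_
        exact mul_le_mul_of_nonneg_left hy0 hc0.le
      have g3 : ∑ i ∈ Finset.range j, |v (i+1) - v i| ≤ c * (G j + T * κ) +
          c * ((R + 1) / (4 * ε)) * (2 * T * ((1 + T) * κ + G j)) := by
        have g4 : ∀ i ∈ Finset.range j, |v (i+1) - v i| ≤ c * (h * |D (i+1) - p (i+1)| + h * κ) +
            c * ((R + 1) / (4 * ε)) * (h * (2 * ((1 + T) * κ + G j))) := by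
          intro i hi
          have hi := Finset.mem_range.1 hi
          have k1 := cl_sqrt_diff2 ε (M i) (M (i+1)) (m i) (m (i+1)) hε (hM _ (by omega))
            (hM _ (by omega)) (hm _ (by omega)) (hm _ (by omega))
          refine k1.trans ?_
          rw [← hc]
          have k2 : |(M (i+1) - M i) - (m (i+1) - m i)| ≤ h * |D (i+1) - p (i+1)| + h * κ := by
            have k3 : (M (i+1) - M i) - (m (i+1) - m i) = h * (D (i+1) - p (i+1)) -
                (m (i+1) - m i - h * p (i+1)) := by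
              rw [h2 i (by omega)]
              ring
            rw [k3]
            refine (abs_sub _ _).trans ?_
            rw [abs_mul, abs_of_pos hh]
            exact add_le_add le_rfl (h3 i (by omega))
          have k4 : |m (i+1) - m i| ≤ h * (R + 1) := by
            have k5 : m (i+1) - m i = (m (i+1) - m i - h * p (i+1)) + h * p (i+1) := by ring
            rw [k5]
            refine (abs_add_le _ _).trans ?_
            rw [abs_mul, abs_of_pos hh]
            have k6 := h3 i (by omega)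
            have k7 := hp (i+1) (by omega)
            have k8 : h * |p (i+1)| ≤ h * R := by gcongr
            have k9 : h * κ ≤ h * 1 := by gcongr
            linarith
          have k5 := hy' j hj i (by omega)
          have k6 := hy' j hj (i+1) (by omega)
          have k7 : 1 / (4 * ε) * |m (i+1) - m i| * (|M i - m i| + |M (i+1) - m (i+1)|) ≤
              1 / (4 * ε) * (h * (R + 1)) * (2 * ((1 + T) * κ + G j)) := by
            apply mul_le_mul (by gcongr) (by linarith) (by positivity) (by positivity)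
          calc c * (|(M (i+1) - M i) - (m (i+1) - m i)| +
              1 / (4 * ε) * |m (i+1) - m i| * (|M i - m i| + |M (i+1) - m (i+1)|)) ≤
              c * ((h * |D (i+1) - p (i+1)| + h * κ) +
                1 / (4 * ε) * (h * (R + 1)) * (2 * ((1 + T) * κ + G j))) := by gcongr
            _ = _ := by ring
        refine (Finset.sum_le_sum g4).trans ?_
        rw [Finset.sum_add_distrib, Finset.sum_const, Finset.card_range, nsmul_eq_mul,
          ← Finset.mul_sum, Finset.sum_add_distrib, Finset.sum_const, Finset.card_range,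
          nsmul_eq_mul, ← Finset.mul_sum]
        have g5 : h * ∑ i ∈ Finset.range j, |D (i+1) - p (i+1)| ≤ G j := by
          simp only [hG]
          rw [Finset.sum_range_succ', mul_add]
          have := mul_nonneg hh.le (abs_nonneg (D 0 - p 0))
          linarith
        have g6 := hjh j hj
        have g7 : (j:ℝ) * (h * κ) ≤ T * κ := by
          calc (j:ℝ) * (h * κ) = (j * h) * κ := by ring
            _ ≤ T * κ := by gcongr
        have g8 : 0 ≤ (1 + T) * κ + G j := by
          have := hG0 j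
          positivity
        have g9 : (j:ℝ) * (c * ((R + 1) / (4 * ε)) * (h * (2 * ((1 + T) * κ + G j)))) ≤
            c * ((R + 1) / (4 * ε)) * (2 * T * ((1 + T) * κ + G j)) := by
          calc (j:ℝ) * (c * ((R + 1) / (4 * ε)) * (h * (2 * ((1 + T) * κ + G j)))) =
              c * ((R + 1) / (4 * ε)) * (2 * (j * h) * ((1 + T) * κ + G j)) := by ring
            _ ≤ _ := by gcongr
        have g10 : c * (h * ∑ i ∈ Finset.range j, |D (i+1) - p (i+1)| + (j:ℝ) * (h * κ)) ≤
            c * (G j + T * κ) := by gcongr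
        linarith
      linarith
    have f3 := h4 j hj
    rw [e1]
    have f4 := hG0 j
    calc _ ≤ |(D 0 - p 0) + (∑ i ∈ Finset.range j, √(2 * M i) * (b (i+1) - b i)) +
        (∑ i ∈ Finset.range j, v i * (Wv (i+1) - Wv i))| +
        |p j - p 0 - ∑ i ∈ Finset.range j, √(2 * m i) * (Wv (i+1) - Wv i)| := abs_sub _ _
      _ ≤ (|D 0 - p 0| + |∑ i ∈ Finset.range j, √(2 * M i) * (b (i+1) - b i)| +
        |∑ i ∈ Finset.range j, v i * (Wv (i+1) - Wv i)|) + κ := by
          apply add_le_add _ f3
          exact abs_add_three _ _ _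
      _ ≤ (κ + κ * (2 * √(2 * R) + c * R * T) + w * (c * ((1 + T) * κ + G j) + c * κ +
          (c * (G j + T * κ) + c * ((R + 1) / (4 * ε)) *
          (2 * T * ((1 + T) * κ + G j))))) + κ := by linarith
      _ = A * κ + (B - 1) * G j := by
        rw [hA, hB]
        ring
      _ ≤ A * κ + B * G j := by nlinarith
  -- Gronwall
  have hH : ∀ j ≤ J, G j + A * κ / B ≤ (1 + 2 * B * h) ^ j * (κ + A * κ / B) := by
    intro j
    induction j with
    | zero =>
      intro _
      have : G 0 ≤ κ := by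
        simp only [hG, zero_add, Finset.range_one, Finset.sum_singleton]
        calc h * |D 0 - p 0| ≤ 1 * κ := mul_le_mul hh1 hx0 (abs_nonneg _) (by norm_num)
          _ = κ := one_mul κ
      rw [pow_zero, one_mul]
      linarith
    | succ j ih =>
      intro hj
      have i1 := ih (by omega)
      have i2 := hx (j+1) hj
      have i3 := hGs j
      have i0 := hG0 j
      -- G (j+1) ≤ (1 + 2 B h) (G j + h A κ)
      have i4 : G (j+1) ≤ G j + h * (A * κ + B * G (j+1)) := by
        rw [i3]
        have := mul_le_mul_of_nonneg_left i2 hh.le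
        rw [i3] at this
        linarith
      have i5 : G (j+1) * (1 - B * h) ≤ G j + h * A * κ := by nlinarith
      have i6 : G (j+1) ≤ (1 + 2 * B * h) * (G j + h * A * κ) := by
        have i7 : 0 ≤ G j + h * A * κ := by positivity
        have i8 : 0 < 1 - B * h := by linarith
        have i9 : 1 ≤ (1 - B * h) * (1 + 2 * B * h) := by
          have : 0 ≤ B * h := by positivity
          nlinarith
        have i10 : 0 < 1 + 2 * B * h := by positivity
        have i11 : G (j+1) * 1 ≤ G (j+1) * ((1 - B * h) * (1 + 2 * B * h)) :=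
          mul_le_mul_of_nonneg_left i9 (hG0 _)
        calc G (j+1) = G (j+1) * 1 := (mul_one _).symm
          _ ≤ (G (j+1) * (1 - B * h)) * (1 + 2 * B * h) := by linarith
          _ ≤ (G j + h * A * κ) * (1 + 2 * B * h) :=
              mul_le_mul_of_nonneg_right i5 i10.le
          _ = _ := mul_comm _ _
      have i12 : G (j+1) + A * κ / B ≤ (1 + 2 * B * h) * (G j + A * κ / B) := by
        have i13 : 2 * B * h * (A * κ / B) = 2 * h * A * κ := by
          field_simp
        have i14 : (1 + 2 * B * h) * (h * A * κ) ≤ 2 * (h * A * κ) := by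
          apply mul_le_mul_of_nonneg_right _ (by positivity)
          linarith
        nlinarith
      calc G (j+1) + A * κ / B ≤ (1 + 2 * B * h) * (G j + A * κ / B) := i12
        _ ≤ (1 + 2 * B * h) * ((1 + 2 * B * h) ^ j * (κ + A * κ / B)) := by
          apply mul_le_mul_of_nonneg_left i1 (by positivity)
        _ = _ := by rw [pow_succ]; ring
  have hGK : ∀ j ≤ J, G j ≤ K * κ := by
    intro j hj
    have i1 := hH j hj
    have i2 : (1 + 2 * B * h) ^ j ≤ Real.exp (2 * B * T) := by
      have i3 : 1 + 2 * B * h ≤ Real.exp (2 * B * h) := by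
        have := Real.add_one_le_exp (2 * B * h)
        linarith
      calc (1 + 2 * B * h) ^ j ≤ Real.exp (2 * B * h) ^ j :=
            pow_le_pow_left₀ (by positivity) i3 j
        _ = Real.exp (j * (2 * B * h)) := (Real.exp_nat_mul _ _).symm
        _ ≤ Real.exp (2 * B * T) := by
          apply Real.exp_le_exp.2
          calc (j:ℝ) * (2 * B * h) = 2 * B * (j * h) := by ring
            _ ≤ 2 * B * T := by
              apply mul_le_mul_of_nonneg_left (hjh j hj) (by positivity)
    have i4 : κ + A * κ / B ≤ (1 + A) * κ := by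
      have : A * κ / B ≤ A * κ := div_le_self (by positivity) hB1
      linarith
    have i5 : 0 ≤ A * κ / B := by positivity
    calc G j ≤ (1 + 2 * B * h) ^ j * (κ + A * κ / B) := by linarith
      _ ≤ Real.exp (2 * B * T) * ((1 + A) * κ) := by
        apply mul_le_mul i2 i4 (by positivity) (by positivity)
      _ = K * κ := by rw [hK]; ring
  have hyK : ∀ j ≤ J, |M j - m j| ≤ (1 + T + K) * κ := by
    intro j hj
    have := hy' j hj j le_rfl
    have := hGK j hj
    linarith
  have hz : ∀ j ≤ J, |S j - s j| ≤ κ + j * h * ((1 + T + K) * κ + κ) := by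
    intro j
    induction j with
    | zero =>
      intro _
      simp only [Nat.cast_zero, zero_mul, add_zero]
      exact hz0
    | succ j ih =>
      intro hj
      have i1 := ih (by omega)
      have i2 := h2' j (by omega)
      have i3 := h3' j (by omega)
      have i4 : S (j+1) - s (j+1) = (S j - s j) + h * (M (j+1) - m (j+1)) -
          (s (j+1) - s j - h * m (j+1)) := by
        rw [i2]
        ring
      have i5 : |S (j+1) - s (j+1)| ≤ |S j - s j| + h * |M (j+1) - m (j+1)| + h * κ := by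
        rw [i4]
        calc _ ≤ |(S j - s j) + h * (M (j+1) - m (j+1))| + |s (j+1) - s j - h * m (j+1)| :=
              abs_sub _ _
          _ ≤ (|S j - s j| + |h * (M (j+1) - m (j+1))|) + h * κ :=
              add_le_add (abs_add_le _ _) i3
          _ = _ := by rw [abs_mul, abs_of_pos hh]
      have i6 : h * |M (j+1) - m (j+1)| ≤ h * ((1 + T + K) * κ) :=
        mul_le_mul_of_nonneg_left (hyK _ hj) hh.le
      push_cast
      linarith
  intro j hj
  have a1 := hx j hj
  have a2 := hGK j hj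
  have a3 := hyK j hj
  have a4 := hz j hj
  have a5 := hjh j hj
  have a6 : (j:ℝ) * h * ((1 + T + K) * κ + κ) ≤ T * ((1 + T + K) * κ + κ) := by
    apply mul_le_mul_of_nonneg_right a5 (by positivity)
  have b1 : 0 ≤ T * K * κ := by positivity
  have b2 : 0 ≤ T * T * κ := by positivity
  have b3 : 0 ≤ T * κ := by positivity
  have b4 : 0 ≤ K * κ := by positivity
  have b5 : 0 ≤ B * K * κ := by positivity
  have b6 : 0 ≤ A * κ := by positivity
  refine ⟨?_, ?_, ?_⟩
  · have : B * G j ≤ B * (K * κ) := mul_le_mul_of_nonneg_left a2 hB0.le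
    nlinarith
  · nlinarith
  · nlinarith

end Pool.Agent.Helper7.Stuck
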