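import Pool.Agent.Helper7.Stuck.Defs

/-!
STUCK CLOSE, part 2: Riemann-Stieltjes sums.
-/

open MeasureTheory ProbabilityTheory Filter Topology
open scoped NNReal ENNReal

namespace Pool.Agent.Helper7.Stuck

/-- Riemann-Stieltjes sums by parts. -/
theorem cl_rs (g σ φ : ℝ → ℝ) (t : ℕ → ℝ) (κ Φ : ℝ) (hκ : 0 ≤ κ) (n : ℕ)
    (ht : ∀ i < n, t i ≤ t (i+1))
    (hσ : ∀ i < n, σ (t (i+1)) - σ (t i) = ∫ x in (t i)..(t (i+1)), φ x)
    (hg : ∀ i < n, ∀ x, t i ≤ x → x ≤ t (i+1) → |g x - g (t (i+1))| ≤ κ)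
    (hφ : ∀ i < n, ∀ x, t i ≤ x → x ≤ t (i+1) → |φ x| ≤ Φ)
    (hi1 : ∀ i < n, IntervalIntegrable φ volume (t i) (t (i+1)))
    (hi2 : ∀ i < n, IntervalIntegrable (fun x => g x * φ x) volume (t i) (t (i+1))) :
    |∑ i ∈ Finset.range n, σ (t i) * (g (t (i+1)) - g (t i)) -
      (σ (t n) * g (t n) - σ (t 0) * g (t 0) - ∫ x in (t 0)..(t n), g x * φ x)| ≤
      κ * Φ * (t n - t 0) := by
  induction n with
  | zero => simp
  | succ n ih =>
    have h1 := ih (fun i hi => ht i (by omega)) (fun i hi => hσ i (by omega))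
      (fun i hi => hg i (by omega)) (fun i hi => hφ i (by omega)) (fun i hi => hi1 i (by omega))
      (fun i hi => hi2 i (by omega))
    have h2 : ∫ x in (t 0)..(t (n+1)), g x * φ x =
        (∫ x in (t 0)..(t n), g x * φ x) + ∫ x in (t n)..(t (n+1)), g x * φ x := by
      rw [intervalIntegral.integral_add_adjacent_intervals]
      · exact IntervalIntegrable.trans_iterate (fun k hk => hi2 k (by omega))
      · exact hi2 n (by omega)
    have h3 : ∫ x in (t n)..(t (n+1)), (g x - g (t (n+1))) * φ x =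
        (∫ x in (t n)..(t (n+1)), g x * φ x) - g (t (n+1)) * (σ (t (n+1)) - σ (t n)) := by
      rw [hσ n (by omega), ← intervalIntegral.integral_const_mul,
        ← intervalIntegral.integral_sub (hi2 n (by omega)) ((hi1 n (by omega)).const_mul _)]
      congr 1
      funext x
      ring
    have h4 : |∫ x in (t n)..(t (n+1)), (g x - g (t (n+1))) * φ x| ≤
        κ * Φ * |t (n+1) - t n| := by
      rw [← Real.norm_eq_abs]
      apply intervalIntegral.norm_integral_le_of_norm_le_const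
      intro x hx
      rw [Set.uIoc_of_le (ht n (by omega))] at hx
      rw [Real.norm_eq_abs, abs_mul]
      exact mul_le_mul (hg n (by omega) x hx.1.le hx.2) (hφ n (by omega) x hx.1.le hx.2)
        (abs_nonneg _) hκ
    have h4' : |t (n+1) - t n| = t (n+1) - t n := abs_of_nonneg (sub_nonneg.2 (ht n (by omega)))
    rw [h4'] at h4
    rw [Finset.sum_range_succ]
    have h5 : (∑ i ∈ Finset.range n, σ (t i) * (g (t (i+1)) - g (t i)) +
        σ (t n) * (g (t (n+1)) - g (t n))) -
        (σ (t (n+1)) * g (t (n+1)) - σ (t 0) * g (t 0) - ∫ x in (t 0)..(t (n+1)), g x * φ x) =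
        (∑ i ∈ Finset.range n, σ (t i) * (g (t (i+1)) - g (t i)) -
          (σ (t n) * g (t n) - σ (t 0) * g (t 0) - ∫ x in (t 0)..(t n), g x * φ x)) +
        ∫ x in (t n)..(t (n+1)), (g x - g (t (n+1))) * φ x := by
      rw [h2, h3]
      ring
    rw [h5]
    refine (abs_add_le _ _).trans ?_
    calc _ ≤ κ * Φ * (t n - t 0) + κ * Φ * (t (n+1) - t n) := add_le_add h1 h4
      _ = _ := by ring

end Pool.Agent.Helper7.Stuck
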