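import Pool.Agent.Helper7.Stuck.Defs

open MeasureTheory ProbabilityTheory Filter Topology
open scoped NNReal ENNReal

namespace Pool.Agent.Helper7.Stuck

universe u

lemma count_one_eq (L c r : ℝ) (hL : 0 < L) :
    {x : ℤ | |(x:ℝ) / L - c| ≤ r} = Set.Icc ⌈(c - r) * L⌉ ⌊(c + r) * L⌋ := by
  ext x
  rw [Set.mem_ofPred_eq, Set.mem_Icc, Int.ceil_le, Int.le_floor, abs_le]
  constructor
  · rintro ⟨h1, h2⟩
    constructor
    · have h3 : c - r ≤ (x:ℝ) / L := by linarith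
      rwa [le_div_iff₀ hL] at h3
    · have h3 : (x:ℝ) / L ≤ c + r := by linarith
      rwa [div_le_iff₀ hL] at h3
  · rintro ⟨h1, h2⟩
    rw [← le_div_iff₀ hL] at h1
    rw [← div_le_iff₀ hL] at h2
    constructor <;> linarith

lemma count_one_finite (L c r : ℝ) (hL : 0 < L) : {x : ℤ | |(x:ℝ) / L - c| ≤ r}.Finite := by
  rw [count_one_eq L c r hL]
  exact Set.finite_Icc _ _

lemma count_one_ncard (L c r : ℝ) (hL : 0 < L) (hr : 0 < r) :
    |({x : ℤ | |(x:ℝ) / L - c| ≤ r}.ncard : ℝ) - 2 * r * L| ≤ 1 := by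
  rw [count_one_eq L c r hL]
  have h1 : (Set.Icc ⌈(c - r) * L⌉ ⌊(c + r) * L⌋).ncard
      = (⌊(c + r) * L⌋ + 1 - ⌈(c - r) * L⌉).toNat := by
    rw [← Int.card_Icc, ← Set.ncard_coe_finset, Finset.coe_Icc]
  rw [h1]
  have a1 := Int.floor_le ((c + r) * L)
  have a2 := Int.lt_floor_add_one ((c + r) * L)
  have a3 := Int.le_ceil ((c - r) * L)
  have a4 := Int.ceil_lt_add_one ((c - r) * L)
  have hrL : 0 < r * L := mul_pos hr hL
  have e1 : (c + r) * L - (c - r) * L = 2 * r * L := by ring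
  have h2 : (-1 : ℝ) < ((⌊(c + r) * L⌋ + 1 - ⌈(c - r) * L⌉ : ℤ) : ℝ) := by
    push_cast
    nlinarith
  have h3 : 0 ≤ ⌊(c + r) * L⌋ + 1 - ⌈(c - r) * L⌉ := by
    have : (-1 : ℤ) < ⌊(c + r) * L⌋ + 1 - ⌈(c - r) * L⌉ := by exact_mod_cast h2
    omega
  have h4 : (((⌊(c + r) * L⌋ + 1 - ⌈(c - r) * L⌉).toNat : ℕ) : ℝ)
      = ((⌊(c + r) * L⌋ + 1 - ⌈(c - r) * L⌉ : ℤ) : ℝ) := by
    have := Int.toNat_of_nonneg h3
    exact_mod_cast this
  rw [h4, abs_le]
  push_cast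
  constructor <;> nlinarith

lemma count_one_tendsto (L : ℕ → ℝ) (hL : Tendsto L atTop atTop) (c r : ℝ) (hr : 0 < r) :
    Tendsto (fun n => ({x : ℤ | |(x:ℝ) / L n - c| ≤ r}.ncard : ℝ) / L n) atTop (𝓝 (2 * r)) := by
  rw [tendsto_iff_dist_tendsto_zero]
  refine squeeze_zero' (Eventually.of_forall fun n => dist_nonneg) ?_
    (tendsto_inv_atTop_zero.comp hL)
  filter_upwards [hL.eventually_gt_atTop 0] with n hn
  rw [Real.dist_eq]
  have h1 := count_one_ncard (L n) c r hn hr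
  have e : ({x : ℤ | |(x:ℝ) / L n - c| ≤ r}.ncard : ℝ) / L n - 2 * r
      = (({x : ℤ | |(x:ℝ) / L n - c| ≤ r}.ncard : ℝ) - 2 * r * L n) / L n := by
    field_simp
  rw [e, abs_div, abs_of_pos hn, Function.comp_apply, ← one_div]
  gcongr

lemma count_box_eq (lam r : ℝ) (z1 : E3) :
    {z : St | dist (sc lam z) z1 ≤ r} =
      {x : ℤ | |(x:ℝ) / lam ^ 2 - z1.1| ≤ r} ×ˢ ({x : ℤ | |(x:ℝ) / lam ^ 3 - z1.2.1| ≤ r} ×ˢ
        {x : ℤ | |(x:ℝ) / lam ^ 4 - z1.2.2| ≤ r}) := by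
  ext ⟨x, y, z⟩
  simp only [Set.mem_ofPred_eq, Set.mem_prod, Prod.dist_eq, sc, Real.dist_eq, max_le_iff]

theorem count_box_finite (lam r : ℝ) (hlam : 0 < lam) (z1 : E3) :
    {z : St | dist (sc lam z) z1 ≤ r}.Finite := by
  rw [count_box_eq]
  exact (count_one_finite _ _ _ (by positivity)).prod
    ((count_one_finite _ _ _ (by positivity)).prod (count_one_finite _ _ _ (by positivity)))

theorem count_box (lam : ℕ → ℝ) (hlam : Tendsto lam atTop atTop) (z1 : E3) (r : ℝ)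
    (hr : 0 < r) :
    Tendsto (fun n => ({z : St | dist (sc (lam n) z) z1 ≤ r}.ncard : ℝ) / lam n ^ 9) atTop
      (𝓝 (8 * r ^ 3)) := by
  have t2 := count_one_tendsto (fun n => lam n ^ 2)
    ((tendsto_pow_atTop (by norm_num)).comp hlam) z1.1 r hr
  have t3 := count_one_tendsto (fun n => lam n ^ 3)
    ((tendsto_pow_atTop (by norm_num)).comp hlam) z1.2.1 r hr
  have t4 := count_one_tendsto (fun n => lam n ^ 4)
    ((tendsto_pow_atTop (by norm_num)).comp hlam) z1.2.2 r hr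
  have h := t2.mul (t3.mul t4)
  have e : 2 * r * (2 * r * (2 * r)) = 8 * r ^ 3 := by ring
  rw [e] at h
  refine h.congr' ?_
  filter_upwards [hlam.eventually_gt_atTop 0] with n hn
  rw [count_box_eq, Set.ncard_prod, Set.ncard_prod]
  push_cast
  field_simp

theorem volume_closedBall_E3 (z1 : E3) (r : ℝ) (hr : 0 < r) :
    volume.real (Metric.closedBall z1 r) = 8 * r ^ 3 := by
  obtain ⟨x, y, z⟩ := z1
  rw [← closedBall_prod_same, ← closedBall_prod_same]
  rw [Measure.volume_eq_prod, Measure.volume_eq_prod, measureReal_def, Measure.prod_prod,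
    Measure.prod_prod, Real.volume_closedBall, Real.volume_closedBall, Real.volume_closedBall,
    ← ENNReal.ofReal_mul (by positivity), ← ENNReal.ofReal_mul (by positivity),
    ENNReal.toReal_ofReal (by positivity)]
  ring

end Pool.Agent.Helper7.Stuck
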