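import Pool.Agent.Helper7.Stuck.Defs

open MeasureTheory ProbabilityTheory Filter Topology
open scoped NNReal ENNReal

namespace Pool.Agent.Helper7.Stuck

universe u

/-- The real version of `dpath`. -/
def ctrl_rpath (H : ℕ → ℝ) (d : ℝ × ℝ × ℝ) : ℕ → ℝ × ℝ × ℝ
  | 0 => d
  | i + 1 => ((ctrl_rpath H d i).1 - H i, (ctrl_rpath H d i).2.1 + (ctrl_rpath H d i).1,
      (ctrl_rpath H d i).2.2 + (ctrl_rpath H d i).2.1)

/-- Rounding errors. -/
lemma ctrl_err (h : ℕ → ℤ) (H : ℕ → ℝ) (hh : ∀ i, |(h i : ℝ) - H i| ≤ 1 / 2) (d : St) (i : ℕ) :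
    |((dpath h d i).1 : ℝ) - (ctrl_rpath H ((d.1 : ℝ), (d.2.1 : ℝ), (d.2.2 : ℝ)) i).1| ≤ i / 2 ∧
    |((dpath h d i).2.1 : ℝ) - (ctrl_rpath H ((d.1 : ℝ), (d.2.1 : ℝ), (d.2.2 : ℝ)) i).2.1|
      ≤ i ^ 2 / 4 ∧
    |((dpath h d i).2.2 : ℝ) - (ctrl_rpath H ((d.1 : ℝ), (d.2.1 : ℝ), (d.2.2 : ℝ)) i).2.2|
      ≤ i ^ 3 / 12 := by
  induction i with
  | zero => simp [dpath, ctrl_rpath]
  | succ i ih =>
    obtain ⟨h1, h2, h3⟩ := ih
    have hi := hh i
    simp only [dpath, ctrl_rpath]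
    push_cast
    rw [abs_le] at h1 h2 h3 hi
    have hi0 : (0 : ℝ) ≤ (i : ℝ) := Nat.cast_nonneg i
    refine ⟨abs_le.2 ⟨?_, ?_⟩, abs_le.2 ⟨?_, ?_⟩, abs_le.2 ⟨?_, ?_⟩⟩
    · linarith [h1.1, hi.2]
    · linarith [h1.2, hi.1]
    · nlinarith [h1.1, h2.1]
    · nlinarith [h1.2, h2.2]
    · nlinarith [h2.1, h3.1]
    · nlinarith [h2.2, h3.2]

/-- The path under a constant control. -/
lemma ctrl_const (H : ℕ → ℝ) (d : ℝ × ℝ × ℝ) (s : ℕ) (x : ℝ) (j : ℕ)
    (hx : ∀ k, s ≤ k → k < s + j → H k = x) :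
    ctrl_rpath H d (s + j) = ((ctrl_rpath H d s).1 - j * x,
      (ctrl_rpath H d s).2.1 + j * (ctrl_rpath H d s).1 - (j : ℝ) * (j - 1) / 2 * x,
      (ctrl_rpath H d s).2.2 + j * (ctrl_rpath H d s).2.1
        + (j : ℝ) * (j - 1) / 2 * (ctrl_rpath H d s).1 - (j : ℝ) * (j - 1) * (j - 2) / 6 * x) := by
  induction j with
  | zero => simp
  | succ j ih =>
    have ih' := ih (fun k h1 h2 => hx k h1 (by omega))
    have hxj := hx (s + j) (by omega) (by omega)
    rw [← add_assoc]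
    simp only [ctrl_rpath]
    rw [ih', hxj]
    push_cast
    refine Prod.ext ?_ (Prod.ext ?_ ?_)
    · simp only; ring
    · simp only; ring
    · simp only; ring

lemma ctrl_bound (H : ℕ → ℝ) (d : ℝ × ℝ × ℝ) (L : ℕ) (K : ℝ) (hK : 0 ≤ K)
    (hH : ∀ i, |H i| ≤ K) (i : ℕ) (hi : i ≤ L) :
    |(ctrl_rpath H d i).1| ≤ |d.1| + i * K ∧
    |(ctrl_rpath H d i).2.1| ≤ |d.2.1| + i * (|d.1| + L * K) := by
  induction i with
  | zero => simp [ctrl_rpath]
  | succ i ih =>
    obtain ⟨h1, h2⟩ := ih (by omega)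
    have h3 := hH i
    have hiL : (i : ℝ) ≤ (L : ℝ) := by exact_mod_cast (by omega : i ≤ L)
    simp only [ctrl_rpath]
    push_cast
    constructor
    · calc |(ctrl_rpath H d i).1 - H i| ≤ |(ctrl_rpath H d i).1| + |H i| := abs_sub _ _
        _ ≤ |d.1| + (i + 1) * K := by linarith
    · calc |(ctrl_rpath H d i).2.1 + (ctrl_rpath H d i).1|
          ≤ |(ctrl_rpath H d i).2.1| + |(ctrl_rpath H d i).1| := abs_add_le _ _
        _ ≤ |d.2.1| + (i + 1) * (|d.1| + L * K) := by nlinarith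

theorem ctrl (d : St) (l : ℕ) (hl : 1 ≤ l) (μ : ℝ)
    (hμ : μ = |(d.1:ℝ)| * l ^ 2 + |(d.2.1:ℝ)| * l + |(d.2.2:ℝ)|) :
    ∃ h : ℕ → ℤ, (∀ i, |(h i : ℝ)| ≤ 30 * μ / l ^ 3 + 1) ∧
      (∀ i ≤ 3 * l, |((dpath h d i).2.1 : ℝ)| ≤ 274 * μ / l + 9 / 4 * l ^ 2) ∧
      |((dpath h d (3 * l)).1 : ℝ)| ≤ 3 / 2 * l ∧
      |((dpath h d (3 * l)).2.1 : ℝ)| ≤ 9 / 4 * l ^ 2 ∧
      |((dpath h d (3 * l)).2.2 : ℝ)| ≤ 9 / 4 * l ^ 3 := by
  obtain ⟨a0, b0, c0⟩ := d
  simp only at hμ
  set a : ℝ := (a0 : ℝ) with ha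
  set b : ℝ := (b0 : ℝ) with hb
  set c : ℝ := (c0 : ℝ) with hc
  have hl1 : (1 : ℝ) ≤ (l : ℝ) := by exact_mod_cast hl
  have hl0 : (0 : ℝ) < (l : ℝ) := by linarith
  set t : ℝ := (l : ℝ) with ht
  have hμ0 : 0 ≤ μ := by rw [hμ]; positivity
  -- the three controls
  set W : ℝ := (b + 3 * t * a - (t - 1) / 2 * a) / t ^ 2 with hW
  set Z : ℝ := (c + 3 * t * b + 3 * t * (3 * t - 1) / 2 * a - (t - 1) * (t - 2) / 6 * a
    - t ^ 2 * (t - 1) * W) / t ^ 3 with hZ
  set Y : ℝ := W - 2 * Z with hY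
  set X : ℝ := a / t - Y - Z with hX
  -- bounds, in units of m = μ / t ^ 3
  set m : ℝ := μ / t ^ 3 with hm
  have hm0 : 0 ≤ m := by positivity
  have hμm : μ = m * t ^ 3 := by rw [hm]; field_simp
  have hA : |a| ≤ m * t := by
    have : |a| * t ^ 2 ≤ μ := by
      rw [hμ]; nlinarith [abs_nonneg b, abs_nonneg c, mul_nonneg (abs_nonneg b) hl0.le]
    rw [hμm] at this
    have h2 : |a| * t ^ 2 ≤ (m * t) * t ^ 2 := by linarith [this, (by ring : m * t ^ 3 = m * t * t ^ 2)]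
    exact le_of_mul_le_mul_right h2 (by positivity)
  have hABC : |a| * t ^ 2 + |b| * t + |c| = m * t ^ 3 := by rw [← hμm, hμ]
  have hWb : |W| ≤ 3 * m := by
    rw [hW, abs_div, abs_of_pos (by positivity : (0:ℝ) < t ^ 2), div_le_iff₀ (by positivity)]
    have h1 : |b + 3 * t * a - (t - 1) / 2 * a| ≤ |b| + 3 * t * |a| := by
      have : b + 3 * t * a - (t - 1) / 2 * a = b + (3 * t - (t - 1) / 2) * a := by ring
      rw [this]
      refine (abs_add_le _ _).trans ?_
      rw [abs_mul, abs_of_nonneg (by linarith : (0:ℝ) ≤ 3 * t - (t - 1) / 2)]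
      nlinarith [abs_nonneg a]
    refine h1.trans ?_
    have h2 : (|b| + 3 * t * |a|) * t ≤ (3 * m * t ^ 2) * t := by
      nlinarith [abs_nonneg a, abs_nonneg b, abs_nonneg c, mul_nonneg (abs_nonneg b) hl0.le]
    exact le_of_mul_le_mul_right h2 hl0
  have hZb : |Z| ≤ 8 * m := by
    rw [hZ, abs_div, abs_of_pos (by positivity : (0:ℝ) < t ^ 3), div_le_iff₀ (by positivity)]
    have hW' := abs_le.1 hWb
    have e : c + 3 * t * b + 3 * t * (3 * t - 1) / 2 * a - (t - 1) * (t - 2) / 6 * a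
        - t ^ 2 * (t - 1) * W
        = c + (3 * t) * b + (3 * t * (3 * t - 1) / 2 - (t - 1) * (t - 2) / 6) * a
          + (- (t ^ 2 * (t - 1))) * W := by ring
    rw [e]
    have h1 : |c + (3 * t) * b + (3 * t * (3 * t - 1) / 2 - (t - 1) * (t - 2) / 6) * a
          + (- (t ^ 2 * (t - 1))) * W| ≤ |c| + 3 * t * |b| + (9 / 2 * t ^ 2) * |a|
          + t ^ 3 * |W| := by
      refine (abs_add_le _ _).trans ?_
      refine add_le_add ((abs_add_le _ _).trans (add_le_add ((abs_add_le _ _).trans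
        (add_le_add le_rfl ?_)) ?_)) ?_
      · rw [abs_mul, abs_of_pos (by positivity : (0:ℝ) < 3 * t)]
      · rw [abs_mul]
        refine mul_le_mul_of_nonneg_right ?_ (abs_nonneg a)
        rw [abs_le]
        constructor <;> nlinarith
      · rw [abs_mul, abs_neg, abs_of_nonneg (mul_nonneg (by positivity) (by linarith))]
        refine mul_le_mul_of_nonneg_right ?_ (abs_nonneg W)
        nlinarith [sq_nonneg t]
    refine h1.trans ?_
    have h2 : t ^ 3 * |W| ≤ t ^ 3 * (3 * m) := mul_le_mul_of_nonneg_left hWb (by positivity)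
    nlinarith [abs_nonneg a, abs_nonneg b, abs_nonneg c, mul_nonneg (abs_nonneg b) hl0.le,
      mul_nonneg (abs_nonneg a) (sq_nonneg t)]
  have hYb : |Y| ≤ 19 * m := by
    rw [hY]
    refine (abs_sub _ _).trans ?_
    rw [abs_mul, abs_of_pos (by norm_num : (0:ℝ) < 2)]
    linarith
  have hXb : |X| ≤ 29 * m := by
    rw [hX]
    have h1 : |a / t| ≤ m := by
      rw [abs_div, abs_of_pos hl0, div_le_iff₀ hl0]
      exact hA
    refine (abs_sub _ _).trans ?_
    have h2 := abs_sub (a / t) Y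
    linarith
  -- the real control
  set H : ℕ → ℝ := fun i => if i < l then Z else if i < 2 * l then Y else if i < 3 * l then X
    else 0 with hH
  have hHb : ∀ i, |H i| ≤ 29 * m := by
    intro i
    simp only [hH]
    split_ifs
    · linarith
    · linarith
    · exact hXb
    · simp; linarith
  have hend : ctrl_rpath H (a, b, c) (3 * l) = (0, 0, 0) := by
    have e1 := ctrl_const H (a, b, c) 0 Z l (by
      intro k _ h2; simp only [hH]; rw [if_pos (by omega)])
    have e2 := ctrl_const H (a, b, c) l Y l (by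
      intro k h1 h2; simp only [hH]; rw [if_neg (by omega), if_pos (by omega)])
    have e3 := ctrl_const H (a, b, c) (2 * l) X l (by
      intro k h1 h2; simp only [hH]; rw [if_neg (by omega), if_neg (by omega), if_pos (by omega)])
    rw [zero_add] at e1
    rw [← two_mul] at e2
    rw [(by ring : 2 * l + l = 3 * l)] at e3
    rw [e3, e2, e1]
    have hWt : W * t ^ 2 = b + 3 * t * a - (t - 1) / 2 * a := by
      rw [hW]; field_simp
    have hZt : Z * t ^ 3 = c + 3 * t * b + 3 * t * (3 * t - 1) / 2 * a - (t - 1) * (t - 2) / 6 * a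
        - t ^ 2 * (t - 1) * W := by
      rw [hZ]; field_simp
    have hXt : (X + Y + Z) * t = a := by
      rw [hX]; field_simp; ring
    have hYt : Y + 2 * Z = W := by rw [hY]; ring
    simp only [ctrl_rpath, ← ht]
    refine Prod.ext ?_ (Prod.ext ?_ ?_)
    · simp only
      linear_combination -hXt
    · simp only
      linear_combination (-(t - 1) / 2) * hXt - t ^ 2 * hYt - hWt
    · simp only
      linear_combination (-(t - 1) * (t - 2) / 6) * hXt - (t ^ 2 * (t - 1)) * hYt - hZt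
  have hround : ∀ i, |((round (H i) : ℤ) : ℝ) - H i| ≤ 1 / 2 := by
    intro i
    rw [abs_sub_comm]
    exact abs_sub_round (H i)
  have herr := ctrl_err (fun i => round (H i)) H hround (a0, b0, c0)
  simp only [← ha, ← hb, ← hc] at herr
  have hmt2 : m * t ^ 2 = μ / t := by rw [hm]; field_simp
  refine ⟨fun i => round (H i), ?_, ?_, ?_, ?_, ?_⟩
  · intro i
    have h1 := hround i
    have h2 := hHb i
    have h3 : |((round (H i) : ℤ) : ℝ)| ≤ |((round (H i) : ℤ) : ℝ) - H i| + |H i| := by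
      have := abs_add_le (((round (H i) : ℤ) : ℝ) - H i) (H i)
      rwa [sub_add_cancel] at this
    have h4 : 30 * μ / t ^ 3 = 30 * m := by rw [hm]; ring
    simp only
    rw [h4]
    linarith
  · intro i hi
    obtain ⟨-, h2, -⟩ := herr i
    obtain ⟨-, h3⟩ := ctrl_bound H (a, b, c) (3 * l) (29 * m) (by linarith) hHb i hi
    simp only at h3
    have hi' : (i : ℝ) ≤ 3 * t := by rw [ht]; exact_mod_cast hi
    have hi0 : (0 : ℝ) ≤ (i : ℝ) := Nat.cast_nonneg i
    have hbm : |b| ≤ m * t ^ 2 := by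
      have : |b| * t ≤ (m * t ^ 2) * t := by
        nlinarith [abs_nonneg a, abs_nonneg b, abs_nonneg c, mul_nonneg (abs_nonneg a) (sq_nonneg t)]
      exact le_of_mul_le_mul_right this hl0
    have h4 : |((dpath (fun i => round (H i)) (a0, b0, c0) i).2.1 : ℝ)|
        ≤ |((dpath (fun i => round (H i)) (a0, b0, c0) i).2.1 : ℝ)
          - (ctrl_rpath H (a, b, c) i).2.1| + |(ctrl_rpath H (a, b, c) i).2.1| := by
      have := abs_add_le (((dpath (fun i => round (H i)) (a0, b0, c0) i).2.1 : ℝ)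
          - (ctrl_rpath H (a, b, c) i).2.1) ((ctrl_rpath H (a, b, c) i).2.1)
      rwa [sub_add_cancel] at this
    have h5 : (i : ℝ) ^ 2 / 4 ≤ 9 / 4 * t ^ 2 := by nlinarith
    have h6 : (i : ℝ) * (|a| + ((3 * l : ℕ) : ℝ) * (29 * m)) ≤ 273 * (m * t ^ 2) := by
      push_cast
      rw [← ht]
      have h7 : |a| + 3 * t * (29 * m) ≤ 91 * (m * t) := by
        nlinarith [mul_nonneg hm0 hl0.le]
      calc (i : ℝ) * (|a| + 3 * t * (29 * m)) ≤ (3 * t) * (91 * (m * t)) := by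
            refine mul_le_mul hi' h7 (by positivity) (by positivity)
        _ = 273 * (m * t ^ 2) := by ring
    have h8 : 274 * μ / t = 274 * (m * t ^ 2) := by rw [hmt2]; ring
    rw [h8]
    linarith
  · obtain ⟨h1, -, -⟩ := herr (3 * l)
    rw [hend] at h1
    simp only [sub_zero] at h1
    refine h1.trans (le_of_eq ?_)
    push_cast; rw [← ht]; ring
  · obtain ⟨-, h1, -⟩ := herr (3 * l)
    rw [hend] at h1
    simp only [sub_zero] at h1
    refine h1.trans (le_of_eq ?_)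
    push_cast; rw [← ht]; ring
  · obtain ⟨-, -, h1⟩ := herr (3 * l)
    rw [hend] at h1
    simp only [sub_zero] at h1
    refine h1.trans (le_of_eq ?_)
    push_cast; rw [← ht]; ring

theorem ctrl3 (d : St) (M : ℝ) (h1 : |(d.1:ℝ)| ≤ M) (h2 : |(d.2.1:ℝ)| ≤ M)
    (h3 : |(d.2.2:ℝ)| ≤ M) :
    ∃ h : ℕ → ℤ, (∀ i, |(h i : ℝ)| ≤ 30 * M) ∧
      (∀ i ≤ 3, |((dpath h d i).2.1 : ℝ)| ≤ 300 * M) ∧ dpath h d 3 = 0 := by
  obtain ⟨a, b, c⟩ := d
  simp only at h1 h2 h3
  have hM : 0 ≤ M := (abs_nonneg _).trans h1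
  rw [abs_le] at h1 h2 h3
  refine ⟨fun i => if i = 0 then c + 3 * b + 3 * a else if i = 1 then -3 * a - 5 * b - 2 * c else
    if i = 2 then a + 2 * b + c else 0, ?_, ?_, ?_⟩
  · intro i
    simp only
    split_ifs
    · push_cast
      exact abs_le.2 ⟨by linarith [h1.1, h2.1, h3.1], by linarith [h1.2, h2.2, h3.2]⟩
    · push_cast
      exact abs_le.2 ⟨by linarith [h1.2, h2.2, h3.2], by linarith [h1.1, h2.1, h3.1]⟩
    · push_cast
      exact abs_le.2 ⟨by linarith [h1.1, h2.1, h3.1], by linarith [h1.2, h2.2, h3.2]⟩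
    · simp; linarith
  · intro i hi
    interval_cases i
    · simp only [dpath]
      exact abs_le.2 ⟨by linarith [h2.1], by linarith [h2.2]⟩
    · simp only [dpath]
      push_cast
      exact abs_le.2 ⟨by linarith [h2.1, h1.1], by linarith [h2.2, h1.2]⟩
    · simp only [dpath]
      push_cast
      exact abs_le.2 ⟨by linarith [h1.1, h2.1, h3.1, h1.2, h2.2, h3.2],
        by linarith [h1.1, h2.1, h3.1, h1.2, h2.2, h3.2]⟩
    · have e : (dpath (fun i => if i = 0 then c + 3 * b + 3 * a else if i = 1 then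
          -3 * a - 5 * b - 2 * c else if i = 2 then a + 2 * b + c else 0) (a, b, c) 3).2.1 = 0 := by
        simp only [dpath, if_true, one_ne_zero, if_false]
        ring
      rw [e]
      simp; linarith
  · simp only [dpath, if_true, one_ne_zero, if_false, OfNat.ofNat_ne_zero, OfNat.ofNat_ne_one]
    refine Prod.ext ?_ (Prod.ext ?_ ?_)
    · simp only [Prod.fst_zero]; ring
    · simp only [Prod.snd_zero, Prod.fst_zero]; ring
    · simp only [Prod.snd_zero]; ring

end Pool.Agent.Helper7.Stuck
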