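import Mathlib

/-!
# The companion chain of a stuck walk: definitions (MP_6f0d86_pr)

Internal definitions shared by all modules.
-/

open MeasureTheory ProbabilityTheory Filter Topology
open scoped NNReal ENNReal

namespace Pool.Agent.Helper7.Stuck

/-- States `(δ, m, s)` of the companion chain. -/
abbrev St := ℤ × ℤ × ℤ

/-- Rescaled states. -/
abbrev E3 := ℝ × ℝ × ℝ

/-- One step of the companion chain when the increment of `Δ` is `x`. -/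
def stp (z : St) (x : ℤ) : St :=
  (z.1 + x, z.2.1 + (z.1 + x), z.2.2 + (z.2.1 + (z.1 + x)))

/-- The increment `∑_{k ≤ |m|} (g^{(k)} - 2)`; the variables are indexed from `0`. -/
def incr (m : ℤ) (γ : ℕ → ℕ) : ℤ := ∑ k ∈ Finset.range m.natAbs, ((γ k : ℤ) - 2)

/-- The companion chain driven by the array `g i k` (step `i`, variable number `k`). -/
def chain (z0 : St) (g : ℕ → ℕ → ℕ) : ℕ → St
  | 0 => z0
  | i + 1 => stp (chain z0 g i) (incr (chain z0 g i).2.1 (g i))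

/-- Law of `g - 2` for a geometric variable `g` with `P(g = j) = 2^{-j}`, `j ≥ 1`. -/
noncomputable def gam : Measure ℤ :=
  Measure.sum fun j : ℕ => ENNReal.ofReal ((1/2 : ℝ) ^ (j+1)) • Measure.dirac ((j:ℤ) - 1)

/-- `nb m` is the law of a sum of `m` independent copies of `g - 2`. -/
noncomputable def nb : ℕ → Measure ℤ
  | 0 => Measure.dirac 0
  | m + 1 => nb m ∗ gam

/-- Rescaling at scale `lam = n^{1/4}`. -/
noncomputable def sc (lam : ℝ) (z : St) : E3 :=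
  ((z.1 : ℝ) / lam ^ 2, (z.2.1 : ℝ) / lam ^ 3, (z.2.2 : ℝ) / lam ^ 4)

/-- A Markov chain `Z` with the transitions of the (unstopped) companion chain. -/
structure IsChain {Ω : Type*} [mΩ : MeasurableSpace Ω] (P : Measure Ω)
    (𝒢 : ℕ → MeasurableSpace Ω) (Z : ℕ → Ω → St) (X : ℕ → Ω → ℤ) (a : St) : Prop where
  le : ∀ i, 𝒢 i ≤ mΩ
  mono : Monotone 𝒢
  meas_Z : ∀ i z, MeasurableSet[𝒢 i] (Z i ⁻¹' {z})
  meas_X : ∀ i x, MeasurableSet[𝒢 (i+1)] (X i ⁻¹' {x})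
  init : ∀ ω, Z 0 ω = a
  next : ∀ i ω, Z (i+1) ω = stp (Z i ω) (X i ω)
  law : ∀ i (E : Set Ω), MeasurableSet[𝒢 i] E → ∀ (z : St) (x : ℤ),
    P (E ∩ Z i ⁻¹' {z} ∩ X i ⁻¹' {x}) = P (E ∩ Z i ⁻¹' {z}) * nb z.2.1.natAbs {x}

/-- The (discrete) path `Z` has not been stopped up to time `j`. -/
def aliveD (A : ℝ) (Z : ℕ → St) (j : ℕ) : Prop := ∀ i, 0 < i → i ≤ j → A ≤ ((Z i).2.1 : ℝ)

/-! ## operators -/

/-- The reversed chain in the coordinates `(u, m, w) = (-δ, m, -s)`. -/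
noncomputable def Tp (V : ℤ → ℕ) (f : St → ℝ) (z : St) : ℝ :=
  ∫ x, f (z.1 + x, z.2.1 + z.1, z.2.2 + z.2.1) ∂(nb (V (z.2.1 + z.1)))

/-- The reversed chain: `f ↦ E f(δ - X, m - δ, s - m)`, `X ∼ nb (V (m - δ))`. -/
noncomputable def Rv (V : ℤ → ℕ) (f : St → ℝ) (z : St) : ℝ :=
  ∫ x, f (z.1 - x, z.2.1 - z.1, z.2.2 - z.2.1) ∂(nb (V (z.2.1 - z.1)))

/-- The reversed chain killed outside `Q`. -/
noncomputable def RvOn (Q : Set St) (V : ℤ → ℕ) (f : St → ℝ) : St → ℝ :=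
  Q.indicator (Rv V f)

/-- Admissible variance profiles. -/
structure Adm (K : ℕ) (V : ℤ → ℕ) : Prop where
  pos : 1 ≤ K
  ge : ∀ m, K ≤ V m
  lip : ∀ m m', |(V m : ℤ) - V m'| ≤ |m - m'|

/-- The weighted size of a difference. -/
noncomputable def rho (d : St) : ℝ :=
  |(d.1 : ℝ)| ^ (1/2 : ℝ) + |(d.2.1 : ℝ)| ^ (1/3 : ℝ) + 512 * |(d.2.2 : ℝ)| ^ (1/4 : ℝ)

/-! ## the limit process -/

/-- `m*` has stayed above `ε` on `[0, x]`. -/
def Alive {Ω : Type*} (ε : ℝ) (ξ : ℝ≥0 → Ω → E3) (x : ℝ≥0) (ω : Ω) : Prop :=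
  ∀ y ≤ x, ε < (ξ y ω).2.1

open Classical in
/-- The diffusion coefficient `√(2|m|)` switched off when `m*` has reached `ε`. -/
noncomputable def sig {Ω : Type*} (ε : ℝ) (ξ : ℝ≥0 → Ω → E3) (x : ℝ≥0) (ω : Ω) : ℝ :=
  if Alive ε ξ x ω then √(2 * |(ξ x ω).2.1|) else 0

open Classical in
/-- The frozen SDE. -/
structure IsFrozenSol {Ω : Type*} [mΩ : MeasurableSpace Ω] (P : Measure Ω)
    (ℱ : Filtration ℝ≥0 mΩ) (W : ℝ≥0 → Ω → ℝ) (ε : ℝ) (z0 : E3) (ξ : ℝ≥0 → Ω → E3) : Prop where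
  brownian : IsBrownianReal W P
  adaptedW : ∀ t, Measurable[ℱ t] (W t)
  indep : ∀ s t, s ≤ t → Indep (ℱ s) (MeasurableSpace.comap (fun ω => W t ω - W s ω) inferInstance) P
  adapted : ∀ t, Measurable[ℱ t] (ξ t)
  cont : ∀ ω, Continuous (fun t => ξ t ω)
  init : ∀ ω, ξ 0 ω = z0
  sde_δ : ∀ t : ℝ≥0, TendstoInMeasure P (fun (N : ℕ) ω => ∑ j ∈ Finset.range N,
    sig ε ξ (t * j / N) ω * (W (t * (j + 1) / N) ω - W (t * j / N) ω)) atTop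
    (fun ω => (ξ t ω).1 - z0.1)
  sde_m : ∀ᵐ ω ∂P, ∀ t : ℝ≥0, (ξ t ω).2.1 = z0.2.1 +
    ∫ x in (0:ℝ)..t, if Alive ε ξ x.toNNReal ω then (ξ x.toNNReal ω).1 else 0
  sde_s : ∀ᵐ ω ∂P, ∀ t : ℝ≥0, (ξ t ω).2.2 = z0.2.2 +
    ∫ x in (0:ℝ)..t, if Alive ε ξ x.toNNReal ω then (ξ x.toNNReal ω).2.1 else 0

/-! ## auxiliary objects of the proof -/

/-- Deterministic evolution of a difference `(a, b, c)` under the control `h`. -/
def dpath (h : ℕ → ℤ) (d : St) : ℕ → St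
  | 0 => d
  | i + 1 => ((dpath h d i).1 - h i, (dpath h d i).2.1 + (dpath h d i).1,
      (dpath h d i).2.2 + (dpath h d i).2.1)

/-- Grid times. -/
noncomputable def gt (lam : ℝ) (i : ℕ) : ℝ≥0 := Real.toNNReal (i / lam)

/-- A coupling of the laws `nb v` with the standard Gaussian law. -/
structure IsQuant (q : ℕ → ℝ → ℤ) (om : ℕ → ℝ) : Prop where
  meas : ∀ v, Measurable (q v)
  law : ∀ v, (gaussianReal 0 1).map (q v) = nb v
  int : ∀ v, Integrable (fun x => ((q v x : ℝ) - √(2 * v) * x) ^ 2) (gaussianReal 0 1)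
  err : ∀ v : ℕ, ∫ x, ((q v x : ℝ) - √(2 * v) * x) ^ 2 ∂(gaussianReal 0 1) ≤ v * om v
  nonneg : ∀ v, 0 ≤ om v
  lim : Tendsto om atTop (𝓝 0)

/-- The increments of the scheme driven by `W`. -/
noncomputable def scheme {Ω : Type*} (q : ℕ → ℝ → ℤ) (lam : ℝ) (W : ℝ≥0 → Ω → ℝ) (a : St) :
    ℕ → Ω → St
  | 0, _ => a
  | i + 1, ω => stp (scheme q lam W a i ω)
      (q (scheme q lam W a i ω).2.1.natAbs (√lam * (W (gt lam (i+1)) ω - W (gt lam i) ω)))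

/-- The increments `X` of the scheme. -/
noncomputable def schemeX {Ω : Type*} (q : ℕ → ℝ → ℤ) (lam : ℝ) (W : ℝ≥0 → Ω → ℝ) (a : St)
    (i : ℕ) (ω : Ω) : ℤ :=
  q (scheme q lam W a i ω).2.1.natAbs (√lam * (W (gt lam (i+1)) ω - W (gt lam i) ω))

/-- Both the scheme `Z` and the path `ξ` are alive and bounded by `R` up to step `l`. -/
def good {Ω : Type*} (ε R lam : ℝ) (Z : ℕ → Ω → St) (ξ : ℝ≥0 → Ω → E3) (l : ℕ) (ω : Ω) : Prop :=
  (∀ i ≤ l, ε * lam ^ 3 ≤ ((Z i ω).2.1 : ℝ) ∧ ‖sc lam (Z i ω)‖ ≤ R) ∧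
    ∀ y ≤ gt lam l, ε < (ξ y ω).2.1 ∧ ‖ξ y ω‖ ≤ R

/-- The rescaled step path on `[0, t1]`. -/
noncomputable def stepPath (t1 lam : ℝ) (Z : ℕ → St) (t : Set.Icc (0:ℝ) t1) : E3 :=
  sc lam (Z ⌊(t:ℝ) * lam⌋₊)

/-- The restriction of a continuous path to `[0, t1]`. -/
noncomputable def pathC {Ω : Type*} (t1 : ℝ) (ξ : ℝ≥0 → Ω → E3)
    (hc : ∀ ω, Continuous (fun t => ξ t ω)) (ω : Ω) : C(Set.Icc (0:ℝ) t1, E3) :=
  ⟨fun t => ξ ⟨(t:ℝ), t.2.1⟩ ω, (hc ω).comp (by fun_prop)⟩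

instance (t1 : ℝ) : MeasurableSpace C(Set.Icc (0:ℝ) t1, E3) := borel _
instance (t1 : ℝ) : BorelSpace C(Set.Icc (0:ℝ) t1, E3) := ⟨rfl⟩

end Pool.Agent.Helper7.Stuck
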