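import Pool.Agent.Helper7.Stuck.Tvb

open MeasureTheory ProbabilityTheory Filter Topology
open scoped NNReal ENNReal

namespace Pool.Agent.Helper7.Stuck

universe u

/-! ### positivity and mass -/

theorem sup_integrable (v : ℕ) (g : ℤ → ℝ) (C : ℝ) (h : ∀ x, |g x| ≤ C) :
    Integrable g (nb v) := by
  refine Integrable.of_bound (C := C) (Measurable.of_discrete.aestronglyMeasurable) ?_
  exact Filter.Eventually.of_forall (fun x => h x)

theorem sup_Rv_mem (V : ℤ → ℕ) (f : St → ℝ) (G : ℝ) (h : ∀ z, 0 ≤ f z ∧ f z ≤ G) (z : St) :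
    0 ≤ Rv V f z ∧ Rv V f z ≤ G := by
  unfold Rv
  refine ⟨integral_nonneg (fun x => (h _).1), ?_⟩
  have h1 : ∫ x, f (z.1 - x, z.2.1 - z.1, z.2.2 - z.2.1) ∂(nb (V (z.2.1 - z.1))) ≤
      ∫ x, G ∂(nb (V (z.2.1 - z.1))) := by
    refine integral_mono (sup_integrable _ _ G (fun x => ?_)) (integrable_const _)
      (fun x => (h _).2)
    rw [abs_of_nonneg (h _).1]
    exact (h _).2
  simpa using h1

theorem sup_iter_mem (V : ℤ → ℕ) (f : St → ℝ) (G : ℝ) (h : ∀ z, 0 ≤ f z ∧ f z ≤ G) (j : ℕ) :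
    ∀ z : St, 0 ≤ (Rv V)^[j] f z ∧ (Rv V)^[j] f z ≤ G := by
  induction j with
  | zero => exact h
  | succ l ih =>
    intro z
    rw [Function.iterate_succ_apply']
    exact sup_Rv_mem V _ G ih z

/-- The bijection `z ↦ (δ - x, m - δ, s - m)`. -/
def supEquiv (x : ℤ) : St ≃ St where
  toFun z := (z.1 - x, z.2.1 - z.1, z.2.2 - z.2.1)
  invFun z := (z.1 + x, z.2.1 + (z.1 + x), z.2.2 + (z.2.1 + (z.1 + x)))
  left_inv z := by
    obtain ⟨a, b, c⟩ := z
    simp only [Prod.mk.injEq]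
    refine ⟨by ring, by ring, by ring⟩
  right_inv z := by
    obtain ⟨a, b, c⟩ := z
    simp only [Prod.mk.injEq]
    refine ⟨by ring, by ring, by ring⟩

theorem sup_mass (V : ℤ → ℕ) (f : St → ℝ) (h : ∀ z, 0 ≤ f z ∧ f z ≤ 1) :
    ∑' z, ENNReal.ofReal (Rv V f z) = ∑' z, ENNReal.ofReal (f z) := by
  have h1 : ∀ z : St, ENNReal.ofReal (Rv V f z) =
      ∑' x : ℤ, ENNReal.ofReal (f (supEquiv x z)) * nb (V (supEquiv x z).2.1) {x} := by
    intro z
    unfold Rv
    rw [ofReal_integral_eq_lintegral_ofReal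
      (sup_integrable _ _ 1 (fun x => by rw [abs_of_nonneg (h _).1]; exact (h _).2))
      (Filter.Eventually.of_forall (fun x => (h _).1)), lintegral_countable']
    rfl
  simp_rw [h1]
  rw [ENNReal.tsum_comm]
  have h2 : ∀ x : ℤ, ∑' z : St, ENNReal.ofReal (f (supEquiv x z)) *
      nb (V (supEquiv x z).2.1) {x} = ∑' z : St, ENNReal.ofReal (f z) * nb (V z.2.1) {x} :=
    fun x => (supEquiv x).tsum_eq (fun z : St => ENNReal.ofReal (f z) * nb (V z.2.1) {x})
  simp_rw [h2]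
  rw [ENNReal.tsum_comm]
  refine tsum_congr (fun z => ?_)
  rw [ENNReal.tsum_mul_left]
  have h3 : ∑' x : ℤ, nb (V z.2.1) {x} = 1 := by
    have := lintegral_countable' (μ := nb (V z.2.1)) (fun _ => (1 : ℝ≥0∞))
    simp only [lintegral_one, measure_univ, one_mul] at this
    exact this.symm
  rw [h3, mul_one]

theorem sup_ind (z0 z : St) : 0 ≤ Set.indicator {z0} (1 : St → ℝ) z ∧
    Set.indicator {z0} (1 : St → ℝ) z ≤ 1 := by
  by_cases h : z ∈ ({z0} : Set St)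
  · rw [Set.indicator_of_mem h]
    simp
  · rw [Set.indicator_of_notMem h]
    simp

theorem sup_mass_iter (V : ℤ → ℕ) (z0 : St) (j : ℕ) :
    ∑' z, ENNReal.ofReal ((Rv V)^[j] (Set.indicator {z0} 1) z) = 1 := by
  induction j with
  | zero =>
    rw [tsum_eq_single z0]
    · simp
    · intro z hz
      have : z ∉ ({z0} : Set St) := by simpa using hz
      rw [Function.iterate_zero, id_eq, Set.indicator_of_notMem this, ENNReal.ofReal_zero]
  | succ j ih =>
    rw [Function.iterate_succ']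
    simp only [Function.comp_apply]
    rw [sup_mass V _ (sup_iter_mem V _ 1 (sup_ind z0) j)]
    exact ih

theorem sup_sum_le (V : ℤ → ℕ) (z0 : St) (j : ℕ) {ι : Type*} (S : Finset ι) (e : ι → St)
    (he : Function.Injective e) :
    ∑ p ∈ S, (Rv V)^[j] (Set.indicator {z0} 1) (e p) ≤ 1 := by
  classical
  have h0 := fun z => (sup_iter_mem V _ 1 (sup_ind z0) j z).1
  rw [← ENNReal.ofReal_le_ofReal_iff zero_le_one, ENNReal.ofReal_sum_of_nonneg (fun p _ => h0 _),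
    ENNReal.ofReal_one, ← sup_mass_iter V z0 j]
  calc ∑ p ∈ S, ENNReal.ofReal ((Rv V)^[j] (Set.indicator {z0} 1) (e p))
      = ∑ z ∈ S.map ⟨e, he⟩, ENNReal.ofReal ((Rv V)^[j] (Set.indicator {z0} 1) z) := by
        rw [Finset.sum_map]
        rfl
    _ ≤ _ := ENNReal.sum_le_tsum _

/-! ### the basic step -/

theorem sup_step (κ : ℝ) (hκ : 0 < κ) (K : ℕ) (V : ℤ → ℕ)
    (htv : ∀ j : ℕ, 1 ≤ j →
      ∀ φ : St → ℝ, (∀ z, |φ z| ≤ 1) → ∀ z z',
      |(Rv V)^[j] φ z - (Rv V)^[j] φ z'| ≤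
        κ * rho (z - z') * ((K:ℝ) ^ (-(1/3 : ℝ)) + 1 / j))
    (i j : ℕ) (hi : 1 ≤ i) (G : ℝ) (hG : 0 < G) (z0 : St)
    (hj : ∀ z, (Rv V)^[j] (Set.indicator {z0} 1) z ≤ G) (κ' : ℝ)
    (hκ' : (K:ℝ) ^ (-(1/3 : ℝ)) + 1 / i ≤ κ' / i) (θ : ℝ) (hθ : 0 < θ) (z : St) :
    (Rv V)^[i + j] (Set.indicator {z0} 1) z ≤ 3 * κ * κ' * θ * G + 512 ^ 4 / (θ * i) ^ 9 := by
  have hi0 : (0:ℝ) < i := by exact_mod_cast hi
  set r : ℝ := θ * i with hr
  have hr0 : 0 < r := by positivity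
  set f : St → ℝ := (Rv V)^[i + j] (Set.indicator {z0} 1) with hf
  -- the Lipschitz bound
  have hG' : ∀ z, |((fun z => G⁻¹ * (Rv V)^[j] (Set.indicator {z0} 1) z) z)| ≤ 1 := by
    intro z
    simp only
    rw [abs_of_nonneg (mul_nonneg (inv_nonneg.2 hG.le) (sup_iter_mem V _ 1 (sup_ind z0) j z).1)]
    rw [inv_mul_le_iff₀ hG, mul_one]
    exact hj z
  have hscale : ∀ (i : ℕ) (φ : St → ℝ) (a : ℝ), (Rv V)^[i] (fun z => a * φ z) =
      fun z => a * (Rv V)^[i] φ z := by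
    intro i φ a
    induction i with
    | zero => rfl
    | succ i ih =>
      rw [Function.iterate_succ_apply', ih, Function.iterate_succ_apply']
      funext z
      unfold Rv
      rw [integral_const_mul]
  have hlip : ∀ z z' : St, f z ≤ f z' + κ * rho (z - z') * (κ' / i) * G := by
    intro z z'
    have h1 := htv i hi _ hG' z z'
    rw [hscale] at h1
    simp only at h1
    rw [← Function.iterate_add_apply, ← hf, ← mul_sub, abs_mul, abs_of_pos (inv_pos.2 hG),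
      inv_mul_le_iff₀ hG] at h1
    have h2 := (le_abs_self _).trans h1
    have hrho : 0 ≤ rho (z - z') := by
      unfold rho
      positivity
    have h3 : G * (κ * rho (z - z') * ((K:ℝ) ^ (-(1/3 : ℝ)) + 1 / i)) ≤
        G * (κ * rho (z - z') * (κ' / i)) := by
      refine mul_le_mul_of_nonneg_left ?_ hG.le
      exact mul_le_mul_of_nonneg_left hκ' (mul_nonneg hκ.le hrho)
    linarith
  -- the box
  set S : Finset (ℕ × ℕ × ℕ) := Finset.range (⌊r ^ 2⌋₊ + 1) ×ˢ (Finset.range (⌊r ^ 3⌋₊ + 1) ×ˢ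
    Finset.range (⌊r ^ 4 / 512 ^ 4⌋₊ + 1)) with hS
  set e : ℕ × ℕ × ℕ → St := fun p => (z.1 - p.1, z.2.1 - p.2.1, z.2.2 - p.2.2) with he
  have hinj : Function.Injective e := by
    rintro ⟨a, b, c⟩ ⟨a', b', c'⟩ h
    simp only [he, Prod.mk.injEq] at h
    obtain ⟨h1, h2, h3⟩ := h
    rw [Prod.mk.injEq, Prod.mk.injEq]
    refine ⟨by omega, by omega, by omega⟩
  have hsum := sup_sum_le V z0 (i + j) S e hinj
  have hcard : r ^ 9 / 512 ^ 4 ≤ (S.card : ℝ) := by
    rw [hS, Finset.card_product, Finset.card_product, Finset.card_range, Finset.card_range,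
      Finset.card_range]
    push_cast
    have h1 := (Nat.lt_floor_add_one (r ^ 2)).le
    have h2 := (Nat.lt_floor_add_one (r ^ 3)).le
    have h3 := (Nat.lt_floor_add_one (r ^ 4 / 512 ^ 4)).le
    calc r ^ 9 / 512 ^ 4 = r ^ 2 * (r ^ 3 * (r ^ 4 / 512 ^ 4)) := by ring
      _ ≤ _ := by
        refine mul_le_mul h1 (mul_le_mul h2 h3 (by positivity) (by positivity)) (by positivity)
          (by positivity)
  have hrho : ∀ p ∈ S, rho (z - e p) ≤ 3 * r := by
    rintro ⟨a, b, c⟩ hp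
    rw [hS, Finset.mem_product, Finset.mem_product, Finset.mem_range, Finset.mem_range,
      Finset.mem_range] at hp
    obtain ⟨ha, hb, hc⟩ := hp
    simp only at ha hb hc
    have ha' : (a:ℝ) ≤ r ^ 2 := (Nat.le_floor_iff (by positivity)).1 (by omega)
    have hb' : (b:ℝ) ≤ r ^ 3 := (Nat.le_floor_iff (by positivity)).1 (by omega)
    have hc' : (c:ℝ) ≤ r ^ 4 / 512 ^ 4 := (Nat.le_floor_iff (by positivity)).1 (by omega)
    have e1 : z - e (a, b, c) = ((a:ℤ), (b:ℤ), (c:ℤ)) := by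
      simp only [he]
      ext
      · simp
      · simp
      · simp
    rw [e1]
    unfold rho
    simp only [Int.cast_natCast, Nat.abs_cast]
    have h1 : (a:ℝ) ^ (1/2 : ℝ) ≤ r := by
      calc (a:ℝ) ^ (1/2 : ℝ) ≤ (r ^ 2) ^ (1/2 : ℝ) :=
            Real.rpow_le_rpow (by positivity) ha' (by norm_num)
        _ = r := by
          rw [← Real.rpow_natCast, ← Real.rpow_mul hr0.le]
          norm_num
    have h2 : (b:ℝ) ^ (1/3 : ℝ) ≤ r := by
      calc (b:ℝ) ^ (1/3 : ℝ) ≤ (r ^ 3) ^ (1/3 : ℝ) :=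
            Real.rpow_le_rpow (by positivity) hb' (by norm_num)
        _ = r := by
          rw [← Real.rpow_natCast, ← Real.rpow_mul hr0.le]
          norm_num
    have h3 : (c:ℝ) ^ (1/4 : ℝ) ≤ r / 512 := by
      calc (c:ℝ) ^ (1/4 : ℝ) ≤ ((r / 512) ^ 4) ^ (1/4 : ℝ) :=
            Real.rpow_le_rpow (by positivity) (by rw [div_pow]; exact hc') (by norm_num)
        _ = r / 512 := by
          rw [← Real.rpow_natCast, ← Real.rpow_mul (by positivity)]
          norm_num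
    linarith
  -- averaging
  have hκ'0 : 0 ≤ κ' / i := le_trans (by positivity) hκ'
  have havg : (S.card : ℝ) * f z ≤ 1 + S.card * (κ * (3 * r) * (κ' / i) * G) := by
    calc (S.card : ℝ) * f z = ∑ p ∈ S, f z := by rw [Finset.sum_const, nsmul_eq_mul]
      _ ≤ ∑ p ∈ S, (f (e p) + κ * (3 * r) * (κ' / i) * G) := by
        refine Finset.sum_le_sum (fun p hp => ?_)
        refine (hlip z (e p)).trans ?_
        have := hrho p hp
        have h1 : κ * rho (z - e p) * (κ' / i) * G ≤ κ * (3 * r) * (κ' / i) * G := by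
          refine mul_le_mul_of_nonneg_right ?_ hG.le
          refine mul_le_mul_of_nonneg_right ?_ hκ'0
          exact mul_le_mul_of_nonneg_left this hκ.le
        linarith
      _ = ∑ p ∈ S, f (e p) + S.card * (κ * (3 * r) * (κ' / i) * G) := by
        rw [Finset.sum_add_distrib, Finset.sum_const, nsmul_eq_mul]
      _ ≤ _ := by linarith
  have hcard0 : (0:ℝ) < S.card := lt_of_lt_of_le (by positivity) hcard
  have h1 : f z ≤ 1 / S.card + κ * (3 * r) * (κ' / i) * G := by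
    have : f z ≤ (1 + S.card * (κ * (3 * r) * (κ' / i) * G)) / S.card := by
      rw [le_div_iff₀ hcard0]
      linarith
    have e2 : (1 + S.card * (κ * (3 * r) * (κ' / i) * G)) / S.card =
        1 / S.card + κ * (3 * r) * (κ' / i) * G := by
      field_simp
    rw [← e2]
    exact this
  have h2 : (1:ℝ) / S.card ≤ 512 ^ 4 / r ^ 9 := by
    have := one_div_le_one_div_of_le (by positivity) hcard
    have e3 : (1:ℝ) / (r ^ 9 / 512 ^ 4) = 512 ^ 4 / r ^ 9 := by
      rw [one_div_div]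
    rwa [e3] at this
  have h3 : κ * (3 * r) * (κ' / i) * G = 3 * κ * κ' * θ * G := by
    rw [hr]
    field_simp
  rw [h3] at h1
  linarith

theorem sup_bound (c T : ℝ) (hc : 0 < c) (hT : 0 < T) : ∃ C : ℝ, 0 < C ∧ ∀ (lam : ℝ), 1 ≤ lam →
    ∀ (K : ℕ) (V : ℤ → ℕ), Adm K V → c * lam ^ 3 ≤ K → ∀ j : ℕ, 1 ≤ j → (j:ℝ) ≤ T * lam →
    ∀ z0 z : St, (Rv V)^[j] (Set.indicator {z0} 1) z ≤ C / (j:ℝ) ^ 9 := by
  obtain ⟨κ, hκ, htv⟩ := tv_bound_Rv
  set κ' : ℝ := c ^ (-(1/3 : ℝ)) * T + 1 with hκ'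
  have hκ'0 : 0 < κ' := by positivity
  set θ : ℝ := 1 / (2 ^ 10 * 3 * κ * κ') with hθ
  have hθ0 : 0 < θ := by positivity
  set C0 : ℝ := 512 ^ 4 * 3 ^ 9 / θ ^ 9 with hC0
  have hC00 : 0 < C0 := by positivity
  refine ⟨1 + 2 * C0, by positivity, ?_⟩
  intro lam hlam K V hV hK j
  have hlam0 : 0 < lam := by linarith
  have hrate : ∀ i : ℕ, 1 ≤ i → (i:ℝ) ≤ T * lam →
      (K:ℝ) ^ (-(1/3 : ℝ)) + 1 / i ≤ κ' / i := by
    intro i hi hiT
    have hi0 : (0:ℝ) < i := by exact_mod_cast hi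
    have h1 : (K:ℝ) ^ (-(1/3 : ℝ)) ≤ (c * lam ^ 3) ^ (-(1/3 : ℝ)) :=
      Real.rpow_le_rpow_of_nonpos (by positivity) hK (by norm_num)
    have h2 : (c * lam ^ 3) ^ (-(1/3 : ℝ)) = c ^ (-(1/3 : ℝ)) / lam := by
      rw [Real.mul_rpow hc.le (by positivity), ← Real.rpow_natCast, ← Real.rpow_mul hlam0.le]
      norm_num
      rw [Real.rpow_neg_one]
      ring
    have h3 : 1 / lam ≤ T / i := by
      rw [div_le_div_iff₀ hlam0 hi0]
      linarith
    have h4 : c ^ (-(1/3 : ℝ)) / lam ≤ c ^ (-(1/3 : ℝ)) * (T / i) := by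
      rw [div_eq_mul_one_div]
      exact mul_le_mul_of_nonneg_left h3 (by positivity)
    have h5 : κ' / i = c ^ (-(1/3 : ℝ)) * (T / i) + 1 / i := by
      rw [hκ']
      ring
    rw [h5]
    linarith [h1, h2, h4]
  induction j using Nat.strong_induction_on with
  | _ j ih =>
    intro hj hjT z0 z
    have hj0 : (0:ℝ) < j := by exact_mod_cast hj
    rcases Nat.lt_or_ge j 2 with hj2 | hj2
    · have : j = 1 := by omega
      subst this
      have := (sup_iter_mem V _ 1 (sup_ind z0) 1 z).2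
      simp only [Nat.cast_one, one_pow, div_one]
      linarith
    · -- split
      obtain ⟨i, hi⟩ : ∃ i, i = j / 2 := ⟨_, rfl⟩
      obtain ⟨k, hk⟩ : ∃ k, k = j - i := ⟨_, rfl⟩
      have hik : i + k = j := by omega
      have hi1 : 1 ≤ i := by omega
      have hk1 : 1 ≤ k := by omega
      have hkj : k < j := by omega
      have hij : i ≤ j := by omega
      have hi3 : j ≤ 3 * i := by omega
      have hk2 : j ≤ 2 * k := by omega
      have hi0 : (0:ℝ) < i := by exact_mod_cast hi1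
      have hk0 : (0:ℝ) < k := by exact_mod_cast hk1
      have hiT : (i:ℝ) ≤ T * lam := le_trans (by exact_mod_cast hij) hjT
      have hkT : (k:ℝ) ≤ T * lam := le_trans (by exact_mod_cast hkj.le) hjT
      have hi3' : (j:ℝ) ≤ 3 * i := by exact_mod_cast hi3
      have hk2' : (j:ℝ) ≤ 2 * k := by exact_mod_cast hk2
      have hstep := sup_step κ hκ K V (htv K V hV) i k hi1 ((1 + 2 * C0) / (k:ℝ) ^ 9)
        (by positivity) z0 (fun z => ih k hkj hk1 hkT z0 z) κ' (hrate i hi1 hiT) θ hθ0 z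
      rw [hik] at hstep
      refine hstep.trans ?_
      have e1 : 3 * κ * κ' * θ = 1 / 2 ^ 10 := by
        rw [hθ]
        field_simp
      rw [e1]
      have h1 : (1 + 2 * C0) / (k:ℝ) ^ 9 ≤ (1 + 2 * C0) * 2 ^ 9 / (j:ℝ) ^ 9 := by
        rw [div_le_div_iff₀ (by positivity) (by positivity)]
        have : (j:ℝ) ^ 9 ≤ (2 * k) ^ 9 := pow_le_pow_left₀ hj0.le hk2' 9
        calc (1 + 2 * C0) * (j:ℝ) ^ 9 ≤ (1 + 2 * C0) * (2 * k) ^ 9 :=
              mul_le_mul_of_nonneg_left this (by positivity)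
          _ = _ := by ring
      have h2 : (512:ℝ) ^ 4 / (θ * i) ^ 9 ≤ C0 / (j:ℝ) ^ 9 := by
        rw [hC0, div_div, div_le_div_iff₀ (by positivity) (by positivity)]
        have : (j:ℝ) ^ 9 ≤ (3 * i) ^ 9 := pow_le_pow_left₀ hj0.le hi3' 9
        calc (512:ℝ) ^ 4 * (θ ^ 9 * (j:ℝ) ^ 9) ≤ 512 ^ 4 * (θ ^ 9 * (3 * i) ^ 9) :=
              mul_le_mul_of_nonneg_left (mul_le_mul_of_nonneg_left this (by positivity))
                (by positivity)
          _ = _ := by ring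
      have h3 : 1 / 2 ^ 10 * ((1 + 2 * C0) / (k:ℝ) ^ 9) ≤
          1 / 2 ^ 10 * ((1 + 2 * C0) * 2 ^ 9 / (j:ℝ) ^ 9) :=
        mul_le_mul_of_nonneg_left h1 (by positivity)
      have h4 : 1 / 2 ^ 10 * ((1 + 2 * C0) * 2 ^ 9 / (j:ℝ) ^ 9) + C0 / (j:ℝ) ^ 9 ≤
          (1 + 2 * C0) / (j:ℝ) ^ 9 := by
        have e4 : 1 / 2 ^ 10 * ((1 + 2 * C0) * 2 ^ 9 / (j:ℝ) ^ 9) + C0 / (j:ℝ) ^ 9 =
            (1 / 2 + 2 * C0) / (j:ℝ) ^ 9 := by
          field_simp
          ring
        rw [e4]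
        refine div_le_div_of_nonneg_right ?_ (by positivity)
        linarith
      linarith

end Pool.Agent.Helper7.Stuck
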