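import Pool.Agent.Helper7.Stuck.Ops
import Pool.Agent.Helper7.Stuck.Sup

open MeasureTheory ProbabilityTheory Filter Topology
open scoped NNReal ENNReal

namespace Pool.Agent.Helper7.Stuck

universe u

theorem dens_meas_pre {Ω : Type*} [mΩ : MeasurableSpace Ω] {P : Measure Ω}
    {𝒢 : ℕ → MeasurableSpace Ω} {Z : ℕ → Ω → St} {X : ℕ → Ω → ℤ} {a : St}
    (hZ : IsChain P 𝒢 Z X a) (i : ℕ) (S : Set St) : MeasurableSet[𝒢 i] (Z i ⁻¹' S) := by
  have h : Z i ⁻¹' S = ⋃ z ∈ S, Z i ⁻¹' {z} := by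
    ext ω; simp
  rw [h]
  exact MeasurableSet.biUnion (Set.to_countable S) fun z _ => hZ.meas_Z i z

theorem dens_meas_alive {Ω : Type*} [mΩ : MeasurableSpace Ω] {P : Measure Ω}
    {𝒢 : ℕ → MeasurableSpace Ω} {Z : ℕ → Ω → St} {X : ℕ → Ω → ℤ} {a : St}
    (hZ : IsChain P 𝒢 Z X a) (A : ℝ) (l : ℕ) :
    MeasurableSet[𝒢 l] {ω | aliveD A (fun i => Z i ω) l} := by
  have h : {ω | aliveD A (fun i => Z i ω) l} =
      ⋂ i, ⋂ (_ : 0 < i), ⋂ (_ : i ≤ l), Z i ⁻¹' {z | A ≤ (z.2.1 : ℝ)} := by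
    ext ω
    simp [aliveD]
  rw [h]
  refine MeasurableSet.iInter fun i => MeasurableSet.iInter fun _ => MeasurableSet.iInter
    fun hi => ?_
  exact hZ.mono hi _ (dens_meas_pre hZ i _)

theorem dens_real {Ω : Type*} [mΩ : MeasurableSpace Ω] {P : Measure Ω} [IsProbabilityMeasure P]
    {E : Set Ω} (hE : MeasurableSet E) (S : Set Ω) :
    ∫ ω in S, E.indicator (1 : Ω → ℝ) ω ∂P = P.real (E ∩ S) := by
  rw [integral_indicator_one hE, measureReal_restrict_apply hE]

theorem dens_int (m : ℕ) (g : ℤ → ℝ) (hg : ∀ x, |g x| ≤ 1) : Integrable g (nb m) :=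
  Integrable.of_bound (Measurable.of_discrete).aestronglyMeasurable 1
    (Eventually.of_forall fun x => by rw [Real.norm_eq_abs]; exact hg x)

theorem dens_Rv_bd (V : ℤ → ℕ) (f : St → ℝ) (h0 : ∀ z, 0 ≤ f z) (h1 : ∀ z, f z ≤ 1) (l : ℕ) :
    ∀ z, 0 ≤ (Rv V)^[l] f z ∧ (Rv V)^[l] f z ≤ 1 := by
  induction l with
  | zero => exact fun z => ⟨h0 z, h1 z⟩
  | succ l ih =>
    intro z
    rw [Function.iterate_succ_apply']
    refine ⟨integral_nonneg fun x => (ih _).1, ?_⟩
    have hb : ∀ w, |(Rv V)^[l] f w| ≤ 1 := fun w => abs_le.2 ⟨by linarith [(ih w).1], (ih w).2⟩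
    calc Rv V ((Rv V)^[l] f) z ≤ ∫ _, (1:ℝ) ∂(nb (V (z.2.1 - z.1))) :=
          integral_mono (dens_int _ _ fun x => hb _) (integrable_const 1) fun x => (ih _).2
      _ = 1 := by simp

/-- the law of the chain is bounded by the iterates of the reversed operator -/
theorem dens_iter {Ω : Type*} [mΩ : MeasurableSpace Ω] {P : Measure Ω} [IsProbabilityMeasure P]
    {𝒢 : ℕ → MeasurableSpace Ω} {Z : ℕ → Ω → St} {X : ℕ → Ω → ℤ} {a : St}
    (hZ : IsChain P 𝒢 Z X a) {A : ℝ} (hA : 0 < A) (ha : A ≤ (a.2.1 : ℝ)) (V : ℤ → ℕ)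
    (hV : ∀ m : ℤ, A ≤ (m:ℝ) → V m = m.natAbs) (l : ℕ) : ∀ z,
    P.real ({ω | aliveD A (fun i => Z i ω) l} ∩ Z l ⁻¹' {z}) ≤
      (Rv V)^[l] (Set.indicator {a} 1) z := by
  have h01 : ∀ z, 0 ≤ Set.indicator {a} (1 : St → ℝ) z := fun z =>
    Set.indicator_nonneg (fun _ _ => zero_le_one) z
  have h11 : ∀ z, Set.indicator {a} (1 : St → ℝ) z ≤ 1 := fun z =>
    Set.indicator_le_self' (fun _ _ => zero_le_one) z
  induction l with
  | zero =>
    intro z
    by_cases hz : z = a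
    · subst hz
      simp only [Function.iterate_zero, id_eq, Set.indicator_of_mem, Set.mem_singleton_iff,
        Pi.one_apply]
      exact measureReal_le_one
    · have : {ω | aliveD A (fun i => Z i ω) 0} ∩ Z 0 ⁻¹' {z} = ∅ := by
        ext ω
        simp only [Set.mem_inter_iff, Set.mem_preimage, Set.mem_singleton_iff, hZ.init ω,
          Set.mem_empty_iff_false, iff_false, not_and]
        exact fun _ h => hz h.symm
      rw [this, measureReal_empty]
      exact h01 z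
  | succ l ih =>
    intro z
    have hle : 𝒢 l ≤ mΩ := hZ.le l
    have hE : MeasurableSet[𝒢 l] {ω | aliveD A (fun i => Z i ω) l} := dens_meas_alive hZ A l
    -- drop the last condition
    have hdrop : P.real ({ω | aliveD A (fun i => Z i ω) (l+1)} ∩ Z (l+1) ⁻¹' {z}) ≤
        P.real ({ω | aliveD A (fun i => Z i ω) l} ∩ Z (l+1) ⁻¹' {z}) := by
      apply measureReal_mono _ (measure_ne_top _ _)
      exact Set.inter_subset_inter_left _ fun ω hω i h1 h2 => hω i h1 (h2.trans (Nat.le_succ l))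
    have hops := ops P 𝒢 Z X a hZ l ({ω | aliveD A (fun i => Z i ω) l}.indicator (1 : Ω → ℝ))
      (Measurable.indicator (measurable_const (a := (1:ℝ))) hE) 1 (fun ω => by
        by_cases h : ω ∈ {ω | aliveD A (fun i => Z i ω) l}
        · rw [Set.indicator_of_mem h]; simp
        · rw [Set.indicator_of_notMem h]; simp) z
    simp only [dens_real (hle _ hE)] at hops
    rw [hops] at hdrop
    refine hdrop.trans ?_
    rw [Function.iterate_succ_apply']
    have hb := dens_Rv_bd V (Set.indicator {a} (1 : St → ℝ)) h01 h11 l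
    by_cases hm : A ≤ ((z.2.1 - z.1 : ℤ) : ℝ)
    · show _ ≤ ∫ x, (Rv V)^[l] (Set.indicator {a} 1) (z.1 - x, z.2.1 - z.1, z.2.2 - z.2.1)
        ∂(nb (V (z.2.1 - z.1)))
      rw [hV _ hm]
      apply integral_mono
      · apply dens_int
        intro x
        rw [abs_of_nonneg measureReal_nonneg]
        exact measureReal_le_one
      · apply dens_int
        intro x
        exact abs_le.2 ⟨by linarith [(hb (z.1 - x, z.2.1 - z.1, z.2.2 - z.2.1)).1],
          (hb (z.1 - x, z.2.1 - z.1, z.2.2 - z.2.1)).2⟩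
      · intro x
        exact ih _
    · have hz0 : ∀ x : ℤ, P.real ({ω | aliveD A (fun i => Z i ω) l} ∩
          Z l ⁻¹' {(z.1 - x, z.2.1 - z.1, z.2.2 - z.2.1)}) = 0 := by
        intro x
        have : {ω | aliveD A (fun i => Z i ω) l} ∩
            Z l ⁻¹' {(z.1 - x, z.2.1 - z.1, z.2.2 - z.2.1)} = ∅ := by
          ext ω
          simp only [Set.mem_inter_iff, Set.mem_ofPred_eq, Set.mem_preimage,
            Set.mem_singleton_iff, Set.mem_empty_iff_false, iff_false, not_and]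
          intro hal hω
          apply hm
          rcases Nat.eq_zero_or_pos l with h0 | h0
          · subst h0
            rw [hZ.init ω] at hω
            rw [hω] at ha
            exact ha
          · have := hal l h0 le_rfl
            simp only [hω] at this
            exact this
        rw [this, measureReal_empty]
      simp only [hz0, integral_zero]
      have := (dens_Rv_bd V (Set.indicator {a} (1 : St → ℝ)) h01 h11 (l+1) z).1
      rwa [Function.iterate_succ_apply'] at this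

/-- Uniform bound for the law of the chain on the event of being alive. -/
theorem dens (t0 T ε : ℝ) (ht0 : 0 < t0) (hT : 0 < T) (hε : 0 < ε) :
    ∃ C Λ : ℝ, 0 < C ∧ 1 ≤ Λ ∧ ∀ lam : ℝ, Λ ≤ lam → ∀ (Ω : Type u) (mΩ : MeasurableSpace Ω)
    (P : Measure Ω) (_ : IsProbabilityMeasure P) (𝒢 : ℕ → MeasurableSpace Ω) (Z : ℕ → Ω → St)
    (X : ℕ → Ω → ℤ) (a : St), IsChain P 𝒢 Z X a → ε * lam ^ 3 ≤ (a.2.1 : ℝ) →
    ∀ j : ℕ, t0 * lam ≤ j → (j:ℝ) ≤ T * lam → ∀ z : St,
    P.real {ω | Z j ω = z ∧ aliveD (ε * lam ^ 3) (fun i => Z i ω) j} ≤ C / lam ^ 9 := by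
  obtain ⟨C, hC, hsup⟩ := sup_bound (ε / 2) T (by positivity) hT
  refine ⟨C / t0 ^ 9, max 1 (2 / ε), by positivity, le_max_left _ _, ?_⟩
  intro lam hlam Ω _ P _ 𝒢 Z X a hZ ha j hj hj' z
  have hlam1 : 1 ≤ lam := (le_max_left _ _).trans hlam
  have hlam2 : 2 / ε ≤ lam := (le_max_right _ _).trans hlam
  have hlam3 : lam ≤ lam ^ 3 := by
    calc lam = lam ^ 1 := (pow_one _).symm
      _ ≤ lam ^ 3 := pow_le_pow_right₀ hlam1 (by norm_num)
  have hA2 : 2 ≤ ε * lam ^ 3 := by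
    rw [div_le_iff₀ hε] at hlam2
    nlinarith
  have hA : 0 < ε * lam ^ 3 := by linarith
  obtain ⟨K, hK⟩ : ∃ K : ℕ, K = ⌊ε * lam ^ 3⌋₊ := ⟨_, rfl⟩
  have hK1 : (K:ℝ) ≤ ε * lam ^ 3 := by rw [hK]; exact Nat.floor_le hA.le
  have hK2 : ε * lam ^ 3 < K + 1 := by rw [hK]; exact Nat.lt_floor_add_one _
  have hK0 : 1 ≤ K := by
    have : (0:ℝ) < K := by linarith
    exact_mod_cast this
  let V : ℤ → ℕ := fun m => max m.toNat K
  have hV : Adm K V := by
    refine ⟨hK0, fun m => le_max_right _ _, fun m m' => ?_⟩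
    simp only [V]
    rcases abs_cases (m - m') with h | h <;>
      rcases abs_cases ((max m.toNat K : ℕ) - (max m'.toNat K : ℕ) : ℤ) with h' | h' <;>
      omega
  have hVA : ∀ m : ℤ, ε * lam ^ 3 ≤ (m:ℝ) → V m = m.natAbs := by
    intro m hm
    have h1 : (K:ℝ) ≤ m := hK1.trans hm
    have h2 : (K:ℤ) ≤ m := by exact_mod_cast h1
    simp only [V]
    omega
  have h1 := dens_iter hZ hA ha V hVA j z
  have hj1 : 1 ≤ j := by
    have : (0:ℝ) < j := lt_of_lt_of_le (by positivity) hj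
    exact_mod_cast this
  have h2 := hsup lam hlam1 K V hV (by linarith) j hj1 hj' a z
  have h3 : {ω | Z j ω = z ∧ aliveD (ε * lam ^ 3) (fun i => Z i ω) j} =
      {ω | aliveD (ε * lam ^ 3) (fun i => Z i ω) j} ∩ Z j ⁻¹' {z} := by
    ext ω
    simp only [Set.mem_ofPred_eq, Set.mem_inter_iff, Set.mem_preimage, Set.mem_singleton_iff]
    tauto
  rw [h3]
  refine (h1.trans h2).trans ?_
  have h4 : (t0 * lam) ^ 9 ≤ (j:ℝ) ^ 9 := pow_le_pow_left₀ (by positivity) hj 9
  calc C / (j:ℝ) ^ 9 ≤ C / (t0 * lam) ^ 9 :=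
        div_le_div_of_nonneg_left hC.le (by positivity) h4
    _ = C / t0 ^ 9 / lam ^ 9 := by rw [mul_pow, div_div]

end Pool.Agent.Helper7.Stuck
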