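import Pool.Agent.Helper7.Stuck.NB1

open MeasureTheory ProbabilityTheory Filter Topology
open scoped NNReal ENNReal

namespace Pool.Agent.Helper7.Stuck

universe u

/-- An array of independent geometric variables. -/
structure IsGeom {Ω : Type*} [MeasurableSpace Ω] (P : Measure Ω) (g : ℕ → ℕ → Ω → ℕ) : Prop where
  meas : ∀ i k, Measurable (g i k)
  indep : iIndepFun (fun p : ℕ × ℕ => g p.1 p.2) P
  law : ∀ i k j, 1 ≤ j → P {ω | g i k ω = j} = ENNReal.ofReal ((1/2 : ℝ) ^ j)

/-- The sigma-algebra of the rows before `i`. -/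
@[reducible] def law_G {Ω : Type*} (g : ℕ → ℕ → Ω → ℕ) (i : ℕ) : MeasurableSpace Ω :=
  ⨆ p ∈ {p : ℕ × ℕ | p.1 < i}, MeasurableSpace.comap (g p.1 p.2) inferInstance

/-- The sigma-algebra of the row `i`. -/
@[reducible] def law_H {Ω : Type*} (g : ℕ → ℕ → Ω → ℕ) (i : ℕ) : MeasurableSpace Ω :=
  ⨆ p ∈ {p : ℕ × ℕ | p.1 = i}, MeasurableSpace.comap (g p.1 p.2) inferInstance

theorem law_G_mono {Ω : Type*} (g : ℕ → ℕ → Ω → ℕ) : Monotone (law_G g) := by
  intro i i' h
  exact biSup_mono fun p (hp : p.1 < i) => lt_of_lt_of_le hp h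

theorem law_H_le_G {Ω : Type*} (g : ℕ → ℕ → Ω → ℕ) (i : ℕ) : law_H g i ≤ law_G g (i+1) :=
  biSup_mono fun p (hp : p.1 = i) => by
    change p.1 < i + 1
    omega

theorem law_meas_g {Ω : Type*} (g : ℕ → ℕ → Ω → ℕ) (i k : ℕ) : Measurable[law_H g i] (g i k) := by
  refine Measurable.mono (comap_measurable (g i k)) ?_ le_rfl
  exact le_biSup (fun p : ℕ × ℕ => MeasurableSpace.comap (g p.1 p.2) inferInstance)
    (show ((i, k) : ℕ × ℕ) ∈ {p : ℕ × ℕ | p.1 = i} from rfl)

theorem law_meas_incr {Ω : Type*} (g : ℕ → ℕ → Ω → ℕ) (i : ℕ) (m : ℤ) :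
    Measurable[law_H g i] (fun ω => incr m (fun k => g i k ω)) := by
  unfold incr
  refine Finset.measurable_sum _ fun k _ => ?_
  exact (measurable_of_countable (fun n : ℕ => (n : ℤ) - 2)).comp (law_meas_g g i k)

theorem law_meas_Z {Ω : Type*} (g : ℕ → ℕ → Ω → ℕ) (a : St) (i : ℕ) : ∀ (z : St),
    MeasurableSet[law_G g i] ((fun ω => chain a (fun i k => g i k ω) i) ⁻¹' {z}) := by
  induction i with
  | zero =>
    intro z
    by_cases h : a = z
    · have : ((fun ω => chain a (fun i k => g i k ω) 0) ⁻¹' {z}) = Set.univ := by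
        ext ω; simp [chain, h]
      rw [this]; exact @MeasurableSet.univ _ (law_G g 0)
    · have : ((fun ω => chain a (fun i k => g i k ω) 0) ⁻¹' {z}) = ∅ := by
        ext ω; simp [chain, h]
      rw [this]; exact @MeasurableSet.empty _ (law_G g 0)
  | succ i ih =>
    intro z
    have : ((fun ω => chain a (fun i k => g i k ω) (i+1)) ⁻¹' {z}) =
        ⋃ w : St, ((fun ω => chain a (fun i k => g i k ω) i) ⁻¹' {w}) ∩
          ((fun ω => incr w.2.1 (fun k => g i k ω)) ⁻¹' {x | stp w x = z}) := by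
      ext ω
      simp only [Set.mem_preimage, Set.mem_singleton_iff, Set.mem_iUnion, Set.mem_inter_iff]
      constructor
      · intro h
        exact ⟨_, rfl, h⟩
      · rintro ⟨w, h1, h2⟩
        change stp (chain a (fun i k => g i k ω) i) _ = z
        rw [h1]
        exact h2
    rw [this]
    refine MeasurableSet.iUnion fun w => MeasurableSet.inter ?_ ?_
    · exact law_G_mono g (Nat.le_succ i) _ (ih w)
    · exact law_H_le_G g i _ ((law_meas_incr g i w.2.1) (Set.to_countable _).measurableSet)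

theorem geom_isChain {Ω : Type*} [MeasurableSpace Ω] (P : Measure Ω) [IsProbabilityMeasure P]
    (g : ℕ → ℕ → Ω → ℕ) (hg : IsGeom P g) (a : St) :
    ∃ 𝒢 : ℕ → MeasurableSpace Ω, IsChain P 𝒢 (fun i ω => chain a (fun i k => g i k ω) i)
      (fun i ω => incr (chain a (fun i k => g i k ω) i).2.1 (fun k => g i k ω)) a := by
  have hle : ∀ p : ℕ × ℕ, MeasurableSpace.comap (g p.1 p.2) inferInstance ≤ (‹_› : MeasurableSpace Ω) :=
    fun p => (hg.meas p.1 p.2).comap_le
  refine ⟨law_G g, ⟨fun i => iSup₂_le fun p _ => hle p, law_G_mono g, law_meas_Z g a, ?_,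
    fun ω => rfl, fun i ω => rfl, ?_⟩⟩
  · intro i x
    have : ((fun ω => incr (chain a (fun i k => g i k ω) i).2.1 (fun k => g i k ω)) ⁻¹' {x}) =
        ⋃ w : St, ((fun ω => chain a (fun i k => g i k ω) i) ⁻¹' {w}) ∩
          ((fun ω => incr w.2.1 (fun k => g i k ω)) ⁻¹' {x}) := by
      ext ω
      simp only [Set.mem_preimage, Set.mem_singleton_iff, Set.mem_iUnion, Set.mem_inter_iff]
      constructor
      · intro h
        exact ⟨_, rfl, h⟩
      · rintro ⟨w, h1, h2⟩
        rw [h1]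
        exact h2
    rw [this]
    refine MeasurableSet.iUnion fun w => MeasurableSet.inter ?_ ?_
    · exact law_G_mono g (Nat.le_succ i) _ (law_meas_Z g a i w)
    · exact law_H_le_G g i _ ((law_meas_incr g i w.2.1) (measurableSet_singleton x))
  · intro i E hE z x
    have hind : Indep (law_G g i) (law_H g i) P := by
      refine indep_iSup_of_disjoint hle hg.indep ?_
      exact Set.disjoint_left.2 fun p (h1 : p.1 < i) (h2 : p.1 = i) => by omega
    have hset : E ∩ (fun ω => chain a (fun i k => g i k ω) i) ⁻¹' {z} ∩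
        (fun ω => incr (chain a (fun i k => g i k ω) i).2.1 (fun k => g i k ω)) ⁻¹' {x} =
        (E ∩ (fun ω => chain a (fun i k => g i k ω) i) ⁻¹' {z}) ∩
          (fun ω => incr z.2.1 (fun k => g i k ω)) ⁻¹' {x} := by
      ext ω
      simp only [Set.mem_inter_iff, Set.mem_preimage, Set.mem_singleton_iff]
      constructor
      · rintro ⟨⟨h1, h2⟩, h3⟩
        refine ⟨⟨h1, h2⟩, ?_⟩
        rw [h2] at h3
        exact h3
      · rintro ⟨⟨h1, h2⟩, h3⟩
        refine ⟨⟨h1, h2⟩, ?_⟩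
        rw [h2]
        exact h3
    rw [hset, (Indep_iff _ _ _).1 hind _ _ (MeasurableSet.inter hE (law_meas_Z g a i z))
      ((law_meas_incr g i z.2.1) (measurableSet_singleton x))]
    congr 1
    have h1 : iIndepFun (g i) P :=
      hg.indep.precomp (g := fun k : ℕ => ((i, k) : ℕ × ℕ)) (fun k k' h => by simpa using h)
    have h2 := nb_map_sum P (g i) (hg.meas i) h1 (hg.law i) z.2.1.natAbs
    rw [← h2, Measure.map_apply]
    · rfl
    · refine Finset.measurable_sum _ fun k _ => ?_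
      exact (measurable_of_countable (fun n : ℕ => (n : ℤ) - 2)).comp (hg.meas i k)
    · exact measurableSet_singleton x

theorem law_step {Ω : Type*} [MeasurableSpace Ω] (P : Measure Ω) [IsProbabilityMeasure P]
    (𝒢 : ℕ → MeasurableSpace Ω) (Z : ℕ → Ω → St) (X : ℕ → Ω → ℤ) (a : St)
    (hZ : IsChain P 𝒢 Z X a) (y : ℕ → St) (j : ℕ) :
    P {ω | ∀ i ≤ j + 1, Z i ω = y i} =
      if stp (y j) ((y (j+1)).1 - (y j).1) = y (j+1) then
        P {ω | ∀ i ≤ j, Z i ω = y i} * nb (y j).2.1.natAbs {(y (j+1)).1 - (y j).1} else 0 := by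
  have hE : MeasurableSet[𝒢 j] {ω | ∀ i ≤ j, Z i ω = y i} := by
    have : {ω | ∀ i ≤ j, Z i ω = y i} = ⋂ i ∈ {i | i ≤ j}, Z i ⁻¹' {y i} := by
      ext ω; simp
    rw [this]
    exact MeasurableSet.biInter (Set.to_countable _) fun i hi => hZ.mono hi _ (hZ.meas_Z i _)
  split_ifs with h
  · have hset : {ω | ∀ i ≤ j + 1, Z i ω = y i} =
        {ω | ∀ i ≤ j, Z i ω = y i} ∩ Z j ⁻¹' {y j} ∩ X j ⁻¹' {(y (j+1)).1 - (y j).1} := by
      ext ω
      simp only [Set.mem_inter_iff, Set.mem_preimage, Set.mem_singleton_iff]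
      constructor
      · intro hω
        have hω' : ∀ i ≤ j + 1, Z i ω = y i := hω
        refine ⟨⟨fun i hi => hω' i (by omega), hω' j (by omega)⟩, ?_⟩
        have h1 := hZ.next j ω
        rw [hω' j (by omega), hω' (j+1) le_rfl] at h1
        rw [h1]
        simp [stp]
      · rintro ⟨⟨h1, h2⟩, h3⟩ i hi
        rcases Nat.lt_or_ge i (j+1) with h4 | h4
        · exact h1 i (by omega)
        · obtain rfl : i = j + 1 := by omega
          rw [hZ.next j ω, h2, h3, h]
    have hset2 : {ω | ∀ i ≤ j, Z i ω = y i} ∩ Z j ⁻¹' {y j} = {ω | ∀ i ≤ j, Z i ω = y i} :=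
      Set.inter_eq_left.2 fun ω hω => hω j le_rfl
    rw [hset, hZ.law j _ hE, hset2]
  · have hset : {ω | ∀ i ≤ j + 1, Z i ω = y i} = ∅ := by
      ext ω
      simp only [Set.mem_empty_iff_false, iff_false]
      intro hω
      have hω' : ∀ i ≤ j + 1, Z i ω = y i := hω
      refine h ?_
      have h1 := hZ.next j ω
      rw [hω' j (by omega), hω' (j+1) le_rfl] at h1
      have h2 : (y (j+1)).1 - (y j).1 = X j ω := by
        rw [h1]; simp [stp]
      rw [h2, h1]
    rw [hset, measure_empty]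

theorem law_cyl {Ω Ω' : Type*} [MeasurableSpace Ω] [MeasurableSpace Ω'] (P : Measure Ω)
    [IsProbabilityMeasure P] (P' : Measure Ω') [IsProbabilityMeasure P']
    (𝒢 : ℕ → MeasurableSpace Ω) (Z : ℕ → Ω → St) (X : ℕ → Ω → ℤ)
    (𝒢' : ℕ → MeasurableSpace Ω') (Z' : ℕ → Ω' → St) (X' : ℕ → Ω' → ℤ) (a : St)
    (hZ : IsChain P 𝒢 Z X a) (hZ' : IsChain P' 𝒢' Z' X' a) (y : ℕ → St) (j : ℕ) :
    P {ω | ∀ i ≤ j, Z i ω = y i} = P' {ω | ∀ i ≤ j, Z' i ω = y i} := by
  induction j with
  | zero =>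
    by_cases h : a = y 0
    · have h1 : {ω | ∀ i ≤ 0, Z i ω = y i} = Set.univ := by
        ext ω; simp [hZ.init, h]
      have h2 : {ω | ∀ i ≤ 0, Z' i ω = y i} = Set.univ := by
        ext ω; simp [hZ'.init, h]
      rw [h1, h2]; simp
    · have h1 : {ω | ∀ i ≤ 0, Z i ω = y i} = ∅ := by
        ext ω; simp [hZ.init, h]
      have h2 : {ω | ∀ i ≤ 0, Z' i ω = y i} = ∅ := by
        ext ω; simp [hZ'.init, h]
      rw [h1, h2]; simp
  | succ j ih => rw [law_step P 𝒢 Z X a hZ, law_step P' 𝒢' Z' X' a hZ', ih]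

theorem law_eq {Ω Ω' : Type*} [MeasurableSpace Ω] [MeasurableSpace Ω'] (P : Measure Ω)
    [IsProbabilityMeasure P] (P' : Measure Ω') [IsProbabilityMeasure P']
    (𝒢 : ℕ → MeasurableSpace Ω) (Z : ℕ → Ω → St) (X : ℕ → Ω → ℤ)
    (𝒢' : ℕ → MeasurableSpace Ω') (Z' : ℕ → Ω' → St) (X' : ℕ → Ω' → ℤ) (a : St)
    (hZ : IsChain P 𝒢 Z X a) (hZ' : IsChain P' 𝒢' Z' X' a) (j : ℕ) :
    P.map (fun ω (i : Fin (j+1)) => Z i ω) = P'.map (fun ω (i : Fin (j+1)) => Z' i ω) := by
  have hm : ∀ i, Measurable (Z i) := fun i =>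
    measurable_to_countable' fun z => hZ.le i _ (hZ.meas_Z i z)
  have hm' : ∀ i, Measurable (Z' i) := fun i =>
    measurable_to_countable' fun z => hZ'.le i _ (hZ'.meas_Z i z)
  have hf : Measurable (fun ω (i : Fin (j+1)) => Z i ω) := measurable_pi_lambda _ fun i => hm i
  have hf' : Measurable (fun ω (i : Fin (j+1)) => Z' i ω) := measurable_pi_lambda _ fun i => hm' i
  refine Measure.ext_of_singleton fun y => ?_
  rw [Measure.map_apply hf (measurableSet_singleton y),
    Measure.map_apply hf' (measurableSet_singleton y)]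
  have h := law_cyl P P' 𝒢 Z X 𝒢' Z' X' a hZ hZ'
    (fun i => if h : i < j + 1 then y ⟨i, h⟩ else a) j
  have h1 : (fun ω (i : Fin (j+1)) => Z i ω) ⁻¹' {y} =
      {ω | ∀ i ≤ j, Z i ω = if h : i < j + 1 then y ⟨i, h⟩ else a} := by
    ext ω
    constructor
    · intro hω i hi
      have : (fun (i : Fin (j+1)) => Z i ω) = y := hω
      rw [dif_pos (by omega : i < j + 1), ← this]
    · intro hω
      funext i
      have := hω i (by omega)
      rw [dif_pos i.2] at this
      exact this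
  have h2 : (fun ω (i : Fin (j+1)) => Z' i ω) ⁻¹' {y} =
      {ω | ∀ i ≤ j, Z' i ω = if h : i < j + 1 then y ⟨i, h⟩ else a} := by
    ext ω
    constructor
    · intro hω i hi
      have : (fun (i : Fin (j+1)) => Z' i ω) = y := hω
      rw [dif_pos (by omega : i < j + 1), ← this]
    · intro hω
      funext i
      have := hω i (by omega)
      rw [dif_pos i.2] at this
      exact this
  rw [h1, h2]
  exact h

end Pool.Agent.Helper7.Stuck
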