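import Pool.Agent.Helper7.Stuck.One
import Pool.Agent.Helper7.Stuck.Dens

open MeasureTheory ProbabilityTheory Filter Topology
open scoped NNReal ENNReal

namespace Pool.Agent.Helper7.Stuck

universe u

/-! ### soft measure theory -/

theorem od_meas_forall {Ω A : Type*} [MeasurableSpace Ω] [TopologicalSpace A]
    [TopologicalSpace.SeparableSpace A] (F : A → Ω → ℝ) (hc : ∀ ω, Continuous fun a => F a ω)
    (hm : ∀ a, Measurable (F a)) (c : ℝ) : MeasurableSet {ω | ∀ a, F a ω ≤ c} := by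
  obtain ⟨s, hsc, hsd⟩ := TopologicalSpace.exists_countable_dense A
  have : {ω | ∀ a, F a ω ≤ c} = ⋂ a ∈ s, {ω | F a ω ≤ c} := by
    ext ω
    simp only [Set.mem_iInter]
    constructor
    · intro h a _
      exact h a
    · intro h a
      have hcl : IsClosed {a | F a ω ≤ c} := isClosed_le (hc ω) continuous_const
      have h2 : closure s ⊆ {a | F a ω ≤ c} := hcl.closure_subset_iff.2 fun a ha => h a ha
      exact h2 (hsd a)
  rw [this]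
  exact MeasurableSet.biInter hsc fun a _ => measurableSet_le (hm a) measurable_const

theorem od_small {Ω : Type*} [MeasurableSpace Ω] (P : Measure Ω) [IsProbabilityMeasure P]
    (s : ℕ → Set Ω) (hs : Antitone s) (hm : ∀ k, MeasurableSet (s k))
    (he : ∀ ω, ∃ k, ω ∉ s k) (γ : ℝ≥0∞) (hγ : 0 < γ) : ∃ k, P (s k) ≤ γ := by
  have h := tendsto_measure_iInter_atTop (μ := P) (fun k => (hm k).nullMeasurableSet) hs
    ⟨0, measure_ne_top _ _⟩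
  have he' : ⋂ k, s k = ∅ := by
    ext ω
    obtain ⟨k, hk⟩ := he ω
    simp only [Set.mem_iInter, Set.mem_empty_iff_false, iff_false]
    exact fun h => hk (h k)
  rw [he', measure_empty] at h
  obtain ⟨k, hk⟩ := (h.eventually_lt_const hγ).exists
  exact ⟨k, hk.le⟩

theorem od_sup {Ω : Type*} [MeasurableSpace Ω] (P : Measure Ω) [IsProbabilityMeasure P]
    (ξ : ℝ≥0 → Ω → E3) (hm : ∀ t, Measurable (ξ t)) (hc : ∀ ω, Continuous fun t => ξ t ω)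
    (T : ℝ≥0) (γ : ℝ≥0∞) (hγ : 0 < γ) :
    ∃ R : ℝ, 1 ≤ R ∧ P {ω | ¬ ∀ y ≤ T, ‖ξ y ω‖ ≤ R} ≤ γ := by
  suffices h : ∃ k : ℕ, P {ω | ∀ y : Set.Iic T, ‖ξ y ω‖ ≤ (k:ℝ) + 1}ᶜ ≤ γ by
    obtain ⟨k, hk⟩ := h
    refine ⟨(k:ℝ) + 1, by linarith [Nat.cast_nonneg (α := ℝ) k], ?_⟩
    convert hk using 3
    ext ω
    simp only [Set.mem_compl_iff, Set.mem_ofPred_eq, Subtype.forall, Set.mem_Iic]
  refine od_small P (fun k : ℕ => {ω | ∀ y : Set.Iic T, ‖ξ y ω‖ ≤ (k:ℝ) + 1}ᶜ) ?_ ?_ ?_ γ hγ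
  · intro k l hkl
    refine Set.compl_subset_compl.2 fun ω h y => (h y).trans ?_
    have : (k:ℝ) ≤ l := by exact_mod_cast hkl
    linarith
  · intro k
    refine MeasurableSet.compl (od_meas_forall (fun (y : Set.Iic T) ω => ‖ξ y ω‖) ?_ ?_ _)
    · intro ω
      exact (hc ω).norm.comp continuous_subtype_val
    · intro y
      exact (hm y).norm
  · intro ω
    have hcomp : IsCompact (Set.Iic T) := by
      have := isCompact_Icc (a := (0:ℝ≥0)) (b := T)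
      rwa [← bot_eq_zero', Set.Icc_bot] at this
    obtain ⟨C, hC⟩ := hcomp.exists_bound_of_continuousOn (hc ω).continuousOn
    obtain ⟨k, hk⟩ := exists_nat_ge C
    refine ⟨k, ?_⟩
    simp only [Set.mem_compl_iff, not_not]
    intro y
    exact (hC y y.2).trans (by linarith)

theorem od_osc {Ω : Type*} [MeasurableSpace Ω] (P : Measure Ω) [IsProbabilityMeasure P]
    (ξ : ℝ≥0 → Ω → E3) (hm : ∀ t, Measurable (ξ t)) (hc : ∀ ω, Continuous fun t => ξ t ω)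
    (T : ℝ≥0) (c : ℝ) (hc0 : 0 < c) (γ : ℝ≥0∞) (hγ : 0 < γ) :
    ∃ θ : ℝ, 0 < θ ∧ P {ω | ¬ ∀ y ≤ T, ∀ y' ≤ T, dist y y' ≤ θ → dist (ξ y ω) (ξ y' ω) ≤ c} ≤ γ := by
  suffices h : ∃ k : ℕ, P {ω | ∀ p : {p : ℝ≥0 × ℝ≥0 // p.1 ≤ T ∧ p.2 ≤ T ∧
      dist p.1 p.2 ≤ 1 / ((k:ℝ) + 1)}, dist (ξ p.1.1 ω) (ξ p.1.2 ω) ≤ c}ᶜ ≤ γ by
    obtain ⟨k, hk⟩ := h
    refine ⟨1 / ((k:ℝ) + 1), by positivity, ?_⟩
    refine le_trans (measure_mono ?_) hk
    intro ω hω h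
    refine hω fun y hy y' hy' hd => h ⟨(y, y'), hy, hy', hd⟩
  refine od_small P (fun k : ℕ => {ω | ∀ p : {p : ℝ≥0 × ℝ≥0 // p.1 ≤ T ∧ p.2 ≤ T ∧
    dist p.1 p.2 ≤ 1 / ((k:ℝ) + 1)}, dist (ξ p.1.1 ω) (ξ p.1.2 ω) ≤ c}ᶜ) ?_ ?_ ?_ γ hγ
  · intro k l hkl
    refine Set.compl_subset_compl.2 fun ω h p => h ⟨p.1, p.2.1, p.2.2.1, p.2.2.2.trans ?_⟩
    exact one_div_le_one_div_of_le (by positivity) (by
      have : (k:ℝ) ≤ l := by exact_mod_cast hkl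
      linarith)
  · intro k
    refine MeasurableSet.compl (od_meas_forall (fun (p : {p : ℝ≥0 × ℝ≥0 // p.1 ≤ T ∧ p.2 ≤ T ∧
      dist p.1 p.2 ≤ 1 / ((k:ℝ) + 1)}) ω => dist (ξ p.1.1 ω) (ξ p.1.2 ω)) ?_ ?_ _)
    · intro ω
      exact ((hc ω).comp (continuous_fst.comp continuous_subtype_val)).dist
        ((hc ω).comp (continuous_snd.comp continuous_subtype_val))
    · intro p
      exact (hm _).dist (hm _)
  · intro ω
    have hcomp : IsCompact (Set.Iic T) := by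
      have := isCompact_Icc (a := (0:ℝ≥0)) (b := T)
      rwa [← bot_eq_zero', Set.Icc_bot] at this
    have huc := hcomp.uniformContinuousOn_of_continuous (hc ω).continuousOn
    rw [Metric.uniformContinuousOn_iff] at huc
    obtain ⟨δ, hδ, h⟩ := huc c hc0
    obtain ⟨k, hk⟩ := exists_nat_one_div_lt hδ
    refine ⟨k, ?_⟩
    simp only [Set.mem_compl_iff, not_not]
    intro p
    exact (h _ p.2.1 _ p.2.2.1 (lt_of_le_of_lt p.2.2.2 hk)).le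

theorem od_alive_meas {Ω : Type*} {mΩ : MeasurableSpace Ω} (ℱ : Filtration ℝ≥0 mΩ) (ε : ℝ)
    (ξ : ℝ≥0 → Ω → E3) (hm : ∀ t, Measurable[ℱ t] (ξ t)) (hc : ∀ ω, Continuous fun t => ξ t ω)
    (t : ℝ≥0) : MeasurableSet[ℱ t] {ω | Alive ε ξ t ω} := by
  have h1 : {ω | Alive ε ξ t ω} =
      ⋃ n : ℕ, {ω | ∀ y : Set.Iic t, -(ξ y ω).2.1 ≤ -(ε + 1 / ((n:ℝ) + 1))} := by
    ext ω
    simp only [Set.mem_iUnion, Set.mem_ofPred_eq]
    constructor
    · intro h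
      have hcomp : IsCompact (Set.Iic t) := by
        have := isCompact_Icc (a := (0:ℝ≥0)) (b := t)
        rwa [← bot_eq_zero', Set.Icc_bot] at this
      obtain ⟨y0, hy0, hmin⟩ := hcomp.exists_isMinOn ⟨t, Set.mem_Iic.2 le_rfl⟩
        (f := fun y => (ξ y ω).2.1) ((continuous_fst.comp (continuous_snd.comp (hc ω))).continuousOn)
      have h2 : ε < (ξ y0 ω).2.1 := h y0 hy0
      obtain ⟨n, hn⟩ := exists_nat_one_div_lt (sub_pos.2 h2)
      refine ⟨n, fun y => ?_⟩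
      have h3 : (ξ y0 ω).2.1 ≤ (ξ y ω).2.1 := hmin y.2
      linarith
    · rintro ⟨n, hn⟩ y hy
      have := hn ⟨y, hy⟩
      have h2 : (0:ℝ) < 1 / ((n:ℝ) + 1) := by positivity
      simp only at this
      linarith
  rw [h1]
  refine MeasurableSet.iUnion fun n => ?_
  refine @od_meas_forall Ω (Set.Iic t) (ℱ t) _ _ (fun y ω => -(ξ y ω).2.1) ?_ ?_ _
  · intro ω
    exact ((continuous_fst.comp (continuous_snd.comp (hc ω))).comp continuous_subtype_val).neg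
  · intro y
    have h2 : Measurable[ℱ t] (ξ y) := (hm y).mono (ℱ.mono y.2) le_rfl
    exact (measurable_fst.comp (measurable_snd.comp h2)).neg

theorem od_t0 {Ω : Type*} {mΩ : MeasurableSpace Ω} (P : Measure Ω) [IsProbabilityMeasure P]
    (ℱ : Filtration ℝ≥0 mΩ) (ε : ℝ)
    (ξ : ℝ≥0 → Ω → E3) (hm : ∀ t, Measurable[ℱ t] (ξ t)) (hc : ∀ ω, Continuous fun t => ξ t ω)
    (h0 : ∀ ω, ε < (ξ 0 ω).2.1) (t1 : ℝ≥0) (ht1 : 0 < t1) (γ : ℝ≥0∞) (hγ : 0 < γ) :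
    ∃ t0 : ℝ≥0, 0 < t0 ∧ t0 ≤ t1 ∧ P {ω | ¬ Alive ε ξ t0 ω} ≤ γ := by
  suffices h : ∃ k : ℕ, P {ω | Alive ε ξ (t1 / (k + 1)) ω}ᶜ ≤ γ by
    obtain ⟨k, hk⟩ := h
    refine ⟨t1 / (k + 1), by positivity, ?_, hk⟩
    exact div_le_self (zero_le) (by simp)
  refine od_small P (fun k : ℕ => {ω | Alive ε ξ (t1 / (k + 1)) ω}ᶜ) ?_ ?_ ?_ γ hγ
  · intro k l hkl
    refine Set.compl_subset_compl.2 fun ω h y hy => h y (hy.trans ?_)
    have : (k:ℝ≥0) ≤ l := by exact_mod_cast hkl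
    gcongr
  · intro k
    exact (ℱ.le _ _ (od_alive_meas ℱ ε ξ hm hc _)).compl
  · intro ω
    have hcont : Continuous fun t => (ξ t ω).2.1 := continuous_fst.comp (continuous_snd.comp (hc ω))
    have h1 : ∀ᶠ t in 𝓝 (0:ℝ≥0), ε < (ξ t ω).2.1 :=
      (hcont.tendsto 0).eventually_const_lt (h0 ω)
    rw [Metric.eventually_nhds_iff] at h1
    obtain ⟨δ, hδ, h⟩ := h1
    obtain ⟨k, hk⟩ := exists_nat_one_div_lt (div_pos hδ (NNReal.coe_pos.2 ht1))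
    refine ⟨k, ?_⟩
    simp only [Set.mem_compl_iff, Set.mem_ofPred_eq, not_not]
    intro y hy
    apply h
    rw [NNReal.dist_eq, NNReal.coe_zero, sub_zero, NNReal.abs_eq]
    have h2 : (y:ℝ) ≤ t1 / ((k:ℝ) + 1) := by exact_mod_cast hy
    have h3 : (t1:ℝ) / ((k:ℝ) + 1) < δ := by
      rw [lt_div_iff₀ (NNReal.coe_pos.2 ht1)] at hk
      calc (t1:ℝ) / ((k:ℝ) + 1) = 1 / ((k:ℝ) + 1) * t1 := by ring
        _ < δ := hk
    linarith

/-! ### the maximal inequality for the chain -/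

/-- The event that `δ` moves by more than `α` from `D` within `L` steps after `i`. -/
def od_ev {Ω : Type*} (Z : ℕ → Ω → St) (M α : ℝ) (L i : ℕ) (D : Ω → ℝ) : Set Ω :=
  {ω | ∃ l ≤ L, α < |((Z (i+l) ω).1 : ℝ) - D ω| ∧
    ∀ k < l, |((Z (i+k) ω).2.1 : ℝ)| ≤ M ∧ |((Z (i+k) ω).1 : ℝ) - D ω| ≤ α}

theorem od_nb_int (v : ℕ) (a b : ℝ) (hb : 0 ≤ b) :
    ∫⁻ x : ℤ, ENNReal.ofReal ((a + x) ^ 2 + b) ∂(nb v) = ENNReal.ofReal (a ^ 2 + 2 * v + b) := by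
  have h1 := nb_mean v
  have h2 := nb_var v
  have hint1 : Integrable (fun x : ℤ => (a ^ 2 + b) + (2 * a) * (x:ℝ)) (nb v) :=
    (integrable_const _).add (h1.1.const_mul _)
  have heq : (fun x : ℤ => (a + (x:ℝ)) ^ 2 + b) =
      fun x : ℤ => ((a ^ 2 + b) + (2 * a) * (x:ℝ)) + (x:ℝ) ^ 2 := by
    ext x; ring
  have hint : Integrable (fun x : ℤ => (a + (x:ℝ)) ^ 2 + b) (nb v) := by
    rw [heq]
    exact hint1.add h2.1
  rw [← ofReal_integral_eq_lintegral_ofReal hint (ae_of_all _ fun x => by positivity)]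
  congr 1
  have e1 : ∫ x : ℤ, (((a ^ 2 + b) + (2 * a) * (x:ℝ)) + (x:ℝ) ^ 2) ∂(nb v) =
      ∫ x : ℤ, ((a ^ 2 + b) + (2 * a) * (x:ℝ)) ∂(nb v) + ∫ x : ℤ, (x:ℝ) ^ 2 ∂(nb v) :=
    integral_add hint1 h2.1
  have e2 : ∫ x : ℤ, ((a ^ 2 + b) + (2 * a) * (x:ℝ)) ∂(nb v) =
      ∫ x : ℤ, (a ^ 2 + b) ∂(nb v) + ∫ x : ℤ, (2 * a) * (x:ℝ) ∂(nb v) :=
    integral_add (integrable_const _) (h1.1.const_mul _)
  rw [heq, e1, e2, integral_const_mul, h1.2, h2.2, integral_const]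
  simp
  ring

theorem od_max {Ω : Type*} [mΩ : MeasurableSpace Ω] (P : Measure Ω) [IsProbabilityMeasure P]
    (𝒢 : ℕ → MeasurableSpace Ω) (Z : ℕ → Ω → St) (X : ℕ → Ω → ℤ) (a : St)
    (hZ : IsChain P 𝒢 Z X a) (M α : ℝ) (hα : 0 < α) (hM : 0 ≤ M) :
    ∀ (L i : ℕ) (E : Set Ω) (z : St) (D : ℝ), MeasurableSet[𝒢 i] E → E ⊆ Z i ⁻¹' {z} →
    P (E ∩ od_ev Z M α L i (fun _ => D)) ≤
      P E * ENNReal.ofReal ((((z.1:ℝ) - D) ^ 2 + 2 * M * L) / α ^ 2) := by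
  intro L
  induction L with
  | zero =>
    intro i E z D hE hEz
    by_cases hz : α < |(z.1:ℝ) - D|
    · have h1 : (1:ℝ≥0∞) ≤ ENNReal.ofReal ((((z.1:ℝ) - D) ^ 2 + 2 * M * (0:ℕ)) / α ^ 2) := by
        rw [ENNReal.one_le_ofReal, le_div_iff₀ (by positivity)]
        have : α ^ 2 ≤ ((z.1:ℝ) - D) ^ 2 := by
          rw [← sq_abs ((z.1:ℝ) - D)]
          exact pow_le_pow_left₀ hα.le hz.le 2
        simp
        linarith
      calc P (E ∩ od_ev Z M α 0 i (fun _ => D)) ≤ P E := measure_mono Set.inter_subset_left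
        _ = P E * 1 := (mul_one _).symm
        _ ≤ _ := by gcongr
    · have : E ∩ od_ev Z M α 0 i (fun _ => D) = ∅ := by
        ext ω
        simp only [Set.mem_inter_iff, Set.mem_empty_iff_false, iff_false, not_and]
        intro hω h
        obtain ⟨l, hl, h1, -⟩ := h
        have hl0 : l = 0 := by omega
        subst hl0
        have hzω : Z i ω = z := hEz hω
        rw [add_zero, hzω] at h1
        exact hz h1
      rw [this, measure_empty]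
      exact zero_le
  | succ L ih =>
    intro i E z D hE hEz
    by_cases hz : α < |(z.1:ℝ) - D|
    · have h1 : (1:ℝ≥0∞) ≤ ENNReal.ofReal ((((z.1:ℝ) - D) ^ 2 + 2 * M * (L+1:ℕ)) / α ^ 2) := by
        rw [ENNReal.one_le_ofReal, le_div_iff₀ (by positivity)]
        have : α ^ 2 ≤ ((z.1:ℝ) - D) ^ 2 := by
          rw [← sq_abs ((z.1:ℝ) - D)]
          exact pow_le_pow_left₀ hα.le hz.le 2
        have h3 : 0 ≤ 2 * M * ((L+1:ℕ):ℝ) := by positivity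
        linarith
      calc P (E ∩ od_ev Z M α (L+1) i (fun _ => D)) ≤ P E := measure_mono Set.inter_subset_left
        _ = P E * 1 := (mul_one _).symm
        _ ≤ _ := by gcongr
    by_cases hm : M < |(z.2.1:ℝ)|
    · have : E ∩ od_ev Z M α (L+1) i (fun _ => D) = ∅ := by
        ext ω
        simp only [Set.mem_inter_iff, Set.mem_empty_iff_false, iff_false, not_and]
        intro hω h
        obtain ⟨l, hl, h1, h2⟩ := h
        have hzω : Z i ω = z := hEz hω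
        rcases Nat.eq_zero_or_pos l with hl0 | hl0
        · subst hl0
          rw [add_zero, hzω] at h1
          exact hz h1
        · have := (h2 0 hl0).1
          rw [add_zero, hzω] at this
          exact absurd this (not_le.2 hm)
      rw [this, measure_empty]
      exact zero_le
    rw [not_lt] at hz hm
    have hsub : E ∩ od_ev Z M α (L+1) i (fun _ => D) ⊆
        ⋃ x : ℤ, (E ∩ X i ⁻¹' {x}) ∩ od_ev Z M α L (i+1) (fun _ => D) := by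
      rintro ω ⟨hω, l, hl, h1, h2⟩
      have hzω : Z i ω = z := hEz hω
      have hl0 : l ≠ 0 := by
        rintro rfl
        rw [add_zero, hzω] at h1
        exact absurd h1 (not_lt.2 hz)
      obtain ⟨l', rfl⟩ := Nat.exists_eq_succ_of_ne_zero hl0
      refine Set.mem_iUnion.2 ⟨X i ω, ⟨hω, rfl⟩, l', by omega, ?_, ?_⟩
      · have : i + 1 + l' = i + l'.succ := by omega
        rw [this]
        exact h1
      · intro k hk
        have : i + 1 + k = i + (k + 1) := by omega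
        rw [this]
        exact h2 (k+1) (by omega)
    have hstep : ∀ x : ℤ, P ((E ∩ X i ⁻¹' {x}) ∩ od_ev Z M α L (i+1) (fun _ => D)) ≤
        P E * (nb z.2.1.natAbs {x} *
          ENNReal.ofReal ((((z.1:ℝ) - D + x) ^ 2 + 2 * M * L) / α ^ 2)) := by
      intro x
      have hE' : MeasurableSet[𝒢 (i+1)] (E ∩ X i ⁻¹' {x}) :=
        MeasurableSet.inter (hZ.mono (Nat.le_succ i) _ hE) (hZ.meas_X i x)
      have hsub' : E ∩ X i ⁻¹' {x} ⊆ Z (i+1) ⁻¹' {stp z x} := by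
        rintro ω ⟨hω, hx⟩
        have hzω : Z i ω = z := hEz hω
        have hxω : X i ω = x := hx
        change Z (i+1) ω = stp z x
        rw [hZ.next, hzω, hxω]
      have h1 := ih (i+1) (E ∩ X i ⁻¹' {x}) (stp z x) D hE' hsub'
      have h2 := hZ.law i E hE z x
      rw [Set.inter_eq_left.2 hEz] at h2
      rw [h2, mul_assoc] at h1
      refine h1.trans (le_of_eq ?_)
      have h3 : (((stp z x).1 : ℤ) : ℝ) - D = (z.1:ℝ) - D + x := by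
        simp only [stp]
        push_cast
        ring
      rw [h3]
    calc P (E ∩ od_ev Z M α (L+1) i (fun _ => D))
        ≤ P (⋃ x : ℤ, (E ∩ X i ⁻¹' {x}) ∩ od_ev Z M α L (i+1) (fun _ => D)) :=
          measure_mono hsub
      _ ≤ ∑' x : ℤ, P ((E ∩ X i ⁻¹' {x}) ∩ od_ev Z M α L (i+1) (fun _ => D)) :=
          measure_iUnion_le _
      _ ≤ ∑' x : ℤ, P E * (nb z.2.1.natAbs {x} *
          ENNReal.ofReal ((((z.1:ℝ) - D + x) ^ 2 + 2 * M * L) / α ^ 2)) :=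
          ENNReal.tsum_le_tsum hstep
      _ = P E * ∑' x : ℤ, nb z.2.1.natAbs {x} *
          ENNReal.ofReal ((((z.1:ℝ) - D + x) ^ 2 + 2 * M * L) / α ^ 2) := ENNReal.tsum_mul_left
      _ = P E * ∫⁻ x : ℤ, ENNReal.ofReal ((((z.1:ℝ) - D + x) ^ 2 + 2 * M * L) / α ^ 2)
            ∂(nb z.2.1.natAbs) := by
          rw [lintegral_countable']
          congr 1
          refine tsum_congr fun x => ?_
          rw [mul_comm]
      _ = P E * (ENNReal.ofReal (1 / α ^ 2) *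
            ∫⁻ x : ℤ, ENNReal.ofReal (((z.1:ℝ) - D + x) ^ 2 + 2 * M * L)
            ∂(nb z.2.1.natAbs)) := by
          congr 1
          rw [← lintegral_const_mul _ (measurable_of_countable _)]
          refine lintegral_congr fun x => ?_
          rw [← ENNReal.ofReal_mul (by positivity)]
          congr 1
          ring
      _ = P E * ENNReal.ofReal ((((z.1:ℝ) - D) ^ 2 + 2 * z.2.1.natAbs + 2 * M * L) / α ^ 2) := by
          rw [od_nb_int _ _ _ (by positivity), ← ENNReal.ofReal_mul (by positivity)]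
          congr 2
          ring
      _ ≤ P E * ENNReal.ofReal ((((z.1:ℝ) - D) ^ 2 + 2 * M * (L+1:ℕ)) / α ^ 2) := by
          have h5 : ((z.2.1.natAbs : ℕ) : ℝ) = |(z.2.1:ℝ)| := by
            rw [Nat.cast_natAbs, Int.cast_abs]
          refine mul_le_mul_right (ENNReal.ofReal_le_ofReal
            (div_le_div_of_nonneg_right ?_ (by positivity))) _
          rw [h5]
          push_cast
          linarith

theorem od_max2 {Ω : Type*} [mΩ : MeasurableSpace Ω] (P : Measure Ω) [IsProbabilityMeasure P]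
    (𝒢 : ℕ → MeasurableSpace Ω) (Z : ℕ → Ω → St) (X : ℕ → Ω → ℤ) (a : St)
    (hZ : IsChain P 𝒢 Z X a) (M α : ℝ) (hα : 0 < α) (hM : 0 ≤ M) (L i : ℕ) (E : Set Ω)
    (hE : MeasurableSet[𝒢 i] E) :
    P (E ∩ od_ev Z M α L i (fun ω => ((Z i ω).1 : ℝ))) ≤
      P E * ENNReal.ofReal ((2 * M * L) / α ^ 2) := by
  have hsub : E ∩ od_ev Z M α L i (fun ω => ((Z i ω).1 : ℝ)) ⊆
      ⋃ z : St, (E ∩ Z i ⁻¹' {z}) ∩ od_ev Z M α L i (fun _ => (z.1:ℝ)) := by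
    rintro ω ⟨hω, h⟩
    exact Set.mem_iUnion.2 ⟨Z i ω, ⟨hω, rfl⟩, h⟩
  have hmeas : ∀ z, MeasurableSet (E ∩ Z i ⁻¹' {z}) := fun z =>
    hZ.le i _ (MeasurableSet.inter hE (hZ.meas_Z i z))
  have hdisj : Pairwise (Function.onFun Disjoint fun z : St => E ∩ Z i ⁻¹' {z}) := by
    intro z w hzw
    refine Set.disjoint_left.2 ?_
    rintro ω ⟨-, h1⟩ ⟨-, h2⟩
    exact hzw (h1.symm.trans h2)
  have hsum : ∑' z : St, P (E ∩ Z i ⁻¹' {z}) = P E := by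
    rw [← measure_iUnion hdisj hmeas]
    congr 1
    ext ω
    simp
  calc P (E ∩ od_ev Z M α L i (fun ω => ((Z i ω).1 : ℝ)))
      ≤ P (⋃ z : St, (E ∩ Z i ⁻¹' {z}) ∩ od_ev Z M α L i (fun _ => (z.1:ℝ))) :=
        measure_mono hsub
    _ ≤ ∑' z : St, P ((E ∩ Z i ⁻¹' {z}) ∩ od_ev Z M α L i (fun _ => (z.1:ℝ))) :=
        measure_iUnion_le _
    _ ≤ ∑' z : St, P (E ∩ Z i ⁻¹' {z}) * ENNReal.ofReal ((2 * M * L) / α ^ 2) := by
        refine ENNReal.tsum_le_tsum fun z => ?_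
        have := od_max P 𝒢 Z X a hZ M α hα hM L i (E ∩ Z i ⁻¹' {z}) z (z.1:ℝ)
          (MeasurableSet.inter hE (hZ.meas_Z i z)) Set.inter_subset_right
        simpa using this
    _ = P E * ENNReal.ofReal ((2 * M * L) / α ^ 2) := by
        rw [ENNReal.tsum_mul_right, hsum]

theorem od_max3 {Ω : Type*} [mΩ : MeasurableSpace Ω] (P : Measure Ω) [IsProbabilityMeasure P]
    (𝒢 : ℕ → MeasurableSpace Ω) (Z : ℕ → Ω → St) (X : ℕ → Ω → ℤ) (a : St)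
    (hZ : IsChain P 𝒢 Z X a) (M α : ℝ) (hα : 0 < α) (hM : 0 ≤ M) (L : ℕ) (E : ℕ → Set Ω)
    (hE : ∀ i, MeasurableSet[𝒢 i] (E i)) (hd : Pairwise (Function.onFun Disjoint E)) :
    P (⋃ i, E i ∩ od_ev Z M α L i (fun ω => ((Z i ω).1 : ℝ))) ≤
      ENNReal.ofReal ((2 * M * L) / α ^ 2) := by
  calc P (⋃ i, E i ∩ od_ev Z M α L i (fun ω => ((Z i ω).1 : ℝ)))
      ≤ ∑' i, P (E i ∩ od_ev Z M α L i (fun ω => ((Z i ω).1 : ℝ))) := measure_iUnion_le _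
    _ ≤ ∑' i, P (E i) * ENNReal.ofReal ((2 * M * L) / α ^ 2) :=
        ENNReal.tsum_le_tsum fun i => od_max2 P 𝒢 Z X a hZ M α hα hM L i (E i) (hE i)
    _ = (∑' i, P (E i)) * ENNReal.ofReal ((2 * M * L) / α ^ 2) := ENNReal.tsum_mul_right
    _ = P (⋃ i, E i) * ENNReal.ofReal ((2 * M * L) / α ^ 2) := by
        rw [measure_iUnion hd fun i => hZ.le i _ (hE i)]
    _ ≤ 1 * ENNReal.ofReal ((2 * M * L) / α ^ 2) := by
        gcongr
        exact prob_le_one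
    _ = _ := one_mul _

/-! ### the hitting time of a path -/

open Classical in
theorem od_path {Ω : Type*} (ε m0 : ℝ) (ξ : ℝ≥0 → Ω → E3) (ω : Ω)
    (hc : Continuous fun t => ξ t ω)
    (hsde : ∀ t : ℝ≥0, (ξ t ω).2.1 = m0 +
      ∫ x in (0:ℝ)..t, if Alive ε ξ x.toNNReal ω then (ξ x.toNNReal ω).1 else 0)
    (t1 : ℝ≥0) (hdead : ¬ Alive ε ξ t1 ω) :
    ∃ τ : ℝ≥0, τ ≤ t1 ∧ (∀ y < τ, ε < (ξ y ω).2.1) ∧ (ξ τ ω).2.1 ≤ ε ∧
      (∀ y y' : ℝ≥0, y' ≤ τ → y ≤ y' → (ξ y' ω).2.1 - (ξ y ω).2.1 =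
        ∫ x in (y:ℝ)..y', (ξ x.toNNReal ω).1) := by
  have hcm : Continuous fun t => (ξ t ω).2.1 := continuous_fst.comp (continuous_snd.comp hc)
  have hcd : Continuous fun x : ℝ => (ξ x.toNNReal ω).1 :=
    (continuous_fst.comp hc).comp continuous_real_toNNReal
  have hS : IsClosed {y : ℝ≥0 | (ξ y ω).2.1 ≤ ε} := isClosed_le hcm continuous_const
  have hdead' : ∃ y ≤ t1, (ξ y ω).2.1 ≤ ε := by
    unfold Alive at hdead
    push Not at hdead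
    exact hdead
  obtain ⟨y1, hy1, hy1'⟩ := hdead'
  have hne : {y : ℝ≥0 | (ξ y ω).2.1 ≤ ε}.Nonempty := ⟨y1, hy1'⟩
  have hmem := hS.csInf_mem hne (OrderBot.bddBelow _)
  set τ := sInf {y : ℝ≥0 | (ξ y ω).2.1 ≤ ε} with hτ
  have hlt : ∀ y < τ, ε < (ξ y ω).2.1 := by
    intro y hy
    by_contra h
    exact absurd (csInf_le (OrderBot.bddBelow _) (show y ∈ {y : ℝ≥0 | (ξ y ω).2.1 ≤ ε} from
      not_lt.1 h)) (not_le.2 hy)
  have hinc : ∀ t : ℝ≥0, t ≤ τ → (ξ t ω).2.1 = m0 + ∫ x in (0:ℝ)..t, (ξ x.toNNReal ω).1 := by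
    intro t ht
    rw [hsde t]
    congr 1
    refine intervalIntegral.integral_congr_ae ?_
    have hae : ∀ᵐ x : ℝ ∂volume, x ≠ (τ:ℝ) := by
      rw [ae_iff]
      simp
    filter_upwards [hae] with x hx hx2
    have ht0 : (0:ℝ) ≤ t := t.2
    rw [Set.uIoc_of_le ht0] at hx2
    rw [if_pos]
    intro y hy
    apply hlt
    refine lt_of_le_of_lt hy ?_
    rw [Real.toNNReal_lt_iff_lt_coe hx2.1.le]
    exact lt_of_le_of_ne (hx2.2.trans (by exact_mod_cast ht)) hx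
  have hτt : τ ≤ y1 := csInf_le (OrderBot.bddBelow _) (show y1 ∈ {y : ℝ≥0 | (ξ y ω).2.1 ≤ ε} from hy1')
  refine ⟨τ, hτt.trans hy1, hlt, hmem, ?_⟩
  intro y y' hy' hyy'
  rw [hinc y' hy', hinc y (hyy'.trans hy')]
  have h1 : (∫ x in (0:ℝ)..y, (ξ x.toNNReal ω).1) + (∫ x in (y:ℝ)..y', (ξ x.toNNReal ω).1) =
      ∫ x in (0:ℝ)..y', (ξ x.toNNReal ω).1 :=
    intervalIntegral.integral_add_adjacent_intervals (hcd.intervalIntegrable _ _)
      (hcd.intervalIntegrable _ _)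
  linarith

theorem od_path_neg {Ω : Type*} (ε : ℝ) (ξ : ℝ≥0 → Ω → E3) (ω : Ω)
    (hc : Continuous fun t => ξ t ω) (τ : ℝ≥0) (hτ : 0 < τ)
    (h1 : ∀ y < τ, ε < (ξ y ω).2.1) (h2 : (ξ τ ω).2.1 ≤ ε)
    (h3 : ∀ y y' : ℝ≥0, y' ≤ τ → y ≤ y' → (ξ y' ω).2.1 - (ξ y ω).2.1 =
        ∫ x in (y:ℝ)..y', (ξ x.toNNReal ω).1) : (ξ τ ω).1 ≤ 0 := by
  by_contra hpos
  rw [not_le] at hpos
  have hcd : Continuous fun t => (ξ t ω).1 := continuous_fst.comp hc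
  have h4 : ∀ᶠ t in 𝓝 τ, 0 < (ξ t ω).1 := (hcd.tendsto τ).eventually_const_lt hpos
  rw [Metric.eventually_nhds_iff] at h4
  obtain ⟨r, hr, h5⟩ := h4
  have hτ' : (0:ℝ) < τ := NNReal.coe_pos.2 hτ
  set y : ℝ≥0 := Real.toNNReal (τ - r / 2) with hy
  have hyc : (y:ℝ) = max (τ - r / 2) 0 := by rw [hy, Real.coe_toNNReal']
  have hylt : (y:ℝ) < τ := by
    rw [hyc]
    exact max_lt (by linarith) hτ'
  have hylt' : y < τ := by exact_mod_cast hylt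
  have hyge : (τ:ℝ) - r / 2 ≤ y := by
    rw [hyc]
    exact le_max_left _ _
  have h6 := h3 y τ le_rfl hylt'.le
  have h7 : 0 ≤ ∫ x in (y:ℝ)..τ, (ξ x.toNNReal ω).1 := by
    refine intervalIntegral.integral_nonneg hylt.le fun u hu => ?_
    have hu0 : 0 ≤ u := y.2.trans hu.1
    refine (h5 ?_).le
    rw [NNReal.dist_eq, Real.coe_toNNReal _ hu0, abs_sub_comm, abs_of_nonneg (by linarith [hu.2])]
    linarith [hu.1]
  have h8 := h1 y hylt'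
  linarith

theorem od_path_lip {Ω : Type*} (ξ : ℝ≥0 → Ω → E3) (ω : Ω) (τ : ℝ≥0)
    (h3 : ∀ y y' : ℝ≥0, y' ≤ τ → y ≤ y' → (ξ y' ω).2.1 - (ξ y ω).2.1 =
        ∫ x in (y:ℝ)..y', (ξ x.toNNReal ω).1) (y : ℝ≥0) (hy : y ≤ τ) (D : ℝ)
    (hD : ∀ u, y ≤ u → u ≤ τ → |(ξ u ω).1| ≤ D) :
    |(ξ τ ω).2.1 - (ξ y ω).2.1| ≤ D * (τ - y) := by
  rw [h3 y τ le_rfl hy]
  have hyr : (y:ℝ) ≤ τ := by exact_mod_cast hy
  have := intervalIntegral.norm_integral_le_of_norm_le_const (a := (y:ℝ)) (b := τ)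
    (f := fun x => (ξ x.toNNReal ω).1) (C := D) ?_
  · rwa [Real.norm_eq_abs, abs_of_nonneg (by linarith : (0:ℝ) ≤ τ - y)] at this
  · intro x hx
    rw [Set.uIoc_of_le hyr] at hx
    have hx0 : 0 ≤ x := y.2.trans hx.1.le
    rw [Real.norm_eq_abs]
    apply hD
    · rw [← NNReal.coe_le_coe, Real.coe_toNNReal _ hx0]
      exact hx.1.le
    · rw [← NNReal.coe_le_coe, Real.coe_toNNReal _ hx0]
      exact hx.2

/-! ### the box bound -/

theorem od_card (p L x : ℝ) (hL : 0 < L) (hx : 0 ≤ x) :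
    ((Finset.Icc ⌈(p - x) * L⌉ ⌊(p + x) * L⌋).card : ℝ) ≤ 2 * x * L + 1 := by
  rw [Int.card_Icc]
  have h1 : (⌊(p + x) * L⌋ : ℝ) ≤ (p + x) * L := Int.floor_le _
  have h2 : (p - x) * L ≤ (⌈(p - x) * L⌉ : ℝ) := Int.le_ceil _
  rcases le_or_gt 0 (⌊(p + x) * L⌋ + 1 - ⌈(p - x) * L⌉) with h | h
  · have h3 : (((⌊(p + x) * L⌋ + 1 - ⌈(p - x) * L⌉).toNat : ℤ) : ℝ) =
        ((⌊(p + x) * L⌋ + 1 - ⌈(p - x) * L⌉ : ℤ) : ℝ) := by rw [Int.toNat_of_nonneg h]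
    rw [Int.cast_natCast] at h3
    rw [h3]
    push_cast
    nlinarith
  · rw [Int.toNat_of_nonpos h.le]
    simp
    positivity

theorem od_mem (p L x : ℝ) (hL : 0 < L) (k : ℤ) (hk : |(k:ℝ) / L - p| ≤ x) :
    k ∈ Finset.Icc ⌈(p - x) * L⌉ ⌊(p + x) * L⌋ := by
  rw [abs_le] at hk
  rw [Finset.mem_Icc, Int.ceil_le, Int.le_floor]
  constructor
  · rw [← le_div_iff₀ hL]
    linarith
  · rw [← div_le_iff₀ hL]
    linarith

theorem od_init (ε : ℝ) (z0 : E3) (hz0 : ε < z0.2.1) (lam : ℕ → ℝ)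
    (hlam : Tendsto lam atTop atTop) (a : ℕ → St)
    (ha : Tendsto (fun n => sc (lam n) (a n)) atTop (𝓝 z0)) :
    ∀ᶠ n in atTop, ε * lam n ^ 3 ≤ ((a n).2.1 : ℝ) := by
  have h1 : Tendsto (fun n => (sc (lam n) (a n)).2.1) atTop (𝓝 z0.2.1) :=
    ((continuous_fst.comp continuous_snd).tendsto z0).comp ha
  filter_upwards [h1.eventually_const_lt hz0, hlam.eventually_gt_atTop 0] with n hn hpos
  have h2 : (sc (lam n) (a n)).2.1 = ((a n).2.1 : ℝ) / lam n ^ 3 := rfl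
  rw [h2, lt_div_iff₀ (by positivity)] at hn
  exact hn.le

theorem od_box {Ω : Type*} [mΩ : MeasurableSpace Ω] (P : Measure Ω)
    [IsProbabilityMeasure P] (ℱ : Filtration ℝ≥0 mΩ) (W : ℝ≥0 → Ω → ℝ) (ε : ℝ) (hε : 0 < ε)
    (z0 : E3) (hz0 : ε < z0.2.1) (ξ : ℝ≥0 → Ω → E3) (hξ : IsFrozenSol P ℱ W ε z0 ξ)
    (q : ℕ → ℝ → ℤ) (om : ℕ → ℝ) (hq : IsQuant q om)
    (lam : ℕ → ℝ) (hlam : Tendsto lam atTop atTop) (a : ℕ → St)
    (ha : Tendsto (fun n => sc (lam n) (a n)) atTop (𝓝 z0)) (t0 T : ℝ≥0) (ht0 : 0 < t0)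
    (hT : t0 ≤ T) (R : ℝ) (hR : 0 < R) :
    ∃ C : ℝ, 0 < C ∧ ∀ t : ℝ≥0, t0 ≤ t → t ≤ T → ∀ x y : ℝ, 0 < x → 0 < y →
      P {ω | Alive ε ξ t ω ∧ |(ξ t ω).1| ≤ x ∧ |(ξ t ω).2.1 - ε| ≤ y ∧ |(ξ t ω).2.2| ≤ R} ≤
        ENNReal.ofReal (C * x * y) := by
  have ht0' : (0:ℝ) < t0 := NNReal.coe_pos.2 ht0
  have hT' : (0:ℝ) < T := lt_of_lt_of_le ht0' (by exact_mod_cast hT)
  obtain ⟨C0, Λ, hC0, hΛ, hd⟩ := dens (t0 / 2) T ε (by positivity) hT' hε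
  refine ⟨125 * C0 * R, by positivity, ?_⟩
  intro t ht0t htT x y hx hy
  have htpos : 0 < t := lt_of_lt_of_le ht0 ht0t
  set η : ℝ := min x (min y R) with hη
  have hηpos : 0 < η := lt_min hx (lt_min hy hR)
  have hηx : η ≤ x := min_le_left _ _
  have hηy : η ≤ y := (min_le_right _ _).trans (min_le_left _ _)
  have hηR : η ≤ R := (min_le_right _ _).trans (min_le_right _ _)
  have h1 := one_alive P ℱ W ε hε z0 hz0 ξ hξ q om hq lam hlam a ha t η htpos hηpos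
  have h2 := h1.add_const (ENNReal.ofReal (125 * C0 * R * x * y))
  rw [zero_add] at h2
  refine ge_of_tendsto h2 ?_
  filter_upwards [hlam.eventually_ge_atTop Λ, hlam.eventually_ge_atTop (2 / t0),
    hlam.eventually_ge_atTop (1 / x), hlam.eventually_ge_atTop (1 / y),
    hlam.eventually_ge_atTop (1 / R), od_init ε z0 hz0 lam hlam a ha] with n hn1 hn2 hn3 hn4 hn5 hn6
  set l := lam n with hl
  have hl1 : 1 ≤ l := hΛ.trans hn1
  have hlpos : 0 < l := by linarith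
  have hxl : 1 ≤ x * l ^ 2 := by
    rw [div_le_iff₀ hx] at hn3
    nlinarith [mul_le_mul_of_nonneg_left hl1 (mul_pos hx hlpos).le]
  have hyl : 1 ≤ y * l ^ 3 := by
    rw [div_le_iff₀ hy] at hn4
    have h5 : l ≤ l ^ 3 := by nlinarith [mul_pos hlpos hlpos]
    nlinarith [mul_le_mul_of_nonneg_left h5 hy.le]
  have hRl : 1 ≤ R * l ^ 4 := by
    rw [div_le_iff₀ hR] at hn5
    have h5 : l ≤ l ^ 4 := by
      have h6 : 1 ≤ l ^ 3 := one_le_pow₀ hl1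
      nlinarith
    nlinarith [mul_le_mul_of_nonneg_left h5 hR.le]
  set j := ⌊(t:ℝ) * l⌋₊ with hj
  have htl : (0:ℝ) ≤ t * l := by positivity
  have hj1 : (j:ℝ) ≤ T * l := by
    have : (t:ℝ) ≤ T := by exact_mod_cast htT
    exact (Nat.floor_le htl).trans (by gcongr)
  have hj2 : (t0:ℝ) / 2 * l ≤ j := by
    have h5 : (t:ℝ) * l < j + 1 := Nat.lt_floor_add_one _
    have h6 : (t0:ℝ) ≤ t := by exact_mod_cast ht0t
    rw [div_le_iff₀ ht0'] at hn2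
    nlinarith
  have hch := scheme_isChain P ℱ W hξ.brownian hξ.adaptedW hξ.indep q om hq l hlpos (a n)
  have hdz := hd l hn1 Ω mΩ P inferInstance (fun i => ℱ (gt l i)) (scheme q l W (a n))
    (schemeX q l W (a n)) (a n) hch hn6 j hj2 hj1
  set F : Finset St := (Finset.Icc ⌈((0:ℝ) - 2 * x) * l ^ 2⌉ ⌊((0:ℝ) + 2 * x) * l ^ 2⌋) ×ˢ
    (Finset.Icc ⌈(ε - 2 * y) * l ^ 3⌉ ⌊(ε + 2 * y) * l ^ 3⌋) ×ˢ
    (Finset.Icc ⌈((0:ℝ) - 2 * R) * l ^ 4⌉ ⌊((0:ℝ) + 2 * R) * l ^ 4⌋) with hF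
  have hFc : (F.card : ℝ) ≤ 125 * x * y * R * l ^ 9 := by
    rw [hF, Finset.card_product, Finset.card_product]
    push_cast
    have c1 := od_card 0 (l ^ 2) (2 * x) (by positivity) (by positivity)
    have c2 := od_card ε (l ^ 3) (2 * y) (by positivity) (by positivity)
    have c3 := od_card 0 (l ^ 4) (2 * R) (by positivity) (by positivity)
    calc _ ≤ (5 * x * l ^ 2) * ((5 * y * l ^ 3) * (5 * R * l ^ 4)) := by
          gcongr
          · linarith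
          · linarith
          · linarith
      _ = 125 * x * y * R * l ^ 9 := by ring
  have hsub : {ω | Alive ε ξ t ω ∧ |(ξ t ω).1| ≤ x ∧ |(ξ t ω).2.1 - ε| ≤ y ∧
      |(ξ t ω).2.2| ≤ R} ⊆
      {ω | Alive ε ξ t ω ∧
      ¬ (aliveD (ε * l ^ 3) (fun i => scheme q l W (a n) i ω) ⌊t * l⌋₊ ∧
        ∀ t' : ℝ≥0, t' ≤ t → dist (sc l (scheme q l W (a n) ⌊t' * l⌋₊ ω))
          (ξ t' ω) ≤ η)} ∪
      ⋃ z ∈ F, {ω | scheme q l W (a n) j ω = z ∧
        aliveD (ε * l ^ 3) (fun i => scheme q l W (a n) i ω) j} := by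
    rintro ω ⟨hA, hb1, hb2, hb3⟩
    by_cases hbad : aliveD (ε * l ^ 3) (fun i => scheme q l W (a n) i ω) ⌊t * l⌋₊ ∧
        ∀ t' : ℝ≥0, t' ≤ t → dist (sc l (scheme q l W (a n) ⌊t' * l⌋₊ ω))
          (ξ t' ω) ≤ η
    · right
      obtain ⟨hb4, hb5⟩ := hbad
      have hb6 := hb5 t le_rfl
      rw [← hj] at hb6
      refine Set.mem_iUnion₂.2 ⟨scheme q l W (a n) j ω, ?_, rfl, hb4⟩
      set z := scheme q l W (a n) j ω with hz
      have hd1 : |(z.1:ℝ) / l ^ 2 - (ξ t ω).1| ≤ η := by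
        refine le_trans ?_ hb6
        exact le_max_left _ _
      have hd2 : |(z.2.1:ℝ) / l ^ 3 - (ξ t ω).2.1| ≤ η := by
        refine le_trans ?_ hb6
        exact (le_max_left _ _).trans (le_max_right _ _)
      have hd3 : |(z.2.2:ℝ) / l ^ 4 - (ξ t ω).2.2| ≤ η := by
        refine le_trans ?_ hb6
        exact (le_max_right _ _).trans (le_max_right _ _)
      rw [abs_le] at hd1 hd2 hd3 hb1 hb2 hb3
      rw [hF, Finset.mem_product, Finset.mem_product]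
      refine ⟨od_mem _ _ _ (by positivity) _ ?_, od_mem _ _ _ (by positivity) _ ?_,
        od_mem _ _ _ (by positivity) _ ?_⟩
      · rw [abs_le]
        constructor <;> linarith [hd1.1, hd1.2, hb1.1, hb1.2]
      · rw [abs_le]
        constructor <;> linarith [hd2.1, hd2.2, hb2.1, hb2.2]
      · rw [abs_le]
        constructor <;> linarith [hd3.1, hd3.2, hb3.1, hb3.2]
    · left
      exact ⟨hA, hbad⟩
  refine (measure_mono hsub).trans ((measure_union_le _ _).trans ?_)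
  refine add_le_add le_rfl ?_
  calc P (⋃ z ∈ F, {ω | scheme q l W (a n) j ω = z ∧
        aliveD (ε * l ^ 3) (fun i => scheme q l W (a n) i ω) j})
      ≤ ∑ z ∈ F, P {ω | scheme q l W (a n) j ω = z ∧
        aliveD (ε * l ^ 3) (fun i => scheme q l W (a n) i ω) j} := measure_biUnion_finset_le _ _
    _ ≤ ∑ z ∈ F, ENNReal.ofReal (C0 / l ^ 9) := by
        refine Finset.sum_le_sum fun z _ => ?_
        rw [← ofReal_measureReal]
        exact ENNReal.ofReal_le_ofReal (hdz z)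
    _ = ENNReal.ofReal (F.card * (C0 / l ^ 9)) := by
        rw [Finset.sum_const, nsmul_eq_mul, ENNReal.ofReal_mul (Nat.cast_nonneg _),
          ENNReal.ofReal_natCast]
    _ ≤ ENNReal.ofReal (125 * C0 * R * x * y) := by
        refine ENNReal.ofReal_le_ofReal ?_
        calc (F.card : ℝ) * (C0 / l ^ 9) ≤ (125 * x * y * R * l ^ 9) * (C0 / l ^ 9) := by gcongr
          _ = 125 * C0 * R * x * y := by
            field_simp

/-! ### deterministic part -/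

open Classical in
theorem od_trans {Ω : Type*} (ε m0 : ℝ) (ξ : ℝ≥0 → Ω → E3) (ω : Ω)
    (hc : Continuous fun t => ξ t ω)
    (hsde : ∀ t : ℝ≥0, (ξ t ω).2.1 = m0 +
      ∫ x in (0:ℝ)..t, if Alive ε ξ x.toNNReal ω then (ξ x.toNNReal ω).1 else 0)
    (t1 t0 θ θ2 : ℝ≥0) (c R : ℝ) (K : ℕ)
    (h1 : ∀ y ≤ t1 + 1, ‖ξ y ω‖ ≤ R) (h2 : Alive ε ξ t0 ω)
    (h3 : ∀ y ≤ t1 + 1, ∀ y' ≤ t1 + 1, dist y y' ≤ θ → dist (ξ y ω) (ξ y' ω) ≤ c)
    (hθ : 0 < θ) (hθt0 : θ ≤ t0 / 2) (hK : (t1:ℝ) ≤ K * θ)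
    (h4 : ∀ k < K, ¬ (Alive ε ξ (t0 / 2 + k * θ) ω ∧ |(ξ (t0 / 2 + k * θ) ω).1| ≤ 5 * c ∧
      |(ξ (t0 / 2 + k * θ) ω).2.1 - ε| ≤ 5 * c * θ ∧ |(ξ (t0 / 2 + k * θ) ω).2.2| ≤ R))
    (hθ2 : θ2 ≤ t1) (h5 : ¬ (Alive ε ξ (t1 - θ2) ω ∧ |(ξ (t1 - θ2) ω).1| ≤ R ∧
      |(ξ (t1 - θ2) ω).2.1 - ε| ≤ R * θ2 ∧ |(ξ (t1 - θ2) ω).2.2| ≤ R))
    (hdead : ¬ Alive ε ξ t1 ω) :
    ∃ τ : ℝ≥0, 0 < τ ∧ τ + θ2 ≤ t1 ∧ (∀ y < τ, ε < (ξ y ω).2.1) ∧ (ξ τ ω).2.1 ≤ ε ∧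
      (ξ τ ω).1 ≤ -(4 * c) := by
  obtain ⟨τ, hτ1, hlt, hle, hinc⟩ := od_path ε m0 ξ ω hc hsde t1 hdead
  have ht0τ : t0 < τ := by
    by_contra h
    exact absurd (h2 τ (not_lt.1 h)) (not_lt.2 hle)
  have hτ0 : 0 < τ := lt_of_le_of_lt zero_le ht0τ
  have hneg := od_path_neg ε ξ ω hc τ hτ0 hlt hle hinc
  have hθ' : (0:ℝ) < θ := NNReal.coe_pos.2 hθ
  have hτt1 : (τ:ℝ) ≤ t1 := by exact_mod_cast hτ1
  have ht0τ' : (t0:ℝ) < τ := by exact_mod_cast ht0τ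
  have ht00 : (0:ℝ) ≤ t0 := t0.2
  have habs1 : ∀ y ≤ t1 + 1, |(ξ y ω).1| ≤ R := fun y hy => (norm_fst_le (ξ y ω)).trans (h1 y hy)
  have habs3 : ∀ y ≤ t1 + 1, |(ξ y ω).2.2| ≤ R := fun y hy =>
    ((norm_snd_le (ξ y ω).2).trans (norm_snd_le (ξ y ω))).trans (h1 y hy)
  have htt : ∀ y ≤ τ, y ≤ t1 + 1 := fun y hy => (hy.trans hτ1).trans (le_add_of_nonneg_right zero_le)
  refine ⟨τ, hτ0, ?_, hlt, hle, ?_⟩
  · by_contra h
    rw [not_le] at h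
    have h6 : (t1:ℝ) < τ + θ2 := by exact_mod_cast h
    have h7 : ((t1 - θ2 : ℝ≥0) : ℝ) = t1 - θ2 := NNReal.coe_sub hθ2
    have h8 : t1 - θ2 < τ := by
      rw [← NNReal.coe_lt_coe, h7]
      linarith
    have h9 := od_path_lip ξ ω τ hinc (t1 - θ2) h8.le R fun u _ hu => habs1 u (htt u hu)
    rw [h7, abs_le] at h9
    have hR : 0 ≤ R := (norm_nonneg _).trans (h1 0 zero_le)
    have h10 := hlt _ h8
    refine h5 ⟨fun y hy => hlt y (lt_of_le_of_lt hy h8), habs1 _ (htt _ h8.le), ?_,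
      habs3 _ (htt _ h8.le)⟩
    rw [abs_le]
    have h11 : R * ((τ:ℝ) - (t1 - θ2)) ≤ R * θ2 := by
      apply mul_le_mul_of_nonneg_left _ hR
      linarith
    constructor
    · have : 0 ≤ R * (θ2:ℝ) := mul_nonneg hR θ2.2
      linarith
    · linarith [h9.1]
  · by_contra h
    rw [not_le] at h
    set v : ℝ := ((τ:ℝ) - t0 / 2) / θ with hv
    have hvpos : 0 < v := by
      apply div_pos _ hθ'
      linarith
    have hcpos : 0 < ⌈v⌉₊ := Nat.ceil_pos.2 hvpos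
    obtain ⟨k, hk⟩ := Nat.exists_eq_succ_of_ne_zero hcpos.ne'
    have hk1 : (k:ℝ) < v := Nat.lt_ceil.1 (by omega)
    have hk2 : v ≤ k + 1 := by
      have := Nat.le_ceil v
      rw [hk] at this
      exact_mod_cast this
    rw [hv, lt_div_iff₀ hθ'] at hk1
    rw [hv, div_le_iff₀ hθ'] at hk2
    have hsk : ((t0 / 2 + k * θ : ℝ≥0) : ℝ) = t0 / 2 + k * θ := by push_cast; ring
    have hskτ : t0 / 2 + k * θ < τ := by
      rw [← NNReal.coe_lt_coe, hsk]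
      linarith
    have hkK : k < K := by
      by_contra hcon
      have h6 : (K:ℝ) ≤ k := by exact_mod_cast not_lt.1 hcon
      have h7 : (K:ℝ) * θ ≤ k * θ := by gcongr
      linarith
    have hu : ∀ u : ℝ≥0, t0 / 2 + k * θ ≤ u → u ≤ τ → |(ξ u ω).1| ≤ 5 * c := by
      intro u hu1 hu2
      have hu1' : (t0:ℝ) / 2 + k * θ ≤ u := by
        rw [← hsk]
        exact_mod_cast hu1
      have hu2' : (u:ℝ) ≤ τ := by exact_mod_cast hu2
      have h6 : dist u τ ≤ θ := by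
        rw [NNReal.dist_eq, abs_sub_comm, abs_of_nonneg (by linarith)]
        linarith
      have h7 := h3 u (htt u hu2) τ (htt τ le_rfl) h6
      have h8 : |(ξ u ω).1 - (ξ τ ω).1| ≤ c := le_trans (le_max_left _ _) h7
      rw [abs_le] at h8 ⊢
      constructor <;> linarith [h8.1, h8.2]
    have hc0 : 0 ≤ c := dist_nonneg.trans (h3 τ (htt τ le_rfl) τ (htt τ le_rfl) (by
      rw [dist_self]; exact θ.2))
    have h9 := od_path_lip ξ ω τ hinc (t0 / 2 + k * θ) hskτ.le (5 * c) hu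
    rw [hsk, abs_le] at h9
    have h10 := hlt _ hskτ
    refine h4 k hkK ⟨fun y hy => hlt y (lt_of_le_of_lt hy hskτ), hu _ le_rfl hskτ.le, ?_,
      habs3 _ (htt _ hskτ.le)⟩
    rw [abs_le]
    have h11 : 5 * c * ((τ:ℝ) - (t0 / 2 + k * θ)) ≤ 5 * c * θ := by
      apply mul_le_mul_of_nonneg_left _ (by positivity)
      linarith
    constructor
    · have : 0 ≤ 5 * c * (θ:ℝ) := by positivity
      linarith
    · linarith [h9.1]

theorem od_close {Ω : Type*} (ε R l η : ℝ) (hl : 0 < l) (hη : η ≤ 1) (Z : ℕ → Ω → St)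
    (ξ : ℝ≥0 → Ω → E3) (ω : Ω) (t1 τ : ℝ≥0) (h1 : ∀ y < τ, ε < (ξ y ω).2.1)
    (hsup : ∀ y ≤ t1 + 1, ‖ξ y ω‖ ≤ R - 1) (hinit : ε * l ^ 3 ≤ ((Z 0 ω).2.1 : ℝ))
    (j1 : ℕ) (halive : aliveD (ε * l ^ 3) (fun i => Z i ω) j1)
    (hnf : ¬ ((∀ y : ℝ≥0, (y:ℝ) ≤ t1 + 1 → ‖ξ y ω‖ ≤ R) ∧ ∃ k : ℕ, (k:ℝ) ≤ t1 * l ∧
      (∀ i < k, good ε R l Z ξ i ω) ∧ η < dist (sc l (Z k ω)) (ξ (gt l k) ω)))
    (hj : (j1:ℝ) ≤ t1 * l) :
    ∀ k : ℕ, k ≤ j1 → (∀ i < k, (i:ℝ) < τ * l) → dist (sc l (Z k ω)) (ξ (gt l k) ω) ≤ η := by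
  have hgt : ∀ i : ℕ, ((gt l i : ℝ≥0) : ℝ) = i / l := fun i =>
    Real.coe_toNNReal _ (by positivity)
  have hgt1 : ∀ i : ℕ, i ≤ j1 → gt l i ≤ t1 + 1 := by
    intro i hi
    rw [← NNReal.coe_le_coe, hgt]
    have h2 : (i:ℝ) ≤ t1 * l := le_trans (by exact_mod_cast hi) hj
    rw [← div_le_iff₀ hl] at h2
    push_cast
    linarith
  intro k
  induction k using Nat.strong_induction_on with
  | _ k ih =>
    intro hk hkτ
    have hgood : ∀ i < k, good ε R l Z ξ i ω := by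
      intro i hi
      refine ⟨?_, ?_⟩
      · intro i' hi'
        have hd := ih i' (by omega) (by omega) fun i'' hi'' => hkτ i'' (by omega)
        refine ⟨?_, ?_⟩
        · rcases Nat.eq_zero_or_pos i' with h0 | h0
          · rw [h0]; exact hinit
          · exact halive i' h0 (by omega)
        · have h2 := hsup (gt l i') (hgt1 i' (by omega))
          have h3 : ‖sc l (Z i' ω)‖ ≤ ‖ξ (gt l i') ω‖ + dist (sc l (Z i' ω)) (ξ (gt l i') ω) := by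
            rw [dist_eq_norm]
            have h4 := norm_add_le (ξ (gt l i') ω) (sc l (Z i' ω) - ξ (gt l i') ω)
            rwa [add_sub_cancel] at h4
          linarith
      · intro y hy
        have h2 : gt l i < τ := by
          rw [← NNReal.coe_lt_coe, hgt, div_lt_iff₀ hl]
          exact hkτ i hi
        refine ⟨h1 y (lt_of_le_of_lt hy h2), ?_⟩
        have := hsup y (hy.trans (hgt1 i (by omega)))
        linarith
    by_contra hcon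
    rw [not_le] at hcon
    refine hnf ⟨fun y hy => ?_, k, ?_, hgood, hcon⟩
    · have := hsup y (by rw [← NNReal.coe_le_coe]; push_cast; exact hy)
      linarith
    · exact le_trans (by exact_mod_cast hk) hj

theorem od_after {Ω : Type*} (Z : ℕ → Ω → St) (X : ℕ → Ω → ℤ) (ω : Ω)
    (hnext : ∀ i, Z (i+1) ω = stp (Z i ω) (X i ω)) (σ L : ℕ) (M α Bd Bm : ℝ)
    (hbd : |((Z σ ω).1 : ℝ)| ≤ Bd) (hbm : |((Z σ ω).2.1 : ℝ)| ≤ Bm) (hα : 0 ≤ α)
    (hM : Bm + L * (Bd + α) ≤ M)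
    (hev : ω ∉ od_ev Z M α L σ (fun ω => ((Z σ ω).1 : ℝ))) :
    ((Z (σ+L) ω).2.1 : ℝ) ≤ (Z σ ω).2.1 + L * ((Z σ ω).1 + α) := by
  have hBd : 0 ≤ Bd := (abs_nonneg _).trans hbd
  have hm : ∀ i, ((Z (i+1) ω).2.1 : ℝ) = (Z i ω).2.1 + (Z (i+1) ω).1 := by
    intro i
    rw [hnext i]
    simp only [stp]
    push_cast
    ring
  have hA : ∀ l : ℕ, (∀ k ≤ l, |((Z (σ+k) ω).1 : ℝ) - (Z σ ω).1| ≤ α) →
      |((Z (σ+l) ω).2.1 : ℝ) - (Z σ ω).2.1| ≤ l * (Bd + α) ∧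
      ((Z (σ+l) ω).2.1 : ℝ) ≤ (Z σ ω).2.1 + l * ((Z σ ω).1 + α) := by
    intro l
    induction l with
    | zero =>
      intro _
      simp
    | succ l ih =>
      intro h
      obtain ⟨h1, h2⟩ := ih fun k hk => h k (by omega)
      have h3 := h (l+1) le_rfl
      have h4 := hm (σ + l)
      have h5 : σ + (l + 1) = σ + l + 1 := by omega
      rw [h5] at h3 ⊢
      rw [h4]
      push_cast
      rw [abs_le] at h1 h3 hbd ⊢
      refine ⟨⟨?_, ?_⟩, ?_⟩ <;> nlinarith [h1.1, h1.2, h3.1, h3.2, hbd.1, hbd.2]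
  have hB : ∀ l ≤ L, |((Z (σ+l) ω).1 : ℝ) - (Z σ ω).1| ≤ α := by
    intro l
    induction l using Nat.strong_induction_on with
    | _ l ih =>
      intro hl
      by_contra hcon
      rw [not_le] at hcon
      refine hev ⟨l, hl, hcon, fun k hk => ⟨?_, ih k hk (by omega)⟩⟩
      have h1 := (hA k fun k' hk' => ih k' (by omega) (by omega)).1
      have h2 : (k:ℝ) ≤ L := by exact_mod_cast (by omega : k ≤ L)
      have h3 : (k:ℝ) * (Bd + α) ≤ L * (Bd + α) := by gcongr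
      rw [abs_le] at h1 hbm ⊢
      constructor <;> linarith [h1.1, h1.2, hbm.1, hbm.2]
  exact (hA L fun k hk => hB k hk).2

/-! ### assembly -/

/-- If the scheme is alive then so is the limit. -/
theorem one_dead {Ω : Type*} [mΩ : MeasurableSpace Ω] (P : Measure Ω)
    [IsProbabilityMeasure P] (ℱ : Filtration ℝ≥0 mΩ) (W : ℝ≥0 → Ω → ℝ) (ε : ℝ) (hε : 0 < ε)
    (z0 : E3) (hz0 : ε < z0.2.1) (ξ : ℝ≥0 → Ω → E3) (hξ : IsFrozenSol P ℱ W ε z0 ξ)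
    (q : ℕ → ℝ → ℤ) (om : ℕ → ℝ) (hq : IsQuant q om)
    (lam : ℕ → ℝ) (hlam : Tendsto lam atTop atTop) (a : ℕ → St)
    (ha : Tendsto (fun n => sc (lam n) (a n)) atTop (𝓝 z0)) (t1 : ℝ≥0) (ht1 : 0 < t1) :
    Tendsto (fun n => P {ω | ¬ Alive ε ξ t1 ω ∧
      aliveD (ε * lam n ^ 3) (fun i => scheme q (lam n) W (a n) i ω) ⌊t1 * lam n⌋₊})
      atTop (𝓝 0) := by
  rw [ENNReal.tendsto_nhds_zero]
  intro γ0 hγ0
  obtain ⟨γ, hγ, hγ8⟩ : ∃ γ : ℝ, 0 < γ ∧ ENNReal.ofReal (8 * γ) ≤ γ0 := by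
    rcases eq_or_ne γ0 ⊤ with h | h
    · exact ⟨1, one_pos, by rw [h]; exact le_top⟩
    · refine ⟨γ0.toReal / 8, by
        have := ENNReal.toReal_pos hγ0.ne' h
        positivity, ?_⟩
      rw [mul_div_cancel₀ _ (by norm_num), ENNReal.ofReal_toReal h]
  have hγ' : 0 < ENNReal.ofReal γ := ENNReal.ofReal_pos.2 hγ
  have ht1' : (0:ℝ) < t1 := NNReal.coe_pos.2 ht1
  have hmeas : ∀ t, Measurable (ξ t) := fun t => (hξ.adapted t).mono (ℱ.le t) le_rfl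
  have hinit0 : ∀ ω, ε < (ξ 0 ω).2.1 := fun ω => by rw [hξ.init ω]; exact hz0
  obtain ⟨R0, hR0, hP1⟩ := od_sup P ξ hmeas hξ.cont (t1 + 1) (ENNReal.ofReal γ) hγ'
  set R : ℝ := R0 + 1 with hR
  have hRpos : 0 < R := by linarith
  obtain ⟨t0, ht0, ht01, hP2⟩ := od_t0 P ℱ ε ξ hξ.adapted hξ.cont hinit0 t1 ht1
    (ENNReal.ofReal γ) hγ'
  have ht0' : (0:ℝ) < t0 := NNReal.coe_pos.2 ht0
  have ht01' : (t0:ℝ) ≤ t1 := by exact_mod_cast ht01
  obtain ⟨C, hC, hbox⟩ := od_box P ℱ W ε hε z0 hz0 ξ hξ q om hq lam hlam a ha (t0 / 2) (2 * t1)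
    (by positivity) (by
      rw [← NNReal.coe_le_coe]
      push_cast
      linarith) R hRpos
  obtain ⟨c, hc, hc1, hcγ⟩ : ∃ c : ℝ, 0 < c ∧ c ≤ 1 ∧ 50 * C * c ^ 2 * t1 ≤ γ := by
    refine ⟨min 1 (γ / (50 * C * t1)), lt_min one_pos (by positivity), min_le_left _ _, ?_⟩
    set c := min 1 (γ / (50 * C * t1)) with hcdef
    have h1 : c ≤ 1 := min_le_left _ _
    have h2 : c ≤ γ / (50 * C * t1) := min_le_right _ _
    have h0 : 0 < c := lt_min one_pos (by positivity)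
    rw [le_div_iff₀ (by positivity)] at h2
    have h3 : c ^ 2 ≤ c := by nlinarith
    calc 50 * C * c ^ 2 * t1 ≤ 50 * C * c * t1 := by gcongr
      _ = c * (50 * C * t1) := by ring
      _ ≤ γ := h2
  obtain ⟨θ', hθ', hP3⟩ := od_osc P ξ hmeas hξ.cont (t1 + 1) c hc (ENNReal.ofReal γ) hγ'
  obtain ⟨θ, hθ, hθθ', hθt0⟩ : ∃ θ : ℝ≥0, 0 < θ ∧ (θ:ℝ) ≤ θ' ∧ θ ≤ t0 / 2 := by
    refine ⟨min θ'.toNNReal (t0 / 2), lt_min (Real.toNNReal_pos.2 hθ') (by positivity), ?_,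
      min_le_right _ _⟩
    have h1 : min θ'.toNNReal (t0 / 2) ≤ θ'.toNNReal := min_le_left _ _
    rw [← NNReal.coe_le_coe, Real.coe_toNNReal _ hθ'.le] at h1
    exact h1
  have hθp : (0:ℝ) < θ := NNReal.coe_pos.2 hθ
  have hθt0' : (θ:ℝ) ≤ t0 / 2 := by exact_mod_cast hθt0
  set K : ℕ := ⌈(t1:ℝ) / θ⌉₊ with hK
  have hK1 : (t1:ℝ) ≤ K * θ := by
    have := Nat.le_ceil ((t1:ℝ) / θ)
    rwa [div_le_iff₀ hθp] at this
  have hK2 : (K:ℝ) * θ ≤ 2 * t1 := by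
    have h1 := Nat.ceil_lt_add_one (a := (t1:ℝ) / θ) (by positivity)
    have h2 : (K:ℝ) * θ ≤ ((t1:ℝ) / θ + 1) * θ := by gcongr
    have h3 : ((t1:ℝ) / θ + 1) * θ = t1 + θ := by field_simp
    linarith
  obtain ⟨θ2, hθ2, hθ2t, hθ2γ⟩ : ∃ θ2 : ℝ≥0, 0 < θ2 ∧ θ2 ≤ t1 / 2 ∧
      C * R * (R * θ2) ≤ γ := by
    have hg : 0 < γ / (C * R * R) := by positivity
    refine ⟨min (γ / (C * R * R)).toNNReal (t1 / 2), lt_min (Real.toNNReal_pos.2 hg)
      (by positivity), min_le_right _ _, ?_⟩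
    have h2 : min (γ / (C * R * R)).toNNReal (t1 / 2) ≤ (γ / (C * R * R)).toNNReal :=
      min_le_left _ _
    rw [← NNReal.coe_le_coe, Real.coe_toNNReal _ hg.le, le_div_iff₀ (by positivity)] at h2
    linarith
  have hθ2p : (0:ℝ) < θ2 := NNReal.coe_pos.2 hθ2
  have hθ2t' : (θ2:ℝ) ≤ t1 / 2 := by exact_mod_cast hθ2t
  have hθ2t1 : θ2 ≤ t1 := hθ2t.trans (by rw [← NNReal.coe_le_coe]; push_cast; linarith)
  set M' : ℝ := 2 * R + c with hM'
  have hM'pos : 0 < M' := by positivity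
  obtain ⟨θ1, hθ1, hθ1a, hθ1b, hθ1c⟩ : ∃ θ1 : ℝ, 0 < θ1 ∧ θ1 ≤ θ2 / 2 ∧ θ1 ≤ 1 / 2 ∧
      4 * M' * θ1 / c ^ 2 ≤ γ := by
    refine ⟨min ((θ2:ℝ) / 2) (min (1 / 2) (γ * c ^ 2 / (4 * M'))), lt_min (by positivity)
      (lt_min (by norm_num) (by positivity)), min_le_left _ _,
      (min_le_right _ _).trans (min_le_left _ _), ?_⟩
    have h1 : min ((θ2:ℝ) / 2) (min (1 / 2) (γ * c ^ 2 / (4 * M'))) ≤ γ * c ^ 2 / (4 * M') :=
      (min_le_right _ _).trans (min_le_right _ _)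
    rw [le_div_iff₀ (by positivity)] at h1
    rw [div_le_iff₀ (by positivity)]
    linarith
  set η2 : ℝ := min (c / 2) (c * θ1 / 2) with hη2
  have hη2pos : 0 < η2 := lt_min (by positivity) (by positivity)
  have hη2a : η2 ≤ c / 2 := min_le_left _ _
  have hη2b : η2 ≤ c * θ1 / 2 := min_le_right _ _
  obtain ⟨θ3, hθ3, hP6⟩ := od_osc P ξ hmeas hξ.cont (t1 + 1) η2 hη2pos (ENNReal.ofReal γ) hγ'
  have hη21 : η2 ≤ 1 := by linarith
  have hcl := close_before P ℱ W ε hε z0 hz0 ξ hξ q om hq lam hlam a ha t1 R η2 ht1' hRpos hη2pos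
  rw [ENNReal.tendsto_nhds_zero] at hcl
  have hcl2 := hcl _ hγ'
  filter_upwards [hcl2, hlam.eventually_ge_atTop 1, hlam.eventually_ge_atTop (1 / θ3),
    hlam.eventually_ge_atTop (1 / θ1), hlam.eventually_ge_atTop (6 / θ2),
    od_init ε z0 hz0 lam hlam a ha] with n hn7 hn1 hn2 hn3 hn4 hn5
  set l := lam n with hl
  have hlpos : 0 < l := by linarith
  rw [div_le_iff₀ hθ3] at hn2
  rw [div_le_iff₀ hθ1] at hn3
  rw [div_le_iff₀ hθ2p] at hn4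
  have hch := scheme_isChain P ℱ W hξ.brownian hξ.adaptedW hξ.indep q om hq l hlpos (a n)
  set Z : ℕ → Ω → St := scheme q l W (a n) with hZ
  set j1 : ℕ := ⌊(t1:ℝ) * l⌋₊ with hj1
  have hj1a : (j1:ℝ) ≤ t1 * l := Nat.floor_le (by positivity)
  have hj1b : (t1:ℝ) * l < j1 + 1 := Nat.lt_floor_add_one _
  set L : ℕ := ⌈θ1 * l⌉₊ with hL
  have hL1 : θ1 * l ≤ L := Nat.le_ceil _
  have hL2 : (L:ℝ) ≤ θ1 * l + 1 := (Nat.ceil_lt_add_one (by positivity)).le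
  have hL3 : (L:ℝ) ≤ 2 * θ1 * l := by linarith
  have hL4 : (L:ℝ) ≤ l := by
    have : θ1 * l ≤ 1 / 2 * l := by gcongr
    linarith
  have hgt : ∀ i : ℕ, ((gt l i : ℝ≥0) : ℝ) = i / l := fun i =>
    Real.coe_toNNReal _ (by positivity)
  have hgtmono : ∀ i j : ℕ, i ≤ j → gt l i ≤ gt l j := by
    intro i j hij
    rw [← NNReal.coe_le_coe, hgt, hgt]
    have : (i:ℝ) ≤ j := by exact_mod_cast hij
    gcongr
  -- the stopping events
  set E : ℕ → Set Ω := fun i => {ω | Alive ε ξ (gt l i) ω}ᶜ ∩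
    ⋂ i' ∈ Set.Iio i, {ω | Alive ε ξ (gt l i') ω} with hE
  have hEm : ∀ i, MeasurableSet[ℱ (gt l i)] (E i) := by
    intro i
    refine MeasurableSet.inter (od_alive_meas ℱ ε ξ hξ.adapted hξ.cont _).compl ?_
    refine MeasurableSet.biInter (Set.to_countable _) fun i' hi' => ?_
    exact ℱ.mono (hgtmono i' i (le_of_lt hi')) _ (od_alive_meas ℱ ε ξ hξ.adapted hξ.cont _)
  have hEd : Pairwise (Function.onFun Disjoint E) := by
    have key : ∀ i j, i < j → Disjoint (E i) (E j) := by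
      intro i j hij
      refine Set.disjoint_left.2 ?_
      rintro ω ⟨h1, -⟩ ⟨-, h2⟩
      exact h1 (Set.mem_iInter₂.1 h2 i hij)
    intro i j hij
    rcases lt_or_gt_of_ne hij with h | h
    · exact key i j h
    · exact (key j i h).symm
  have hP8 : P (⋃ i, E i ∩ od_ev Z (M' * l ^ 3) (c * l ^ 2) L i (fun ω => ((Z i ω).1 : ℝ))) ≤
      ENNReal.ofReal γ := by
    refine (od_max3 P (fun i => ℱ (gt l i)) Z (schemeX q l W (a n)) (a n) hch (M' * l ^ 3)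
      (c * l ^ 2) (by positivity) (by positivity) L E hEm hEd).trans ?_
    refine ENNReal.ofReal_le_ofReal ?_
    calc 2 * (M' * l ^ 3) * L / (c * l ^ 2) ^ 2 ≤
        2 * (M' * l ^ 3) * (2 * θ1 * l) / (c * l ^ 2) ^ 2 := by gcongr
      _ = 4 * M' * θ1 / c ^ 2 := by
          field_simp
          ring
      _ ≤ γ := hθ1c
  have hP4 : P (⋃ k ∈ Finset.range K, {ω | Alive ε ξ (t0 / 2 + k * θ) ω ∧
      |(ξ (t0 / 2 + k * θ) ω).1| ≤ 5 * c ∧
      |(ξ (t0 / 2 + k * θ) ω).2.1 - ε| ≤ 5 * c * θ ∧ |(ξ (t0 / 2 + k * θ) ω).2.2| ≤ R}) ≤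
      ENNReal.ofReal γ := by
    calc _ ≤ ∑ k ∈ Finset.range K, P {ω | Alive ε ξ (t0 / 2 + k * θ) ω ∧
          |(ξ (t0 / 2 + k * θ) ω).1| ≤ 5 * c ∧
          |(ξ (t0 / 2 + k * θ) ω).2.1 - ε| ≤ 5 * c * θ ∧ |(ξ (t0 / 2 + k * θ) ω).2.2| ≤ R} :=
          measure_biUnion_finset_le _ _
      _ ≤ ∑ k ∈ Finset.range K, ENNReal.ofReal (C * (5 * c) * (5 * c * θ)) := by
          refine Finset.sum_le_sum fun k hk => ?_
          refine hbox _ (le_add_of_nonneg_right zero_le) ?_ _ _ (by positivity) (by positivity)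
          rw [← NNReal.coe_le_coe]
          push_cast
          have h1 : (k:ℝ) + 1 ≤ K := by
            have := Finset.mem_range.1 hk
            exact_mod_cast this
          have h2 : ((k:ℝ) + 1) * θ ≤ K * θ := by gcongr
          have h3 : (K:ℝ) * θ < t1 + θ := by
            have h4 := Nat.ceil_lt_add_one (a := (t1:ℝ) / θ) (by positivity)
            have h5 : (K:ℝ) * θ < ((t1:ℝ) / θ + 1) * θ := by gcongr
            have h6 : ((t1:ℝ) / θ + 1) * θ = t1 + θ := by field_simp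
            linarith
          linarith
      _ = ENNReal.ofReal (K * (C * (5 * c) * (5 * c * θ))) := by
          rw [Finset.sum_const, nsmul_eq_mul, Finset.card_range,
            ENNReal.ofReal_mul (Nat.cast_nonneg _), ENNReal.ofReal_natCast]
      _ ≤ ENNReal.ofReal γ := by
          refine ENNReal.ofReal_le_ofReal ?_
          calc (K:ℝ) * (C * (5 * c) * (5 * c * θ)) = 25 * C * c ^ 2 * (K * θ) := by ring
            _ ≤ 25 * C * c ^ 2 * (2 * t1) := by gcongr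
            _ = 50 * C * c ^ 2 * t1 := by ring
            _ ≤ γ := hcγ
  have hP5 : P {ω | Alive ε ξ (t1 - θ2) ω ∧ |(ξ (t1 - θ2) ω).1| ≤ R ∧
      |(ξ (t1 - θ2) ω).2.1 - ε| ≤ R * θ2 ∧ |(ξ (t1 - θ2) ω).2.2| ≤ R} ≤ ENNReal.ofReal γ := by
    refine (hbox _ ?_ ?_ R (R * θ2) hRpos (by positivity)).trans
      (ENNReal.ofReal_le_ofReal hθ2γ)
    · rw [← NNReal.coe_le_coe, NNReal.coe_sub hθ2t1]
      push_cast
      linarith
    · rw [← NNReal.coe_le_coe, NNReal.coe_sub hθ2t1]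
      push_cast
      linarith
  have hP9 : P {ω | ¬ ∀ t : ℝ≥0, (ξ t ω).2.1 = z0.2.1 +
      ∫ x in (0:ℝ)..t, @ite ℝ (Alive ε ξ x.toNNReal ω) (Classical.propDecidable _)
        (ξ x.toNNReal ω).1 0} = 0 := hξ.sde_m
  set S1 : Set Ω := {ω | ¬ ∀ y ≤ t1 + 1, ‖ξ y ω‖ ≤ R0} with hS1
  set S2 : Set Ω := {ω | ¬ Alive ε ξ t0 ω} with hS2
  set S3 : Set Ω := {ω | ¬ ∀ y ≤ t1 + 1, ∀ y' ≤ t1 + 1, dist y y' ≤ θ' →
    dist (ξ y ω) (ξ y' ω) ≤ c} with hS3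
  set S4 : Set Ω := ⋃ k ∈ Finset.range K, {ω | Alive ε ξ (t0 / 2 + k * θ) ω ∧
      |(ξ (t0 / 2 + k * θ) ω).1| ≤ 5 * c ∧
      |(ξ (t0 / 2 + k * θ) ω).2.1 - ε| ≤ 5 * c * θ ∧ |(ξ (t0 / 2 + k * θ) ω).2.2| ≤ R} with hS4
  set S5 : Set Ω := {ω | Alive ε ξ (t1 - θ2) ω ∧ |(ξ (t1 - θ2) ω).1| ≤ R ∧
      |(ξ (t1 - θ2) ω).2.1 - ε| ≤ R * θ2 ∧ |(ξ (t1 - θ2) ω).2.2| ≤ R} with hS5
  set S6 : Set Ω := {ω | ¬ ∀ y ≤ t1 + 1, ∀ y' ≤ t1 + 1, dist y y' ≤ θ3 →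
    dist (ξ y ω) (ξ y' ω) ≤ η2} with hS6
  set S7 : Set Ω := {ω | (∀ y : ℝ≥0, (y:ℝ) ≤ t1 + 1 → ‖ξ y ω‖ ≤ R) ∧
      ∃ k : ℕ, (k:ℝ) ≤ t1 * l ∧ (∀ i < k, good ε R l Z ξ i ω) ∧
        η2 < dist (sc l (Z k ω)) (ξ (gt l k) ω)} with hS7
  set S8 : Set Ω := ⋃ i, E i ∩ od_ev Z (M' * l ^ 3) (c * l ^ 2) L i
    (fun ω => ((Z i ω).1 : ℝ)) with hS8
  set S9 : Set Ω := {ω | ¬ ∀ t : ℝ≥0, (ξ t ω).2.1 = z0.2.1 +
      ∫ x in (0:ℝ)..t, @ite ℝ (Alive ε ξ x.toNNReal ω) (Classical.propDecidable _)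
        (ξ x.toNNReal ω).1 0} with hS9
  have hsub : {ω | ¬ Alive ε ξ t1 ω ∧ aliveD (ε * l ^ 3) (fun i => Z i ω) j1} ⊆
      S1 ∪ S2 ∪ S3 ∪ S4 ∪ S5 ∪ S6 ∪ S7 ∪ S8 ∪ S9 := by
    rintro ω ⟨hdead, halive⟩
    by_contra hcon
    simp only [Set.mem_union, not_or] at hcon
    obtain ⟨⟨⟨⟨⟨⟨⟨⟨g1, g2⟩, g3⟩, g4⟩, g5⟩, g6⟩, g7⟩, g8⟩, g9⟩ := hcon
    rw [hS1, Set.mem_ofPred_eq, not_not] at g1
    rw [hS2, Set.mem_ofPred_eq, not_not] at g2
    rw [hS3, Set.mem_ofPred_eq, not_not] at g3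
    rw [hS6, Set.mem_ofPred_eq, not_not] at g6
    rw [hS9, Set.mem_ofPred_eq, not_not] at g9
    rw [hS7, Set.mem_ofPred_eq] at g7
    have g4' : ∀ k < K, ¬ (Alive ε ξ (t0 / 2 + k * θ) ω ∧ |(ξ (t0 / 2 + k * θ) ω).1| ≤ 5 * c ∧
      |(ξ (t0 / 2 + k * θ) ω).2.1 - ε| ≤ 5 * c * θ ∧ |(ξ (t0 / 2 + k * θ) ω).2.2| ≤ R) := by
      intro k hk h
      exact g4 (Set.mem_iUnion₂.2 ⟨k, Finset.mem_range.2 hk, h⟩)
    obtain ⟨τ, hτ0, hτ1, hτlt, hτle, hτδ⟩ := od_trans ε z0.2.1 ξ ω (hξ.cont ω) g9 t1 t0 θ θ2 c R K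
      (fun y hy => (g1 y hy).trans (by linarith)) g2
      (fun y hy y' hy' hd => g3 y hy y' hy' (hd.trans hθθ')) hθ hθt0 hK1 g4' hθ2t1 g5 hdead
    have hτ1' : (τ:ℝ) + θ2 ≤ t1 := by exact_mod_cast hτ1
    have hτ0' : (0:ℝ) < τ := NNReal.coe_pos.2 hτ0
    have hclose := od_close ε R l η2 hlpos hη21 Z ξ ω t1 τ hτlt
      (fun y hy => by have := g1 y hy; linarith) hn5 j1 halive g7 hj1a
    set σ : ℕ := ⌈(τ:ℝ) * l⌉₊ with hσ
    have hσ1 : (τ:ℝ) * l ≤ σ := Nat.le_ceil _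
    have hσ2 : (σ:ℝ) < τ * l + 1 := Nat.ceil_lt_add_one (by positivity)
    have hσL : σ + L ≤ j1 := by
      have h1 : θ1 * l ≤ θ2 / 2 * l := by gcongr
      have h2 : (τ:ℝ) * l ≤ (t1 - θ2) * l := by
        apply mul_le_mul_of_nonneg_right _ hlpos.le
        linarith
      have h3 : ((σ + L : ℕ) : ℝ) < ((j1 + 1 : ℕ) : ℝ) := by
        push_cast
        linarith
      have h4 : σ + L < j1 + 1 := by exact_mod_cast h3
      omega
    have hcσ := hclose σ (by omega) fun i hi => Nat.lt_ceil.1 hi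
    have hgσ1 : (τ:ℝ) ≤ (gt l σ : ℝ≥0) := by
      rw [hgt, le_div_iff₀ hlpos]
      exact hσ1
    have hgσ2 : ((gt l σ : ℝ≥0) : ℝ) ≤ τ + 1 / l := by
      rw [hgt, div_le_iff₀ hlpos]
      have : ((τ:ℝ) + 1 / l) * l = τ * l + 1 := by field_simp
      rw [this]
      exact hσ2.le
    have h1l : 1 / l ≤ 1 := by
      rw [div_le_one hlpos]
      exact hn1
    have h1l3 : 1 / l ≤ θ3 := by
      rw [div_le_iff₀ hlpos]
      linarith
    have hd6 := g6 (gt l σ) (by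
      rw [← NNReal.coe_le_coe]
      push_cast
      linarith) τ (by
      rw [← NNReal.coe_le_coe]
      push_cast
      linarith) (by
      rw [NNReal.dist_eq, abs_of_nonneg (by linarith)]
      linarith)
    -- the state at time σ
    have hx1 : |((Z σ ω).1 : ℝ) / l ^ 2 - (ξ (gt l σ) ω).1| ≤ η2 := (le_max_left _ _).trans hcσ
    have hx2 : |((Z σ ω).2.1 : ℝ) / l ^ 3 - (ξ (gt l σ) ω).2.1| ≤ η2 :=
      ((le_max_left _ _).trans (le_max_right _ _)).trans hcσ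
    have hx3 : |(ξ (gt l σ) ω).1 - (ξ τ ω).1| ≤ η2 := (le_max_left _ _).trans hd6
    have hx4 : |(ξ (gt l σ) ω).2.1 - (ξ τ ω).2.1| ≤ η2 :=
      ((le_max_left _ _).trans (le_max_right _ _)).trans hd6
    have hxn := g1 (gt l σ) (by
      rw [← NNReal.coe_le_coe]
      push_cast
      linarith)
    have hx5 : |(ξ (gt l σ) ω).1| ≤ R0 := (norm_fst_le (ξ (gt l σ) ω)).trans hxn
    have hx6 : |(ξ (gt l σ) ω).2.1| ≤ R0 :=
      ((norm_fst_le (ξ (gt l σ) ω).2).trans (norm_snd_le (ξ (gt l σ) ω))).trans hxn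
    rw [abs_le] at hx1 hx2 hx3 hx4 hx5 hx6
    have hl2 : 0 < l ^ 2 := by positivity
    have hl3 : 0 < l ^ 3 := by positivity
    have hδ1 : ((Z σ ω).1 : ℝ) ≤ -(3 * c) * l ^ 2 := by
      rw [← div_le_iff₀ hl2]
      linarith [hx1.1, hx1.2, hx3.1, hx3.2]
    have hm1 : ((Z σ ω).2.1 : ℝ) ≤ (ε + c * θ1) * l ^ 3 := by
      rw [← div_le_iff₀ hl3]
      linarith [hx2.1, hx2.2, hx4.1, hx4.2]
    have hδ2 : |((Z σ ω).1 : ℝ)| ≤ R * l ^ 2 := by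
      rw [abs_le]
      constructor
      · have : -R ≤ ((Z σ ω).1 : ℝ) / l ^ 2 := by linarith [hx1.1, hx5.1]
        rw [le_div_iff₀ hl2] at this
        linarith
      · rw [← div_le_iff₀ hl2]
        linarith [hx1.2, hx5.2]
    have hm2 : |((Z σ ω).2.1 : ℝ)| ≤ R * l ^ 3 := by
      rw [abs_le]
      constructor
      · have : -R ≤ ((Z σ ω).2.1 : ℝ) / l ^ 3 := by linarith [hx2.1, hx6.1]
        rw [le_div_iff₀ hl3] at this
        linarith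
      · rw [← div_le_iff₀ hl3]
        linarith [hx2.2, hx6.2]
    have hEσ : ω ∈ E σ := by
      refine ⟨?_, Set.mem_iInter₂.2 fun i hi => ?_⟩
      · intro h
        exact absurd (h τ (by rw [← NNReal.coe_le_coe]; exact hgσ1)) (not_lt.2 hτle)
      · intro y hy
        refine hτlt y (lt_of_le_of_lt hy ?_)
        rw [← NNReal.coe_lt_coe, hgt, div_lt_iff₀ hlpos]
        exact Nat.lt_ceil.1 hi
    have hev : ω ∉ od_ev Z (M' * l ^ 3) (c * l ^ 2) L σ (fun ω => ((Z σ ω).1 : ℝ)) := by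
      intro h
      exact g8 (Set.mem_iUnion.2 ⟨σ, hEσ, h⟩)
    have haf := od_after Z (schemeX q l W (a n)) ω (fun i => hch.next i ω) σ L (M' * l ^ 3)
      (c * l ^ 2) (R * l ^ 2) (R * l ^ 3) hδ2 hm2 (by positivity) (by
        have h1 : (L:ℝ) * (R * l ^ 2 + c * l ^ 2) ≤ l * (R * l ^ 2 + c * l ^ 2) := by gcongr
        rw [hM']
        linarith) hev
    have hal := halive (σ + L) (by
      have : 0 < σ := Nat.ceil_pos.2 (by positivity)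
      omega) hσL
    simp only at hal
    have h1 : (L:ℝ) * ((Z σ ω).1 + c * l ^ 2) ≤ L * (-(2 * c) * l ^ 2) := by
      apply mul_le_mul_of_nonneg_left _ (Nat.cast_nonneg _)
      linarith
    have h2 : (θ1 * l) * (2 * c * l ^ 2) ≤ L * (2 * c * l ^ 2) := by gcongr
    have h3 : 0 < c * θ1 * l ^ 3 := by positivity
    linarith
  have hfin : ∀ x : ℝ≥0∞, x ≤ ENNReal.ofReal γ + ENNReal.ofReal γ + ENNReal.ofReal γ +
      ENNReal.ofReal γ + ENNReal.ofReal γ + ENNReal.ofReal γ + ENNReal.ofReal γ +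
      ENNReal.ofReal γ + 0 → x ≤ γ0 := by
    intro x hx
    refine hx.trans (le_trans (le_of_eq ?_) hγ8)
    rw [ENNReal.ofReal_mul (by norm_num)]
    have : ENNReal.ofReal 8 = 8 := by norm_num
    rw [this]
    ring
  apply hfin
  refine (measure_mono hsub).trans ?_
  refine (measure_union_le _ _).trans (add_le_add ?_ hP9.le)
  refine (measure_union_le _ _).trans (add_le_add ?_ hP8)
  refine (measure_union_le _ _).trans (add_le_add ?_ hn7)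
  refine (measure_union_le _ _).trans (add_le_add ?_ hP6)
  refine (measure_union_le _ _).trans (add_le_add ?_ hP5)
  refine (measure_union_le _ _).trans (add_le_add ?_ hP4)
  refine (measure_union_le _ _).trans (add_le_add ?_ hP3)
  exact (measure_union_le _ _).trans (add_le_add hP1 hP2)

end Pool.Agent.Helper7.Stuck
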