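import Pool.Agent.Helper7.Stuck.Defs

open MeasureTheory ProbabilityTheory Filter Topology
open scoped NNReal ENNReal

namespace Pool.Agent.Helper7.Stuck

universe u

theorem pathm_basis {t1 : ℝ} :
    TopologicalSpace.IsTopologicalBasis
      {U : Set C(Set.Icc (0:ℝ) t1, E3) | ∃ x r, U = Metric.ball x r} := by
  refine TopologicalSpace.isTopologicalBasis_of_isOpen_of_nhds ?_ ?_
  · rintro U ⟨x, r, rfl⟩
    exact Metric.isOpen_ball
  · intro x U hx hU
    obtain ⟨r, hr, hrU⟩ := Metric.isOpen_iff.1 hU x hx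
    exact ⟨Metric.ball x r, ⟨x, r, rfl⟩, Metric.mem_ball_self hr, hrU⟩

theorem measurable_pathC {Ω : Type*} [MeasurableSpace Ω] (t1 : ℝ) (ξ : ℝ≥0 → Ω → E3)
    (hm : ∀ t, Measurable (ξ t)) (hc : ∀ ω, Continuous (fun t => ξ t ω)) :
    Measurable (pathC t1 ξ hc) := by
  have hb : (borel C(Set.Icc (0:ℝ) t1, E3)) = MeasurableSpace.generateFrom
      {U : Set C(Set.Icc (0:ℝ) t1, E3) | ∃ x r, U = Metric.ball x r} :=
    borel_eq_generateFrom_of_subbasis pathm_basis.eq_generateFrom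
  change @Measurable _ _ _ (borel _) _
  rw [hb]
  refine measurable_generateFrom ?_
  rintro U ⟨x, r, rfl⟩
  obtain ⟨s, hs, hsd⟩ := TopologicalSpace.exists_countable_dense (Set.Icc (0:ℝ) t1)
  have hcl : ∀ q : ℝ, 0 ≤ q → MeasurableSet {ω | dist (pathC t1 ξ hc ω) x ≤ q} := by
    intro q hq
    have he : {ω | dist (pathC t1 ξ hc ω) x ≤ q} =
        ⋂ t ∈ s, {ω | dist (ξ ⟨((t : Set.Icc (0:ℝ) t1):ℝ), t.2.1⟩ ω) (x t) ≤ q} := by
      ext ω
      simp only [Set.mem_setOf_eq, Set.mem_iInter]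
      rw [ContinuousMap.dist_le hq]
      constructor
      · intro h t _
        exact h t
      · intro h
        have hcl : IsClosed {t : Set.Icc (0:ℝ) t1 | dist ((pathC t1 ξ hc ω) t) (x t) ≤ q} :=
          isClosed_le ((pathC t1 ξ hc ω).continuous.dist x.continuous) continuous_const
        have hsub : s ⊆ {t : Set.Icc (0:ℝ) t1 | dist ((pathC t1 ξ hc ω) t) (x t) ≤ q} :=
          fun t ht => h t ht
        have := hcl.closure_subset_iff.2 hsub
        rw [hsd.closure_eq] at this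
        exact fun t => this (Set.mem_univ t)
    rw [he]
    refine MeasurableSet.biInter hs fun t _ => ?_
    exact measurableSet_le ((hm _).dist measurable_const) measurable_const
  have hU : pathC t1 ξ hc ⁻¹' Metric.ball x r =
      ⋃ q : {q : ℚ // 0 ≤ q ∧ (q:ℝ) < r}, {ω | dist (pathC t1 ξ hc ω) x ≤ ((q:ℚ):ℝ)} := by
    ext ω
    simp only [Set.mem_preimage, Metric.mem_ball, Set.mem_iUnion, Set.mem_setOf_eq]
    constructor
    · intro h
      obtain ⟨q, hq1, hq2⟩ := exists_rat_btwn h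
      have : (0:ℝ) ≤ q := dist_nonneg.trans hq1.le
      exact ⟨⟨q, by exact_mod_cast this, hq2⟩, hq1.le⟩
    · rintro ⟨⟨q, hq0, hq1⟩, hq2⟩
      exact hq2.trans_lt hq1
  rw [hU]
  exact MeasurableSet.iUnion fun q => hcl _ (by exact_mod_cast q.2.1)

theorem measurable_unif {t1 : ℝ} (F : (Set.Icc (0:ℝ) t1 → E3) → ℝ)
    (hFc : ∀ η : ℝ, 0 < η → ∃ w : ℝ, 0 < w ∧ ∀ x y, (∀ t, dist (x t) (y t) ≤ w) →
      |F x - F y| ≤ η) :
    Measurable (fun x : C(Set.Icc (0:ℝ) t1, E3) => F x) := by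
  refine Continuous.measurable ?_
  rw [Metric.continuous_iff]
  intro b ε hε
  obtain ⟨w, hw, h⟩ := hFc (ε/2) (by positivity)
  refine ⟨w, hw, fun a hab => ?_⟩
  have := h a b (fun t => (ContinuousMap.dist_apply_le_dist t).trans hab.le)
  rw [Real.dist_eq]
  linarith

end Pool.Agent.Helper7.Stuck
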