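import Pool.Agent.Helper7.Stuck.NB1

open MeasureTheory ProbabilityTheory Filter Topology
open scoped NNReal ENNReal

namespace Pool.Agent.Helper7.Stuck

universe u

theorem scheme_gt_mono {lam : ℝ} (hlam : 0 < lam) : Monotone (gt lam) := by
  intro i j hij
  unfold gt
  apply Real.toNNReal_mono
  have : (i:ℝ) ≤ j := by exact_mod_cast hij
  gcongr

theorem scheme_meas {Ω : Type*} [mΩ : MeasurableSpace Ω] (ℱ : Filtration ℝ≥0 mΩ)
    (W : ℝ≥0 → Ω → ℝ) (hWm : ∀ t, Measurable[ℱ t] (W t)) (q : ℕ → ℝ → ℤ)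
    (hq : ∀ v, Measurable (q v)) {lam : ℝ} (hlam : 0 < lam) (a : St) :
    ∀ i : ℕ, Measurable[ℱ (gt lam i)] (scheme q lam W a i) ∧
      Measurable[ℱ (gt lam (i+1))] (schemeX q lam W a i) := by
  have hstep : ∀ i : ℕ, Measurable[ℱ (gt lam i)] (scheme q lam W a i) →
      Measurable[ℱ (gt lam (i+1))] (schemeX q lam W a i) := by
    intro i hi
    have hle : ℱ (gt lam i) ≤ ℱ (gt lam (i+1)) := ℱ.mono (scheme_gt_mono hlam (Nat.le_succ i))
    have h1 : Measurable[ℱ (gt lam (i+1))] (scheme q lam W a i) := hi.mono hle le_rfl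
    have h2 : Measurable[ℱ (gt lam (i+1))]
        (fun ω => √lam * (W (gt lam (i+1)) ω - W (gt lam i) ω)) :=
      ((hWm _).sub ((hWm _).mono hle le_rfl)).const_mul _
    have h3 : Measurable (fun p : St × ℝ => q p.1.2.1.natAbs p.2) :=
      measurable_from_prod_countable_right fun z => hq z.2.1.natAbs
    exact h3.comp (h1.prodMk h2)
  intro i
  induction i with
  | zero =>
    have h0 : Measurable[ℱ (gt lam 0)] (scheme q lam W a 0) := measurable_const
    exact ⟨h0, hstep 0 h0⟩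
  | succ i ih =>
    have hle : ℱ (gt lam i) ≤ ℱ (gt lam (i+1)) := ℱ.mono (scheme_gt_mono hlam (Nat.le_succ i))
    have h1 : Measurable[ℱ (gt lam (i+1))] (scheme q lam W a i) := ih.1.mono hle le_rfl
    have h4 : Measurable (fun p : St × ℤ => stp p.1 p.2) := Measurable.of_discrete
    have h0 : Measurable[ℱ (gt lam (i+1))] (scheme q lam W a (i+1)) :=
      h4.comp (h1.prodMk ih.2)
    exact ⟨h0, hstep (i+1) h0⟩

theorem scheme_noise {Ω : Type*} [mΩ : MeasurableSpace Ω] (P : Measure Ω)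
    [IsProbabilityMeasure P] (W : ℝ≥0 → Ω → ℝ) (hW : IsBrownianReal W P) {lam : ℝ}
    (hlam : 0 < lam) (i : ℕ) :
    HasLaw (fun ω => √lam * (W (gt lam (i+1)) ω - W (gt lam i) ω)) (gaussianReal 0 1) P := by
  have h := gaussianReal_const_mul (hW.toIsPreBrownianReal.hasLaw_sub (gt lam (i+1)) (gt lam i))
    (√lam)
  have h1 : (gt lam (i+1) : ℝ) = (i+1)/lam := by
    unfold gt
    rw [Real.coe_toNNReal _ (by positivity)]
    push_cast
    rfl
  have h2 : (gt lam i : ℝ) = i/lam := by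
    unfold gt
    rw [Real.coe_toNNReal _ (by positivity)]
  have h3 : NNReal.mk (√lam ^ 2) (sq_nonneg _) * nndist (gt lam (i+1)).1 (gt lam i).1 = 1 := by
    ext
    rw [NNReal.coe_mul, coe_nndist, Real.dist_eq]
    show √lam ^ 2 * |(gt lam (i+1) : ℝ) - (gt lam i : ℝ)| = 1
    rw [h1, h2, Real.sq_sqrt hlam.le]
    have h4 : ((i:ℝ)+1)/lam - i/lam = 1/lam := by ring
    rw [h4, abs_of_pos (by positivity)]
    field_simp
  rw [h3, mul_zero] at h
  exact h

theorem scheme_isChain {Ω : Type*} [mΩ : MeasurableSpace Ω] (P : Measure Ω)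
    [IsProbabilityMeasure P] (ℱ : Filtration ℝ≥0 mΩ) (W : ℝ≥0 → Ω → ℝ)
    (hW : IsBrownianReal W P) (hWm : ∀ t, Measurable[ℱ t] (W t))
    (hWi : ∀ s t, s ≤ t → Indep (ℱ s) (MeasurableSpace.comap (fun ω => W t ω - W s ω)
      inferInstance) P)
    (q : ℕ → ℝ → ℤ) (om : ℕ → ℝ) (hq : IsQuant q om) (lam : ℝ) (hlam : 0 < lam) (a : St) :
    IsChain P (fun i => ℱ (gt lam i)) (scheme q lam W a) (schemeX q lam W a) a where
  le i := ℱ.le _
  mono := fun i j hij => ℱ.mono (scheme_gt_mono hlam hij)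
  meas_Z i z := (scheme_meas ℱ W hWm q hq.meas hlam a i).1 (measurableSet_singleton z)
  meas_X i x := (scheme_meas ℱ W hWm q hq.meas hlam a i).2 (measurableSet_singleton x)
  init ω := rfl
  next i ω := rfl
  law := by
    intro i E hE z x
    have hZ : MeasurableSet[ℱ (gt lam i)] (scheme q lam W a i ⁻¹' {z}) :=
      (scheme_meas ℱ W hWm q hq.meas hlam a i).1 (measurableSet_singleton z)
    have hEZ : MeasurableSet[ℱ (gt lam i)] (E ∩ scheme q lam W a i ⁻¹' {z}) := hE.inter hZ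
    let B : Set ℝ := {y | q z.2.1.natAbs (√lam * y) = x}
    have hB : MeasurableSet B :=
      ((hq.meas z.2.1.natAbs).comp (measurable_const_mul (√lam))) (measurableSet_singleton x)
    have h1 : E ∩ scheme q lam W a i ⁻¹' {z} ∩ schemeX q lam W a i ⁻¹' {x}
        = (E ∩ scheme q lam W a i ⁻¹' {z}) ∩ (fun ω => W (gt lam (i+1)) ω - W (gt lam i) ω) ⁻¹' B := by
      ext ω
      simp only [Set.mem_inter_iff, Set.mem_preimage, Set.mem_singleton_iff, B,
        Set.mem_ofPred_eq]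
      constructor
      · rintro ⟨⟨h1, h2⟩, h3⟩
        refine ⟨⟨h1, h2⟩, ?_⟩
        rw [← h2]
        exact h3
      · rintro ⟨⟨h1, h2⟩, h3⟩
        refine ⟨⟨h1, h2⟩, ?_⟩
        rw [← h2] at h3
        exact h3
    have hind := hWi (gt lam i) (gt lam (i+1)) (scheme_gt_mono hlam (Nat.le_succ i))
    rw [h1, (Indep_iff _ _ P).1 hind _ _ hEZ ⟨B, hB, rfl⟩]
    congr 1
    have hlaw := scheme_noise P W hW hlam i
    have h2 : nb z.2.1.natAbs {x} = (gaussianReal 0 1) (q z.2.1.natAbs ⁻¹' {x}) := by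
      rw [← hq.law, Measure.map_apply (hq.meas _) (measurableSet_singleton x)]
    rw [h2, ← hlaw.map_eq, Measure.map_apply_of_aemeasurable hlaw.aemeasurable
      ((hq.meas _) (measurableSet_singleton x))]
    rfl

end Pool.Agent.Helper7.Stuck
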