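import Pool.Agent.Helper7.Stuck.One
import Pool.Agent.Helper7.Stuck.OneD
import Pool.Agent.Helper7.Stuck.Law
import Pool.Agent.Helper7.Stuck.Quant
import Pool.Agent.Helper7.Stuck.Scheme
import Pool.Agent.Helper7.Stuck.PathM

open MeasureTheory ProbabilityTheory Filter Topology
open scoped NNReal ENNReal

namespace Pool.Agent.Helper7.Stuck

universe u

/-- extension of a finite path -/
def d1_ext (j : ℕ) (y : Fin (j+1) → St) (i : ℕ) : St := if h : i < j + 1 then y ⟨i, h⟩ else 0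

theorem d1_ext_eq (j : ℕ) (Z : ℕ → St) {i : ℕ} (hi : i ≤ j) :
    d1_ext j (fun i : Fin (j+1) => Z i) i = Z i := by
  unfold d1_ext
  rw [dif_pos (by omega)]

open Classical in
/-- the functional of the finite path -/
noncomputable def d1_H (t1 lam A : ℝ) (B : Set E3) (F : (Set.Icc (0:ℝ) t1 → E3) → ℝ)
    (Z : ℕ → St) : ℝ :=
  if sc lam (Z ⌊t1 * lam⌋₊) ∈ B ∧ aliveD A Z ⌊t1 * lam⌋₊ then F (stepPath t1 lam Z) else 0

theorem d1_H_ext (t1 lam A : ℝ) (hlam : 0 ≤ lam) (B : Set E3)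
    (F : (Set.Icc (0:ℝ) t1 → E3) → ℝ) (Z : ℕ → St) :
    d1_H t1 lam A B F (d1_ext ⌊t1 * lam⌋₊ (fun i : Fin (⌊t1 * lam⌋₊+1) => Z i)) =
      d1_H t1 lam A B F Z := by
  have h1 : aliveD A (d1_ext ⌊t1 * lam⌋₊ (fun i : Fin (⌊t1 * lam⌋₊+1) => Z i)) ⌊t1 * lam⌋₊ ↔
      aliveD A Z ⌊t1 * lam⌋₊ := by
    unfold aliveD
    refine forall_congr' fun i => forall_congr' fun _ => forall_congr' fun hi => ?_
    rw [d1_ext_eq _ _ hi]
  have h2 : stepPath t1 lam (d1_ext ⌊t1 * lam⌋₊ (fun i : Fin (⌊t1 * lam⌋₊+1) => Z i)) =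
      stepPath t1 lam Z := by
    funext t
    unfold stepPath
    rw [d1_ext_eq _ _ (Nat.floor_mono (mul_le_mul_of_nonneg_right t.2.2 hlam))]
  unfold d1_H
  rw [h1, h2, d1_ext_eq _ _ le_rfl]

theorem d1_meas_Z {Ω : Type*} [mΩ : MeasurableSpace Ω] {P : Measure Ω}
    {𝒢 : ℕ → MeasurableSpace Ω} {Z : ℕ → Ω → St} {X : ℕ → Ω → ℤ} {a : St}
    (hZ : IsChain P 𝒢 Z X a) (i : ℕ) : Measurable (Z i) :=
  measurable_to_countable' fun z => hZ.le i _ (hZ.meas_Z i z)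

theorem d1_meas_tuple {Ω : Type*} [mΩ : MeasurableSpace Ω] {P : Measure Ω}
    {𝒢 : ℕ → MeasurableSpace Ω} {Z : ℕ → Ω → St} {X : ℕ → Ω → ℤ} {a : St}
    (hZ : IsChain P 𝒢 Z X a) (j : ℕ) : Measurable (fun ω (i : Fin (j+1)) => Z i ω) :=
  measurable_pi_lambda _ fun i => d1_meas_Z hZ i

theorem d1_meas_H {Ω : Type*} [mΩ : MeasurableSpace Ω] {P : Measure Ω}
    {𝒢 : ℕ → MeasurableSpace Ω} {Z : ℕ → Ω → St} {X : ℕ → Ω → ℤ} {a : St}
    (hZ : IsChain P 𝒢 Z X a) (t1 lam A : ℝ) (hlam : 0 ≤ lam) (B : Set E3)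
    (F : (Set.Icc (0:ℝ) t1 → E3) → ℝ) :
    Measurable (fun ω => d1_H t1 lam A B F (fun i => Z i ω)) := by
  have h : (fun ω => d1_H t1 lam A B F (fun i => Z i ω)) =
      (fun y => d1_H t1 lam A B F (d1_ext ⌊t1 * lam⌋₊ y)) ∘
        (fun ω (i : Fin (⌊t1 * lam⌋₊+1)) => Z i ω) := by
    funext ω
    exact (d1_H_ext t1 lam A hlam B F (fun i => Z i ω)).symm
  rw [h]
  exact (Measurable.of_discrete).comp (d1_meas_tuple hZ _)

theorem d1_transfer {Ω Ω' : Type*} [MeasurableSpace Ω] [MeasurableSpace Ω'] (P : Measure Ω)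
    [IsProbabilityMeasure P] (P' : Measure Ω') [IsProbabilityMeasure P']
    (𝒢 : ℕ → MeasurableSpace Ω) (Z : ℕ → Ω → St) (X : ℕ → Ω → ℤ)
    (𝒢' : ℕ → MeasurableSpace Ω') (Z' : ℕ → Ω' → St) (X' : ℕ → Ω' → ℤ) (a : St)
    (hZ : IsChain P 𝒢 Z X a) (hZ' : IsChain P' 𝒢' Z' X' a) (t1 lam A : ℝ) (hlam : 0 ≤ lam)
    (B : Set E3) (F : (Set.Icc (0:ℝ) t1 → E3) → ℝ) :
    ∫ ω, d1_H t1 lam A B F (fun i => Z i ω) ∂P = ∫ ω, d1_H t1 lam A B F (fun i => Z' i ω) ∂P' := by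
  have hl := law_eq P P' 𝒢 Z X 𝒢' Z' X' a hZ hZ' ⌊t1 * lam⌋₊
  have h1 : ∫ ω, d1_H t1 lam A B F (fun i => Z i ω) ∂P =
      ∫ y, d1_H t1 lam A B F (d1_ext ⌊t1 * lam⌋₊ y)
        ∂(P.map (fun ω (i : Fin (⌊t1 * lam⌋₊+1)) => Z i ω)) := by
    rw [integral_map (d1_meas_tuple hZ _).aemeasurable
      (Measurable.of_discrete).aestronglyMeasurable]
    exact integral_congr_ae (Eventually.of_forall fun ω =>
      (d1_H_ext t1 lam A hlam B F (fun i => Z i ω)).symm)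
  have h2 : ∫ ω, d1_H t1 lam A B F (fun i => Z' i ω) ∂P' =
      ∫ y, d1_H t1 lam A B F (d1_ext ⌊t1 * lam⌋₊ y)
        ∂(P'.map (fun ω (i : Fin (⌊t1 * lam⌋₊+1)) => Z' i ω)) := by
    rw [integral_map (d1_meas_tuple hZ' _).aemeasurable
      (Measurable.of_discrete).aestronglyMeasurable]
    exact integral_congr_ae (Eventually.of_forall fun ω =>
      (d1_H_ext t1 lam A hlam B F (fun i => Z' i ω)).symm)
  rw [h1, h2, hl]

/-- the set integral as an integral -/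
theorem d1_setint {Ω : Type*} [mΩ : MeasurableSpace Ω] {P : Measure Ω}
    {𝒢 : ℕ → MeasurableSpace Ω} {Z : ℕ → Ω → St} {X : ℕ → Ω → ℤ} {a : St}
    (hZ : IsChain P 𝒢 Z X a) (t1 lam A : ℝ) (hlam : 0 ≤ lam) (B : Set E3)
    (F : (Set.Icc (0:ℝ) t1 → E3) → ℝ) :
    ∫ ω in {ω | sc lam (Z ⌊t1 * lam⌋₊ ω) ∈ B ∧ aliveD A (fun i => Z i ω) ⌊t1 * lam⌋₊},
      F (stepPath t1 lam (fun i => Z i ω)) ∂P = ∫ ω, d1_H t1 lam A B F (fun i => Z i ω) ∂P := by
  have hS : MeasurableSet {ω | sc lam (Z ⌊t1 * lam⌋₊ ω) ∈ B ∧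
      aliveD A (fun i => Z i ω) ⌊t1 * lam⌋₊} := by
    have h1 := d1_meas_H hZ t1 lam A hlam B (fun _ => (1:ℝ))
    have h2 : {ω | sc lam (Z ⌊t1 * lam⌋₊ ω) ∈ B ∧ aliveD A (fun i => Z i ω) ⌊t1 * lam⌋₊} =
        (fun ω => d1_H t1 lam A B (fun _ => (1:ℝ)) (fun i => Z i ω)) ⁻¹' {1} := by
      ext ω
      simp only [Set.mem_ofPred_eq, Set.mem_preimage, Set.mem_singleton_iff, d1_H]
      split_ifs with h
      · simp [h]
      · simp [h]
    rw [h2]
    exact h1 (measurableSet_singleton 1)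
  rw [← integral_indicator hS]
  apply integral_congr_ae
  refine Eventually.of_forall fun ω => ?_
  simp only [d1_H]
  by_cases h : sc lam (Z ⌊t1 * lam⌋₊ ω) ∈ B ∧ aliveD A (fun i => Z i ω) ⌊t1 * lam⌋₊
  · rw [if_pos h, Set.indicator_of_mem (by exact h)]
  · rw [if_neg h, Set.indicator_of_notMem (by exact h)]

/-- the path is frozen at level `ε` -/
theorem d1_frozen {Ω : Type*} [mΩ : MeasurableSpace Ω] {P : Measure Ω} {ℱ : Filtration ℝ≥0 mΩ}
    {W : ℝ≥0 → Ω → ℝ} {ε : ℝ} {z0 : E3} {ξ : ℝ≥0 → Ω → E3} (hξ : IsFrozenSol P ℱ W ε z0 ξ)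
    (t : ℝ≥0) : ∀ᵐ ω ∂P, ¬ Alive ε ξ t ω → (ξ t ω).2.1 ≤ ε := by
  classical
  filter_upwards [hξ.sde_m] with ω hω hdead
  unfold Alive at hdead
  push Not at hdead
  obtain ⟨y, hyt, hy⟩ := hdead
  have h1 := hω t
  have h2 := hω y
  have h3 : ∫ x in (0:ℝ)..t, (if Alive ε ξ x.toNNReal ω then (ξ x.toNNReal ω).1 else 0) =
      ∫ x in (0:ℝ)..y, (if Alive ε ξ x.toNNReal ω then (ξ x.toNNReal ω).1 else 0) := by
    rw [intervalIntegral.integral_of_le (NNReal.coe_nonneg t),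
      intervalIntegral.integral_of_le (NNReal.coe_nonneg y)]
    apply setIntegral_eq_of_subset_of_forall_sdiff_eq_zero measurableSet_Ioc
    · exact Set.Ioc_subset_Ioc_right (by exact_mod_cast hyt)
    · intro x hx
      rw [if_neg]
      intro hal
      have hyx : y ≤ x.toNNReal := by
        have h4 : (y:ℝ) < x := by
          by_contra hcon
          exact hx.2 ⟨hx.1.1, not_lt.1 hcon⟩
        exact (Real.le_toNNReal_iff_coe_le (le_trans (NNReal.coe_nonneg y) h4.le)).2 h4.le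
      exact absurd (hal y hyx) (not_lt.2 hy)
  rw [h1, h3, ← h2]
  exact hy

theorem d1_front {s B : Set E3} (hs : IsPreconnected s) (h1 : (s ∩ B).Nonempty)
    (h2 : (s ∩ Bᶜ).Nonempty) : (s ∩ frontier B).Nonempty := by
  by_contra hcon
  rw [Set.not_nonempty_iff_eq_empty] at hcon
  have hno : ∀ x ∈ s, x ∉ frontier B := fun x hx hf => by
    have : x ∈ s ∩ frontier B := ⟨hx, hf⟩
    rw [hcon] at this
    exact this
  have hsub : s ⊆ interior B ∪ (closure B)ᶜ := by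
    intro x hx
    have h3 := hno x hx
    rw [frontier, Set.mem_sdiff, not_and, not_not] at h3
    by_cases h4 : x ∈ closure B
    · exact Or.inl (h3 h4)
    · exact Or.inr h4
  obtain ⟨x, hx, hxB⟩ := h1
  obtain ⟨y, hy, hyB⟩ := h2
  have hx' : x ∈ interior B := by
    rcases hsub hx with h | h
    · exact h
    · exact absurd (subset_closure hxB) h
  have hy' : y ∈ (closure B)ᶜ := by
    rcases hsub hy with h | h
    · exact absurd (interior_subset h) hyB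
    · exact h
  obtain ⟨w, -, hw1, hw2⟩ := hs _ _ isOpen_interior isClosed_closure.isOpen_compl hsub
    ⟨x, hx, hx'⟩ ⟨y, hy, hy'⟩
  exact hw2 (subset_closure (interior_subset hw1))

/-- closeness decides membership away from the frontier -/
theorem d1_mem_iff (B : Set E3) {δ : ℝ} {x y : E3}
    (hx : x ∉ Metric.cthickening δ (frontier B)) (hxy : dist y x ≤ δ) : y ∈ B ↔ x ∈ B := by
  have hδ : 0 ≤ δ := dist_nonneg.trans hxy
  have hpre : IsPreconnected (Metric.closedBall x δ) := (convex_closedBall x δ).isPreconnected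
  by_contra hcon
  have hne : (Metric.closedBall x δ ∩ frontier B).Nonempty := by
    by_cases hyB : y ∈ B
    · have hxB : x ∉ B := fun h => hcon ⟨fun _ => h, fun _ => hyB⟩
      exact d1_front hpre ⟨y, hxy, hyB⟩ ⟨x, Metric.mem_closedBall_self hδ, hxB⟩
    · have hxB : x ∈ B := by
        by_contra h
        exact hcon ⟨fun h' => absurd h' hyB, fun h' => absurd h' h⟩
      exact d1_front hpre ⟨x, Metric.mem_closedBall_self hδ, hxB⟩ ⟨y, hxy, hyB⟩
  obtain ⟨w, hw1, hw2⟩ := hne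
  apply hx
  rw [Metric.mem_closedBall, dist_comm] at hw1
  exact Metric.mem_cthickening_of_dist_le x w δ _ hw2 hw1

theorem diff1 {Ω : Type*} [MeasurableSpace Ω] (P : Measure Ω) [IsProbabilityMeasure P]
    (ε t1 : ℝ) (hε : 0 < ε) (ht1 : 0 < t1) (z0 : E3) (hz0 : ε < z0.2.1)
    (lam : ℕ → ℝ) (hlam : Tendsto lam atTop atTop) (a : ℕ → St)
    (ha : Tendsto (fun n => sc (lam n) (a n)) atTop (𝓝 z0))
    (𝒢 : ℕ → ℕ → MeasurableSpace Ω) (Z : ℕ → ℕ → Ω → St) (X : ℕ → ℕ → Ω → ℤ)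
    (hZ : ∀ n, IsChain P (𝒢 n) (Z n) (X n) (a n))
    {Ω' : Type*} [mΩ' : MeasurableSpace Ω'] (P' : Measure Ω') [IsProbabilityMeasure P']
    (ℱ : Filtration ℝ≥0 mΩ') (W : ℝ≥0 → Ω' → ℝ) (ξ : ℝ≥0 → Ω' → E3)
    (hξ : IsFrozenSol P' ℱ W ε z0 ξ)
    (F : (Set.Icc (0:ℝ) t1 → E3) → ℝ) (hF1 : ∀ x, |F x| ≤ 1)
    (hFc : ∀ η : ℝ, 0 < η → ∃ w : ℝ, 0 < w ∧ ∀ x y, (∀ t, dist (x t) (y t) ≤ w) →
      |F x - F y| ≤ η)
    (B : Set E3) (hB : MeasurableSet B) (hBε : ∀ z ∈ B, ε < z.2.1)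
    (hB0 : P'.map (ξ t1.toNNReal) (frontier B) = 0) :
    Tendsto (fun n => ∫ ω in {ω | sc (lam n) (Z n ⌊t1 * lam n⌋₊ ω) ∈ B ∧
        aliveD (ε * lam n ^ 3) (fun i => Z n i ω) ⌊t1 * lam n⌋₊},
          F (stepPath t1 (lam n) (fun i => Z n i ω)) ∂P) atTop
      (𝓝 (∫ ω in {ω | ξ t1.toNNReal ω ∈ B}, F (pathC t1 ξ hξ.cont ω) ∂P')) := by
  classical
  obtain ⟨q, om, hq⟩ := exists_quant
  obtain ⟨T, hT⟩ : ∃ T : ℝ≥0, T = t1.toNNReal := ⟨_, rfl⟩
  rw [← hT] at hB0 ⊢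
  have hTt : (T:ℝ) = t1 := by rw [hT]; exact Real.coe_toNNReal _ ht1.le
  have hT0 : 0 < T := by rw [hT]; exact Real.toNNReal_pos.2 ht1
  have hmT : ∀ t, Measurable (ξ t) := fun t => (hξ.adapted t).mono (ℱ.le t) le_rfl
  have hpos : ∀ᶠ n in atTop, 0 < lam n := hlam.eventually_gt_atTop 0
  let G : Ω' → ℝ := {ω | ξ T ω ∈ B}.indicator (fun ω => F (pathC t1 ξ hξ.cont ω))
  let H : ℕ → Ω' → ℝ := fun n ω => d1_H t1 (lam n) (ε * lam n ^ 3) B F
    (fun i => scheme q (lam n) W (a n) i ω)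
  have hchain : ∀ n, 0 < lam n → IsChain P' (fun i => ℱ (gt (lam n) i))
      (scheme q (lam n) W (a n)) (schemeX q (lam n) W (a n)) (a n) := fun n hn =>
    scheme_isChain P' ℱ W hξ.brownian hξ.adaptedW hξ.indep q om hq (lam n) hn (a n)
  have hSB : MeasurableSet {ω | ξ T ω ∈ B} := hmT T hB
  have hR : ∫ ω in {ω | ξ T ω ∈ B}, F (pathC t1 ξ hξ.cont ω) ∂P' = ∫ ω, G ω ∂P' :=
    (integral_indicator hSB).symm
  have hL : ∀ᶠ n in atTop, ∫ ω, H n ω ∂P' =
      ∫ ω in {ω | sc (lam n) (Z n ⌊t1 * lam n⌋₊ ω) ∈ B ∧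
        aliveD (ε * lam n ^ 3) (fun i => Z n i ω) ⌊t1 * lam n⌋₊},
          F (stepPath t1 (lam n) (fun i => Z n i ω)) ∂P := by
    filter_upwards [hpos] with n hn
    rw [d1_setint (hZ n) t1 (lam n) (ε * lam n ^ 3) hn.le B F]
    exact (d1_transfer P P' _ _ _ _ _ _ _ (hZ n) (hchain n hn) t1 (lam n) _ hn.le B F).symm
  rw [hR]
  refine Tendsto.congr' hL ?_
  -- integrability
  have hGm : Measurable G :=
    ((measurable_unif F hFc).comp (measurable_pathC t1 ξ hmT hξ.cont)).indicator hSB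
  have hG1 : ∀ ω, |G ω| ≤ 1 := by
    intro ω
    by_cases h : ω ∈ {ω | ξ T ω ∈ B}
    · simp only [G, Set.indicator_of_mem h]; exact hF1 _
    · simp only [G, Set.indicator_of_notMem h]; simp
  have hH1 : ∀ n ω, |H n ω| ≤ 1 := by
    intro n ω
    simp only [H, d1_H]
    split_ifs
    · exact hF1 _
    · simp
  have hGi : Integrable G P' := Integrable.of_bound hGm.aestronglyMeasurable 1
    (Eventually.of_forall fun ω => by rw [Real.norm_eq_abs]; exact hG1 ω)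
  have hHi : ∀ n, 0 < lam n → Integrable (H n) P' := fun n hn =>
    Integrable.of_bound (d1_meas_H (hchain n hn) t1 (lam n) _ hn.le B F).aestronglyMeasurable 1
      (Eventually.of_forall fun ω => by rw [Real.norm_eq_abs]; exact hH1 n ω)
  rw [Metric.tendsto_atTop']
  intro e he
  obtain ⟨η, hη⟩ : ∃ η, η = e / 8 := ⟨_, rfl⟩
  have hη0 : 0 < η := by rw [hη]; positivity
  obtain ⟨w, hw, hFw⟩ := hFc η hη0
  -- the frontier
  have hμ : IsProbabilityMeasure (P'.map (ξ T)) := Measure.isProbabilityMeasure_map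
    (hmT T).aemeasurable
  have hct : Tendsto (fun r => P'.map (ξ T) (Metric.cthickening r (frontier B))) (𝓝 0)
      (𝓝 (P'.map (ξ T) (frontier B))) :=
    tendsto_measure_cthickening_of_isClosed ⟨1, one_pos, measure_ne_top _ _⟩ isClosed_frontier
  rw [hB0] at hct
  obtain ⟨δ0, hδ0, hδ0'⟩ : ∃ δ0 : ℝ, 0 < δ0 ∧
      P'.map (ξ T) (Metric.cthickening δ0 (frontier B)) < ENNReal.ofReal η := by
    have h1 := (hct.mono_left (nhdsWithin_le_nhds (s := Set.Ioi 0))).eventually_lt_const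
      (ENNReal.ofReal_pos.2 hη0)
    obtain ⟨r, hr1, hr2⟩ := (h1.and self_mem_nhdsWithin).exists
    exact ⟨r, hr2, hr1⟩
  obtain ⟨δ, hδ⟩ : ∃ δ, δ = min w δ0 := ⟨_, rfl⟩
  have hδpos : 0 < δ := by rw [hδ]; exact lt_min hw hδ0
  have hδw : δ ≤ w := by rw [hδ]; exact min_le_left _ _
  have hδδ0 : δ ≤ δ0 := by rw [hδ]; exact min_le_right _ _
  -- bad events
  have hA1 := one_alive P' ℱ W ε hε z0 hz0 ξ hξ q om hq lam hlam a ha T δ hT0 hδpos
  have hA2 := one_dead P' ℱ W ε hε z0 hz0 ξ hξ q om hq lam hlam a ha T hT0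
  simp only [hTt] at hA1 hA2
  let A1 : ℕ → Set Ω' := fun n => {ω | Alive ε ξ T ω ∧
      ¬ (aliveD (ε * lam n ^ 3) (fun i => scheme q (lam n) W (a n) i ω) ⌊t1 * lam n⌋₊ ∧
        ∀ t : ℝ≥0, t ≤ T → dist (sc (lam n) (scheme q (lam n) W (a n) ⌊t * lam n⌋₊ ω))
          (ξ t ω) ≤ δ)}
  let A2 : ℕ → Set Ω' := fun n => {ω | ¬ Alive ε ξ T ω ∧
      aliveD (ε * lam n ^ 3) (fun i => scheme q (lam n) W (a n) i ω) ⌊t1 * lam n⌋₊}
  let A3 : Set Ω' := ξ T ⁻¹' Metric.cthickening δ0 (frontier B)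
  let A4 : Set Ω' := {ω | ¬ (¬ Alive ε ξ T ω → (ξ T ω).2.1 ≤ ε)}
  have hA3 : P' A3 ≤ ENNReal.ofReal η := by
    have h1 : P' A3 = P'.map (ξ T) (Metric.cthickening δ0 (frontier B)) :=
      (Measure.map_apply (hmT T) Metric.isClosed_cthickening.measurableSet).symm
    rw [h1]; exact hδ0'.le
  have hA4 : P' A4 = 0 := d1_frozen hξ T
  let bad : ℕ → Set Ω' := fun n => A1 n ∪ A2 n ∪ A3 ∪ A4
  -- off the bad set
  have hoff : ∀ n ω, ω ∉ bad n → |H n ω - G ω| ≤ η := by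
    intro n ω hω
    simp only [bad, Set.mem_union, not_or] at hω
    obtain ⟨⟨⟨h1, h2⟩, h3⟩, h4⟩ := hω
    have h4' : ¬ Alive ε ξ T ω → (ξ T ω).2.1 ≤ ε := by
      by_contra hcon
      exact h4 hcon
    by_cases hal : Alive ε ξ T ω
    · have h5 : aliveD (ε * lam n ^ 3) (fun i => scheme q (lam n) W (a n) i ω) ⌊t1 * lam n⌋₊ ∧
          ∀ t : ℝ≥0, t ≤ T → dist (sc (lam n) (scheme q (lam n) W (a n) ⌊t * lam n⌋₊ ω))
            (ξ t ω) ≤ δ := by
        by_contra hcon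
        exact h1 ⟨hal, hcon⟩
      have h6 := h5.2 T le_rfl
      rw [hTt] at h6
      have h7 := d1_mem_iff B h3 (h6.trans hδδ0)
      by_cases hin : ξ T ω ∈ B
      · have h8 : H n ω = F (stepPath t1 (lam n) (fun i => scheme q (lam n) W (a n) i ω)) := by
          simp only [H, d1_H]
          rw [if_pos ⟨h7.2 hin, h5.1⟩]
        have h9 : G ω = F (pathC t1 ξ hξ.cont ω) := Set.indicator_of_mem (by exact hin) _
        rw [h8, h9]
        apply hFw
        intro t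
        have h11 : (⟨(t:ℝ), t.2.1⟩ : ℝ≥0) ≤ T := by
          apply NNReal.coe_le_coe.1
          rw [hTt]
          exact t.2.2
        exact (h5.2 _ h11).trans hδw
      · have h8 : H n ω = 0 := by
          simp only [H, d1_H]
          rw [if_neg]
          intro hcon
          exact hin (h7.1 hcon.1)
        have h9 : G ω = 0 := Set.indicator_of_notMem (by exact hin) _
        rw [h8, h9, sub_zero, abs_zero]
        exact hη0.le
    · have h8 : H n ω = 0 := by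
        simp only [H, d1_H]
        rw [if_neg]
        intro hcon
        exact h2 ⟨hal, hcon.2⟩
      have h9 : G ω = 0 := by
        apply Set.indicator_of_notMem
        intro hin
        exact absurd (hBε _ hin) (not_lt.2 (h4' hal))
      rw [h8, h9, sub_zero, abs_zero]
      exact hη0.le
  -- conclusion
  have hev1 : ∀ᶠ n in atTop, P' (A1 n) < ENNReal.ofReal η :=
    hA1.eventually_lt_const (ENNReal.ofReal_pos.2 hη0)
  have hev2 : ∀ᶠ n in atTop, P' (A2 n) < ENNReal.ofReal η :=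
    hA2.eventually_lt_const (ENNReal.ofReal_pos.2 hη0)
  obtain ⟨N, hN⟩ := eventually_atTop.1 (hev1.and (hev2.and hpos))
  refine ⟨N, fun n hn => ?_⟩
  obtain ⟨h1, h2, h3⟩ := hN n hn.le
  have hbad : P'.real (bad n) ≤ 3 * η := by
    have h4 : P' (bad n) ≤ ENNReal.ofReal η + ENNReal.ofReal η + ENNReal.ofReal η + 0 := by
      refine (measure_union_le _ _).trans (add_le_add ((measure_union_le _ _).trans
        (add_le_add ((measure_union_le _ _).trans (add_le_add h1.le h2.le)) hA3)) hA4.le)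
    have h5 : ENNReal.ofReal η + ENNReal.ofReal η + ENNReal.ofReal η + 0 =
        ENNReal.ofReal (3 * η) := by
      rw [add_zero, ← ENNReal.ofReal_add hη0.le hη0.le, ← ENNReal.ofReal_add (by positivity) hη0.le]
      congr 1; ring
    rw [h5] at h4
    exact ENNReal.toReal_le_of_le_ofReal (by positivity) h4
  obtain ⟨E, hE⟩ : ∃ E, E = toMeasurable P' (bad n) := ⟨_, rfl⟩
  have hEm : MeasurableSet E := by rw [hE]; exact measurableSet_toMeasurable _ _
  have hEsub : bad n ⊆ E := by rw [hE]; exact subset_toMeasurable _ _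
  have hEr : P'.real E ≤ 3 * η := by
    have : P'.real E = P'.real (bad n) := by
      rw [hE, measureReal_def, measure_toMeasurable, measureReal_def]
    rw [this]; exact hbad
  have hpt : ∀ ω, |H n ω - G ω| ≤ η + E.indicator (fun _ => (2:ℝ)) ω := by
    intro ω
    by_cases hω : ω ∈ E
    · rw [Set.indicator_of_mem hω]
      have h6 := abs_le.1 (hH1 n ω)
      have h7 := abs_le.1 (hG1 ω)
      rw [abs_le]
      constructor <;> linarith
    · rw [Set.indicator_of_notMem hω, add_zero]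
      exact hoff n ω fun h => hω (hEsub h)
  have hint : Integrable (fun ω => η + E.indicator (fun _ => (2:ℝ)) ω) P' :=
    (integrable_const η).add ((integrable_const (2:ℝ)).indicator hEm)
  rw [Real.dist_eq, ← integral_sub (hHi n h3) hGi]
  calc |∫ ω, (H n ω - G ω) ∂P'| ≤ ∫ ω, |H n ω - G ω| ∂P' := abs_integral_le_integral_abs
    _ ≤ ∫ ω, (η + E.indicator (fun _ => (2:ℝ)) ω) ∂P' :=
        integral_mono ((hHi n h3).sub hGi).abs hint hpt
    _ = η + 2 * P'.real E := by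
        rw [integral_add (integrable_const η) ((integrable_const (2:ℝ)).indicator hEm),
          integral_const, integral_indicator_const _ hEm]
        simp
        ring
    _ ≤ η + 2 * (3 * η) := by linarith
    _ < e := by rw [hη]; linarith

end Pool.Agent.Helper7.Stuck
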