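import Pool.Agent.Helper7.Stuck.EquiA

/-!
# The one-sided estimate (for `equi`)
-/

open MeasureTheory ProbabilityTheory Filter Topology
open scoped NNReal ENNReal

namespace Pool.Agent.Helper7.Stuck

universe u

theorem equi_al {Ω : Type*} (B : ℝ) (Z : ℕ → Ω → St) (l : ℕ) :
    {ω | aliveD B (fun k => Z k ω) l} = equiIn {z : St | B ≤ (z.2.1:ℝ)} Z 0 l := rfl

theorem equi_al_split {Ω : Type*} (B : ℝ) (Z : ℕ → Ω → St) (j i : ℕ) (ω : Ω) :
    aliveD B (fun k => Z k ω) (j+i) ↔ aliveD B (fun k => Z k ω) j ∧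
      ω ∈ equiIn {z : St | B ≤ (z.2.1:ℝ)} Z j (j+i) := by
  unfold aliveD equiIn
  constructor
  · intro h
    exact ⟨fun k h1 h2 => h k h1 (by omega), fun k h1 h2 => h k (by omega) h2⟩
  · rintro ⟨h1, h2⟩ k hk1 hk2
    rcases Nat.lt_or_ge j k with h | h
    · exact h2 k h hk2
    · exact h1 k hk1 h

theorem equi_one {Ω : Type*} [mΩ : MeasurableSpace Ω] (P : Measure Ω) [IsProbabilityMeasure P]
    (𝒢 : ℕ → MeasurableSpace Ω) (Z : ℕ → Ω → St) (X : ℕ → Ω → ℤ) (a : St)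
    (hZ : IsChain P 𝒢 Z X a) (V : ℤ → ℕ) (B : ℝ)
    (hV : ∀ z : St, B ≤ (z.2.1:ℝ) → V z.2.1 = z.2.1.natAbs) (ha : B ≤ (a.2.1:ℝ)) (j i : ℕ)
    (Q : Set St) (hQ : ∀ z ∈ Q, B ≤ (z.2.1:ℝ)) (F : (ℕ → St) → ℝ) (hF1 : ∀ y, |F y| ≤ 1)
    (hFj : ∀ y y', (∀ k ≤ j + i, y k = y' k) → F y = F y') (e : ℝ) (he : 0 ≤ e)
    (hFQ : ∀ y : ℕ → St, (∀ k, j ≤ k → k ≤ j + i → y k ∈ Q) →
      |F y - F (fun l => y (min l j))| ≤ e)
    (G : ℝ) (hG : 0 ≤ G)
    (hG1 : ∀ z, P.real {ω | Z j ω = z ∧ aliveD B (fun k => Z k ω) j} ≤ G)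
    (hG2 : ∀ z, P.real {ω | Z (j+i) ω = z ∧ aliveD B (fun k => Z k ω) (j+i)} ≤ G) (z : St) :
    |∫ ω in {ω | Z (j+i) ω = z ∧ aliveD B (fun k => Z k ω) (j+i)}, F (fun k => Z k ω) ∂P
      - (Rv V)^[i] (fun z => ∫ ω in {ω | Z j ω = z ∧ aliveD B (fun k => Z k ω) j},
          F (fun l => Z (min l j) ω) ∂P) z| ≤
      e * G + 3 * G * (1 - (RvOn Q V)^[i] (Q.indicator 1) z) := by
  classical
  set A : Set St := {z | B ≤ (z.2.1:ℝ)} with hA
  have hQA : Q ⊆ A := fun z hz => hQ z hz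
  set al : ℕ → Set Ω := fun l => {ω | aliveD B (fun k => Z k ω) l} with hal
  have halm : ∀ l, MeasurableSet[𝒢 l] (al l) := fun l => equi_meas_in hZ A 0 l
  have halA : ∀ l ω, ω ∈ al l → Z l ω ∈ A := by
    intro l ω h
    rcases Nat.eq_zero_or_pos l with h0 | h0
    · rw [h0, hZ.init]
      exact ha
    · exact h l h0 le_rfl
  have hset : ∀ l z, {ω | Z l ω = z ∧ aliveD B (fun k => Z k ω) l} = Z l ⁻¹' {z} ∩ al l :=
    fun l z => rfl
  have hmZ : ∀ l z, MeasurableSet (Z l ⁻¹' {z}) := fun l z => hZ.le l _ (hZ.meas_Z l z)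
  have halm' : ∀ l, MeasurableSet (al l) := fun l => hZ.le l _ (halm l)
  -- the frozen functional
  set F' : Ω → ℝ := fun ω => F (fun l => Z (min l j) ω) with hF'
  have hF'm : Measurable[𝒢 j] F' := equi_meas_frozen hZ F j
  set FZ : Ω → ℝ := fun ω => F (fun k => Z k ω) with hFZ
  have hFZm : Measurable FZ := by
    have h1 : FZ = fun ω => F (fun l => Z (min l (j+i)) ω) := by
      funext ω
      refine hFj _ _ (fun k hk => ?_)
      simp only [min_eq_left hk]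
    rw [h1]
    exact fun s hs => hZ.le (j+i) _ (equi_meas_frozen hZ F (j+i) hs)
  -- the three weights
  set Y1 : Ω → ℝ := (al j).indicator F' with hY1
  set Y2 : Ω → ℝ := (al j).indicator (fun _ => 1) with hY2
  set Y3 : Ω → ℝ := (al j ∩ Z j ⁻¹' Q).indicator (fun _ => 1) with hY3
  have hmQ : MeasurableSet[𝒢 j] (Z j ⁻¹' Q) :=
    (equi_meas_Z hZ (le_refl j)) (Set.to_countable Q).measurableSet
  have hmI : MeasurableSet[𝒢 j] (al j ∩ Z j ⁻¹' Q) :=
    @MeasurableSet.inter _ (𝒢 j) _ _ (halm j) hmQ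
  have hY1m : Measurable[𝒢 j] Y1 := hF'm.indicator (halm j)
  have hY2m : Measurable[𝒢 j] Y2 := (@measurable_const _ _ _ (𝒢 j) 1).indicator (halm j)
  have hY3m : Measurable[𝒢 j] Y3 := (@measurable_const _ _ _ (𝒢 j) 1).indicator hmI
  have hY1b : ∀ ω, |Y1 ω| ≤ 1 := by
    intro ω
    by_cases h : ω ∈ al j
    · rw [hY1, Set.indicator_of_mem h]
      exact hF1 _
    · rw [hY1, Set.indicator_of_notMem h]
      simp
  have hY2b : ∀ ω, |Y2 ω| ≤ 1 := by
    intro ω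
    by_cases h : ω ∈ al j
    · rw [hY2, Set.indicator_of_mem h]
      simp
    · rw [hY2, Set.indicator_of_notMem h]
      simp
  have hY3b : ∀ ω, |Y3 ω| ≤ 1 := by
    intro ω
    by_cases h : ω ∈ al j ∩ Z j ⁻¹' Q
    · rw [hY3, Set.indicator_of_mem h]
      simp
    · rw [hY3, Set.indicator_of_notMem h]
      simp
  have ev1 := equi_evol P 𝒢 Z X a hZ V A (fun z hz => hV z hz) j Y1 hY1m 1 hY1b
    (fun ω h => Set.indicator_of_notMem (fun h' => h (halA j ω h')) _) i z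
  have ev2 := equi_evol P 𝒢 Z X a hZ V A (fun z hz => hV z hz) j Y2 hY2m 1 hY2b
    (fun ω h => Set.indicator_of_notMem (fun h' => h (halA j ω h')) _) i z
  have ev3 := equi_evol P 𝒢 Z X a hZ V Q (fun z hz => hV z (hQ z hz)) j Y3 hY3m 1 hY3b
    (fun ω h => Set.indicator_of_notMem (fun h' => h h'.2) _) i z
  -- rewriting the initial data
  have hψ' : (fun z => ∫ ω in Z j ⁻¹' {z}, Y1 ω ∂P) =
      fun z => ∫ ω in {ω | Z j ω = z ∧ aliveD B (fun k => Z k ω) j}, F' ω ∂P := by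
    funext z
    rw [hset, hY1, setIntegral_indicator (halm' j)]
  have hg' : (fun z => ∫ ω in Z j ⁻¹' {z}, Y2 ω ∂P) =
      fun z => P.real {ω | Z j ω = z ∧ aliveD B (fun k => Z k ω) j} := by
    funext z
    rw [hset, hY2, setIntegral_indicator (halm' j)]
    simp
  have hχ' : (fun z => ∫ ω in Z j ⁻¹' {z}, Y3 ω ∂P) =
      Q.indicator (fun z => P.real {ω | Z j ω = z ∧ aliveD B (fun k => Z k ω) j}) := by
    funext z
    rw [hY3, setIntegral_indicator (hZ.le j _ hmI)]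
    by_cases hz : z ∈ Q
    · rw [Set.indicator_of_mem hz, hset]
      have : Z j ⁻¹' {z} ∩ (al j ∩ Z j ⁻¹' Q) = Z j ⁻¹' {z} ∩ al j := by
        ext ω
        simp only [Set.mem_inter_iff, Set.mem_preimage, Set.mem_singleton_iff]
        constructor
        · rintro ⟨h1, h2, _⟩
          exact ⟨h1, h2⟩
        · rintro ⟨h1, h2⟩
          exact ⟨h1, h2, by rw [h1]; exact hz⟩
      rw [this]
      simp
    · rw [Set.indicator_of_notMem hz]
      have : Z j ⁻¹' {z} ∩ (al j ∩ Z j ⁻¹' Q) = ∅ := by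
        ext ω
        simp only [Set.mem_inter_iff, Set.mem_preimage, Set.mem_singleton_iff,
          Set.mem_empty_iff_false, iff_false]
        rintro ⟨h1, _, h2⟩
        rw [h1] at h2
        exact hz h2
      rw [this]
      simp
  rw [hψ'] at ev1
  rw [hg'] at ev2
  rw [hχ'] at ev3
  -- comparison with the unkilled chain
  have hψb : ∀ z, |(fun z => ∫ ω in {ω | Z j ω = z ∧ aliveD B (fun k => Z k ω) j},
      F' ω ∂P) z| ≤ G := by
    intro z
    refine le_trans ?_ (hG1 z)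
    have := norm_setIntegral_le_of_norm_le_const (μ := P) (f := F') (C := 1)
      (s := {ω | Z j ω = z ∧ aliveD B (fun k => Z k ω) j}) (measure_lt_top _ _)
      (fun ω _ => hF1 _)
    simpa using this
  have c1 := equi_cmp A Q V hQA G hG _ hψb i z
  have c2 := equi_cmp2 A Q V hQA G hG
    (fun z => P.real {ω | Z j ω = z ∧ aliveD B (fun k => Z k ω) j})
    (fun z => ⟨measureReal_nonneg, hG1 z⟩) i z
  rw [← ev1] at c1
  rw [← ev2, ← ev3] at c2
  -- the law at time `j + i`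
  have hsetS : {ω | Z (j+i) ω = z ∧ aliveD B (fun k => Z k ω) (j+i)} =
      Z (j+i) ⁻¹' {z} ∩ al (j+i) := rfl
  have hmem : ∀ ω, ω ∈ al (j+i) ↔ ω ∈ al j ∧ ω ∈ equiIn A Z j (j+i) :=
    fun ω => equi_al_split B Z j i ω
  have hg2 : ∫ ω in Z (j+i) ⁻¹' {z}, (equiIn A Z j (j+i)).indicator Y2 ω ∂P ≤ G := by
    refine le_trans (le_of_eq ?_) (hG2 z)
    have h1 : (equiIn A Z j (j+i)).indicator Y2 = (al (j+i)).indicator (fun _ => 1) := by
      funext ω
      simp only [hY2, Set.indicator_apply, hmem]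
      by_cases h1 : ω ∈ equiIn A Z j (j+i) <;> by_cases h2 : ω ∈ al j <;> simp [h1, h2]
    rw [h1, setIntegral_indicator (halm' (j+i)), hsetS]
    simp
  have hinA : MeasurableSet (equiIn A Z j (j+i)) := hZ.le (j+i) _ (equi_meas_in hZ A j (j+i))
  have hinQ : MeasurableSet (equiIn Q Z j (j+i)) := hZ.le (j+i) _ (equi_meas_in hZ Q j (j+i))
  have m1 : Measurable ((equiIn A Z j (j+i)).indicator Y1) :=
    (hY1m.mono (hZ.le j) le_rfl).indicator hinA
  have m2 : Measurable ((equiIn A Z j (j+i)).indicator Y2) :=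
    (hY2m.mono (hZ.le j) le_rfl).indicator hinA
  have m3 : Measurable ((equiIn Q Z j (j+i)).indicator Y3) :=
    (hY3m.mono (hZ.le j) le_rfl).indicator hinQ
  have m0 : Measurable ((al (j+i)).indicator FZ) := hFZm.indicator (halm' (j+i))
  have bd : ∀ (S : Set Ω) (Y : Ω → ℝ), (∀ ω, |Y ω| ≤ 1) → ∀ ω, |S.indicator Y ω| ≤ 1 := by
    intro S Y hY ω
    by_cases h : ω ∈ S
    · rw [Set.indicator_of_mem h]
      exact hY ω
    · rw [Set.indicator_of_notMem h]
      simp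
  have int : ∀ (Y : Ω → ℝ), Measurable Y → (∀ ω, |Y ω| ≤ 1) → ∀ S : Set Ω,
      Integrable Y (P.restrict S) := by
    intro Y hY hYb S
    exact Integrable.of_bound (C := 1) hY.aestronglyMeasurable
      (Filter.Eventually.of_forall (fun ω => hYb ω))
  have i0 := int _ m0 (bd _ _ (fun ω => hF1 _)) (Z (j+i) ⁻¹' {z})
  have i1 := int _ m1 (bd _ _ hY1b) (Z (j+i) ⁻¹' {z})
  have i2 := int _ m2 (bd _ _ hY2b) (Z (j+i) ⁻¹' {z})
  have i3 := int _ m3 (bd _ _ hY3b) (Z (j+i) ⁻¹' {z})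
  have hpt : ∀ ω, |(al (j+i)).indicator FZ ω - (equiIn A Z j (j+i)).indicator Y1 ω| ≤
      e * (equiIn A Z j (j+i)).indicator Y2 ω + 2 * ((equiIn A Z j (j+i)).indicator Y2 ω -
        (equiIn Q Z j (j+i)).indicator Y3 ω) := by
    intro ω
    by_cases h1 : ω ∈ al (j+i)
    · have h2 := (hmem ω).1 h1
      rw [Set.indicator_of_mem h1, Set.indicator_of_mem h2.2, Set.indicator_of_mem h2.2, hY1, hY2,
        Set.indicator_of_mem h2.1, Set.indicator_of_mem h2.1]
      by_cases h3 : ω ∈ equiIn Q Z j (j+i) ∧ Z j ω ∈ Q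
      · rw [Set.indicator_of_mem h3.1, hY3, Set.indicator_of_mem
          (show ω ∈ al j ∩ Z j ⁻¹' Q from ⟨h2.1, h3.2⟩)]
        have := hFQ (fun k => Z k ω) (fun k hk1 hk2 => by
          rcases Nat.eq_or_lt_of_le hk1 with h | h
          · rw [← h]
            exact h3.2
          · exact h3.1 k h hk2)
        simp only [hFZ, hF']
        linarith
      · have h4 : (equiIn Q Z j (j+i)).indicator Y3 ω = 0 := by
          by_cases h5 : ω ∈ equiIn Q Z j (j+i)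
          · rw [Set.indicator_of_mem h5, hY3]
            exact Set.indicator_of_notMem (fun h6 => h3 ⟨h5, h6.2⟩) _
          · rw [Set.indicator_of_notMem h5]
        rw [h4]
        have h6 : |FZ ω - F' ω| ≤ 2 := by
          refine (abs_sub _ _).trans ?_
          have := add_le_add (hF1 (fun k => Z k ω)) (hF1 (fun l => Z (min l j) ω))
          simp only [hFZ, hF']
          linarith
        linarith
    · have h2 : (equiIn A Z j (j+i)).indicator Y1 ω = 0 := by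
        by_cases h5 : ω ∈ equiIn A Z j (j+i)
        · rw [Set.indicator_of_mem h5, hY1]
          exact Set.indicator_of_notMem (fun h6 => h1 ((hmem ω).2 ⟨h6, h5⟩)) _
        · rw [Set.indicator_of_notMem h5]
      have h3 : (equiIn A Z j (j+i)).indicator Y2 ω = 0 := by
        by_cases h5 : ω ∈ equiIn A Z j (j+i)
        · rw [Set.indicator_of_mem h5, hY2]
          exact Set.indicator_of_notMem (fun h6 => h1 ((hmem ω).2 ⟨h6, h5⟩)) _
        · rw [Set.indicator_of_notMem h5]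
      have h4 : (equiIn Q Z j (j+i)).indicator Y3 ω = 0 := by
        by_cases h5 : ω ∈ equiIn Q Z j (j+i)
        · rw [Set.indicator_of_mem h5, hY3]
          exact Set.indicator_of_notMem (fun h6 => h1 ((hmem ω).2 ⟨h6.1,
            fun k hk1 hk2 => hQA (h5 k hk1 hk2)⟩)) _
        · rw [Set.indicator_of_notMem h5]
      rw [Set.indicator_of_notMem h1, h2, h3, h4]
      simp
  have hI : ∫ ω in {ω | Z (j+i) ω = z ∧ aliveD B (fun k => Z k ω) (j+i)}, FZ ω ∂P =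
      ∫ ω in Z (j+i) ⁻¹' {z}, (al (j+i)).indicator FZ ω ∂P := by
    rw [hsetS, setIntegral_indicator (halm' (j+i))]
  have c3 : |∫ ω in {ω | Z (j+i) ω = z ∧ aliveD B (fun k => Z k ω) (j+i)}, FZ ω ∂P -
      ∫ ω in Z (j+i) ⁻¹' {z}, (equiIn A Z j (j+i)).indicator Y1 ω ∂P| ≤
      e * (∫ ω in Z (j+i) ⁻¹' {z}, (equiIn A Z j (j+i)).indicator Y2 ω ∂P) +
      2 * (∫ ω in Z (j+i) ⁻¹' {z}, (equiIn A Z j (j+i)).indicator Y2 ω ∂P -
        ∫ ω in Z (j+i) ⁻¹' {z}, (equiIn Q Z j (j+i)).indicator Y3 ω ∂P) := by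
    have i4 : Integrable (fun ω => 2 * ((equiIn A Z j (j+i)).indicator Y2 ω -
        (equiIn Q Z j (j+i)).indicator Y3 ω)) (P.restrict (Z (j+i) ⁻¹' {z})) :=
      (i2.sub i3).const_mul 2
    have i5 : Integrable (fun ω => e * (equiIn A Z j (j+i)).indicator Y2 ω)
        (P.restrict (Z (j+i) ⁻¹' {z})) := i2.const_mul e
    have hR : ∫ ω in Z (j+i) ⁻¹' {z}, (e * (equiIn A Z j (j+i)).indicator Y2 ω +
        2 * ((equiIn A Z j (j+i)).indicator Y2 ω - (equiIn Q Z j (j+i)).indicator Y3 ω)) ∂P =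
        e * (∫ ω in Z (j+i) ⁻¹' {z}, (equiIn A Z j (j+i)).indicator Y2 ω ∂P) +
        2 * (∫ ω in Z (j+i) ⁻¹' {z}, (equiIn A Z j (j+i)).indicator Y2 ω ∂P -
        ∫ ω in Z (j+i) ⁻¹' {z}, (equiIn Q Z j (j+i)).indicator Y3 ω ∂P) := by
      rw [integral_add i5 i4, integral_const_mul, integral_const_mul, integral_sub i2 i3]
    rw [hI, ← hR, ← integral_sub i0 i1]
    refine abs_integral_le_integral_abs.trans ?_
    exact integral_mono (i0.sub i1).abs (i5.add i4) hpt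
  have hg0 : e * (∫ ω in Z (j+i) ⁻¹' {z}, (equiIn A Z j (j+i)).indicator Y2 ω ∂P) ≤ e * G :=
    mul_le_mul_of_nonneg_left hg2 he
  have htri := abs_sub_le (∫ ω in {ω | Z (j+i) ω = z ∧ aliveD B (fun k => Z k ω) (j+i)},
    FZ ω ∂P) (∫ ω in Z (j+i) ⁻¹' {z}, (equiIn A Z j (j+i)).indicator Y1 ω ∂P)
    ((Rv V)^[i] (fun z => ∫ ω in {ω | Z j ω = z ∧ aliveD B (fun k => Z k ω) j},
          F' ω ∂P) z)
  refine htri.trans ?_
  linarith

end Pool.Agent.Helper7.Stuck
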