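import Pool.Agent.Helper7.Stuck.NB1

open MeasureTheory ProbabilityTheory Filter Topology
open scoped NNReal ENNReal

namespace Pool.Agent.Helper7.Stuck

universe u

/-- The integral over one elementary event. -/
theorem ops_one {Ω : Type*} [mΩ : MeasurableSpace Ω] (P : Measure Ω) [IsProbabilityMeasure P]
    (𝒢 : ℕ → MeasurableSpace Ω) (Z : ℕ → Ω → St) (X : ℕ → Ω → ℤ) (a : St)
    (hZ : IsChain P 𝒢 Z X a) (l : ℕ) (Y : Ω → ℝ) (hY : Measurable[𝒢 l] Y) (w : St) (x : ℤ) :
    ∫ ω in Z l ⁻¹' {w} ∩ X l ⁻¹' {x}, Y ω ∂P =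
      (nb w.2.1.natAbs).real {x} * ∫ ω in Z l ⁻¹' {w}, Y ω ∂P := by
  have hle := hZ.le l
  have hmeas : ∀ (E : Set Ω), MeasurableSet[𝒢 l] E → MeasurableSet E := fun E hE => hle _ hE
  have key : (P.restrict (Z l ⁻¹' {w} ∩ X l ⁻¹' {x})).trim hle =
      (nb w.2.1.natAbs {x}) • (P.restrict (Z l ⁻¹' {w})).trim hle := by
    refine @Measure.ext _ (𝒢 l) _ _ fun E hE => ?_
    rw [Measure.smul_apply, trim_measurableSet_eq hle hE, trim_measurableSet_eq hle hE,
      Measure.restrict_apply (hmeas E hE), Measure.restrict_apply (hmeas E hE), smul_eq_mul,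
      ← Set.inter_assoc, hZ.law l E hE w x, mul_comm]
  have hs : StronglyMeasurable[𝒢 l] Y := hY.stronglyMeasurable
  rw [integral_trim hle hs, key, integral_smul_measure, integral_trim hle hs, smul_eq_mul,
    Measure.real]

/-- For a bounded function `Y` of the past up to step `i0`, the weighted law of `Z_l` on the
event of being alive evolves (for `l ≥ i0`) by the reversed operator. -/
theorem ops {Ω : Type*} [mΩ : MeasurableSpace Ω] (P : Measure Ω) [IsProbabilityMeasure P]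
    (𝒢 : ℕ → MeasurableSpace Ω) (Z : ℕ → Ω → St) (X : ℕ → Ω → ℤ) (a : St)
    (hZ : IsChain P 𝒢 Z X a) (l : ℕ) (Y : Ω → ℝ) (hY : Measurable[𝒢 l] Y) (C : ℝ)
    (hYC : ∀ ω, |Y ω| ≤ C) (z : St) :
    ∫ ω in Z (l+1) ⁻¹' {z}, Y ω ∂P =
      ∫ x, (∫ ω in Z l ⁻¹' {(z.1 - x, z.2.1 - z.1, z.2.2 - z.2.1)}, Y ω ∂P)
        ∂(nb (z.2.1 - z.1).natAbs) := by
  have hset : Z (l+1) ⁻¹' {z} =
      ⋃ x : ℤ, (Z l ⁻¹' {(z.1 - x, z.2.1 - z.1, z.2.2 - z.2.1)} ∩ X l ⁻¹' {x}) := by
    ext ω
    simp only [Set.mem_preimage, Set.mem_singleton_iff, Set.mem_iUnion, Set.mem_inter_iff]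
    rw [hZ.next l ω]
    constructor
    · intro h
      refine ⟨X l ω, ?_, rfl⟩
      unfold stp at h
      rw [← h]
      refine Prod.ext ?_ (Prod.ext ?_ ?_)
      · simp
      · simp
      · simp
    · rintro ⟨x, h1, h2⟩
      rw [h1, h2]
      unfold stp
      refine Prod.ext ?_ (Prod.ext ?_ ?_)
      · simp
      · simp
      · simp
  have hm1 : ∀ w : St, MeasurableSet (Z l ⁻¹' {w}) := fun w => hZ.le l _ (hZ.meas_Z l w)
  have hm2 : ∀ x : ℤ, MeasurableSet (X l ⁻¹' {x}) := fun x => hZ.le (l+1) _ (hZ.meas_X l x)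
  have hYm : Measurable Y := hY.mono (hZ.le l) le_rfl
  have hYi : Integrable Y P := Integrable.of_bound hYm.aestronglyMeasurable C
    (Eventually.of_forall fun ω => by simpa using hYC ω)
  rw [hset, integral_iUnion (fun x => (hm1 _).inter (hm2 x)) ?_ hYi.integrableOn]
  · rw [integral_countable' ]
    · refine tsum_congr fun x => ?_
      rw [ops_one P 𝒢 Z X a hZ l Y hY, smul_eq_mul]
    · refine Integrable.of_bound (by
        exact (measurable_of_countable _).aestronglyMeasurable) C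
        (Eventually.of_forall fun x => ?_)
      have h := norm_setIntegral_le_of_norm_le_const (μ := P) (f := Y) (C := C)
        (s := Z l ⁻¹' {(z.1 - x, z.2.1 - z.1, z.2.2 - z.2.1)}) (measure_lt_top _ _)
        (fun ω _ => by simpa using hYC ω)
      refine h.trans ?_
      have hC : 0 ≤ C := by
        have hne : Nonempty Ω := P.nonempty_of_neZero
        obtain ⟨ω⟩ := hne
        exact (abs_nonneg _).trans (hYC ω)
      have h1 : P.real (Z l ⁻¹' {(z.1 - x, z.2.1 - z.1, z.2.2 - z.2.1)}) ≤ 1 :=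
        measureReal_le_one
      nlinarith
  · intro x y hxy
    refine Set.disjoint_left.2 fun ω h1 h2 => hxy ?_
    have e1 : X l ω = x := h1.2
    have e2 : X l ω = y := h2.2
    exact e1.symm.trans e2

end Pool.Agent.Helper7.Stuck
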