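import Pool.Agent.Helper7.Stuck.Tvb
import Pool.Agent.Helper7.Stuck.Sup
import Pool.Agent.Helper7.Stuck.Box
import Pool.Agent.Helper7.Stuck.Ops
import Pool.Agent.Helper7.Stuck.Dens
import Pool.Agent.Helper7.Stuck.EquiB

open MeasureTheory ProbabilityTheory Filter Topology
open scoped NNReal ENNReal

namespace Pool.Agent.Helper7.Stuck

universe u

/-- The variance profile `m ↦ max m K`. -/
def equiV (K : ℕ) (m : ℤ) : ℕ := max m.toNat K

theorem equiV_adm (K : ℕ) (hK : 1 ≤ K) : Adm K (equiV K) where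
  pos := hK
  ge m := le_max_right _ _
  lip m m' := by
    unfold equiV
    rcases le_total m.toNat K with h1 | h1 <;> rcases le_total m'.toNat K with h2 | h2 <;>
      simp only [max_eq_left h1, max_eq_left h2, max_eq_right h1, max_eq_right h2] <;>
      rcases abs_cases (m - m') with h3 | h3 <;> rw [abs_le] <;> omega

theorem equi_tv (κ : ℝ) (K : ℕ) (V : ℤ → ℕ)
    (htv : ∀ j : ℕ, 1 ≤ j →
      ∀ φ : St → ℝ, (∀ z, |φ z| ≤ 1) → ∀ z z',
      |(Rv V)^[j] φ z - (Rv V)^[j] φ z'| ≤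
        κ * rho (z - z') * ((K:ℝ) ^ (-(1/3 : ℝ)) + 1 / j))
    (i : ℕ) (hi : 1 ≤ i) (G : ℝ) (hG : 0 < G) (f : St → ℝ) (hf : ∀ z, |f z| ≤ G) (z z' : St) :
    |(Rv V)^[i] f z - (Rv V)^[i] f z'| ≤
      G * (κ * rho (z - z') * ((K:ℝ) ^ (-(1/3 : ℝ)) + 1 / i)) := by
  have hscale : ∀ (i : ℕ) (φ : St → ℝ) (a : ℝ), (Rv V)^[i] (fun z => a * φ z) =
      fun z => a * (Rv V)^[i] φ z := by
    intro i φ a
    induction i with
    | zero => rfl
    | succ i ih =>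
      rw [Function.iterate_succ_apply', ih, Function.iterate_succ_apply']
      funext z
      unfold Rv
      rw [integral_const_mul]
  have h1 := htv i hi (fun z => G⁻¹ * f z) (fun z => by
    rw [abs_mul, abs_of_pos (inv_pos.2 hG), inv_mul_le_iff₀ hG, mul_one]
    exact hf z) z z'
  rw [hscale] at h1
  simp only at h1
  rw [← mul_sub, abs_mul, abs_of_pos (inv_pos.2 hG), inv_mul_le_iff₀ hG] at h1
  exact h1

theorem equi_rho (lam r : ℝ) (hlam : 0 < lam) (hr : 0 < r) (hr1 : r ≤ 1) (z z' : St)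
    (h : dist (sc lam z) (sc lam z') ≤ r) : rho (z - z') ≤ 514 * r ^ (1/4 : ℝ) * lam := by
  have h' := (box_mem_iff (r := r) hlam (z := z') (z' := z)).1 h
  obtain ⟨h1, h2, h3⟩ := h'
  have e1 : (((z - z').1 : ℤ) : ℝ) = (z.1 : ℝ) - z'.1 := by
    rw [Prod.fst_sub]
    push_cast
    rfl
  have e2 : (((z - z').2.1 : ℤ) : ℝ) = (z.2.1 : ℝ) - z'.2.1 := by
    rw [Prod.snd_sub, Prod.fst_sub]
    push_cast
    rfl
  have e3 : (((z - z').2.2 : ℤ) : ℝ) = (z.2.2 : ℝ) - z'.2.2 := by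
    rw [Prod.snd_sub, Prod.snd_sub]
    push_cast
    rfl
  unfold rho
  rw [e1, e2, e3]
  have hp : ∀ (k : ℕ), 2 ≤ k → k ≤ 4 → ∀ x : ℝ, |x| ≤ r * lam ^ k →
      |x| ^ (1 / (k:ℝ)) ≤ r ^ (1/4 : ℝ) * lam := by
    intro k hk hk4 x hx
    have hk0 : (0:ℝ) < k := by
      have : 0 < k := by omega
      exact_mod_cast this
    calc |x| ^ (1 / (k:ℝ)) ≤ (r * lam ^ k) ^ (1 / (k:ℝ)) :=
          Real.rpow_le_rpow (abs_nonneg _) hx (by positivity)
      _ = r ^ (1 / (k:ℝ)) * lam := by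
        rw [Real.mul_rpow hr.le (by positivity), ← Real.rpow_natCast, ← Real.rpow_mul hlam.le,
          mul_one_div_cancel hk0.ne', Real.rpow_one]
      _ ≤ r ^ (1/4 : ℝ) * lam := by
        refine mul_le_mul_of_nonneg_right ?_ hlam.le
        refine Real.rpow_le_rpow_of_exponent_ge hr hr1 ?_
        rw [div_le_div_iff₀ (by norm_num) hk0]
        have : (k:ℝ) ≤ 4 := by exact_mod_cast hk4
        linarith
  have g1 := hp 2 le_rfl (by norm_num) _ h1
  have g2 := hp 3 (by norm_num) (by norm_num) _ h2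
  have g3 := hp 4 (by norm_num) le_rfl _ h3
  norm_num at g1 g2 g3
  norm_num
  linarith

theorem equi (t1 ε θ D η : ℝ) (ht1 : 0 < t1) (hε : 0 < ε) (hθ : 0 < θ) (hD : 1 ≤ D)
    (hη : 0 < η) : ∃ η' : ℝ, 0 < η' ∧ ∀ w : ℝ, 0 < w → ∃ r Λ : ℝ, 0 < r ∧ 1 ≤ Λ ∧
    ∀ lam : ℝ, Λ ≤ lam → ∀ (Ω : Type u) (mΩ : MeasurableSpace Ω)
    (P : Measure Ω) (_ : IsProbabilityMeasure P) (𝒢 : ℕ → MeasurableSpace Ω) (Z : ℕ → Ω → St)
    (X : ℕ → Ω → ℤ) (a : St), IsChain P 𝒢 Z X a → ε * lam ^ 3 ≤ (a.2.1 : ℝ) →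
    ∀ F : (ℕ → St) → ℝ, (∀ y, |F y| ≤ 1) →
    (∀ y y', (∀ i ≤ ⌊t1 * lam⌋₊, y i = y' i) → F y = F y') →
    (∀ y y', (∀ i ≤ ⌊t1 * lam⌋₊, dist (sc lam (y i)) (sc lam (y' i)) ≤ w) →
      |F y - F y'| ≤ η') →
    ∀ z z' : St, |(z.1:ℝ)| ≤ D * lam ^ 2 → |(z'.1:ℝ)| ≤ D * lam ^ 2 →
    (ε + θ) * lam ^ 3 ≤ z.2.1 → (ε + θ) * lam ^ 3 ≤ z'.2.1 →
    (z.2.1:ℝ) ≤ D * lam ^ 3 → (z'.2.1:ℝ) ≤ D * lam ^ 3 → dist (sc lam z) (sc lam z') ≤ r →
    |(∫ ω in {ω | Z ⌊t1 * lam⌋₊ ω = z ∧ aliveD (ε * lam ^ 3) (fun i => Z i ω) ⌊t1 * lam⌋₊},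
        F (fun i => Z i ω) ∂P) -
      ∫ ω in {ω | Z ⌊t1 * lam⌋₊ ω = z' ∧ aliveD (ε * lam ^ 3) (fun i => Z i ω) ⌊t1 * lam⌋₊},
        F (fun i => Z i ω) ∂P| ≤ η / lam ^ 9 := by
  obtain ⟨C, Λ1, hC, hΛ1, hdens⟩ := dens.{u} (t1/4) t1 ε (by positivity) ht1 hε
  obtain ⟨κ, hκ, htv⟩ := tv_bound_Rv
  refine ⟨η / (8 * C), by positivity, ?_⟩
  intro w hw
  -- the radius of the box
  obtain ⟨ρ, hρ0, hρw, hρθ, hρ1⟩ : ∃ ρ : ℝ, 0 < ρ ∧ ρ ≤ w / 2 ∧ ρ ≤ θ ∧ ρ ≤ 1 :=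
    ⟨min (min (w/2) θ) 1, by positivity, (min_le_left _ _).trans (min_le_left _ _),
      (min_le_left _ _).trans (min_le_right _ _), min_le_right _ _⟩
  obtain ⟨Cb, τ0, hCb, hτ0, hbox⟩ := box_exit D ρ hD hρ0 hρ1
  obtain ⟨τ, hτ, hττ0, hτt, hτη⟩ : ∃ τ : ℝ, 0 < τ ∧ τ ≤ τ0 ∧ τ ≤ t1 / 2 ∧
      τ ≤ η / (24 * C * Cb) :=
    ⟨min (min τ0 (t1/2)) (η / (24 * C * Cb)), by positivity,
      (min_le_left _ _).trans (min_le_left _ _), (min_le_left _ _).trans (min_le_right _ _),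
      min_le_right _ _⟩
  set κ3 : ℝ := (ε/2) ^ (-(1/3 : ℝ)) with hκ3
  have hκ30 : 0 < κ3 := by positivity
  set M : ℝ := C * κ * 514 * (κ3 + 2 / τ) with hM
  have hM0 : 0 < M := by positivity
  obtain ⟨r, hr0, hr1, hrM⟩ : ∃ r : ℝ, 0 < r ∧ r ≤ 1 ∧ r ^ (1/4 : ℝ) ≤ η / (4 * M) := by
    refine ⟨min 1 ((η / (4 * M)) ^ 4), by positivity, min_le_left _ _, ?_⟩
    calc (min 1 ((η / (4 * M)) ^ 4)) ^ (1/4 : ℝ) ≤ ((η / (4 * M)) ^ 4) ^ (1/4 : ℝ) :=
          Real.rpow_le_rpow (by positivity) (min_le_right _ _) (by norm_num)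
      _ = η / (4 * M) := by
        rw [← Real.rpow_natCast, ← Real.rpow_mul (by positivity)]
        norm_num
  refine ⟨r, max Λ1 (1 / ε + 1 / τ + 4 / t1), hr0, hΛ1.trans (le_max_left _ _), ?_⟩
  intro lam hlam Ω mΩ P hP 𝒢 Z X a hZ ha F hF1 hFj hFw z z' hz1 hz'1 hz2 hz'2 hz3 hz'3 hzz'
  have hlamΛ : Λ1 ≤ lam := (le_max_left _ _).trans hlam
  have hlam2 : 1 / ε + 1 / τ + 4 / t1 ≤ lam := (le_max_right _ _).trans hlam
  have hlam1 : 1 ≤ lam := hΛ1.trans hlamΛ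
  have hlam0 : 0 < lam := by linarith
  have p1 : 0 < 1 / ε := by positivity
  have p2 : 0 < 1 / τ := by positivity
  have p3 : 0 < 4 / t1 := by positivity
  have hεlam : 1 ≤ ε * lam := by
    have : 1 / ε ≤ lam := by linarith
    rw [div_le_iff₀ hε] at this
    linarith
  have hτlam : 1 ≤ τ * lam := by
    have : 1 / τ ≤ lam := by linarith
    rw [div_le_iff₀ hτ] at this
    linarith
  have htlam : 4 ≤ t1 * lam := by
    have : 4 / t1 ≤ lam := by linarith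
    rw [div_le_iff₀ ht1] at this
    linarith
  have hlam3 : lam ≤ lam ^ 3 := by
    have : 1 ≤ lam ^ 2 := one_le_pow₀ hlam1
    nlinarith
  have hεlam3 : 1 ≤ ε * lam ^ 3 := hεlam.trans (mul_le_mul_of_nonneg_left hlam3 hε.le)
  -- `K` and `V`
  set K : ℕ := ⌊ε * lam ^ 3⌋₊ with hK
  have hK1 : 1 ≤ K := Nat.le_floor (by exact_mod_cast hεlam3)
  have hKle : (K:ℝ) ≤ ε * lam ^ 3 := Nat.floor_le (by positivity)
  have hKge : ε / 2 * lam ^ 3 ≤ K := by
    have h1 := Nat.lt_floor_add_one (ε * lam ^ 3)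
    rw [← hK] at h1
    have h2 : (1:ℝ) ≤ K := by exact_mod_cast hK1
    linarith
  have hadm := equiV_adm K hK1
  -- the number of steps
  set J : ℕ := ⌊t1 * lam⌋₊ with hJ
  set i : ℕ := ⌊τ * lam⌋₊ with hi
  have hi1 : 1 ≤ i := Nat.le_floor (by exact_mod_cast hτlam)
  have hi1' : (1:ℝ) ≤ i := by exact_mod_cast hi1
  have hile : (i:ℝ) ≤ τ * lam := Nat.floor_le (by positivity)
  have hige : τ * lam / 2 ≤ i := by
    have h1 := Nat.lt_floor_add_one (τ * lam)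
    rw [← hi] at h1
    linarith
  have hJle : (J:ℝ) ≤ t1 * lam := Nat.floor_le (by positivity)
  have hJge : t1 * lam - 1 ≤ J := by
    have h1 := Nat.lt_floor_add_one (t1 * lam)
    rw [← hJ] at h1
    linarith
  have hτt' : τ * lam ≤ t1 * lam / 2 := by nlinarith
  have hiJ : i ≤ J := by
    have : (i:ℝ) ≤ J := by linarith
    exact_mod_cast this
  obtain ⟨j, hj⟩ : ∃ j, J = j + i := ⟨J - i, by omega⟩
  have hjJ : (J:ℝ) = j + i := by
    rw [hj]
    push_cast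
    rfl
  have hjle : (j:ℝ) ≤ t1 * lam := by linarith
  have hjge : t1 / 4 * lam ≤ j := by linarith
  have hJge' : t1 / 4 * lam ≤ (j + i : ℕ) := by
    push_cast
    linarith
  have hJle' : ((j + i : ℕ) : ℝ) ≤ t1 * lam := by
    push_cast
    linarith
  rw [hj] at hFj hFw ⊢
  set G : ℝ := C / lam ^ 9 with hG
  have hG0 : 0 < G := by positivity
  have hG1 : ∀ z, P.real {ω | Z j ω = z ∧ aliveD (ε * lam ^ 3) (fun k => Z k ω) j} ≤ G :=
    fun z => hdens lam hlamΛ Ω mΩ P hP 𝒢 Z X a hZ ha j hjge hjle z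
  have hG2 : ∀ z, P.real {ω | Z (j+i) ω = z ∧ aliveD (ε * lam ^ 3) (fun k => Z k ω) (j+i)} ≤ G :=
    fun z => hdens lam hlamΛ Ω mΩ P hP 𝒢 Z X a hZ ha (j+i) hJge' hJle' z
  have hV : ∀ z : St, ε * lam ^ 3 ≤ (z.2.1:ℝ) → equiV K z.2.1 = z.2.1.natAbs := by
    intro z hz
    have h1 : (K:ℝ) ≤ (z.2.1:ℝ) := hKle.trans hz
    have h2 : (K:ℤ) ≤ z.2.1 := by exact_mod_cast h1
    unfold equiV
    rw [max_eq_left (by omega)]
    omega
  -- the one-sided estimate at a good point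
  have hone : ∀ z : St, |(z.1:ℝ)| ≤ D * lam ^ 2 → (ε + θ) * lam ^ 3 ≤ z.2.1 →
      (z.2.1:ℝ) ≤ D * lam ^ 3 →
      |∫ ω in {ω | Z (j+i) ω = z ∧ aliveD (ε * lam ^ 3) (fun k => Z k ω) (j+i)},
          F (fun k => Z k ω) ∂P
        - (Rv (equiV K))^[i] (fun z => ∫ ω in {ω | Z j ω = z ∧
            aliveD (ε * lam ^ 3) (fun k => Z k ω) j}, F (fun l => Z (min l j) ω) ∂P) z| ≤
      η / (8 * C) * G + 3 * G * (Cb * τ) := by
    intro z hz1 hz2 hz3
    have hθlam : 0 < θ * lam ^ 3 := by positivity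
    have hB : ∀ z' ∈ bx lam ρ z, ε * lam ^ 3 ≤ (z'.2.1:ℝ) := by
      intro z' hz'
      have h1 := ((box_mem_iff hlam0).1 hz').2.1
      have h2 := (abs_le.1 h1).1
      have h3 : ρ * lam ^ 3 ≤ θ * lam ^ 3 := mul_le_mul_of_nonneg_right hρθ (by positivity)
      linarith
    have h1 := equi_one P 𝒢 Z X a hZ (equiV K) (ε * lam ^ 3) hV ha j i (bx lam ρ z) hB F hF1 hFj
      (η / (8 * C)) (by positivity) (fun y hy => by
        refine hFw _ _ (fun k hk => ?_)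
        rcases Nat.lt_or_ge j k with h | h
        · have h2 : sc lam (y (min k j)) = sc lam (y j) := by rw [min_eq_right h.le]
          rw [h2]
          have h3 : dist (sc lam (y k)) (sc lam z) ≤ ρ := hy k h.le hk
          have h4 : dist (sc lam (y j)) (sc lam z) ≤ ρ := hy j le_rfl (by omega)
          have h5 := dist_triangle_right (sc lam (y k)) (sc lam (y j)) (sc lam z)
          linarith
        · rw [min_eq_left h, dist_self]
          exact hw.le) G hG0.le hG1 hG2 z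
    have h2 := hbox lam hlam1 (equiV K) (fun m hm => by
      unfold equiV
      rw [Nat.cast_max]
      refine max_le ?_ ?_
      · refine le_trans ?_ hm
        have : ((m.toNat : ℤ) : ℝ) ≤ |(m:ℝ)| := by
          have h3 : (m.toNat : ℤ) ≤ |m| := by
            rcases abs_cases m with h | h <;> omega
          exact_mod_cast h3
        have h5 : ((m.toNat : ℕ) : ℝ) = ((m.toNat : ℤ) : ℝ) := (Int.cast_natCast m.toNat).symm
        rw [h5]
        exact this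
      · have : ε * lam ^ 3 ≤ (ε + θ) * lam ^ 3 := by nlinarith
        have h4 : 0 < lam ^ 3 := by positivity
        nlinarith) z hz1 (by
          rw [abs_of_nonneg (le_trans (by positivity) hz2)]
          exact hz3) i τ hττ0 hile
    refine h1.trans ?_
    have h3 : 3 * G * (1 - (RvOn (bx lam ρ z) (equiV K))^[i] ((bx lam ρ z).indicator 1) z) ≤
        3 * G * (Cb * τ) := mul_le_mul_of_nonneg_left (by linarith) (by positivity)
    linarith
  have e1 := hone z hz1 hz2 hz3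
  have e2 := hone z' hz'1 hz'2 hz'3
  have e3 := equi_tv κ K (equiV K) (htv K (equiV K) hadm) i hi1 G hG0
    (fun z => ∫ ω in {ω | Z j ω = z ∧
            aliveD (ε * lam ^ 3) (fun k => Z k ω) j}, F (fun l => Z (min l j) ω) ∂P) (fun z => by
      refine le_trans ?_ (hG1 z)
      have := norm_setIntegral_le_of_norm_le_const (μ := P)
        (f := fun ω => F (fun l => Z (min l j) ω)) (C := 1)
        (s := {ω | Z j ω = z ∧ aliveD (ε * lam ^ 3) (fun k => Z k ω) j}) (measure_lt_top _ _)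
        (fun ω _ => hF1 _)
      simpa using this) z z'
  have hrho := equi_rho lam r hlam0 hr0 hr1 z z' hzz'
  have hrate : (K:ℝ) ^ (-(1/3 : ℝ)) + 1 / i ≤ (κ3 + 2 / τ) / lam := by
    have h1 : (K:ℝ) ^ (-(1/3 : ℝ)) ≤ (ε / 2 * lam ^ 3) ^ (-(1/3 : ℝ)) :=
      Real.rpow_le_rpow_of_nonpos (by positivity) hKge (by norm_num)
    have h2 : (ε / 2 * lam ^ 3) ^ (-(1/3 : ℝ)) = κ3 / lam := by
      rw [Real.mul_rpow (by positivity) (by positivity), ← Real.rpow_natCast,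
        ← Real.rpow_mul hlam0.le]
      norm_num
      rw [Real.rpow_neg_one, hκ3]
      ring_nf
    have h3 : 1 / (i:ℝ) ≤ 2 / τ / lam := by
      rw [div_div, div_le_div_iff₀ (by linarith) (by positivity)]
      linarith
    have h4 : (κ3 + 2 / τ) / lam = κ3 / lam + 2 / τ / lam := by ring
    rw [h4]
    linarith
  have hrho0 : 0 ≤ rho (z - z') := by
    unfold rho
    positivity
  have e4 : G * (κ * rho (z - z') * ((K:ℝ) ^ (-(1/3 : ℝ)) + 1 / i)) ≤ η / 4 / lam ^ 9 := by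
    calc G * (κ * rho (z - z') * ((K:ℝ) ^ (-(1/3 : ℝ)) + 1 / i))
        ≤ G * (κ * (514 * (η / (4 * M)) * lam) * ((κ3 + 2 / τ) / lam)) := by
          refine mul_le_mul_of_nonneg_left ?_ hG0.le
          refine mul_le_mul ?_ hrate (by positivity) (by positivity)
          refine mul_le_mul_of_nonneg_left (hrho.trans ?_) hκ.le
          refine mul_le_mul_of_nonneg_right ?_ hlam0.le
          exact mul_le_mul_of_nonneg_left hrM (by norm_num)
      _ = η / 4 / lam ^ 9 := by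
        rw [hG, hM]
        field_simp
  have e5 : η / (8 * C) * G = η / 8 / lam ^ 9 := by
    rw [hG]
    field_simp
  have e6 : 3 * G * (Cb * τ) ≤ η / 8 / lam ^ 9 := by
    have h1 : Cb * τ ≤ η / (24 * C) := by
      calc Cb * τ ≤ Cb * (η / (24 * C * Cb)) := mul_le_mul_of_nonneg_left hτη hCb.le
        _ = η / (24 * C) := by field_simp
    calc 3 * G * (Cb * τ) ≤ 3 * G * (η / (24 * C)) :=
          mul_le_mul_of_nonneg_left h1 (by positivity)
      _ = η / 8 / lam ^ 9 := by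
        rw [hG]
        field_simp
        ring
  have htri : ∀ x y x' y' : ℝ, |x - x'| ≤ |x - y| + |y - y'| + |x' - y'| := by
    intro x y x' y'
    have h1 := abs_sub_le x y x'
    have h2 := abs_sub_le y y' x'
    have h3 := abs_sub_comm y' x'
    linarith
  refine (htri _ ((Rv (equiV K))^[i] (fun z => ∫ ω in {ω | Z j ω = z ∧
            aliveD (ε * lam ^ 3) (fun k => Z k ω) j}, F (fun l => Z (min l j) ω) ∂P) z) _
            ((Rv (equiV K))^[i] (fun z => ∫ ω in {ω | Z j ω = z ∧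
            aliveD (ε * lam ^ 3) (fun k => Z k ω) j}, F (fun l => Z (min l j) ω) ∂P) z')).trans ?_
  have e7 : η / lam ^ 9 = 8 * (η / 8 / lam ^ 9) := by ring
  have e8 : η / 4 / lam ^ 9 = 2 * (η / 8 / lam ^ 9) := by ring
  have e9 : 0 < η / 8 / lam ^ 9 := by positivity
  linarith

end Pool.Agent.Helper7.Stuck
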