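import Pool.Agent.Helper7.Stuck.Diff1
import Pool.Agent.Helper7.Stuck.Equi
import Pool.Agent.Helper7.Stuck.Law
import Pool.Agent.Helper7.Stuck.Count

open MeasureTheory ProbabilityTheory Filter Topology
open scoped NNReal ENNReal

namespace Pool.Agent.Helper7.Stuck

universe u

/-! ## auxiliary lemmas -/

lemma d2_measurable_Z {Ω : Type*} [mΩ : MeasurableSpace Ω] {P : Measure Ω}
    {𝒢 : ℕ → MeasurableSpace Ω} {Z : ℕ → Ω → St} {X : ℕ → Ω → ℤ} {a : St}
    (hZ : IsChain P 𝒢 Z X a) (i : ℕ) : Measurable (Z i) :=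
  measurable_to_countable' fun z => hZ.le i _ (hZ.meas_Z i z)

lemma d2_meas_alive {Ω : Type*} [mΩ : MeasurableSpace Ω] {P : Measure Ω}
    {𝒢 : ℕ → MeasurableSpace Ω} {Z : ℕ → Ω → St} {X : ℕ → Ω → ℤ} {a : St}
    (hZ : IsChain P 𝒢 Z X a) (A : ℝ) (j : ℕ) :
    MeasurableSet {ω | aliveD A (fun i => Z i ω) j} := by
  have e : {ω | aliveD A (fun i => Z i ω) j} =
      ⋂ i : ℕ, ⋂ _ : 0 < i, ⋂ _ : i ≤ j, (Z i) ⁻¹' {z | A ≤ (z.2.1 : ℝ)} := by
    ext ω
    simp [aliveD]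
  rw [e]
  refine MeasurableSet.iInter fun i => MeasurableSet.iInter fun _ => MeasurableSet.iInter fun _ => ?_
  exact d2_measurable_Z hZ i (MeasurableSet.of_discrete)

lemma d2_meas_F {Ω : Type*} [mΩ : MeasurableSpace Ω] {P : Measure Ω}
    {𝒢 : ℕ → MeasurableSpace Ω} {Z : ℕ → Ω → St} {X : ℕ → Ω → ℤ} {a : St}
    (hZ : IsChain P 𝒢 Z X a) (t1 lam : ℝ) (hlam : 0 ≤ lam)
    (F : (Set.Icc (0:ℝ) t1 → E3) → ℝ) :
    Measurable (fun ω => F (stepPath t1 lam (fun i => Z i ω))) := by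
  set j := ⌊t1 * lam⌋₊ with hj
  have h1 : Measurable (fun ω (i : Fin (j+1)) => Z i ω) :=
    measurable_pi_lambda _ fun i => d2_measurable_Z hZ i
  have h2 : (fun ω => F (stepPath t1 lam (fun i => Z i ω))) =
      (fun y : Fin (j+1) → St => F (stepPath t1 lam
        (fun i => if h : i < j + 1 then y ⟨i, h⟩ else 0))) ∘
      (fun ω (i : Fin (j+1)) => Z i ω) := by
    ext ω
    simp only [Function.comp_apply]
    congr 1
    ext t
    all_goals
      unfold stepPath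
      have ht : ⌊(t:ℝ) * lam⌋₊ < j + 1 := by
        have : ⌊(t:ℝ) * lam⌋₊ ≤ j :=
          Nat.floor_le_floor (mul_le_mul_of_nonneg_right t.2.2 hlam)
        omega
      simp [ht]
  rw [h2]
  exact (Measurable.of_discrete).comp h1

lemma d2_box_sum {Ω : Type*} [mΩ : MeasurableSpace Ω] {P : Measure Ω} [IsProbabilityMeasure P]
    {𝒢 : ℕ → MeasurableSpace Ω} {Z : ℕ → Ω → St} {X : ℕ → Ω → ℤ} {a : St}
    (hZ : IsChain P 𝒢 Z X a) (t1 lam A : ℝ) (hlam : 0 < lam)
    (H : (Set.Icc (0:ℝ) t1 → E3) → ℝ) (hH : ∀ x, |H x| ≤ 1) (z1 : E3) (s φ q : ℝ)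
    (hq : ∀ z, dist (sc lam z) z1 ≤ s →
      |(∫ ω in {ω | Z ⌊t1 * lam⌋₊ ω = z ∧ aliveD A (fun i => Z i ω) ⌊t1 * lam⌋₊},
        H (stepPath t1 lam (fun i => Z i ω)) ∂P) - φ| ≤ q) :
    |(∫ ω in {ω | sc lam (Z ⌊t1 * lam⌋₊ ω) ∈ Metric.closedBall z1 s ∧
        aliveD A (fun i => Z i ω) ⌊t1 * lam⌋₊}, H (stepPath t1 lam (fun i => Z i ω)) ∂P) -
      ({z : St | dist (sc lam z) z1 ≤ s}.ncard : ℝ) * φ| ≤
      ({z : St | dist (sc lam z) z1 ≤ s}.ncard : ℝ) * q := by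
  classical
  have hfin := count_box_finite lam s hlam z1
  set S := hfin.toFinset with hS
  have hcard : ({z : St | dist (sc lam z) z1 ≤ s}.ncard : ℝ) = (S.card : ℝ) := by
    rw [Set.ncard_eq_toFinset_card _ hfin]
  have hset : {ω | sc lam (Z ⌊t1 * lam⌋₊ ω) ∈ Metric.closedBall z1 s ∧
        aliveD A (fun i => Z i ω) ⌊t1 * lam⌋₊} =
      ⋃ z ∈ S, {ω | Z ⌊t1 * lam⌋₊ ω = z ∧ aliveD A (fun i => Z i ω) ⌊t1 * lam⌋₊} := by
    ext ω
    simp [hS, Metric.mem_closedBall]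
  have hint : Integrable (fun ω => H (stepPath t1 lam (fun i => Z i ω))) P := by
    refine Integrable.of_bound (d2_meas_F hZ t1 lam hlam.le H).aestronglyMeasurable 1 ?_
    exact Eventually.of_forall fun ω => by rw [Real.norm_eq_abs]; exact hH _
  rw [hset, hcard, integral_biUnion_finset]
  · rw [← nsmul_eq_mul, ← Finset.sum_const, ← Finset.sum_sub_distrib]
    refine (Finset.abs_sum_le_sum_abs _ _).trans ?_
    rw [← nsmul_eq_mul]
    refine Finset.sum_le_card_nsmul _ _ _ fun z hz => hq z ?_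
    simpa [hS] using hz
  · intro z _
    exact (d2_measurable_Z hZ _ (measurableSet_singleton z)).inter (d2_meas_alive hZ A _)
  · intro x _ y _ hxy
    rw [Function.onFun, Set.disjoint_left]
    rintro ω ⟨h1, _⟩ ⟨h2, _⟩
    exact hxy (h1.symm.trans h2)
  · intro z _
    exact hint.integrableOn

lemma d2_diff (ν : Measure E3) [IsFiniteMeasure ν] (J : E3 → ℝ) (hJ : Integrable J ν) :
    ∀ᵐ z ∂ν, ∃ c : ℝ, 0 < c ∧
      (∀ᶠ s in 𝓝[>] (0:ℝ), c * (8 * s ^ 3) ≤ ν.real (Metric.closedBall z s)) ∧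
      Tendsto (fun s => (∫ x in Metric.closedBall z s, J x ∂ν) /
        ν.real (Metric.closedBall z s)) (𝓝[>] 0) (𝓝 (J z)) := by
  have h1 := Besicovitch.ae_tendsto_rnDeriv (volume : Measure E3) ν
  have h2 := (Besicovitch.vitaliFamily ν).ae_tendsto_average hJ.locallyIntegrable
  have h3 := Measure.rnDeriv_lt_top (volume : Measure E3) ν
  filter_upwards [h1, h2, h3] with z g1 g2 g3
  obtain ⟨M, hM1, hM2⟩ := ENNReal.lt_iff_exists_nnreal_btwn.mp g3
  have hM0 : 0 < M := by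
    have : (0:ℝ≥0∞) < M := lt_of_le_of_lt (zero_le) hM1
    exact_mod_cast this
  refine ⟨(M:ℝ)⁻¹, by positivity, ?_, ?_⟩
  · have g4 := g1.eventually_lt_const hM1
    filter_upwards [g4, self_mem_nhdsWithin] with s hs hs0
    have hs0' : 0 < s := hs0
    have hv := volume_closedBall_E3 z s hs0'
    rw [← hv]
    by_cases hz : ν (Metric.closedBall z s) = 0
    · exfalso
      rw [hz, ENNReal.div_zero] at hs
      · exact absurd hs (by simp)
      · intro h0
        rw [measureReal_def, h0] at hv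
        simp at hv
        exact hs0'.ne' hv
    · have hlt : volume (Metric.closedBall z s) ≤ M * ν (Metric.closedBall z s) := by
        rw [ENNReal.div_lt_iff (Or.inl hz) (Or.inl (measure_ne_top _ _))] at hs
        exact hs.le
      have h5 : volume.real (Metric.closedBall z s) ≤ M * ν.real (Metric.closedBall z s) := by
        have := ENNReal.toReal_mono (ENNReal.mul_ne_top ENNReal.coe_ne_top (measure_ne_top _ _)) hlt
        rw [ENNReal.toReal_mul] at this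
        simpa [measureReal_def] using this
      rw [inv_mul_le_iff₀ (by exact_mod_cast hM0)]
      exact h5
  · have g5 := g2.comp (Besicovitch.tendsto_filterAt ν z)
    refine g5.congr fun s => ?_
    simp only [Function.comp_apply]
    rw [setAverage_eq, smul_eq_mul]
    ring

lemma d2_disint {t1 : ℝ} {Ω' : Type*} [mΩ' : MeasurableSpace Ω'] (P' : Measure Ω')
    [IsProbabilityMeasure P'] (u : Ω' → E3) (p : Ω' → C(Set.Icc (0:ℝ) t1, E3))
    (hu : Measurable u) (hp : Measurable p)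
    (κ : Kernel E3 C(Set.Icc (0:ℝ) t1, E3)) [IsMarkovKernel κ]
    (hκ : (P'.map u) ⊗ₘ κ = P'.map (fun ω => (u ω, p ω)))
    (F : C(Set.Icc (0:ℝ) t1, E3) → ℝ) (hF : Measurable F) (hF1 : ∀ x, |F x| ≤ 1)
    (B : Set E3) (hB : MeasurableSet B) :
    ∫ ω in {ω | u ω ∈ B}, F (p ω) ∂P' = ∫ z in B, (∫ x, F x ∂(κ z)) ∂(P'.map u) := by
  have : IsProbabilityMeasure (P'.map u) := Measure.isProbabilityMeasure_map hu.aemeasurable
  have hm : Measurable (fun q : E3 × C(Set.Icc (0:ℝ) t1, E3) => F q.2) := hF.comp measurable_snd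
  have h1 := Measure.setIntegral_compProd (μ := P'.map u) (κ := κ) (s := B) (t := Set.univ)
    (f := fun q : E3 × C(Set.Icc (0:ℝ) t1, E3) => F q.2) hB MeasurableSet.univ
    (by
      refine (Integrable.of_bound hm.aestronglyMeasurable 1 ?_).integrableOn
      exact Eventually.of_forall fun q => by rw [Real.norm_eq_abs]; exact hF1 _)
  simp only [Measure.restrict_univ] at h1
  rw [← h1, hκ]
  rw [setIntegral_map (hB.prod MeasurableSet.univ) hm.aestronglyMeasurable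
    (hu.prodMk hp).aemeasurable]
  congr 2
  ext ω
  simp

lemma d2_ratio (lam φF φ1 : ℕ → ℝ) (hlam : Tendsto lam atTop atTop) (c L : ℝ) (hc : 0 < c)
    (h : ∀ η : ℝ, 0 < η → ∃ (Q V ν0 : ℝ) (AF A1 p : ℕ → ℝ), 0 < V ∧ |Q - L| ≤ η ∧
      c * V ≤ ν0 ∧ Tendsto AF atTop (𝓝 (Q * ν0)) ∧ Tendsto A1 atTop (𝓝 ν0) ∧
      Tendsto p atTop (𝓝 V) ∧
      ∀ᶠ n in atTop, |AF n - p n * (lam n ^ 9 * φF n)| ≤ p n * η ∧
        |A1 n - p n * (lam n ^ 9 * φ1 n)| ≤ p n * η) :
    (∀ᶠ n in atTop, 0 < φ1 n) ∧ Tendsto (fun n => φF n / φ1 n) atTop (𝓝 L) := by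
  have key : ∀ η : ℝ, 0 < η → η ≤ c / 4 → ∀ᶠ n in atTop, 0 < φ1 n ∧
      |φF n / φ1 n - L| ≤ (2 * (3 + |L| + c) / c + 1) * η := by
    intro η hη hηc
    obtain ⟨Q, V, ν0, AF, A1, p, hV, hQ, hcV, hAF, hA1, hp, hev⟩ := h η hη
    have l1 : Tendsto (fun n => A1 n / p n) atTop (𝓝 (ν0 / V)) := hA1.div hp hV.ne'
    have l2 : Tendsto (fun n => AF n / p n - Q * (A1 n / p n)) atTop (𝓝 0) := by
      have h2 : Tendsto (fun n => AF n / p n) atTop (𝓝 (Q * ν0 / V)) := hAF.div hp hV.ne'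
      have h3 := h2.sub (l1.const_mul Q)
      have h4 : Q * ν0 / V - Q * (ν0 / V) = 0 := by ring
      rwa [h4] at h3
    have hcν : c ≤ ν0 / V := by rw [le_div_iff₀ hV]; exact hcV
    have e1 : ∀ᶠ n in atTop, c - η < A1 n / p n := l1.eventually_const_lt (by linarith)
    have e2 : ∀ᶠ n in atTop, |AF n / p n - Q * (A1 n / p n)| < η := by
      have := (tendsto_order.1 l2.abs).2 η (by simpa using hη)
      exact this
    have e3 : ∀ᶠ n in atTop, 0 < p n := hp.eventually_const_lt hV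
    filter_upwards [hev, e1, e2, e3, hlam.eventually_gt_atTop 0] with n ⟨a1, a2⟩ a3 a4 a5 a6
    set x := lam n ^ 9 * φF n with hx
    set y := lam n ^ 9 * φ1 n with hy
    have b1 : |AF n / p n - x| ≤ η := by
      have : AF n / p n - x = (AF n - p n * x) / p n := by field_simp
      rw [this, abs_div, abs_of_pos a5, div_le_iff₀ a5]
      linarith
    have b2 : |A1 n / p n - y| ≤ η := by
      have : A1 n / p n - y = (A1 n - p n * y) / p n := by field_simp
      rw [this, abs_div, abs_of_pos a5, div_le_iff₀ a5]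
      linarith
    have hL9 : 0 < lam n ^ 9 := by positivity
    have b3 : c / 2 ≤ y := by
      have := (abs_le.1 b2).2
      linarith
    have hy0 : 0 < y := by linarith
    have hφ : 0 < φ1 n := by
      rw [hy] at hy0
      exact (mul_pos_iff_of_pos_left hL9).1 hy0
    refine ⟨hφ, ?_⟩
    have hr : φF n / φ1 n = x / y := by
      rw [hx, hy]
      field_simp
    rw [hr]
    have hQ' : |Q| ≤ |L| + c := by
      have : |Q| ≤ |Q - L| + |L| := by
        have := abs_add_le (Q - L) L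
        simpa using this
      linarith
    have b4 : |x - Q * y| ≤ (3 + |L| + c) * η := by
      have : x - Q * y = -(AF n / p n - x) + (AF n / p n - Q * (A1 n / p n)) +
        Q * (A1 n / p n - y) := by ring
      rw [this]
      refine (abs_add_le _ _).trans ?_
      have c1 : |-(AF n / p n - x) + (AF n / p n - Q * (A1 n / p n))| ≤ 2 * η := by
        refine (abs_add_le _ _).trans ?_
        rw [abs_neg]
        linarith
      have c2 : |Q * (A1 n / p n - y)| ≤ (|L| + c) * η := by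
        rw [abs_mul]
        gcongr
      nlinarith
    have b5 : |x / y - Q| ≤ 2 * (3 + |L| + c) / c * η := by
      have : x / y - Q = (x - Q * y) / y := by field_simp
      rw [this, abs_div, abs_of_pos hy0, div_le_iff₀ hy0]
      have d1 : (3 + |L| + c) * η = 2 * (3 + |L| + c) / c * η * (c / 2) := by field_simp
      refine b4.trans ?_
      rw [d1]
      gcongr
    have : x / y - L = (x / y - Q) + (Q - L) := by ring
    rw [this]
    refine (abs_add_le _ _).trans ?_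
    linarith
  constructor
  · filter_upwards [key (c/4) (by positivity) le_rfl] with n hn
    exact hn.1
  · rw [Metric.tendsto_nhds]
    intro e he
    set K := 2 * (3 + |L| + c) / c + 1 with hK
    have hK0 : 0 < K := by positivity
    filter_upwards [key (min (c/4) (e / (2 * K))) (by positivity) (min_le_left _ _)] with n hn
    rw [Real.dist_eq]
    refine hn.2.trans_lt ?_
    calc K * min (c/4) (e / (2 * K)) ≤ K * (e / (2 * K)) := by gcongr; exact min_le_right _ _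
      _ = e / 2 := by field_simp
      _ < e := by linarith

theorem cond_limit {Ω : Type u} [MeasurableSpace Ω] (P : Measure Ω) [IsProbabilityMeasure P]
    (ε t1 : ℝ) (hε : 0 < ε) (ht1 : 0 < t1) (z0 : E3) (hz0 : ε < z0.2.1)
    (lam : ℕ → ℝ) (hlam : Tendsto lam atTop atTop) (a : ℕ → St)
    (ha : Tendsto (fun n => sc (lam n) (a n)) atTop (𝓝 z0))
    (𝒢 : ℕ → ℕ → MeasurableSpace Ω) (Z : ℕ → ℕ → Ω → St) (X : ℕ → ℕ → Ω → ℤ)
    (hZ : ∀ n, IsChain P (𝒢 n) (Z n) (X n) (a n))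
    {Ω' : Type*} [mΩ' : MeasurableSpace Ω'] (P' : Measure Ω') [IsProbabilityMeasure P']
    (ℱ : Filtration ℝ≥0 mΩ') (W : ℝ≥0 → Ω' → ℝ) (ξ : ℝ≥0 → Ω' → E3)
    (hξ : IsFrozenSol P' ℱ W ε z0 ξ)
    (κ : Kernel E3 C(Set.Icc (0:ℝ) t1, E3)) [IsMarkovKernel κ]
    (hκ : (P'.map (ξ t1.toNNReal)) ⊗ₘ κ =
      P'.map (fun ω => (ξ t1.toNNReal ω, pathC t1 ξ hξ.cont ω)))
    (F : (Set.Icc (0:ℝ) t1 → E3) → ℝ) (hF1 : ∀ x, |F x| ≤ 1)
    (hFc : ∀ η : ℝ, 0 < η → ∃ w : ℝ, 0 < w ∧ ∀ x y, (∀ t, dist (x t) (y t) ≤ w) →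
      |F x - F y| ≤ η) :
    ∀ᵐ z1 ∂(P'.map (ξ t1.toNNReal)), ε < z1.2.1 → ∀ b : ℕ → St,
      Tendsto (fun n => sc (lam n) (b n)) atTop (𝓝 z1) →
      (∀ᶠ n in atTop, 0 < P.real {ω | Z n ⌊t1 * lam n⌋₊ ω = b n ∧
        aliveD (ε * lam n ^ 3) (fun i => Z n i ω) ⌊t1 * lam n⌋₊}) ∧
      Tendsto (fun n => (∫ ω in {ω | Z n ⌊t1 * lam n⌋₊ ω = b n ∧
        aliveD (ε * lam n ^ 3) (fun i => Z n i ω) ⌊t1 * lam n⌋₊},
          F (stepPath t1 (lam n) (fun i => Z n i ω)) ∂P) /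
        P.real {ω | Z n ⌊t1 * lam n⌋₊ ω = b n ∧
        aliveD (ε * lam n ^ 3) (fun i => Z n i ω) ⌊t1 * lam n⌋₊}) atTop
        (𝓝 (∫ x, F x ∂(κ z1))) := by
  have hmξ : ∀ t, Measurable (ξ t) := fun t => (hξ.adapted t).mono (ℱ.le t) le_rfl
  have hν : IsProbabilityMeasure (P'.map (ξ t1.toNNReal)) :=
    Measure.isProbabilityMeasure_map (hmξ _).aemeasurable
  set ν := P'.map (ξ t1.toNNReal) with hνdef
  have hFm : Measurable (fun x : C(Set.Icc (0:ℝ) t1, E3) => F x) := measurable_unif F hFc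
  set J : E3 → ℝ := fun z => ∫ x, F x ∂(κ z) with hJ
  have hJm : StronglyMeasurable J :=
    StronglyMeasurable.integral_kernel (κ := κ) hFm.stronglyMeasurable
  have hJ1 : ∀ z, |J z| ≤ 1 := by
    intro z
    have := norm_integral_le_of_norm_le_const (μ := κ z) (f := fun x => F x) (C := 1)
      (Eventually.of_forall fun x => by rw [Real.norm_eq_abs]; exact hF1 _)
    simpa using this
  have hJi : Integrable J ν := by
    refine Integrable.of_bound hJm.aestronglyMeasurable 1 ?_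
    exact Eventually.of_forall fun z => by rw [Real.norm_eq_abs]; exact hJ1 z
  have hm := measurable_pathC t1 ξ hmξ hξ.cont
  filter_upwards [d2_diff ν J hJi] with z1 hz1 hm1 b hb
  obtain ⟨c, hc, hc1, hc2⟩ := hz1
  refine d2_ratio lam _ _ hlam c (J z1) hc ?_
  intro η hη
  -- parameters
  set θ := (z1.2.1 - ε) / 2 with hθ
  have hθ0 : 0 < θ := by rw [hθ]; linarith
  set D := |z1.1| + |z1.2.1| + 2 with hD
  have hD1 : 1 ≤ D := by
    have := abs_nonneg z1.1
    have := abs_nonneg z1.2.1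
    linarith
  obtain ⟨η', hη', heq⟩ := equi.{u} t1 ε θ D η ht1 hε hθ0 hD1 hη
  obtain ⟨w, hw, hwF⟩ := hFc η' hη'
  obtain ⟨r, Λ, hr, hΛ, heq⟩ := heq w hw
  -- the radius
  have hc2' : ∀ᶠ s in 𝓝[>] (0:ℝ), |(∫ x in Metric.closedBall z1 s, J x ∂ν) /
        ν.real (Metric.closedBall z1 s) - J z1| < η := by
    have := (Metric.tendsto_nhds.1 hc2) η hη
    simpa [Real.dist_eq] using this
  obtain ⟨s0, hs0, hs0'⟩ : ∃ s0 : ℝ, 0 < s0 ∧ ∀ s, 0 < s → s < s0 →
      c * (8 * s ^ 3) ≤ ν.real (Metric.closedBall z1 s) ∧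
      |(∫ x in Metric.closedBall z1 s, J x ∂ν) /
        ν.real (Metric.closedBall z1 s) - J z1| < η := by
    have := hc1.and hc2'
    rw [eventually_nhdsWithin_iff, Metric.eventually_nhds_iff] at this
    obtain ⟨e, he, h⟩ := this
    refine ⟨e, he, fun s h1 h2 => h ?_ h1⟩
    rw [Real.dist_eq, sub_zero, abs_of_pos h1]
    exact h2
  set U := min s0 (min 1 (min θ (r / 2))) with hU
  have hU0 : 0 < U := by positivity
  obtain ⟨s, ⟨hs1, hs2⟩, hfr⟩ := exists_null_frontier_thickening ν ({z1} : Set E3) hU0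
  have hsU : s < s0 ∧ s < 1 ∧ s < θ ∧ s < r / 2 := by
    simp only [hU, lt_min_iff] at hs2
    exact hs2
  obtain ⟨hss0, hs1', hsθ, hsr⟩ := hsU
  have hfr' : ν (frontier (Metric.closedBall z1 s)) = 0 := by
    rw [Metric.thickening_singleton, frontier_ball _ hs1.ne'] at hfr
    rw [frontier_closedBall _ hs1.ne']
    exact hfr
  obtain ⟨hball, havg⟩ := hs0' s hs1 hss0
  have hBε : ∀ z ∈ Metric.closedBall z1 s, ε < z.2.1 := by
    intro z hz
    have h1 : dist z.2.1 z1.2.1 ≤ s := by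
      have h2 : dist z z1 ≤ s := hz
      rw [Prod.dist_eq, Prod.dist_eq] at h2
      exact (le_max_left _ _).trans ((le_max_right _ _).trans h2)
    rw [Real.dist_eq] at h1
    have := (abs_le.1 h1).1
    rw [hθ] at hsθ
    linarith
  set B := Metric.closedBall z1 s with hB
  have hBm : MeasurableSet B := Metric.isClosed_closedBall.measurableSet
  have dF := diff1 P ε t1 hε ht1 z0 hz0 lam hlam a ha 𝒢 Z X hZ P' ℱ W ξ hξ F hF1 hFc B hBm
    hBε hfr'
  have d1 := diff1 P ε t1 hε ht1 z0 hz0 lam hlam a ha 𝒢 Z X hZ P' ℱ W ξ hξ (fun _ => 1)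
    (fun _ => by simp) (fun η hη => ⟨1, one_pos, fun x y _ => by simp [hη.le]⟩) B hBm hBε hfr'
  rw [d2_disint P' (ξ t1.toNNReal) (pathC t1 ξ hξ.cont) (hmξ _) hm κ hκ (fun x => F x) hFm
    (fun x => hF1 _) B hBm] at dF
  have e1 : ∫ ω in {ω | ξ t1.toNNReal ω ∈ B}, (1:ℝ) ∂P' = ν.real B := by
    rw [setIntegral_const, smul_eq_mul, mul_one, hνdef, measureReal_def, measureReal_def,
      Measure.map_apply (hmξ _) hBm]
    rfl
  rw [e1] at d1
  have hV : 0 < 8 * s ^ 3 := by positivity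
  have hνB : 0 < ν.real B := lt_of_lt_of_le (by positivity) hball
  change Tendsto _ atTop (𝓝 (∫ z in B, J z ∂ν)) at dF
  rw [← div_mul_cancel₀ (∫ z in B, J z ∂ν) hνB.ne'] at dF
  refine ⟨(∫ x in B, J x ∂ν) / ν.real B, 8 * s ^ 3, ν.real B, _, _,
    fun n => ({z : St | dist (sc (lam n) z) z1 ≤ s}.ncard : ℝ) / lam n ^ 9, hV, havg.le,
    hball, dF, d1, count_box lam hlam z1 s hs1, ?_⟩
  -- the estimate
  have ea : ∀ᶠ n in atTop, ε < (sc (lam n) (a n)).2.1 :=
    (((continuous_fst.comp continuous_snd).tendsto z0).comp ha).eventually_const_lt hz0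
  have eb : ∀ᶠ n in atTop, dist (sc (lam n) (b n)) z1 ≤ s := by
    filter_upwards [Metric.tendsto_nhds.1 hb s hs1] with n hn using hn.le
  filter_upwards [ea, eb, hlam.eventually_ge_atTop Λ] with n ha' hb' hl
  have hl0 : 0 < lam n := by linarith
  have hA : ε * lam n ^ 3 ≤ ((a n).2.1 : ℝ) := by
    have h1 : ε < ((a n).2.1 : ℝ) / lam n ^ 3 := ha'
    rw [lt_div_iff₀ (by positivity)] at h1
    exact h1.le
  have hbox : ∀ z : St, dist (sc (lam n) z) z1 ≤ s →
      |(z.1:ℝ)| ≤ D * lam n ^ 2 ∧ (ε + θ) * lam n ^ 3 ≤ z.2.1 ∧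
      (z.2.1:ℝ) ≤ D * lam n ^ 3 := by
    intro z hz
    rw [Prod.dist_eq, Prod.dist_eq] at hz
    have h1 : dist ((z.1:ℝ) / lam n ^ 2) z1.1 ≤ s := (le_max_left _ _).trans hz
    have h2 : dist ((z.2.1:ℝ) / lam n ^ 3) z1.2.1 ≤ s :=
      (le_max_left _ _).trans ((le_max_right _ _).trans hz)
    rw [Real.dist_eq] at h1 h2
    have h2a := abs_le.1 h2
    refine ⟨?_, ?_, ?_⟩
    · have h3 : |(z.1:ℝ) / lam n ^ 2| ≤ D := by
        have h4 : |(z.1:ℝ) / lam n ^ 2| ≤ |(z.1:ℝ) / lam n ^ 2 - z1.1| + |z1.1| := by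
          have := abs_add_le ((z.1:ℝ) / lam n ^ 2 - z1.1) z1.1
          simpa using this
        have := abs_nonneg z1.2.1
        linarith
      rw [abs_div, abs_of_pos (show 0 < lam n ^ 2 by positivity), div_le_iff₀ (by positivity)] at h3
      exact h3
    · rw [← le_div_iff₀ (by positivity)]
      linarith [h2a.1]
    · rw [← div_le_iff₀ (by positivity)]
      have := le_abs_self z1.2.1
      have := abs_nonneg z1.1
      linarith [h2a.2]
  have hgen : ∀ H : (Set.Icc (0:ℝ) t1 → E3) → ℝ, (∀ x, |H x| ≤ 1) →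
      (∀ x y, (∀ t, dist (x t) (y t) ≤ w) → |H x - H y| ≤ η') →
      |(∫ ω in {ω | sc (lam n) (Z n ⌊t1 * lam n⌋₊ ω) ∈ B ∧
        aliveD (ε * lam n ^ 3) (fun i => Z n i ω) ⌊t1 * lam n⌋₊},
          H (stepPath t1 (lam n) (fun i => Z n i ω)) ∂P) -
        ({z : St | dist (sc (lam n) z) z1 ≤ s}.ncard : ℝ) / lam n ^ 9 * (lam n ^ 9 *
          ∫ ω in {ω | Z n ⌊t1 * lam n⌋₊ ω = b n ∧
            aliveD (ε * lam n ^ 3) (fun i => Z n i ω) ⌊t1 * lam n⌋₊},
          H (stepPath t1 (lam n) (fun i => Z n i ω)) ∂P)| ≤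
      ({z : St | dist (sc (lam n) z) z1 ≤ s}.ncard : ℝ) / lam n ^ 9 * η := by
    intro H hH1 hHc
    have h1 := d2_box_sum (hZ n) t1 (lam n) (ε * lam n ^ 3) hl0 H hH1 z1 s
      (∫ ω in {ω | Z n ⌊t1 * lam n⌋₊ ω = b n ∧
            aliveD (ε * lam n ^ 3) (fun i => Z n i ω) ⌊t1 * lam n⌋₊},
          H (stepPath t1 (lam n) (fun i => Z n i ω)) ∂P) (η / lam n ^ 9) ?_
    · have e2 : ({z : St | dist (sc (lam n) z) z1 ≤ s}.ncard : ℝ) / lam n ^ 9 * (lam n ^ 9 *
          ∫ ω in {ω | Z n ⌊t1 * lam n⌋₊ ω = b n ∧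
            aliveD (ε * lam n ^ 3) (fun i => Z n i ω) ⌊t1 * lam n⌋₊},
          H (stepPath t1 (lam n) (fun i => Z n i ω)) ∂P) =
        ({z : St | dist (sc (lam n) z) z1 ≤ s}.ncard : ℝ) *
          ∫ ω in {ω | Z n ⌊t1 * lam n⌋₊ ω = b n ∧
            aliveD (ε * lam n ^ 3) (fun i => Z n i ω) ⌊t1 * lam n⌋₊},
          H (stepPath t1 (lam n) (fun i => Z n i ω)) ∂P := by
        field_simp
      have e3 : ({z : St | dist (sc (lam n) z) z1 ≤ s}.ncard : ℝ) / lam n ^ 9 * η =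
        ({z : St | dist (sc (lam n) z) z1 ≤ s}.ncard : ℝ) * (η / lam n ^ 9) := by ring
      rw [e2, e3]
      exact h1
    · intro z hz
      obtain ⟨g1, g2, g3⟩ := hbox z hz
      obtain ⟨g4, g5, g6⟩ := hbox (b n) hb'
      have hidx : ∀ t : Set.Icc (0:ℝ) t1, ⌊(t:ℝ) * lam n⌋₊ ≤ ⌊t1 * lam n⌋₊ := fun t =>
        Nat.floor_le_floor (mul_le_mul_of_nonneg_right t.2.2 hl0.le)
      refine heq (lam n) hl Ω _ P inferInstance (𝒢 n) (Z n) (X n) (a n) (hZ n) hA
        (fun y => H (stepPath t1 (lam n) y)) (fun y => hH1 _) ?_ ?_ z (b n) g1 g4 g2 g5 g3 g6 ?_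
      · intro y y' hy
        have : stepPath t1 (lam n) y = stepPath t1 (lam n) y' := by
          funext t
          unfold stepPath
          rw [hy _ (hidx t)]
        simp only [this]
      · intro y y' hy
        exact hHc _ _ fun t => hy _ (hidx t)
      · have := dist_triangle_right (sc (lam n) z) (sc (lam n) (b n)) z1
        linarith
  refine ⟨hgen F hF1 hwF, ?_⟩
  have h1 := hgen (fun _ => 1) (fun _ => by simp) (fun _ _ _ => by simp [hη'.le])
  have e4 : ∫ ω in {ω | Z n ⌊t1 * lam n⌋₊ ω = b n ∧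
            aliveD (ε * lam n ^ 3) (fun i => Z n i ω) ⌊t1 * lam n⌋₊}, (1:ℝ) ∂P =
      P.real {ω | Z n ⌊t1 * lam n⌋₊ ω = b n ∧
            aliveD (ε * lam n ^ 3) (fun i => Z n i ω) ⌊t1 * lam n⌋₊} := by
    rw [setIntegral_const, smul_eq_mul, mul_one]
  simp only [e4] at h1
  exact h1

end Pool.Agent.Helper7.Stuck
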