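import Pool.Agent.Helper7.Stuck.Ops
import Pool.Agent.Helper7.Stuck.Box

/-!
# Comparison of killed reversed chains, and the evolution of weighted laws (for `equi`)
-/

open MeasureTheory ProbabilityTheory Filter Topology
open scoped NNReal ENNReal

namespace Pool.Agent.Helper7.Stuck

universe u

/-! ### operators -/

theorem equi_integrable (v : ℕ) (g : ℤ → ℝ) (C : ℝ) (h : ∀ x, |g x| ≤ C) :
    Integrable g (nb v) := by
  refine Integrable.of_bound (C := C) (Measurable.of_discrete.aestronglyMeasurable) ?_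
  exact Filter.Eventually.of_forall (fun x => h x)

theorem equi_Rv_abs (V : ℤ → ℕ) (f : St → ℝ) (G : ℝ) (h : ∀ z, |f z| ≤ G) (z : St) :
    |Rv V f z| ≤ G := by
  unfold Rv
  have h1 := norm_integral_le_of_norm_le_const (μ := nb (V (z.2.1 - z.1)))
    (f := fun x => f (z.1 - x, z.2.1 - z.1, z.2.2 - z.2.1)) (C := G)
    (Filter.Eventually.of_forall (fun x => h _))
  simpa using h1

theorem equi_RvOn_abs (Q : Set St) (V : ℤ → ℕ) (f : St → ℝ) (G : ℝ) (h : ∀ z, |f z| ≤ G)
    (z : St) : |RvOn Q V f z| ≤ G := by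
  unfold RvOn
  by_cases hz : z ∈ Q
  · rw [Set.indicator_of_mem hz]
    exact equi_Rv_abs V f G h z
  · rw [Set.indicator_of_notMem hz, abs_zero]
    exact (abs_nonneg _).trans (h z)

theorem equi_Rv_iter_abs (V : ℤ → ℕ) (f : St → ℝ) (G : ℝ) (h : ∀ z, |f z| ≤ G) (i : ℕ) :
    ∀ z, |(Rv V)^[i] f z| ≤ G := by
  induction i with
  | zero => exact h
  | succ i ih =>
    intro z
    rw [Function.iterate_succ_apply']
    exact equi_Rv_abs V _ G ih z

theorem equi_RvOn_iter_abs (Q : Set St) (V : ℤ → ℕ) (f : St → ℝ) (G : ℝ) (h : ∀ z, |f z| ≤ G)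
    (i : ℕ) : ∀ z, |(RvOn Q V)^[i] f z| ≤ G := by
  induction i with
  | zero => exact h
  | succ i ih =>
    intro z
    rw [Function.iterate_succ_apply']
    exact equi_RvOn_abs Q V _ G ih z

theorem equi_Rv_sub (V : ℤ → ℕ) (f g : St → ℝ) (F G : ℝ) (hf : ∀ z, |f z| ≤ F)
    (hg : ∀ z, |g z| ≤ G) (z : St) : Rv V f z - Rv V g z = Rv V (fun z => f z - g z) z := by
  unfold Rv
  rw [integral_sub (equi_integrable _ _ F (fun x => hf _)) (equi_integrable _ _ G (fun x => hg _))]

theorem equi_Rv_mono (V : ℤ → ℕ) (f g : St → ℝ) (F G : ℝ) (hf : ∀ z, |f z| ≤ F)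
    (hg : ∀ z, |g z| ≤ G) (h : ∀ z, f z ≤ g z) (z : St) : Rv V f z ≤ Rv V g z := by
  unfold Rv
  exact integral_mono (equi_integrable _ _ F (fun x => hf _))
    (equi_integrable _ _ G (fun x => hg _)) (fun x => h _)

theorem equi_Rv_affine (V : ℤ → ℕ) (g : St → ℝ) (c G : ℝ)
    (hg : ∀ z, |g z| ≤ G) (z : St) :
    Rv V (fun z => c * (1 - g z)) z = c * (1 - Rv V g z) := by
  unfold Rv
  rw [integral_const_mul, integral_sub (integrable_const _)
    (equi_integrable _ _ G (fun x => hg _))]
  simp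

theorem equi_ind (Q : Set St) (z : St) : 0 ≤ Q.indicator (1 : St → ℝ) z ∧
    Q.indicator (1 : St → ℝ) z ≤ 1 := by
  by_cases h : z ∈ Q
  · rw [Set.indicator_of_mem h]
    simp
  · rw [Set.indicator_of_notMem h]
    simp

theorem equi_iter_mem (Q : Set St) (V : ℤ → ℕ) (i : ℕ) (z : St) :
    0 ≤ (RvOn Q V)^[i] (Q.indicator 1) z ∧ (RvOn Q V)^[i] (Q.indicator 1) z ≤ 1 :=
  box_iter_mem Q V _ (equi_ind Q) i z

theorem equi_iter_mem_abs (Q : Set St) (V : ℤ → ℕ) (i : ℕ) (z : St) :
    |(RvOn Q V)^[i] (Q.indicator 1) z| ≤ 1 := by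
  rw [abs_of_nonneg (equi_iter_mem Q V i z).1]
  exact (equi_iter_mem Q V i z).2

/-- Comparison of the chain killed outside `Q` with the unkilled chain. -/
theorem equi_cmp (Q Q' : Set St) (V : ℤ → ℕ) (hQ : Q' ⊆ Q) (G : ℝ) (hG : 0 ≤ G) (f : St → ℝ)
    (hf : ∀ z, |f z| ≤ G) (i : ℕ) : ∀ z,
    |(RvOn Q V)^[i] f z - (Rv V)^[i] f z| ≤
      G * (1 - (RvOn Q' V)^[i] (Q'.indicator 1) z) := by
  induction i with
  | zero =>
    intro z
    simp only [Function.iterate_zero, id_eq, sub_self, abs_zero]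
    exact mul_nonneg hG (by linarith [(equi_ind Q' z).2])
  | succ i ih =>
    intro z
    have hA := equi_RvOn_iter_abs Q V f G hf i
    have hB := equi_Rv_iter_abs V f G hf i
    have hC := equi_iter_mem_abs Q' V i
    have hCmem := equi_iter_mem Q' V i
    by_cases hz : z ∈ Q
    · -- the integral of the differences
      have h1 : |(RvOn Q V)^[i+1] f z - (Rv V)^[i+1] f z| ≤
          G * (1 - Rv V ((RvOn Q' V)^[i] (Q'.indicator 1)) z) := by
        rw [Function.iterate_succ_apply', Function.iterate_succ_apply']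
        unfold RvOn at hA hC hCmem ih ⊢
        rw [Set.indicator_of_mem hz, equi_Rv_sub V _ _ G G hA hB]
        rw [← equi_Rv_affine V _ G 1 hC z]
        unfold Rv
        refine (abs_integral_le_integral_abs).trans ?_
        refine integral_mono ?_ ?_ (fun x => ih _)
        · refine (equi_integrable _ _ (G + G) (fun x => ?_)).abs
          exact (abs_sub _ _).trans (add_le_add (hA _) (hB _))
        · refine equi_integrable _ _ (G * (1 + 1)) (fun x => ?_)
          rw [abs_mul, abs_of_nonneg hG]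
          refine mul_le_mul_of_nonneg_left ?_ hG
          exact (abs_sub _ _).trans (add_le_add (by simp) (hC _))
      by_cases hz' : z ∈ Q'
      · have e : (RvOn Q' V)^[i+1] (Q'.indicator 1) z =
            Rv V ((RvOn Q' V)^[i] (Q'.indicator 1)) z := by
          rw [Function.iterate_succ_apply']
          conv_lhs => unfold RvOn
          rw [Set.indicator_of_mem hz']
          rfl
        rw [e]
        exact h1
      · have e : (RvOn Q' V)^[i+1] (Q'.indicator 1) z = 0 := by
          rw [Function.iterate_succ_apply']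
          conv_lhs => unfold RvOn
          rw [Set.indicator_of_notMem hz']
        rw [e]
        refine h1.trans (mul_le_mul_of_nonneg_left ?_ hG)
        have h2 : 0 ≤ Rv V ((RvOn Q' V)^[i] (Q'.indicator 1)) z := by
          unfold Rv
          exact integral_nonneg (fun x => (hCmem _).1)
        linarith
    · have hz' : z ∉ Q' := fun h => hz (hQ h)
      have e : (RvOn Q' V)^[i+1] (Q'.indicator 1) z = 0 := by
        rw [Function.iterate_succ_apply']
        conv_lhs => unfold RvOn
        rw [Set.indicator_of_notMem hz']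
      have e' : (RvOn Q V)^[i+1] f z = 0 := by
        rw [Function.iterate_succ_apply']
        conv_lhs => unfold RvOn
        rw [Set.indicator_of_notMem hz]
      rw [e, e', zero_sub, abs_neg, sub_zero, mul_one]
      exact equi_Rv_iter_abs V f G hf (i+1) z

/-- Comparison of two killed chains. -/
theorem equi_cmp2 (Q Q' : Set St) (V : ℤ → ℕ) (hQ : Q' ⊆ Q) (G : ℝ) (hG : 0 ≤ G) (f : St → ℝ)
    (hf : ∀ z, 0 ≤ f z ∧ f z ≤ G) (i : ℕ) : ∀ z,
    (RvOn Q V)^[i] f z - (RvOn Q' V)^[i] (Q'.indicator f) z ≤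
      G * (1 - (RvOn Q' V)^[i] (Q'.indicator 1) z) := by
  have hfabs : ∀ z, |f z| ≤ G := fun z => by
    rw [abs_of_nonneg (hf z).1]
    exact (hf z).2
  have hfabs' : ∀ z, |Q'.indicator f z| ≤ G := fun z => by
    by_cases h : z ∈ Q'
    · rw [Set.indicator_of_mem h]
      exact hfabs z
    · rw [Set.indicator_of_notMem h, abs_zero]
      exact hG
  induction i with
  | zero =>
    intro z
    simp only [Function.iterate_zero, id_eq]
    by_cases h : z ∈ Q'
    · rw [Set.indicator_of_mem h, Set.indicator_of_mem h]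
      simp
    · rw [Set.indicator_of_notMem h, Set.indicator_of_notMem h]
      linarith [(hf z).2]
  | succ i ih =>
    intro z
    have hA := equi_RvOn_iter_abs Q V f G hfabs i
    have hB := equi_RvOn_iter_abs Q' V _ G hfabs' i
    have hC := equi_iter_mem_abs Q' V i
    by_cases hz' : z ∈ Q'
    · have hz : z ∈ Q := hQ hz'
      rw [Function.iterate_succ_apply', Function.iterate_succ_apply',
        Function.iterate_succ_apply']
      unfold RvOn at hA hB hC ih ⊢
      rw [Set.indicator_of_mem hz, Set.indicator_of_mem hz', Set.indicator_of_mem hz',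
        equi_Rv_sub V _ _ G G hA hB, ← equi_Rv_affine V _ G 1 hC z]
      refine equi_Rv_mono V _ _ (G + G) (G * (1 + 1)) (fun z => ?_) (fun z => ?_) ih z
      · exact (abs_sub _ _).trans (add_le_add (hA _) (hB _))
      · rw [abs_mul, abs_of_nonneg hG]
        refine mul_le_mul_of_nonneg_left ?_ hG
        exact (abs_sub _ _).trans (add_le_add (by simp) (hC _))
    · have e : ∀ g : St → ℝ, (RvOn Q' V)^[i+1] g z = 0 := by
        intro g
        rw [Function.iterate_succ_apply']
        conv_lhs => unfold RvOn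
        rw [Set.indicator_of_notMem hz']
      rw [e, e, sub_zero, sub_zero, mul_one]
      exact (le_abs_self _).trans (equi_RvOn_iter_abs Q V f G hfabs (i+1) z)

/-! ### measurability -/

theorem equi_meas_Z {Ω : Type*} [mΩ : MeasurableSpace Ω] {P : Measure Ω}
    {𝒢 : ℕ → MeasurableSpace Ω} {Z : ℕ → Ω → St} {X : ℕ → Ω → ℤ} {a : St}
    (hZ : IsChain P 𝒢 Z X a) {k l : ℕ} (hk : k ≤ l) : Measurable[𝒢 l] (Z k) := by
  refine @measurable_to_countable' _ _ _ _ (𝒢 l) _ (fun y => ?_)
  exact hZ.mono hk _ (hZ.meas_Z k y)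

/-- All of `Z_{j+1}, …, Z_l` are in `Q`. -/
def equiIn {Ω : Type*} (Q : Set St) (Z : ℕ → Ω → St) (j l : ℕ) : Set Ω :=
  {ω | ∀ k, j < k → k ≤ l → Z k ω ∈ Q}

theorem equi_meas_in {Ω : Type*} [mΩ : MeasurableSpace Ω] {P : Measure Ω}
    {𝒢 : ℕ → MeasurableSpace Ω} {Z : ℕ → Ω → St} {X : ℕ → Ω → ℤ} {a : St}
    (hZ : IsChain P 𝒢 Z X a) (Q : Set St) (j l : ℕ) : MeasurableSet[𝒢 l] (equiIn Q Z j l) := by
  have e : equiIn Q Z j l = ⋂ k : Fin (l+1), (if j < (k:ℕ) then Z k ⁻¹' Q else Set.univ) := by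
    ext ω
    simp only [equiIn, Set.mem_iInter]
    constructor
    · intro h k
      by_cases hk : j < (k:ℕ)
      · rw [if_pos hk]
        exact h k hk (by omega)
      · rw [if_neg hk]
        trivial
    · intro h k hk hkl
      have := h ⟨k, by omega⟩
      rw [if_pos hk] at this
      exact this
  rw [e]
  refine @MeasurableSet.iInter _ _ (𝒢 l) _ _ (fun k => ?_)
  by_cases hk : j < (k:ℕ)
  · rw [if_pos hk]
    exact (equi_meas_Z hZ (by omega : (k:ℕ) ≤ l)) (Set.to_countable Q).measurableSet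
  · rw [if_neg hk]
    exact @MeasurableSet.univ _ (𝒢 l)

theorem equi_meas_frozen {Ω : Type*} [mΩ : MeasurableSpace Ω] {P : Measure Ω}
    {𝒢 : ℕ → MeasurableSpace Ω} {Z : ℕ → Ω → St} {X : ℕ → Ω → ℤ} {a : St}
    (hZ : IsChain P 𝒢 Z X a) (F : (ℕ → St) → ℝ) (j : ℕ) :
    Measurable[𝒢 j] (fun ω => F (fun l => Z (min l j) ω)) := by
  have h1 : @Measurable _ _ (𝒢 j) _ (fun ω (i : Fin (j+1)) => Z i ω) := by
    refine @measurable_pi_lambda _ _ _ (𝒢 j) _ _ (fun i => ?_)
    exact equi_meas_Z hZ (by omega : (i:ℕ) ≤ j)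
  have h2 : Measurable (fun u : Fin (j+1) → St => F (fun l => u ⟨min l j, by omega⟩)) :=
    measurable_of_countable _
  exact h2.comp h1

/-! ### evolution -/

theorem equi_evol {Ω : Type*} [mΩ : MeasurableSpace Ω] (P : Measure Ω) [IsProbabilityMeasure P]
    (𝒢 : ℕ → MeasurableSpace Ω) (Z : ℕ → Ω → St) (X : ℕ → Ω → ℤ) (a : St)
    (hZ : IsChain P 𝒢 Z X a) (V : ℤ → ℕ) (Q : Set St)
    (hQ : ∀ z ∈ Q, V z.2.1 = z.2.1.natAbs) (j : ℕ) (Y : Ω → ℝ) (hY : Measurable[𝒢 j] Y) (C : ℝ)
    (hYC : ∀ ω, |Y ω| ≤ C) (hYQ : ∀ ω, Z j ω ∉ Q → Y ω = 0) (i : ℕ) : ∀ z : St,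
    ∫ ω in Z (j+i) ⁻¹' {z}, (equiIn Q Z j (j+i)).indicator Y ω ∂P =
      (RvOn Q V)^[i] (fun z => ∫ ω in Z j ⁻¹' {z}, Y ω ∂P) z := by
  classical
  induction i with
  | zero =>
    intro z
    have : equiIn Q Z j (j+0) = Set.univ := by
      ext ω
      simp only [equiIn, add_zero, Set.mem_univ, iff_true]
      intro k h1 h2
      omega
    rw [this, Set.indicator_univ]
    rfl
  | succ i ih =>
    intro z
    set l := j + i with hl
    have hle : j + (i + 1) = l + 1 := by omega
    rw [hle, Function.iterate_succ_apply']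
    have hmeas : MeasurableSet (Z (l+1) ⁻¹' {z}) := hZ.le (l+1) _ (hZ.meas_Z (l+1) z)
    by_cases hz : z ∈ Q
    · have h1 : ∫ ω in Z (l+1) ⁻¹' {z}, (equiIn Q Z j (l+1)).indicator Y ω ∂P =
          ∫ ω in Z (l+1) ⁻¹' {z}, (equiIn Q Z j l).indicator Y ω ∂P := by
        refine setIntegral_congr_fun hmeas (fun ω hω => ?_)
        have hω' : Z (l+1) ω = z := hω
        have : ω ∈ equiIn Q Z j (l+1) ↔ ω ∈ equiIn Q Z j l := by
          constructor
          · intro h k h1 h2
            exact h k h1 (by omega)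
          · intro h k h1 h2
            rcases Nat.lt_or_ge k (l+1) with h3 | h3
            · exact h k h1 (by omega)
            · have : k = l + 1 := by omega
              rw [this, hω']
              exact hz
        simp only [Set.indicator_apply, this]
      have hYl : Measurable[𝒢 l] Y := fun s hs => hZ.mono (by omega : j ≤ l) _ (hY hs)
      have hYi : Measurable[𝒢 l] ((equiIn Q Z j l).indicator Y) :=
        hYl.indicator (equi_meas_in hZ Q j l)
      rw [h1, ops P 𝒢 Z X a hZ l ((equiIn Q Z j l).indicator Y)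
        hYi (max C 0) (fun ω => by
            by_cases h : ω ∈ equiIn Q Z j l
            · rw [Set.indicator_of_mem h]
              exact (hYC ω).trans (le_max_left _ _)
            · rw [Set.indicator_of_notMem h, abs_zero]
              exact le_max_right _ _) z]
      simp_rw [ih]
      have h2 : RvOn Q V ((RvOn Q V)^[i] fun z => ∫ ω in Z j ⁻¹' {z}, Y ω ∂P) z =
          Rv V ((RvOn Q V)^[i] fun z => ∫ ω in Z j ⁻¹' {z}, Y ω ∂P) z := by
        conv_lhs => unfold RvOn
        rw [Set.indicator_of_mem hz]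
        rfl
      rw [h2]
      by_cases hV : V (z.2.1 - z.1) = (z.2.1 - z.1).natAbs
      · unfold Rv
        rw [hV]
      · have h3 : ∀ x : ℤ, (RvOn Q V)^[i] (fun z => ∫ ω in Z j ⁻¹' {z}, Y ω ∂P)
            (z.1 - x, z.2.1 - z.1, z.2.2 - z.2.1) = 0 := by
          intro x
          have hx : ((z.1 - x, z.2.1 - z.1, z.2.2 - z.2.1) : St) ∉ Q := fun h => hV (hQ _ h)
          rw [← ih]
          have hm' : MeasurableSet (Z l ⁻¹' {(z.1 - x, z.2.1 - z.1, z.2.2 - z.2.1)}) :=
            hZ.le l _ (hZ.meas_Z l _)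
          have : ∫ ω in Z l ⁻¹' {(z.1 - x, z.2.1 - z.1, z.2.2 - z.2.1)},
              (equiIn Q Z j l).indicator Y ω ∂P =
              ∫ ω in Z l ⁻¹' {(z.1 - x, z.2.1 - z.1, z.2.2 - z.2.1)}, (0:ℝ) ∂P := by
            refine setIntegral_congr_fun hm' (fun ω hω => ?_)
            have hω' : Z l ω = (z.1 - x, z.2.1 - z.1, z.2.2 - z.2.1) := hω
            rcases Nat.eq_or_lt_of_le (by omega : j ≤ l) with h | h
            · have hj : Z j ω ∉ Q := by
                rw [h, hω']
                exact hx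
              by_cases hin : ω ∈ equiIn Q Z j l
              · rw [Set.indicator_of_mem hin]
                exact hYQ ω hj
              · rw [Set.indicator_of_notMem hin]
            · refine Set.indicator_of_notMem (fun hin => ?_) Y
              have := hin l h le_rfl
              rw [hω'] at this
              exact hx this
          rw [this, integral_zero]
        have h4 : ∀ g : St → ℝ, (∀ x : ℤ, g (z.1 - x, z.2.1 - z.1, z.2.2 - z.2.1) = 0) →
            Rv V g z = 0 := by
          intro g hg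
          unfold Rv
          simp_rw [hg]
          simp
        rw [h4 _ h3]
        simp_rw [h3]
        simp
    · have h1 : ∫ ω in Z (l+1) ⁻¹' {z}, (equiIn Q Z j (l+1)).indicator Y ω ∂P =
          ∫ ω in Z (l+1) ⁻¹' {z}, (0:ℝ) ∂P := by
        refine setIntegral_congr_fun hmeas (fun ω hω => ?_)
        have hω' : Z (l+1) ω = z := hω
        refine Set.indicator_of_notMem (fun hin => ?_) Y
        have := hin (l+1) (by omega) le_rfl
        rw [hω'] at this
        exact hz this
      rw [h1, integral_zero]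
      conv_rhs => unfold RvOn
      rw [Set.indicator_of_notMem hz]

end Pool.Agent.Helper7.Stuck
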