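import Pool.Agent.Helper7.Stuck.Sko

/-!
# Auxiliary facts for the final assembly
-/

open MeasureTheory ProbabilityTheory Filter Topology
open scoped NNReal ENNReal

namespace Pool.Agent.Helper7.Stuck

theorem fin_measurable_Z {Ω : Type*} [mΩ : MeasurableSpace Ω] {P : Measure Ω}
    {𝒢 : ℕ → MeasurableSpace Ω} {Z : ℕ → Ω → St} {X : ℕ → Ω → ℤ} {a : St}
    (hZ : IsChain P 𝒢 Z X a) (i : ℕ) : Measurable (Z i) :=
  measurable_to_countable' fun z => hZ.le i _ (hZ.meas_Z i z)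

theorem fin_measurable_path {Ω : Type*} [mΩ : MeasurableSpace Ω] {P : Measure Ω}
    {𝒢 : ℕ → MeasurableSpace Ω} {Z : ℕ → Ω → St} {X : ℕ → Ω → ℤ} {a : St}
    (hZ : IsChain P 𝒢 Z X a) (j : ℕ) {β : Type*} [MeasurableSpace β] (H : (ℕ → St) → β)
    (hH : ∀ y y' : ℕ → St, (∀ i ≤ j, y i = y' i) → H y = H y') :
    Measurable (fun ω => H (fun i => Z i ω)) := by
  have h1 : Measurable (fun ω (i : Fin (j+1)) => Z i ω) :=
    measurable_pi_lambda _ fun i => fin_measurable_Z hZ i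
  have h2 : (fun ω => H (fun i => Z i ω)) =
      (fun y : Fin (j+1) → St => H (fun i => if h : i < j + 1 then y ⟨i, h⟩ else 0)) ∘
        (fun ω (i : Fin (j+1)) => Z i ω) := by
    funext ω
    refine hH _ _ fun i hi => ?_
    simp [Nat.lt_succ_of_le hi]
  rw [h2]
  exact (Measurable.of_discrete (α := Fin (j+1) → St)).comp h1

end Pool.Agent.Helper7.Stuck
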