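import Pool.Agent.Helper7.Stuck.Defs

/-!
# The laws `nb m`: probability, convolution, mean, variance
-/

open MeasureTheory ProbabilityTheory Filter Topology
open scoped NNReal ENNReal

namespace Pool.Agent.Helper7.Stuck

universe u

theorem nb1_half_norm : ‖(1/2 : ℝ)‖ < 1 := by norm_num

theorem nb1_hasSum0 : HasSum (fun j : ℕ => (1/2 : ℝ) ^ (j+1)) 1 := by
  have h := (hasSum_geometric_of_norm_lt_one nb1_half_norm).mul_left (1/2 : ℝ)
  convert! h using 1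
  · funext j; rw [pow_succ']
  · norm_num

theorem nb1_hasSum1 : HasSum (fun j : ℕ => (1/2 : ℝ) ^ (j+1) * (j:ℝ)) 1 := by
  have h := (hasSum_coe_mul_geometric_of_norm_lt_one nb1_half_norm).mul_left (1/2 : ℝ)
  convert! h using 1
  · funext j; rw [pow_succ']; ring
  · norm_num

theorem nb1_hasSum2 : HasSum (fun j : ℕ => (1/2 : ℝ) ^ (j+1) * (j:ℝ) ^ 2) 3 := by
  have h := (hasSum_choose_mul_geometric_of_norm_lt_one 2 nb1_half_norm)
  have h1 := (hasSum_coe_mul_geometric_of_norm_lt_one nb1_half_norm).mul_left (3 : ℝ)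
  have h0 := (hasSum_geometric_of_norm_lt_one nb1_half_norm).mul_left (2 : ℝ)
  have h3 := (((h.mul_left 2).sub h1).sub h0).mul_left (1/2 : ℝ)
  convert! h3 using 1
  · funext j
    have e : (((j + 2).choose 2 : ℕ) : ℝ) = ((j:ℝ) + 2) * (j + 1) / 2 := by
      rw [Nat.cast_choose_two]; push_cast; ring
    rw [e, pow_succ']; ring
  · norm_num

instance nb1_prob_gam : IsProbabilityMeasure gam := by
  constructor
  unfold gam
  rw [Measure.sum_apply _ MeasurableSet.univ]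
  have : ∀ j : ℕ, (ENNReal.ofReal ((1/2 : ℝ) ^ (j+1)) • Measure.dirac ((j:ℤ) - 1)) Set.univ
      = ENNReal.ofReal ((1/2 : ℝ) ^ (j+1)) := by
    intro j
    rw [Measure.smul_apply, measure_univ, smul_eq_mul, mul_one]
  simp_rw [this]
  rw [← ENNReal.ofReal_tsum_of_nonneg (fun j => by positivity) nb1_hasSum0.summable,
    nb1_hasSum0.tsum_eq, ENNReal.ofReal_one]

instance isProb_nb (m : ℕ) : IsProbabilityMeasure (nb m) := by
  induction m with
  | zero => unfold nb; infer_instance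
  | succ m ih => unfold nb; infer_instance

theorem nb1_zero : nb 0 = Measure.dirac 0 := rfl

theorem nb1_succ (m : ℕ) : nb (m + 1) = nb m ∗ gam := rfl

theorem nb1_one : nb 1 = gam := by
  rw [nb1_succ, nb1_zero, Measure.dirac_zero_conv]

theorem nb_add (a b : ℕ) : nb (a + b) = nb a ∗ nb b := by
  induction b with
  | zero => rw [nb1_zero, Measure.conv_dirac_zero, add_zero]
  | succ b ih => rw [← add_assoc, nb1_succ, ih, nb1_succ, Measure.conv_assoc]

theorem integral_nb_add (a b : ℕ) (f : ℤ → ℝ) (hf : Integrable f (nb (a + b))) :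
    ∫ x, f x ∂(nb (a + b)) = ∫ x, (∫ y, f (x + y) ∂(nb b)) ∂(nb a) := by
  rw [nb_add] at hf ⊢
  exact integral_conv hf

theorem nb1_ofReal_ne_top (j : ℕ) : ENNReal.ofReal ((1/2 : ℝ) ^ (j+1)) ≠ ∞ :=
  ENNReal.ofReal_ne_top

theorem nb1_toReal (j : ℕ) :
    (ENNReal.ofReal ((1/2 : ℝ) ^ (j+1))).toReal = (1/2 : ℝ) ^ (j+1) :=
  ENNReal.toReal_ofReal (by positivity)

theorem nb1_gam_integrable_iff (f : ℤ → ℝ) :
    Integrable f gam ↔ Summable (fun j : ℕ => (1/2 : ℝ) ^ (j+1) * |f ((j:ℤ) - 1)|) := by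
  unfold gam
  rw [integrable_sum_dirac_iff nb1_ofReal_ne_top]
  simp_rw [nb1_toReal, Real.norm_eq_abs]

theorem nb1_gam_integral (f : ℤ → ℝ) :
    ∫ x, f x ∂gam = ∑' j : ℕ, (1/2 : ℝ) ^ (j+1) * f ((j:ℤ) - 1) := by
  unfold gam
  rw [integral_sum_dirac nb1_ofReal_ne_top]
  simp_rw [nb1_toReal, smul_eq_mul]

theorem nb1_gam_int_sq : Integrable (fun x : ℤ => (x:ℝ) ^ 2) gam := by
  rw [nb1_gam_integrable_iff]
  have h := ((nb1_hasSum2.sub (nb1_hasSum1.mul_left 2)).add nb1_hasSum0)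
  refine h.summable.congr (fun j => ?_)
  rw [abs_of_nonneg (sq_nonneg _)]
  push_cast
  ring

theorem nb1_gam_var : ∫ x, (x:ℝ) ^ 2 ∂gam = 2 := by
  rw [nb1_gam_integral]
  have h : HasSum (fun j : ℕ => (1/2 : ℝ) ^ (j+1) * ((((j:ℤ) - 1 : ℤ) : ℝ)) ^ 2) 2 := by
    convert! ((nb1_hasSum2.sub (nb1_hasSum1.mul_left 2)).add nb1_hasSum0) using 1
    · funext j; push_cast; ring
    · norm_num
  exact h.tsum_eq

theorem nb1_gam_int_id : Integrable (fun x : ℤ => (x:ℝ)) gam := by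
  rw [nb1_gam_integrable_iff]
  have h := (nb1_hasSum1.add nb1_hasSum0)
  refine Summable.of_nonneg_of_le (fun j => by positivity) (fun j => ?_) h.summable
  have : |(((j:ℤ) - 1 : ℤ) : ℝ)| ≤ (j:ℝ) + 1 := by
    push_cast
    rw [abs_le]
    constructor <;> [skip; skip]
    · have : (0:ℝ) ≤ j := Nat.cast_nonneg j
      linarith
    · linarith
  calc (1/2 : ℝ) ^ (j+1) * |(((j:ℤ) - 1 : ℤ) : ℝ)| ≤ (1/2 : ℝ) ^ (j+1) * ((j:ℝ) + 1) := by
        gcongr
    _ = _ := by ring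

theorem nb1_gam_mean : ∫ x, (x:ℝ) ∂gam = 0 := by
  rw [nb1_gam_integral]
  have h : HasSum (fun j : ℕ => (1/2 : ℝ) ^ (j+1) * ((((j:ℤ) - 1 : ℤ) : ℝ))) 0 := by
    convert! (nb1_hasSum1.sub nb1_hasSum0) using 1
    · funext j; push_cast; ring
    · norm_num
  exact h.tsum_eq

theorem gam_mean_abs : Integrable (fun x : ℤ => |(x:ℝ)|) gam ∧ ∫ x, |(x:ℝ)| ∂gam ≤ 2 := by
  have hi : Integrable (fun x : ℤ => |(x:ℝ)|) gam := nb1_gam_int_id.abs
  refine ⟨hi, ?_⟩
  rw [nb1_gam_integral]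
  have h := (nb1_hasSum1.add nb1_hasSum0)
  rw [nb1_gam_integrable_iff] at hi
  have hi' : Summable (fun j : ℕ => (1/2 : ℝ) ^ (j+1) * |(((j:ℤ) - 1 : ℤ) : ℝ)|) := by
    simpa using hi
  refine (Summable.tsum_le_tsum (fun j => ?_) hi' h.summable).trans ?_
  · have : |(((j:ℤ) - 1 : ℤ) : ℝ)| ≤ (j:ℝ) + 1 := by
      push_cast
      rw [abs_le]
      constructor
      · have : (0:ℝ) ≤ j := Nat.cast_nonneg j
        linarith
      · linarith
    calc (1/2 : ℝ) ^ (j+1) * |(((j:ℤ) - 1 : ℤ) : ℝ)| ≤ (1/2 : ℝ) ^ (j+1) * ((j:ℝ) + 1) := by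
          gcongr
      _ = _ := by ring
  · rw [h.tsum_eq]; norm_num

/-- The second moment is finite, so is the first. -/
theorem nb1_int_id_of_sq {μ : Measure ℤ} [IsProbabilityMeasure μ]
    (h : Integrable (fun x : ℤ => (x:ℝ) ^ 2) μ) : Integrable (fun x : ℤ => (x:ℝ)) μ := by
  refine Integrable.mono' (h.add (integrable_const (1:ℝ)))
    (measurable_from_top.aestronglyMeasurable) (ae_of_all _ fun x => ?_)
  simp only [Pi.add_apply, Real.norm_eq_abs]
  rw [abs_le]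
  constructor <;> nlinarith [sq_nonneg ((x:ℝ) - 1), sq_nonneg ((x:ℝ) + 1)]

theorem nb1_conv_moments {μ ν : Measure ℤ} [IsProbabilityMeasure μ] [IsProbabilityMeasure ν]
    (hμ2 : Integrable (fun x : ℤ => (x:ℝ) ^ 2) μ) (hν2 : Integrable (fun x : ℤ => (x:ℝ) ^ 2) ν)
    (hμ0 : ∫ x, (x:ℝ) ∂μ = 0) (hν0 : ∫ x, (x:ℝ) ∂ν = 0) :
    Integrable (fun x : ℤ => (x:ℝ) ^ 2) (μ ∗ ν) ∧ ∫ x, (x:ℝ) ∂(μ ∗ ν) = 0 ∧
      ∫ x, (x:ℝ) ^ 2 ∂(μ ∗ ν) = ∫ x, (x:ℝ) ^ 2 ∂μ + ∫ x, (x:ℝ) ^ 2 ∂ν := by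
  have hμ1 := nb1_int_id_of_sq hμ2
  have hν1 := nb1_int_id_of_sq hν2
  have hexp : ∀ x : ℤ, Integrable (fun y : ℤ => ((x + y : ℤ) : ℝ) ^ 2) ν := by
    intro x
    have : (fun y : ℤ => ((x + y : ℤ) : ℝ) ^ 2) =
        fun y : ℤ => (x:ℝ) ^ 2 + 2 * (x:ℝ) * (y:ℝ) + (y:ℝ) ^ 2 := by
      funext y; push_cast; ring
    rw [this]
    exact ((integrable_const _).add (hν1.const_mul _)).add hν2
  have hval : ∀ x : ℤ, ∫ y : ℤ, ((x + y : ℤ) : ℝ) ^ 2 ∂ν = (x:ℝ) ^ 2 + ∫ y, (y:ℝ) ^ 2 ∂ν := by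
    intro x
    have : (fun y : ℤ => ((x + y : ℤ) : ℝ) ^ 2) =
        fun y : ℤ => ((x:ℝ) ^ 2 + 2 * (x:ℝ) * (y:ℝ)) + (y:ℝ) ^ 2 := by
      funext y; push_cast; ring
    have i1 : Integrable (fun y : ℤ => (x:ℝ) ^ 2 + 2 * (x:ℝ) * (y:ℝ)) ν :=
      (integrable_const _).add (hν1.const_mul _)
    rw [this, integral_add i1 hν2, integral_add (integrable_const _) (hν1.const_mul _),
      integral_const_mul, hν0]
    simp
  have hsq : Integrable (fun x : ℤ => (x:ℝ) ^ 2) (μ ∗ ν) := by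
    rw [integrable_conv_iff measurable_from_top.aestronglyMeasurable]
    refine ⟨ae_of_all _ hexp, ?_⟩
    have : (fun x : ℤ => ∫ y : ℤ, ‖((x + y : ℤ) : ℝ) ^ 2‖ ∂ν) =
        fun x : ℤ => (x:ℝ) ^ 2 + ∫ y, (y:ℝ) ^ 2 ∂ν := by
      funext x
      rw [← hval x]
      refine integral_congr_ae (ae_of_all _ fun y => ?_)
      simp only [Real.norm_eq_abs]
      exact abs_of_nonneg (sq_nonneg _)
    rw [this]
    exact hμ2.add (integrable_const _)
  refine ⟨hsq, ?_, ?_⟩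
  · rw [integral_conv (nb1_int_id_of_sq hsq)]
    have : (fun x : ℤ => ∫ y : ℤ, ((x + y : ℤ) : ℝ) ∂ν) = fun x : ℤ => (x:ℝ) := by
      funext x
      have e : (fun y : ℤ => ((x + y : ℤ) : ℝ)) = fun y : ℤ => (x:ℝ) + (y:ℝ) := by
        funext y; push_cast; ring
      rw [e, integral_add (integrable_const _) hν1, hν0]
      simp
    rw [this, hμ0]
  · rw [integral_conv hsq]
    simp_rw [hval]
    rw [integral_add hμ2 (integrable_const _)]
    simp

theorem nb1_all (m : ℕ) : Integrable (fun x : ℤ => (x:ℝ) ^ 2) (nb m) ∧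
    ∫ x, (x:ℝ) ∂(nb m) = 0 ∧ ∫ x, (x:ℝ) ^ 2 ∂(nb m) = 2 * m := by
  induction m with
  | zero =>
    rw [nb1_zero]
    refine ⟨integrable_dirac (by simp), ?_, ?_⟩
    · rw [integral_dirac]; simp
    · rw [integral_dirac]; simp
  | succ m ih =>
    obtain ⟨h1, h2, h3⟩ := ih
    obtain ⟨g1, g2, g3⟩ := nb1_conv_moments h1 nb1_gam_int_sq h2 nb1_gam_mean
    rw [nb1_succ]
    refine ⟨g1, g2, ?_⟩
    rw [g3, h3, nb1_gam_var]
    push_cast
    ring

theorem nb_mean (m : ℕ) :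
    Integrable (fun x : ℤ => (x:ℝ)) (nb m) ∧ ∫ x, (x:ℝ) ∂(nb m) = 0 :=
  ⟨nb1_int_id_of_sq (nb1_all m).1, (nb1_all m).2.1⟩

theorem nb_var (m : ℕ) :
    Integrable (fun x : ℤ => (x:ℝ) ^ 2) (nb m) ∧ ∫ x, (x:ℝ) ^ 2 ∂(nb m) = 2 * m :=
  ⟨(nb1_all m).1, (nb1_all m).2.2⟩

theorem nb1_map_one {Ω : Type*} [MeasurableSpace Ω] (P : Measure Ω) [IsProbabilityMeasure P]
    (g : Ω → ℕ) (hm : Measurable g)
    (hl : ∀ j, 1 ≤ j → P {ω | g ω = j} = ENNReal.ofReal ((1/2 : ℝ) ^ j)) :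
    P.map (fun ω => ((g ω : ℤ) - 2)) = gam := by
  have hmz : Measurable (fun ω => ((g ω : ℤ) - 2)) :=
    (measurable_from_top (f := fun n : ℕ => ((n : ℤ) - 2))).comp hm
  have : IsProbabilityMeasure (P.map (fun ω => ((g ω : ℤ) - 2))) :=
    Measure.isProbabilityMeasure_map hmz.aemeasurable
  symm
  apply Measure.eq_of_le_of_isProbabilityMeasure
  rw [Measure.le_iff]
  intro s hs
  unfold gam
  rw [Measure.sum_apply _ hs]
  have h1 : ∀ j : ℕ, (ENNReal.ofReal ((1/2 : ℝ) ^ (j+1)) • Measure.dirac ((j:ℤ) - 1)) s =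
      P.map (fun ω => ((g ω : ℤ) - 2)) (s ∩ {(j:ℤ) - 1}) := by
    intro j
    rw [Measure.smul_apply, Measure.dirac_apply' _ hs, smul_eq_mul]
    by_cases hj : (j:ℤ) - 1 ∈ s
    · rw [Set.indicator_of_mem hj, Pi.one_apply, mul_one,
        Set.inter_eq_right.mpr (Set.singleton_subset_iff.mpr hj),
        Measure.map_apply hmz (measurableSet_singleton _), ← hl (j+1) (by omega)]
      congr 1
      ext ω
      simp only [Set.mem_ofPred_eq, Set.mem_preimage, Set.mem_singleton_iff]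
      omega
    · rw [Set.indicator_of_notMem hj, mul_zero]
      have : s ∩ {(j:ℤ) - 1} = ∅ := by
        ext x
        simp only [Set.mem_inter_iff, Set.mem_singleton_iff, Set.mem_empty_iff_false, iff_false]
        rintro ⟨h1, h2⟩
        exact hj (h2 ▸ h1)
      rw [this, measure_empty]
  simp_rw [h1]
  have hd : Pairwise (Function.onFun Disjoint (fun j : ℕ => s ∩ {(j:ℤ) - 1})) := by
    intro i j hij
    refine Set.disjoint_left.mpr ?_
    intro x hx hx'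
    apply hij
    have e1 : x = (i:ℤ) - 1 := hx.2
    have e2 : x = (j:ℤ) - 1 := hx'.2
    omega
  rw [← measure_iUnion hd (fun j => hs.inter (measurableSet_singleton _))]
  exact measure_mono (Set.iUnion_subset fun j => Set.inter_subset_left)

theorem nb_map_sum {Ω : Type*} [MeasurableSpace Ω] (P : Measure Ω) [IsProbabilityMeasure P]
    (g : ℕ → Ω → ℕ) (hm : ∀ k, Measurable (g k)) (hi : iIndepFun g P)
    (hl : ∀ k j, 1 ≤ j → P {ω | g k ω = j} = ENNReal.ofReal ((1/2 : ℝ) ^ j)) (m : ℕ) :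
    P.map (fun ω => ∑ k ∈ Finset.range m, ((g k ω : ℤ) - 2)) = nb m := by
  have hmz : ∀ k, Measurable (fun ω => ((g k ω : ℤ) - 2)) := fun k =>
    (measurable_from_top (f := fun n : ℕ => ((n : ℤ) - 2))).comp (hm k)
  have hiz : iIndepFun (fun k ω => ((g k ω : ℤ) - 2)) P :=
    hi.comp (fun _ n => ((n : ℤ) - 2)) (fun _ => measurable_from_top)
  induction m with
  | zero =>
    simp only [Finset.range_zero, Finset.sum_empty, nb1_zero]
    rw [Measure.map_const, measure_univ, one_smul]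
  | succ m ih =>
    have h1 : (fun ω => ∑ k ∈ Finset.range (m+1), ((g k ω : ℤ) - 2)) =
        (∑ k ∈ Finset.range m, fun ω => ((g k ω : ℤ) - 2)) + fun ω => ((g m ω : ℤ) - 2) := by
      funext ω
      rw [Finset.sum_range_succ, Pi.add_apply, Finset.sum_apply]
    have hind := hiz.indepFun_finsetSum_of_notMem hmz
      (s := Finset.range m) (i := m) (by simp)
    have hms : Measurable (∑ k ∈ Finset.range m, fun ω => ((g k ω : ℤ) - 2)) :=
      by
      have e : (∑ k ∈ Finset.range m, fun ω => ((g k ω : ℤ) - 2)) =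
          fun ω => ∑ k ∈ Finset.range m, ((g k ω : ℤ) - 2) := by
        funext ω; rw [Finset.sum_apply]
      rw [e]
      exact Finset.measurable_sum _ (fun k _ => hmz k)
    rw [h1, hind.map_add_eq_map_conv_map₀ hms.aemeasurable (hmz m).aemeasurable, nb1_succ,
      nb1_map_one P (g m) (hm m) (hl m)]
    congr 1
    rw [← ih]
    congr 1
    funext ω
    rw [Finset.sum_apply]

end Pool.Agent.Helper7.Stuck
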