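import Pool.Agent.Helper7.Stuck.NB1

/-!
# The masses of `nb m` and the Hellinger bound for shifts
-/

open MeasureTheory ProbabilityTheory Filter Topology
open scoped NNReal ENNReal

namespace Pool.Agent.Helper7.Stuck

universe u

/-- Integrals over `ℤ` as sums. -/
theorem nb2_hasSum (μ : Measure ℤ) (f : ℤ → ℝ) (hf : Integrable f μ) :
    HasSum (fun x : ℤ => μ.real {x} * f x) (∫ x, f x ∂μ) := by
  have h0 : Integrable f (Measure.sum fun a => μ {a} • Measure.dirac a) := by
    rw [Measure.sum_smul_dirac μ]; exact hf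
  have h := hasSum_integral_measure h0
  rw [Measure.sum_smul_dirac μ] at h
  convert! h using 1
  funext x
  rw [integral_smul_measure, integral_dirac, smul_eq_mul, measureReal_def]

theorem nb2_real_eq (μ : Measure ℤ) (x : ℤ) :
    μ.real {x} = ∫ t, Set.indicator {x} (fun _ => (1:ℝ)) t ∂μ := by
  rw [integral_indicator (measurableSet_singleton x)]
  simp [measureReal_def]

theorem nb2_step_sum (m : ℕ) (x : ℤ) :
    HasSum (fun j : ℕ => (1/2 : ℝ) ^ (j+1) * (nb m).real {x + 1 - j}) ((nb (m+1)).real {x}) := by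
  have hint : Integrable (Set.indicator {x} (fun _ => (1:ℝ))) (nb (1 + m)) :=
    (integrable_const (1:ℝ)).indicator (measurableSet_singleton x)
  have h1 : (nb (m+1)).real {x} = ∫ s, (nb m).real {x - s} ∂gam := by
    rw [nb2_real_eq, add_comm m 1, integral_nb_add 1 m _ hint, nb1_one]
    refine integral_congr_ae (ae_of_all _ fun s => ?_)
    simp only
    rw [nb2_real_eq]
    refine integral_congr_ae (ae_of_all _ fun t => ?_)
    simp only [Set.indicator, Set.mem_singleton_iff]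
    by_cases h : s + t = x
    · rw [if_pos h, if_pos (by omega)]
    · rw [if_neg h, if_neg (by omega)]
  have h2 : Integrable (fun s : ℤ => (nb m).real {x - s}) gam := by
    refine Integrable.mono' (integrable_const (1:ℝ)) measurable_from_top.aestronglyMeasurable
      (ae_of_all _ fun s => ?_)
    rw [Real.norm_eq_abs, abs_of_nonneg measureReal_nonneg]
    exact measureReal_le_one
  have h3 := (nb1_gam_integrable_iff _).1 h2
  have h4 : Summable (fun j : ℕ => (1/2 : ℝ) ^ (j+1) * (nb m).real {x + 1 - j}) := by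
    refine h3.congr (fun j => ?_)
    rw [abs_of_nonneg measureReal_nonneg]
    congr 3
    ring_nf
  rw [h1, nb1_gam_integral]
  have h5 : (fun j : ℕ => (1/2 : ℝ) ^ (j+1) * (nb m).real {x - ((j:ℤ) - 1)}) =
      fun j : ℕ => (1/2 : ℝ) ^ (j+1) * (nb m).real {x + 1 - j} := by
    funext j
    congr 3
    ring_nf
  rw [h5]
  exact h4.hasSum

/-- The basic recurrence. -/
theorem nb2_rec (m : ℕ) (x : ℤ) :
    (nb (m+1)).real {x} = ((nb m).real {x + 1} + (nb (m+1)).real {x - 1}) / 2 := by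
  have h := nb2_step_sum m x
  have h' := nb2_step_sum m (x - 1)
  have h1 := (hasSum_nat_add_iff' (f := fun j : ℕ =>
    (1/2 : ℝ) ^ (j+1) * (nb m).real {x + 1 - j}) 1).2 h
  have h2 := h'.mul_left (1/2 : ℝ)
  have h3 : (fun j : ℕ => (1/2 : ℝ) * ((1/2 : ℝ) ^ (j+1) * (nb m).real {x - 1 + 1 - j})) =
      fun j : ℕ => (1/2 : ℝ) ^ (j+1+1) * (nb m).real {x + 1 - ((j+1 : ℕ) : ℤ)} := by
    funext j
    have e : x - 1 + 1 - (j:ℤ) = x + 1 - ((j+1 : ℕ) : ℤ) := by push_cast; ring
    rw [e, pow_succ (1/2 : ℝ) (j+1)]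
    ring
  rw [h3] at h2
  have h4 := h1.unique h2
  rw [Finset.sum_range_one] at h4
  simp only [Nat.cast_zero, sub_zero, zero_add, pow_one] at h4
  linarith

theorem nb_mass_neg (m : ℕ) (x : ℤ) (hx : x < -m) : (nb m).real {x} = 0 := by
  induction m generalizing x with
  | zero =>
    rw [nb1_zero, measureReal_def, Measure.dirac_apply' _ (measurableSet_singleton x),
      Set.indicator_of_notMem]
    · simp
    · simp only [Set.mem_singleton_iff]
      intro h
      rw [← h] at hx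
      simp at hx
  | succ m ih =>
    have h := nb2_step_sum m x
    have h0 : (fun j : ℕ => (1/2 : ℝ) ^ (j+1) * (nb m).real {x + 1 - j}) = fun _ => 0 := by
      funext j
      rw [ih (x + 1 - j) (by push_cast at hx; omega), mul_zero]
    rw [h0] at h
    exact h.unique hasSum_zero

theorem nb_mass (m : ℕ) (hm : 1 ≤ m) (y : ℕ) :
    (nb m).real {(y:ℤ) - 2 * m} =
      if m ≤ y then (Nat.choose (y - 1) (m - 1) : ℝ) * (1/2) ^ y else 0 := by
  induction m, hm using Nat.le_induction generalizing y with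
  | base =>
    induction y with
    | zero =>
      rw [nb_mass_neg 1 _ (by norm_num)]
      simp
    | succ y ih =>
      have h := nb2_rec 0 (((y+1 : ℕ):ℤ) - 2 * (1:ℕ))
      have e1 : ((y+1 : ℕ):ℤ) - 2 * (1:ℕ) - 1 = (y:ℤ) - 2 * (1:ℕ) := by push_cast; ring
      have e2 : ((y+1 : ℕ):ℤ) - 2 * (1:ℕ) + 1 = (y:ℤ) := by push_cast; ring
      rw [zero_add, e1, e2, ih] at h
      rw [h, nb1_zero, measureReal_def, Measure.dirac_apply' _ (measurableSet_singleton _)]
      rcases Nat.eq_zero_or_pos y with rfl | hy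
      · simp
      · rw [Set.indicator_of_notMem (by
          simp only [Set.mem_singleton_iff]; omega), if_pos (by omega), if_pos (by omega)]
        simp [pow_succ]
        ring
  | succ m hm ihm =>
    induction y with
    | zero =>
      rw [nb_mass_neg (m+1) _ (by push_cast; omega)]
      simp
    | succ y ih =>
      have h := nb2_rec m (((y+1 : ℕ):ℤ) - 2 * ((m+1 : ℕ):ℤ))
      have e1 : ((y+1 : ℕ):ℤ) - 2 * ((m+1 : ℕ):ℤ) - 1 = (y:ℤ) - 2 * ((m+1 : ℕ):ℤ) := by
        push_cast; ring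
      have e2 : ((y+1 : ℕ):ℤ) - 2 * ((m+1 : ℕ):ℤ) + 1 = (y:ℤ) - 2 * m := by push_cast; ring
      rw [e1, e2, ih, ihm] at h
      rw [h]
      by_cases hy : m ≤ y
      · rw [if_pos hy, if_pos (by omega : m + 1 ≤ y + 1)]
        obtain ⟨z, rfl⟩ : ∃ z, y = z + 1 := ⟨y - 1, by omega⟩
        obtain ⟨k, rfl⟩ : ∃ k, m = k + 1 := ⟨m - 1, by omega⟩
        have hp : Nat.choose (z + 1 + 1 - 1) (k + 1 + 1 - 1) =
            Nat.choose (z + 1 - 1) (k + 1 - 1) + Nat.choose (z + 1 - 1) (k + 1 + 1 - 1) := by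
          simp only [Nat.add_sub_cancel]
          exact Nat.choose_succ_succ z k
        rw [hp]
        by_cases h2 : k + 1 + 1 ≤ z + 1
        · rw [if_pos h2, pow_succ (1/2 : ℝ) (z+1)]
          push_cast
          ring
        · rw [if_neg h2, Nat.choose_eq_zero_of_lt (by omega : z + 1 - 1 < k + 1 + 1 - 1),
            pow_succ (1/2 : ℝ) (z+1)]
          push_cast
          ring
      · rw [if_neg hy, if_neg (by omega), if_neg (by omega)]
        simp

theorem nb2_ratio (K : ℕ) (hK : 2 ≤ K) (y : ℕ) (hy : K ≤ y) :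
    (nb K).real {(y:ℤ) - 2 * K - 1} * ((y:ℝ) - 1) =
      2 * (nb K).real {(y:ℤ) - 2 * K} * ((y:ℝ) - K) := by
  obtain ⟨z, rfl⟩ : ∃ z, y = z + 2 := ⟨y - 2, by omega⟩
  have e1 : ((z + 2 : ℕ):ℤ) - 2 * K - 1 = ((z + 1 : ℕ) : ℤ) - 2 * K := by push_cast; ring
  rw [e1, nb_mass K (by omega), nb_mass K (by omega), if_pos hy]
  by_cases h : K ≤ z + 1
  · rw [if_pos h]
    have hc := Nat.choose_mul_succ_eq z (K - 1)
    have hc' : (Nat.choose z (K - 1) : ℝ) * ((z:ℝ) + 1) =
        (Nat.choose (z + 1) (K - 1) : ℝ) * ((z:ℝ) + 2 - K) := by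
      have h1 : ((z + 1 - (K - 1) : ℕ) : ℝ) = (z:ℝ) + 2 - K := by
        rw [Nat.cast_sub (by omega), Nat.cast_sub (by omega)]
        push_cast; ring
      rw [← h1]
      exact_mod_cast hc
    have e2 : z + 1 - 1 = z := by omega
    have e3 : z + 2 - 1 = z + 1 := by omega
    rw [e2, e3, pow_succ (1/2 : ℝ) (z + 1)]
    push_cast
    linear_combination (1/2 : ℝ) ^ (z + 1) * hc'
  · rw [if_neg h]
    have : K = z + 2 := by omega
    subst this
    push_cast
    ring

theorem nb2_one_point (K : ℕ) (hK : 2 ≤ K) (x : ℤ) :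
    (√((nb K).real {x}) - √((nb K).real {x - 1})) ^ 2 ≤
      (nb K).real {x} * (((x:ℝ) + 1) ^ 2) / ((K:ℝ) - 1) ^ 2 := by
  have hK2 : (2:ℝ) ≤ K := by exact_mod_cast hK
  by_cases hx : x < -K
  · rw [nb_mass_neg K x hx, nb_mass_neg K (x - 1) (by omega)]
    simp
  · push Not at hx
    obtain ⟨y, hy⟩ : ∃ y : ℕ, x = (y:ℤ) - 2 * K := ⟨(x + 2 * K).toNat, by omega⟩
    have hKy : K ≤ y := by omega
    have hr := nb2_ratio K hK y hKy
    rw [← hy] at hr
    have hxr : (x:ℝ) = (y:ℝ) - 2 * K := by rw [hy]; push_cast; ring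
    have hyr : (K:ℝ) ≤ y := by exact_mod_cast hKy
    set P := (nb K).real {x} with hP
    set Q := (nb K).real {x - 1} with hQ
    have hP0 : 0 ≤ P := measureReal_nonneg
    have hQ0 : 0 ≤ Q := measureReal_nonneg
    have hy1 : 0 < (y:ℝ) - 1 := by linarith
    rcases hP0.eq_or_lt with h0 | hpos
    · have : Q = 0 := by
        rw [← h0] at hr
        simp only [mul_zero, zero_mul] at hr
        rcases mul_eq_zero.1 hr with h | h
        · exact h
        · linarith
      rw [← h0, this]; simp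
    · have hd : (P - Q) * ((y:ℝ) - 1) = - P * ((x:ℝ) + 1) := by
        rw [hxr]; linear_combination -hr
      have hsq : (√P - √Q) ^ 2 * (√P + √Q) ^ 2 = (P - Q) ^ 2 := by
        rw [← mul_pow]
        congr 1
        have h1 := Real.sq_sqrt hP0
        have h2 := Real.sq_sqrt hQ0
        linear_combination h1 - h2
      have hge : P ≤ (√P + √Q) ^ 2 := by
        have h1 := Real.sq_sqrt hP0
        have h2 := Real.sq_sqrt hQ0
        have h3 := mul_nonneg (Real.sqrt_nonneg P) (Real.sqrt_nonneg Q)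
        nlinarith
      have h1 : (√P - √Q) ^ 2 * P ≤ (P - Q) ^ 2 := by
        rw [← hsq]
        exact mul_le_mul_of_nonneg_left hge (sq_nonneg _)
      have h2 : (P - Q) ^ 2 * ((y:ℝ) - 1) ^ 2 = P ^ 2 * ((x:ℝ) + 1) ^ 2 := by
        rw [← mul_pow, hd]; ring
      have h3 : (√P - √Q) ^ 2 * ((y:ℝ) - 1) ^ 2 ≤ P * ((x:ℝ) + 1) ^ 2 := by
        have h4 : (√P - √Q) ^ 2 * P * ((y:ℝ) - 1) ^ 2 ≤ P ^ 2 * ((x:ℝ) + 1) ^ 2 := by
          rw [← h2]
          exact mul_le_mul_of_nonneg_right h1 (sq_nonneg _)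
        have h5 : P * ((√P - √Q) ^ 2 * ((y:ℝ) - 1) ^ 2) ≤ P * (P * ((x:ℝ) + 1) ^ 2) := by
          calc _ = (√P - √Q) ^ 2 * P * ((y:ℝ) - 1) ^ 2 := by ring
            _ ≤ _ := h4
            _ = _ := by ring
        exact le_of_mul_le_mul_left h5 hpos
      rw [le_div_iff₀ (by nlinarith)]
      refine le_trans ?_ h3
      refine mul_le_mul_of_nonneg_left ?_ (sq_nonneg _)
      nlinarith

theorem nb2_mass_hasSum (K : ℕ) : HasSum (fun x : ℤ => (nb K).real {x}) 1 := by
  have h := nb2_hasSum (nb K) (fun _ => 1) (integrable_const _)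
  simpa using h

theorem nb2_one_shift (K : ℕ) (hK : 1 ≤ K) :
    Summable (fun x : ℤ => (√((nb K).real {x}) - √((nb K).real {x - 1})) ^ 2) ∧
    ∑' x : ℤ, (√((nb K).real {x}) - √((nb K).real {x - 1})) ^ 2 ≤ 12 / K := by
  rcases hK.eq_or_lt with h1 | hK2
  · subst h1
    have hs := nb2_mass_hasSum 1
    have hs' : HasSum (fun x : ℤ => (nb 1).real {x - 1}) 1 :=
      (Equiv.subRight (1:ℤ)).hasSum_iff.2 hs
    have hle : ∀ x : ℤ, (√((nb 1).real {x}) - √((nb 1).real {x - 1})) ^ 2 ≤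
        (nb 1).real {x} + (nb 1).real {x - 1} := by
      intro x
      have hP0 : 0 ≤ (nb 1).real {x} := measureReal_nonneg
      have hQ0 : 0 ≤ (nb 1).real {x - 1} := measureReal_nonneg
      have h1 := Real.sq_sqrt hP0
      have h2 := Real.sq_sqrt hQ0
      have h3 := mul_nonneg (Real.sqrt_nonneg ((nb 1).real {x}))
        (Real.sqrt_nonneg ((nb 1).real {x - 1}))
      nlinarith
    have hsum : Summable (fun x : ℤ => (√((nb 1).real {x}) - √((nb 1).real {x - 1})) ^ 2) :=
      Summable.of_nonneg_of_le (fun x => sq_nonneg _) hle (hs.add hs').summable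
    refine ⟨hsum, (Summable.tsum_le_tsum hle hsum (hs.add hs').summable).trans ?_⟩
    rw [(hs.add hs').tsum_eq]
    norm_num
  · have hK2' : 2 ≤ K := hK2
    have hKr : (2:ℝ) ≤ K := by exact_mod_cast hK2'
    have hint : Integrable (fun x : ℤ => ((x:ℝ) + 1) ^ 2) (nb K) := by
      have e : (fun x : ℤ => ((x:ℝ) + 1) ^ 2) =
          fun x : ℤ => (x:ℝ) ^ 2 + 2 * (x:ℝ) + 1 := by funext x; ring
      rw [e]
      exact ((nb_var K).1.add ((nb_mean K).1.const_mul 2)).add (integrable_const _)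
    have hval : ∫ x : ℤ, ((x:ℝ) + 1) ^ 2 ∂(nb K) = 2 * (K:ℝ) + 1 := by
      have e : (fun x : ℤ => ((x:ℝ) + 1) ^ 2) =
          fun x : ℤ => ((x:ℝ) ^ 2 + 2 * (x:ℝ)) + 1 := by funext x; ring
      have i1 : Integrable (fun x : ℤ => (x:ℝ) ^ 2 + 2 * (x:ℝ)) (nb K) :=
        (nb_var K).1.add ((nb_mean K).1.const_mul 2)
      rw [e, integral_add i1 (integrable_const _),
        integral_add (nb_var K).1 ((nb_mean K).1.const_mul 2), integral_const_mul,
        (nb_mean K).2, (nb_var K).2]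
      simp
    have hs := (nb2_hasSum (nb K) _ hint).div_const (((K:ℝ) - 1) ^ 2)
    rw [hval] at hs
    have hle := nb2_one_point K hK2'
    have hsum : Summable (fun x : ℤ => (√((nb K).real {x}) - √((nb K).real {x - 1})) ^ 2) :=
      Summable.of_nonneg_of_le (fun x => sq_nonneg _) hle hs.summable
    refine ⟨hsum, (Summable.tsum_le_tsum hle hsum hs.summable).trans ?_⟩
    rw [hs.tsum_eq, div_le_div_iff₀ (by nlinarith) (by linarith)]
    nlinarith

theorem nb2_nat_shift (K : ℕ) (hK : 1 ≤ K) (h : ℕ) :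
    Summable (fun x : ℤ => (√((nb K).real {x}) - √((nb K).real {x - h})) ^ 2) ∧
    ∑' x : ℤ, (√((nb K).real {x}) - √((nb K).real {x - h})) ^ 2 ≤ 12 * (h:ℝ) ^ 2 / K := by
  obtain ⟨hs, hb⟩ := nb2_one_shift K hK
  have hle : ∀ x : ℤ, (√((nb K).real {x}) - √((nb K).real {x - h})) ^ 2 ≤
      (h:ℝ) * ∑ k ∈ Finset.range h,
        (√((nb K).real {x - k}) - √((nb K).real {x - k - 1})) ^ 2 := by
    intro x
    have h1 : √((nb K).real {x}) - √((nb K).real {x - h}) =
        ∑ k ∈ Finset.range h, (√((nb K).real {x - k}) - √((nb K).real {x - k - 1})) := by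
      have e := Finset.sum_range_sub' (fun k : ℕ => √((nb K).real {x - k})) h
      simp only [Nat.cast_zero, sub_zero] at e
      rw [← e]
      refine Finset.sum_congr rfl (fun k _ => ?_)
      have : x - ((k + 1 : ℕ) : ℤ) = x - k - 1 := by push_cast; ring
      rw [this]
    rw [h1]
    have h2 := sq_sum_le_card_mul_sum_sq (s := Finset.range h)
      (f := fun k : ℕ => (√((nb K).real {x - k}) - √((nb K).real {x - k - 1})))
    rw [Finset.card_range] at h2
    exact h2
  have hk : ∀ k : ℕ, HasSum (fun x : ℤ =>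
      (√((nb K).real {x - k}) - √((nb K).real {x - k - 1})) ^ 2)
      (∑' x : ℤ, (√((nb K).real {x}) - √((nb K).real {x - 1})) ^ 2) := by
    intro k
    exact (Equiv.subRight (k:ℤ)).hasSum_iff.2 hs.hasSum
  have hsum2 := (hasSum_sum (s := Finset.range h) (fun k _ => hk k)).mul_left (h:ℝ)
  have hsum : Summable (fun x : ℤ => (√((nb K).real {x}) - √((nb K).real {x - h})) ^ 2) :=
    Summable.of_nonneg_of_le (fun x => sq_nonneg _) hle hsum2.summable
  refine ⟨hsum, (Summable.tsum_le_tsum hle hsum hsum2.summable).trans ?_⟩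
  rw [hsum2.tsum_eq, Finset.sum_const, Finset.card_range, nsmul_eq_mul]
  have hh : (0:ℝ) ≤ h := Nat.cast_nonneg h
  calc (h:ℝ) * ((h:ℝ) * ∑' x : ℤ, (√((nb K).real {x}) - √((nb K).real {x - 1})) ^ 2)
      ≤ (h:ℝ) * ((h:ℝ) * (12 / K)) := by gcongr
    _ = _ := by ring

theorem hell_shift (K : ℕ) (hK : 1 ≤ K) (h : ℤ) :
    Summable (fun x : ℤ => (√((nb K).real {x}) - √((nb K).real {x - h})) ^ 2) ∧
    ∑' x : ℤ, (√((nb K).real {x}) - √((nb K).real {x - h})) ^ 2 ≤ 12 * (h:ℝ) ^ 2 / K := by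
  rcases le_total 0 h with hh | hh
  · obtain ⟨n, rfl⟩ := Int.eq_ofNat_of_zero_le hh
    have := nb2_nat_shift K hK n
    simpa using this
  · obtain ⟨n, hn⟩ := Int.eq_ofNat_of_zero_le (neg_nonneg.2 hh)
    have hn' : h = -(n:ℤ) := by omega
    subst hn'
    obtain ⟨h1, h2⟩ := nb2_nat_shift K hK n
    have h3 : HasSum (fun x : ℤ => (√((nb K).real {x}) - √((nb K).real {x - -(n:ℤ)})) ^ 2)
        (∑' x : ℤ, (√((nb K).real {x}) - √((nb K).real {x - n})) ^ 2) := by
      have := (Equiv.addRight (n:ℤ)).hasSum_iff.2 h1.hasSum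
      convert! this using 1
      funext x
      simp only [Function.comp_apply, Equiv.coe_addRight, add_sub_cancel_right, sub_neg_eq_add]
      ring
    refine ⟨h3.summable, ?_⟩
    rw [h3.tsum_eq]
    simpa using h2

end Pool.Agent.Helper7.Stuck
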