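import Pool.Agent.Helper7.Stuck.NB2

/-!
# Total variation bounds for shifted laws
-/

open MeasureTheory ProbabilityTheory Filter Topology
open scoped NNReal ENNReal

namespace Pool.Agent.Helper7.Stuck

universe u

/-- Integrals over a countable space as sums. -/
theorem nb3_hasSum {α : Type*} [MeasurableSpace α] [Countable α] [MeasurableSingletonClass α]
    (μ : Measure α) (f : α → ℝ) (hf : Integrable f μ) :
    HasSum (fun x : α => μ.real {x} * f x) (∫ x, f x ∂μ) := by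
  have h0 : Integrable f (Measure.sum fun a => μ {a} • Measure.dirac a) := by
    rw [Measure.sum_smul_dirac μ]; exact hf
  have h := hasSum_integral_measure h0
  rw [Measure.sum_smul_dirac μ] at h
  convert! h using 1
  funext x
  rw [integral_smul_measure, integral_dirac, smul_eq_mul, measureReal_def]

theorem nb3_pi_hasSum (L : ℕ) (g : Fin L → ℤ → ℝ) (hg : ∀ i t, 0 ≤ g i t) (r : Fin L → ℝ)
    (hr : ∀ i, HasSum (g i) (r i)) :
    HasSum (fun x : Fin L → ℤ => ∏ i, g i (x i)) (∏ i, r i) := by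
  induction L with
  | zero =>
    simp only [Finset.univ_eq_empty, Finset.prod_empty]
    exact hasSum_unique _
  | succ L ih =>
    have h1 := ih (fun i => g i.succ) (fun i => hg i.succ) (fun i => r i.succ)
      (fun i => hr i.succ)
    have h0 := hr 0
    have hs : Summable (fun x : ℤ × (Fin L → ℤ) => g 0 x.1 * ∏ i, g (Fin.succ i) (x.2 i)) :=
      h0.summable.mul_of_nonneg h1.summable (fun t => hg 0 t)
        (fun x => Finset.prod_nonneg fun i _ => hg _ _)
    have h2 := h0.mul h1 hs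
    rw [Fin.prod_univ_succ]
    rw [← (Fin.consEquiv (fun _ : Fin (L+1) => ℤ)).hasSum_iff]
    convert! h2 using 1
    funext x
    simp only [Function.comp_apply, Fin.consEquiv_apply, Fin.prod_univ_succ, Fin.cons_zero,
      Fin.cons_succ]

theorem nb3_one_sub_prod {L : ℕ} (s : Finset (Fin L)) (r : Fin L → ℝ) (h0 : ∀ i, 0 ≤ r i)
    (h1 : ∀ i, r i ≤ 1) : 1 - ∏ i ∈ s, r i ≤ ∑ i ∈ s, (1 - r i) := by
  classical
  induction s using Finset.induction_on with
  | empty => simp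
  | insert a s ha ih =>
    rw [Finset.prod_insert ha, Finset.sum_insert ha]
    have hp0 : 0 ≤ ∏ i ∈ s, r i := Finset.prod_nonneg fun i _ => h0 i
    have hp1 : ∏ i ∈ s, r i ≤ 1 := Finset.prod_le_one (fun i _ => h0 i) (fun i _ => h1 i)
    nlinarith [h0 a, h1 a]

/-- Comparison of expectations by the Hellinger distance. -/
theorem nb3_tv {α : Type*} (P Q f : α → ℝ) (hP0 : ∀ x, 0 ≤ P x) (hQ0 : ∀ x, 0 ≤ Q x)
    (hP : HasSum P 1) (hQ : HasSum Q 1) (hf : ∀ x, |f x| ≤ 1) (a b : ℝ)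
    (ha : HasSum (fun x => P x * f x) a) (hb : HasSum (fun x => Q x * f x) b) (H M : ℝ)
    (hH : HasSum (fun x => (√(P x) - √(Q x)) ^ 2) H) (hM : 0 < M) (hHM : H ≤ M ^ 2) :
    |b - a| ≤ 2 * M := by
  have hd := hb.sub ha
  have hbound : ∀ x, |Q x * f x - P x * f x| ≤
      (√(P x) - √(Q x)) ^ 2 / M + M / 2 * (P x + Q x) := by
    intro x
    have h1 := Real.sq_sqrt (hP0 x)
    have h2 := Real.sq_sqrt (hQ0 x)
    have h3 := Real.sqrt_nonneg (P x)
    have h4 := Real.sqrt_nonneg (Q x)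
    have e : Q x * f x - P x * f x = (√(Q x) - √(P x)) * (√(Q x) + √(P x)) * f x := by
      have : Q x - P x = (√(Q x) - √(P x)) * (√(Q x) + √(P x)) := by
        linear_combination h1 - h2
      rw [← this]; ring
    rw [e, abs_mul, abs_mul, abs_of_nonneg (add_nonneg h4 h3)]
    have h5 : |√(Q x) - √(P x)| * (√(Q x) + √(P x)) * |f x| ≤
        |√(Q x) - √(P x)| * (√(Q x) + √(P x)) := by
      have := mul_le_mul_of_nonneg_left (hf x)
        (mul_nonneg (abs_nonneg (√(Q x) - √(P x))) (add_nonneg h4 h3))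
      rwa [mul_one] at this
    refine h5.trans ?_
    have h6 : |√(Q x) - √(P x)| ^ 2 = (√(P x) - √(Q x)) ^ 2 := by
      rw [sq_abs]; ring
    rw [← h6]
    have h7 : (√(Q x) + √(P x)) ^ 2 ≤ 2 * (P x + Q x) := by
      nlinarith [sq_nonneg (√(Q x) - √(P x))]
    set A := |√(Q x) - √(P x)| with hA
    set B := √(Q x) + √(P x) with hB
    have h8 : 0 ≤ (A / M - B / 2) ^ 2 := sq_nonneg _
    have h9 : A * B ≤ A ^ 2 / M + M / 4 * B ^ 2 := by
      have : A ^ 2 / M + M / 4 * B ^ 2 - A * B = M * (A / M - B / 2) ^ 2 := by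
        field_simp
        ring
      nlinarith [mul_nonneg hM.le h8]
    refine h9.trans ?_
    have : M / 4 * B ^ 2 ≤ M / 4 * (2 * (P x + Q x)) :=
      mul_le_mul_of_nonneg_left h7 (by positivity)
    linarith
  have hs := (hH.div_const M).add ((hP.add hQ).mul_left (M / 2))
  have hab : Summable (fun x => |Q x * f x - P x * f x|) :=
    Summable.of_nonneg_of_le (fun x => abs_nonneg _) hbound hs.summable
  have h1 : |b - a| ≤ ∑' x, |Q x * f x - P x * f x| := by
    rw [← hd.tsum_eq]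
    have h0 : Summable (fun x => ‖Q x * f x - P x * f x‖) := hab
    exact norm_tsum_le_tsum_norm h0
  refine h1.trans ((Summable.tsum_le_tsum hbound hab hs.summable).trans ?_)
  rw [hs.tsum_eq]
  have : H / M ≤ M := by
    rw [div_le_iff₀ hM]; nlinarith
  linarith

theorem prod_shift (K : ℕ) (hK : 1 ≤ K) (L : ℕ) (h : Fin L → ℤ) (f : (Fin L → ℤ) → ℝ)
    (hf : ∀ x, |f x| ≤ 1) :
    |∫ x, f (x + h) ∂(Measure.pi fun _ => nb K) - ∫ x, f x ∂(Measure.pi fun _ => nb K)| ≤
      7 * √(∑ i, (h i : ℝ) ^ 2 / K) := by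
  have hKr : (0:ℝ) < K := by exact_mod_cast hK
  set μ : Measure (Fin L → ℤ) := Measure.pi fun _ => nb K with hμ
  set S : ℝ := ∑ i, (h i : ℝ) ^ 2 / K with hS
  have hS0 : 0 ≤ S := Finset.sum_nonneg fun i _ => by positivity
  rcases hS0.eq_or_lt with hz | hpos
  · have hz' : ∀ i, h i = 0 := by
      intro i
      have := (Finset.sum_eq_zero_iff_of_nonneg (fun i _ => by positivity)).1 hz.symm i
        (Finset.mem_univ i)
      have h2 : (h i : ℝ) ^ 2 = 0 := by
        rcases div_eq_zero_iff.1 this with h3 | h3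
        · exact h3
        · exact absurd h3 hKr.ne'
      exact_mod_cast pow_eq_zero_iff (two_ne_zero) |>.1 h2
    have : h = 0 := funext hz'
    rw [this]
    simp only [add_zero, sub_self, abs_zero]
    positivity
  -- integrability
  have hint : ∀ g : (Fin L → ℤ) → ℝ, (∀ x, |g x| ≤ 1) → Integrable g μ := by
    intro g hg
    refine Integrable.mono' (integrable_const (1:ℝ))
      (measurable_of_countable g).aestronglyMeasurable (ae_of_all _ fun x => ?_)
    rw [Real.norm_eq_abs]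
    exact hg x
  have hmass : ∀ x, μ.real {x} = ∏ i, (nb K).real {x i} := by
    intro x
    rw [measureReal_def, hμ, Measure.pi_singleton, ENNReal.toReal_prod]
    rfl
  have hp := nb2_mass_hasSum K
  have hp0 : ∀ t : ℤ, 0 ≤ (nb K).real {t} := fun t => measureReal_nonneg
  have hq : ∀ c : ℤ, HasSum (fun t : ℤ => (nb K).real {t - c}) 1 := fun c =>
    (Equiv.subRight c).hasSum_iff.2 hp
  -- the affinities
  have haff : ∀ i, HasSum (fun t : ℤ => √((nb K).real {t}) * √((nb K).real {t - h i}))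
      (1 - (∑' x : ℤ, (√((nb K).real {x}) - √((nb K).real {x - h i})) ^ 2) / 2) := by
    intro i
    have h1 := (((hp.add (hq (h i))).sub (hell_shift K hK (h i)).1.hasSum)).div_const 2
    convert! h1 using 1
    · funext t
      have e1 := Real.sq_sqrt (hp0 t)
      have e2 := Real.sq_sqrt (hp0 (t - h i))
      linear_combination (1/2 : ℝ) * e1 + (1/2 : ℝ) * e2
    · ring
  set ρ : Fin L → ℝ := fun i =>
    1 - (∑' x : ℤ, (√((nb K).real {x}) - √((nb K).real {x - h i})) ^ 2) / 2 with hρ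
  have hρ0 : ∀ i, 0 ≤ ρ i := fun i => (haff i).nonneg fun t =>
    mul_nonneg (Real.sqrt_nonneg _) (Real.sqrt_nonneg _)
  have hρ1 : ∀ i, ρ i ≤ 1 := by
    intro i
    have : 0 ≤ ∑' x : ℤ, (√((nb K).real {x}) - √((nb K).real {x - h i})) ^ 2 :=
      tsum_nonneg fun x => sq_nonneg _
    simp only [hρ]
    linarith
  have hρ2 : ∀ i, 1 - ρ i ≤ 6 * ((h i : ℝ) ^ 2 / K) := by
    intro i
    have := (hell_shift K hK (h i)).2
    simp only [hρ]
    have e : 12 * (h i : ℝ) ^ 2 / K = 12 * ((h i : ℝ) ^ 2 / K) := by ring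
    rw [e] at this
    linarith
  have hP : HasSum (fun x : Fin L → ℤ => ∏ i, (nb K).real {x i}) 1 := by
    have := nb3_pi_hasSum L (fun _ t => (nb K).real {t}) (fun _ t => hp0 t) (fun _ => 1)
      (fun _ => hp)
    simpa using this
  have hQ : HasSum (fun x : Fin L → ℤ => ∏ i, (nb K).real {x i - h i}) 1 := by
    have := nb3_pi_hasSum L (fun i t => (nb K).real {t - h i}) (fun _ t => hp0 _) (fun _ => 1)
      (fun i => hq (h i))
    simpa using this
  have hR := nb3_pi_hasSum L (fun i t => √((nb K).real {t}) * √((nb K).real {t - h i}))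
    (fun i t => mul_nonneg (Real.sqrt_nonneg _) (Real.sqrt_nonneg _)) ρ haff
  have hH : HasSum (fun x : Fin L → ℤ =>
      (√(∏ i, (nb K).real {x i}) - √(∏ i, (nb K).real {x i - h i})) ^ 2) (2 - 2 * ∏ i, ρ i) := by
    have h1 := (hP.add hQ).sub (hR.mul_left 2)
    convert! h1 using 1
    · funext x
      have hx1 : 0 ≤ ∏ i, (nb K).real {x i} := Finset.prod_nonneg fun i _ => hp0 _
      have hx2 : 0 ≤ ∏ i, (nb K).real {x i - h i} := Finset.prod_nonneg fun i _ => hp0 _
      have e1 := Real.sq_sqrt hx1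
      have e2 := Real.sq_sqrt hx2
      have e3 : √(∏ i, (nb K).real {x i}) * √(∏ i, (nb K).real {x i - h i}) =
          ∏ i, √((nb K).real {x i}) * √((nb K).real {x i - h i}) := by
        rw [Finset.prod_mul_distrib, Real.sqrt_prod _ (fun i _ => hp0 _),
          Real.sqrt_prod _ (fun i _ => hp0 _)]
      rw [← e3]
      linear_combination e1 + e2
    · ring
  have hHle : 2 - 2 * ∏ i, ρ i ≤ (√(12 * S)) ^ 2 := by
    rw [Real.sq_sqrt (by positivity)]
    have h1 := nb3_one_sub_prod Finset.univ ρ hρ0 hρ1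
    have h2 : ∑ i, (1 - ρ i) ≤ ∑ i, 6 * ((h i : ℝ) ^ 2 / K) :=
      Finset.sum_le_sum fun i _ => hρ2 i
    rw [← Finset.mul_sum] at h2
    rw [hS]
    linarith
  have hM : 0 < √(12 * S) := Real.sqrt_pos.2 (by positivity)
  have hA := nb3_hasSum μ f (hint f hf)
  have hB0 := nb3_hasSum μ (fun x => f (x + h)) (hint _ fun x => hf _)
  have hB : HasSum (fun x : Fin L → ℤ => (∏ i, (nb K).real {x i - h i}) * f x)
      (∫ x, f (x + h) ∂μ) := by
    rw [← (Equiv.addRight h).hasSum_iff]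
    convert! hB0 using 1
    funext x
    simp only [Function.comp_apply, Equiv.coe_addRight, hmass, Pi.add_apply,
      add_sub_cancel_right]
  simp only [hmass] at hA
  have := nb3_tv (fun x : Fin L → ℤ => ∏ i, (nb K).real {x i})
    (fun x : Fin L → ℤ => ∏ i, (nb K).real {x i - h i}) f
    (fun x => Finset.prod_nonneg fun i _ => hp0 _) (fun x => Finset.prod_nonneg fun i _ => hp0 _)
    hP hQ hf _ _ hA hB _ _ hH hM hHle
  refine this.trans ?_
  rw [Real.sqrt_mul (by norm_num)]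
  have h12 : √12 ≤ (7/2 : ℝ) := by
    rw [Real.sqrt_le_left (by norm_num)]; norm_num
  nlinarith [Real.sqrt_nonneg S]

theorem one_shift (K : ℕ) (hK : 1 ≤ K) (h : ℤ) (f : ℤ → ℝ) (hf : ∀ x, |f x| ≤ 1) :
    |∫ x, f (x + h) ∂(nb K) - ∫ x, f x ∂(nb K)| ≤ 7 * |(h:ℝ)| / √K := by
  have hmp := measurePreserving_funUnique (nb K) (Fin 1)
  have h1 := prod_shift K hK 1 (fun _ => h) (fun x => f (x 0)) (fun x => hf _)
  have e : ∀ g : ℤ → ℝ, ∫ x, g (x 0) ∂(Measure.pi fun _ : Fin 1 => nb K) = ∫ x, g x ∂(nb K) := by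
    intro g
    rw [← hmp.integral_comp' g]
    rfl
  have e1 := e f
  have e2 := e (fun t => f (t + h))
  simp only [Pi.add_apply] at h1
  rw [e1, e2] at h1
  refine h1.trans (le_of_eq ?_)
  simp only [Finset.univ_unique, Finset.sum_singleton]
  rw [Real.sqrt_div (sq_nonneg _), Real.sqrt_sq_eq_abs]
  ring

theorem nb3_integrable (μ : Measure ℤ) [IsProbabilityMeasure μ] (f : ℤ → ℝ)
    (hf : ∀ x, |f x| ≤ 1) : Integrable f μ := by
  refine Integrable.mono' (integrable_const (1:ℝ)) measurable_from_top.aestronglyMeasurable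
    (ae_of_all _ fun x => ?_)
  rw [Real.norm_eq_abs]
  exact hf x

theorem nb3_abs_integral_le (μ : Measure ℤ) [IsProbabilityMeasure μ] (f : ℤ → ℝ)
    (hf : ∀ x, |f x| ≤ 1) : |∫ x, f x ∂μ| ≤ 1 := by
  have := norm_integral_le_of_norm_le_const (μ := μ) (f := f) (C := 1)
    (ae_of_all _ fun x => by rw [Real.norm_eq_abs]; exact hf x)
  simpa using this

theorem nb3_var_one (K : ℕ) (hK : 1 ≤ K) (v : ℕ) (hv : K ≤ v) (f : ℤ → ℝ)
    (hf : ∀ x, |f x| ≤ 1) :
    |∫ x, f x ∂(nb (v + 1)) - ∫ x, f x ∂(nb v)| ≤ 14 / √K := by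
  have hKr : (0:ℝ) < K := by exact_mod_cast hK
  have hvr : (K:ℝ) ≤ v := by exact_mod_cast hv
  rw [add_comm v 1, integral_nb_add 1 v f (nb3_integrable _ f hf), nb1_one]
  have e : ∫ x, f x ∂(nb v) = ∫ _ : ℤ, (∫ x, f x ∂(nb v)) ∂gam := by simp
  have hi1 : Integrable (fun s : ℤ => ∫ y, f (s + y) ∂(nb v)) gam :=
    nb3_integrable _ _ fun s => nb3_abs_integral_le _ _ fun y => hf _
  rw [e, ← integral_sub hi1 (integrable_const _)]
  have hb : ∀ s : ℤ, ‖∫ y, f (s + y) ∂(nb v) - ∫ x, f x ∂(nb v)‖ ≤ 7 / √K * |(s:ℝ)| := by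
    intro s
    have h1 := one_shift v (hK.trans hv) s f hf
    have e2 : ∫ y, f (s + y) ∂(nb v) = ∫ y, f (y + s) ∂(nb v) := by
      refine integral_congr_ae (ae_of_all _ fun y => ?_)
      simp only [add_comm]
    rw [e2, Real.norm_eq_abs]
    refine h1.trans ?_
    have : √(K:ℝ) ≤ √(v:ℝ) := Real.sqrt_le_sqrt hvr
    have hsK : 0 < √(K:ℝ) := Real.sqrt_pos.2 hKr
    calc 7 * |(s:ℝ)| / √v ≤ 7 * |(s:ℝ)| / √K := by gcongr
      _ = _ := by ring
  have h2 := norm_integral_le_of_norm_le (gam_mean_abs.1.const_mul (7 / √K))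
    (ae_of_all _ hb)
  rw [Real.norm_eq_abs] at h2
  refine h2.trans ?_
  rw [integral_const_mul]
  have hsK : 0 < √(K:ℝ) := Real.sqrt_pos.2 hKr
  calc 7 / √K * ∫ a : ℤ, |(a:ℝ)| ∂gam ≤ 7 / √K * 2 := by
        have := gam_mean_abs.2
        gcongr
    _ = _ := by ring

theorem nb3_var_nat (K : ℕ) (hK : 1 ≤ K) (v n : ℕ) (hv : K ≤ v) (f : ℤ → ℝ)
    (hf : ∀ x, |f x| ≤ 1) :
    |∫ x, f x ∂(nb (v + n)) - ∫ x, f x ∂(nb v)| ≤ 14 * n / √K := by
  induction n with
  | zero => simp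
  | succ n ih =>
    have h1 := nb3_var_one K hK (v + n) (by omega) f hf
    have h2 : ∫ x, f x ∂(nb (v + (n + 1))) - ∫ x, f x ∂(nb v) =
        (∫ x, f x ∂(nb (v + n + 1)) - ∫ x, f x ∂(nb (v + n))) +
          (∫ x, f x ∂(nb (v + n)) - ∫ x, f x ∂(nb v)) := by
      rw [← add_assoc]; ring
    rw [h2]
    refine (abs_add_le _ _).trans ((add_le_add h1 ih).trans (le_of_eq ?_))
    push_cast
    ring

theorem var_shift (K : ℕ) (hK : 1 ≤ K) (v w : ℕ) (hv : K ≤ v) (hw : K ≤ w) (f : ℤ → ℝ)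
    (hf : ∀ x, |f x| ≤ 1) :
    |∫ x, f x ∂(nb v) - ∫ x, f x ∂(nb w)| ≤ 14 * |(v:ℝ) - w| / √K := by
  rcases le_total v w with h | h
  · obtain ⟨n, rfl⟩ := Nat.exists_eq_add_of_le h
    have h1 := nb3_var_nat K hK v n hv f hf
    rw [abs_sub_comm]
    refine h1.trans (le_of_eq ?_)
    have e : |(v:ℝ) - ((v + n : ℕ) : ℝ)| = n := by
      push_cast
      rw [show (v:ℝ) - (v + n) = -(n:ℝ) by ring, abs_neg, abs_of_nonneg (Nat.cast_nonneg n)]
    rw [e]
  · obtain ⟨n, rfl⟩ := Nat.exists_eq_add_of_le h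
    have h1 := nb3_var_nat K hK w n hw f hf
    refine h1.trans (le_of_eq ?_)
    have e : |((w + n : ℕ) : ℝ) - (w:ℝ)| = n := by
      push_cast
      rw [show (w:ℝ) + n - w = (n:ℝ) by ring, abs_of_nonneg (Nat.cast_nonneg n)]
    rw [e]

end Pool.Agent.Helper7.Stuck
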