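import Pool.Agent.Helper7.Stuck.Close

open MeasureTheory ProbabilityTheory Filter Topology
open scoped NNReal ENNReal

namespace Pool.Agent.Helper7.Stuck

universe u

/-- The event of level `k`: `m*` stays above `ε + 2/(k+1)`, the path is bounded by `k` and
its oscillation at scale `1/(k+1)` is at most `η/2`. -/
def one_E {Ω : Type*} (ε η : ℝ) (t1 : ℝ≥0) (ξ : ℝ≥0 → Ω → E3) (k : ℕ) : Set Ω :=
  {ω | (∀ y : ℝ≥0, ε + 2 / ((k:ℝ) + 1) ≤ (ξ (min t1 y) ω).2.1) ∧
    (∀ y : ℝ≥0, ‖ξ (min (t1 + 1) y) ω‖ ≤ k) ∧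
    (∀ p : ℝ≥0 × ℝ≥0, 1 / ((k:ℝ) + 1) ≤ dist (min (t1 + 1) p.1) (min (t1 + 1) p.2) ∨
      dist (ξ (min (t1 + 1) p.1) ω) (ξ (min (t1 + 1) p.2) ω) ≤ η / 2)}

theorem one_forall_dense {α : Type*} [TopologicalSpace α] {d : ℕ → α} (hd : DenseRange d)
    {p : α → Prop} (hs : IsClosed {y | p y}) : (∀ y, p y) ↔ ∀ j, p (d j) := by
  constructor
  · intro h j
    exact h _
  · intro h y
    have h1 : closure (Set.range d) ⊆ {y | p y} :=
      closure_minimal (Set.range_subset_iff.2 h) hs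
    exact h1 (hd y)

theorem one_meas_forall {Ω : Type*} [MeasurableSpace Ω] {p : ℕ → Ω → Prop}
    (h : ∀ j, MeasurableSet {ω | p j ω}) : MeasurableSet {ω | ∀ j, p j ω} := by
  rw [Set.ofPred_forall]
  exact MeasurableSet.iInter h

theorem one_E_measurable {Ω : Type*} [MeasurableSpace Ω] (ε η : ℝ) (t1 : ℝ≥0)
    (ξ : ℝ≥0 → Ω → E3) (hm : ∀ t, Measurable (ξ t)) (hc : ∀ ω, Continuous (fun t => ξ t ω))
    (k : ℕ) : MeasurableSet (one_E ε η t1 ξ k) := by
  obtain ⟨d, hd⟩ := TopologicalSpace.exists_dense_seq ℝ≥0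
  obtain ⟨e, he⟩ := TopologicalSpace.exists_dense_seq (ℝ≥0 × ℝ≥0)
  have h1 : one_E ε η t1 ξ k = {ω | (∀ j, ε + 2 / ((k:ℝ) + 1) ≤ (ξ (min t1 (d j)) ω).2.1) ∧
      (∀ j, ‖ξ (min (t1 + 1) (d j)) ω‖ ≤ k) ∧
      (∀ j, 1 / ((k:ℝ) + 1) ≤ dist (min (t1 + 1) (e j).1) (min (t1 + 1) (e j).2) ∨
      dist (ξ (min (t1 + 1) (e j).1) ω) (ξ (min (t1 + 1) (e j).2) ω) ≤ η / 2)} := by
    ext ω
    simp only [one_E, Set.mem_ofPred_eq]
    have c1 : Continuous (fun y => ξ (min t1 y) ω) :=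
      (hc ω).comp (continuous_const.min continuous_id)
    have c2 : Continuous (fun y => ξ (min (t1 + 1) y) ω) :=
      (hc ω).comp (continuous_const.min continuous_id)
    have c3 : Continuous (fun p : ℝ≥0 × ℝ≥0 => ξ (min (t1 + 1) p.1) ω) :=
      c2.comp continuous_fst
    have c4 : Continuous (fun p : ℝ≥0 × ℝ≥0 => ξ (min (t1 + 1) p.2) ω) :=
      c2.comp continuous_snd
    refine and_congr ?_ (and_congr ?_ ?_)
    · apply one_forall_dense hd
      exact isClosed_le continuous_const (continuous_fst.comp (continuous_snd.comp c1))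
    · apply one_forall_dense hd
      exact isClosed_le c2.norm continuous_const
    · apply one_forall_dense he
      apply IsClosed.union
      · exact isClosed_le continuous_const
          ((continuous_const.min continuous_fst).dist (continuous_const.min continuous_snd))
      · exact isClosed_le (c3.dist c4) continuous_const
  rw [h1]
  exact (one_meas_forall fun j => measurableSet_le measurable_const
      (measurable_fst.comp (measurable_snd.comp (hm _)))).inter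
    ((one_meas_forall fun j => measurableSet_le (hm _).norm measurable_const).inter
    (one_meas_forall fun j => (MeasurableSet.const _).union
      (measurableSet_le ((hm _).dist (hm _)) measurable_const)))

theorem one_E_mono {Ω : Type*} (ε η : ℝ) (t1 : ℝ≥0) (ξ : ℝ≥0 → Ω → E3) :
    Monotone (one_E ε η t1 ξ) := by
  intro k l hkl ω hω
  have hkl' : (k:ℝ) ≤ l := by exact_mod_cast hkl
  have hk0 : (0:ℝ) ≤ k := Nat.cast_nonneg k
  obtain ⟨h1, h2, h3⟩ := hω
  refine ⟨fun y => ?_, fun y => ?_, fun p => ?_⟩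
  · have : 2 / ((l:ℝ) + 1) ≤ 2 / ((k:ℝ) + 1) := by gcongr
    linarith [h1 y]
  · exact (h2 y).trans hkl'
  · rcases h3 p with h | h
    · left
      have : 1 / ((l:ℝ) + 1) ≤ 1 / ((k:ℝ) + 1) := by gcongr
      linarith
    · exact Or.inr h

theorem one_E_union {Ω : Type*} (ε η : ℝ) (hη : 0 < η) (t1 : ℝ≥0) (ξ : ℝ≥0 → Ω → E3)
    (hc : ∀ ω, Continuous (fun t => ξ t ω)) :
    {ω | Alive ε ξ t1 ω} = ⋃ k, one_E ε η t1 ξ k := by
  ext ω
  rw [Set.mem_iUnion]
  constructor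
  · intro hω
    have hω' : ∀ y ≤ t1, ε < (ξ y ω).2.1 := hω
    -- minimum
    have hK : IsCompact (Set.Icc (0:ℝ≥0) t1) := isCompact_Icc
    obtain ⟨y0, hy0, hmin⟩ := hK.exists_isMinOn ⟨0, by simp⟩
      ((continuous_fst.comp (continuous_snd.comp (hc ω))).continuousOn (s := Set.Icc (0:ℝ≥0) t1))
    have hpos : 0 < (ξ y0 ω).2.1 - ε := by
      have := hω' y0 hy0.2
      linarith
    -- bound
    have hK2 : IsCompact (Set.Icc (0:ℝ≥0) (t1 + 1)) := isCompact_Icc
    obtain ⟨B, hB⟩ := hK2.exists_bound_of_continuousOn ((hc ω).continuousOn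
      (s := Set.Icc (0:ℝ≥0) (t1 + 1)))
    -- uniform continuity
    have huc := hK2.uniformContinuousOn_of_continuous ((hc ω).continuousOn
      (s := Set.Icc (0:ℝ≥0) (t1 + 1)))
    rw [Metric.uniformContinuousOn_iff] at huc
    obtain ⟨δ, hδ, huc⟩ := huc (η / 2) (by positivity)
    obtain ⟨k1, hk1⟩ := exists_nat_gt (2 / ((ξ y0 ω).2.1 - ε))
    obtain ⟨k2, hk2⟩ := exists_nat_gt B
    obtain ⟨k3, hk3⟩ := exists_nat_gt (1 / δ)
    refine ⟨max k1 (max k2 k3), ?_, ?_, ?_⟩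
    · intro y
      have h1 : (ξ y0 ω).2.1 ≤ (ξ (min t1 y) ω).2.1 := by
        apply hmin
        exact ⟨zero_le, min_le_left _ _⟩
      have h2 : (k1:ℝ) ≤ ((max k1 (max k2 k3) : ℕ) : ℝ) := by
        exact_mod_cast le_max_left _ _
      have h3 : 2 / (((max k1 (max k2 k3) : ℕ) : ℝ) + 1) ≤ (ξ y0 ω).2.1 - ε := by
        rw [div_le_iff₀ (by positivity)]
        rw [div_lt_iff₀ hpos] at hk1
        nlinarith
      linarith
    · intro y
      have h1 := hB (min (t1 + 1) y) ⟨zero_le, min_le_left _ _⟩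
      have h2 : (k2:ℝ) ≤ ((max k1 (max k2 k3) : ℕ) : ℝ) := by
        exact_mod_cast (le_max_left k2 k3).trans (le_max_right _ _)
      linarith
    · intro p
      by_cases h : 1 / (((max k1 (max k2 k3) : ℕ) : ℝ) + 1) ≤
          dist (min (t1 + 1) p.1) (min (t1 + 1) p.2)
      · exact Or.inl h
      · right
        push Not at h
        have h2 : (k3:ℝ) ≤ ((max k1 (max k2 k3) : ℕ) : ℝ) := by
          exact_mod_cast (le_max_right k2 k3).trans (le_max_right _ _)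
        have h3 : 1 / (((max k1 (max k2 k3) : ℕ) : ℝ) + 1) ≤ δ := by
          rw [div_le_iff₀ (by positivity)]
          rw [div_lt_iff₀ hδ] at hk3
          nlinarith
        exact (huc _ ⟨zero_le, min_le_left _ _⟩ _ ⟨zero_le, min_le_left _ _⟩
          (h.trans_le h3)).le
  · rintro ⟨k, h1, -, -⟩ y hy
    have := h1 y
    rw [min_eq_right hy] at this
    have h2 : 0 < 2 / ((k:ℝ) + 1) := by positivity
    linarith

/-- The deterministic part. -/
theorem one_det {Ω : Type*} (ε η : ℝ) (t1 : ℝ≥0) (ξ : ℝ≥0 → Ω → E3)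
    (lam : ℝ) (Z : ℕ → Ω → St) (k : ℕ) (hlam : (k:ℝ) + 1 < lam) (η' : ℝ)
    (hη1 : η' ≤ η / 2) (hη2 : η' ≤ 1 / ((k:ℝ) + 1)) (hη3 : η' ≤ 1) (ω : Ω)
    (hE : ω ∈ one_E ε η t1 ξ k)
    (hB : ¬ ((∀ y : ℝ≥0, (y:ℝ) ≤ (t1:ℝ) + 1 → ‖ξ y ω‖ ≤ (k:ℝ) + 1) ∧
      ∃ l : ℕ, (l:ℝ) ≤ t1 * lam ∧
        (∀ i < l, good ε ((k:ℝ) + 1) lam Z ξ i ω) ∧
        η' < dist (sc lam (Z l ω)) (ξ (gt lam l) ω))) :
    aliveD (ε * lam ^ 3) (fun i => Z i ω) ⌊(t1:ℝ) * lam⌋₊ ∧
        ∀ t : ℝ≥0, t ≤ t1 → dist (sc lam (Z ⌊(t:ℝ) * lam⌋₊ ω)) (ξ t ω) ≤ η := by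
  have hk0 : (0:ℝ) ≤ k := Nat.cast_nonneg k
  have hl0 : 0 < lam := by linarith
  obtain ⟨h1, h2, h3⟩ := hE
  have h1' : ∀ y ≤ t1, ε + 2 / ((k:ℝ) + 1) ≤ (ξ y ω).2.1 := by
    intro y hy
    have := h1 y
    rwa [min_eq_right hy] at this
  have h2' : ∀ y ≤ t1 + 1, ‖ξ y ω‖ ≤ k := by
    intro y hy
    have := h2 y
    rwa [min_eq_right hy] at this
  have h3' : ∀ y ≤ t1 + 1, ∀ y' ≤ t1 + 1, dist y y' < 1 / ((k:ℝ) + 1) →
      dist (ξ y ω) (ξ y' ω) ≤ η / 2 := by
    intro y hy y' hy' hd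
    have := h3 (y, y')
    simp only [min_eq_right hy, min_eq_right hy'] at this
    rcases this with h | h
    · linarith
    · exact h
  have hgt : ∀ l : ℕ, (l:ℝ) ≤ t1 * lam → gt lam l ≤ t1 := by
    intro l hl
    rw [gt, Real.toNNReal_le_iff_le_coe, div_le_iff₀ hl0]
    exact hl
  have hclose : ∀ l : ℕ, (l:ℝ) ≤ t1 * lam → (∀ i < l, good ε ((k:ℝ) + 1) lam Z ξ i ω) →
      dist (sc lam (Z l ω)) (ξ (gt lam l) ω) ≤ η' := by
    intro l hl hg
    by_contra hcon
    push Not at hcon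
    apply hB
    refine ⟨fun y hy => ?_, l, hl, hg, hcon⟩
    have : y ≤ t1 + 1 := by
      rw [← NNReal.coe_le_coe]
      push_cast
      exact hy
    have := h2' y this
    linarith
  have hstep : ∀ l : ℕ, (l:ℝ) ≤ t1 * lam → good ε ((k:ℝ) + 1) lam Z ξ l ω := by
    intro l
    induction l using Nat.strong_induction_on with
    | _ l ih =>
      intro hl
      have hlt : ∀ i < l, good ε ((k:ℝ) + 1) lam Z ξ i ω := by
        intro i hi
        apply ih i hi
        have : (i:ℝ) ≤ l := by exact_mod_cast hi.le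
        linarith
      have hd := hclose l hl hlt
      have hg := hgt l hl
      refine ⟨?_, ?_⟩
      · intro i hi
        rcases hi.lt_or_eq with hi | hi
        · exact (hlt i hi).1 i le_rfl
        · subst hi
          have hm : |(sc lam (Z i ω)).2.1 - (ξ (gt lam i) ω).2.1| ≤ η' := by
            have hA : dist (sc lam (Z i ω)).2.1 (ξ (gt lam i) ω).2.1 ≤
                dist (sc lam (Z i ω)) (ξ (gt lam i) ω) := by
              rw [Prod.dist_eq]
              refine le_trans ?_ (le_max_right _ _)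
              rw [Prod.dist_eq]
              exact le_max_left _ _
            rw [Real.dist_eq] at hA
            exact hA.trans hd
          have hm1 := h1' _ hg
          have hm2 := (abs_le.1 hm).1
          have hm3 : ε ≤ (sc lam (Z i ω)).2.1 := by
            have : 2 / ((k:ℝ) + 1) = 1 / ((k:ℝ) + 1) + 1 / ((k:ℝ) + 1) := by ring
            have h4 : 0 < 1 / ((k:ℝ) + 1) := by positivity
            linarith
          constructor
          · have : (sc lam (Z i ω)).2.1 = ((Z i ω).2.1 : ℝ) / lam ^ 3 := rfl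
            rw [this, le_div_iff₀ (by positivity)] at hm3
            exact hm3
          · have h5 : ‖ξ (gt lam i) ω‖ ≤ k := by
              apply h2'
              exact hg.trans (le_add_of_nonneg_right zero_le)
            have h6 : ‖sc lam (Z i ω)‖ ≤ dist (sc lam (Z i ω)) (ξ (gt lam i) ω) +
                ‖ξ (gt lam i) ω‖ := by
              rw [dist_eq_norm]
              have := norm_add_le (sc lam (Z i ω) - ξ (gt lam i) ω) (ξ (gt lam i) ω)
              rwa [sub_add_cancel] at this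
            linarith
      · intro y hy
        have hy1 : y ≤ t1 := hy.trans hg
        constructor
        · have := h1' y hy1
          have h4 : 0 < 2 / ((k:ℝ) + 1) := by positivity
          linarith
        · have := h2' y (hy1.trans (le_add_of_nonneg_right zero_le))
          linarith
  constructor
  · intro i hi0 hi
    have : (i:ℝ) ≤ t1 * lam := by
      have := (Nat.le_floor_iff (by positivity)).1 hi
      exact this
    exact ((hstep i this).1 i le_rfl).1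
  · intro t ht
    have hfl : ((⌊(t:ℝ) * lam⌋₊ : ℕ) : ℝ) ≤ t * lam := Nat.floor_le (by positivity)
    have hfl2 : (t:ℝ) * lam < (⌊(t:ℝ) * lam⌋₊ : ℕ) + 1 := Nat.lt_floor_add_one _
    have ht' : (t:ℝ) ≤ t1 := by exact_mod_cast ht
    have hl : ((⌊(t:ℝ) * lam⌋₊ : ℕ) : ℝ) ≤ t1 * lam := by
      refine hfl.trans ?_
      gcongr
    have hd1 := hclose _ hl (fun i hi => hstep i (by
      have : (i:ℝ) ≤ (⌊(t:ℝ) * lam⌋₊ : ℕ) := by exact_mod_cast hi.le
      linarith))
    have hd2 : dist (ξ (gt lam ⌊(t:ℝ) * lam⌋₊) ω) (ξ t ω) ≤ η / 2 := by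
      apply h3'
      · exact (hgt _ hl).trans (le_add_of_nonneg_right zero_le)
      · exact ht.trans (le_add_of_nonneg_right zero_le)
      · rw [NNReal.dist_eq, gt, Real.coe_toNNReal _ (by positivity), abs_lt]
        have h7 : ((⌊(t:ℝ) * lam⌋₊ : ℕ) : ℝ) / lam ≤ t := by
          rw [div_le_iff₀ hl0]
          exact hfl
        have h8 : (t:ℝ) - ((⌊(t:ℝ) * lam⌋₊ : ℕ) : ℝ) / lam < 1 / ((k:ℝ) + 1) := by
          have h9 : (t:ℝ) - ((⌊(t:ℝ) * lam⌋₊ : ℕ) : ℝ) / lam ≤ 1 / lam := by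
            rw [sub_le_iff_le_add, ← add_div, le_div_iff₀ hl0]
            linarith
          have h10 : 1 / lam < 1 / ((k:ℝ) + 1) := by
            apply one_div_lt_one_div_of_lt (by positivity) hlam
          linarith
        constructor
        · linarith
        · have h4 : 0 < 1 / ((k:ℝ) + 1) := by positivity
          linarith
    calc dist (sc lam (Z ⌊(t:ℝ) * lam⌋₊ ω)) (ξ t ω) ≤
          dist (sc lam (Z ⌊(t:ℝ) * lam⌋₊ ω)) (ξ (gt lam ⌊(t:ℝ) * lam⌋₊) ω) +
          dist (ξ (gt lam ⌊(t:ℝ) * lam⌋₊) ω) (ξ t ω) := dist_triangle _ _ _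
      _ ≤ η := by linarith

/-- If the limit is alive at time `t1` then so is the scheme, and the paths are close. -/
theorem one_alive {Ω : Type*} [mΩ : MeasurableSpace Ω] (P : Measure Ω)
    [IsProbabilityMeasure P] (ℱ : Filtration ℝ≥0 mΩ) (W : ℝ≥0 → Ω → ℝ) (ε : ℝ) (hε : 0 < ε)
    (z0 : E3) (hz0 : ε < z0.2.1) (ξ : ℝ≥0 → Ω → E3) (hξ : IsFrozenSol P ℱ W ε z0 ξ)
    (q : ℕ → ℝ → ℤ) (om : ℕ → ℝ) (hq : IsQuant q om)
    (lam : ℕ → ℝ) (hlam : Tendsto lam atTop atTop) (a : ℕ → St)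
    (ha : Tendsto (fun n => sc (lam n) (a n)) atTop (𝓝 z0)) (t1 : ℝ≥0) (η : ℝ) (ht1 : 0 < t1)
    (hη : 0 < η) :
    Tendsto (fun n => P {ω | Alive ε ξ t1 ω ∧
      ¬ (aliveD (ε * lam n ^ 3) (fun i => scheme q (lam n) W (a n) i ω) ⌊t1 * lam n⌋₊ ∧
        ∀ t : ℝ≥0, t ≤ t1 → dist (sc (lam n) (scheme q (lam n) W (a n) ⌊t * lam n⌋₊ ω))
          (ξ t ω) ≤ η)}) atTop (𝓝 0) := by
  have hm : ∀ t, Measurable (ξ t) := fun t => (hξ.adapted t).mono (ℱ.le t) le_rfl
  have hEm := one_E_measurable ε η t1 ξ hm hξ.cont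
  have hU := one_E_union ε η hη t1 ξ hξ.cont
  have hAm : MeasurableSet {ω | Alive ε ξ t1 ω} := by
    rw [hU]
    exact MeasurableSet.iUnion hEm
  have hlim : Tendsto (fun k => P ({ω | Alive ε ξ t1 ω} \ one_E ε η t1 ξ k)) atTop (𝓝 0) := by
    have h1 : Tendsto (fun k => P ({ω | Alive ε ξ t1 ω} \ one_E ε η t1 ξ k)) atTop
        (𝓝 (P (⋂ k, ({ω | Alive ε ξ t1 ω} \ one_E ε η t1 ξ k)))) := by
      apply tendsto_measure_iInter_atTop
      · intro k
        exact (hAm.diff (hEm k)).nullMeasurableSet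
      · intro k l hkl
        exact Set.sdiff_subset_sdiff_right (one_E_mono ε η t1 ξ hkl)
      · exact ⟨0, measure_ne_top _ _⟩
    have h2 : (⋂ k, ({ω | Alive ε ξ t1 ω} \ one_E ε η t1 ξ k)) = ∅ := by
      rw [Set.eq_empty_iff_forall_notMem]
      intro ω hω
      rw [Set.mem_iInter] at hω
      have h3 : ω ∈ {ω | Alive ε ξ t1 ω} := (hω 0).1
      rw [hU, Set.mem_iUnion] at h3
      obtain ⟨k, hk⟩ := h3
      exact (hω k).2 hk
    rw [h2, measure_empty] at h1
    exact h1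
  rw [ENNReal.tendsto_atTop_zero] at hlim ⊢
  intro e he
  obtain ⟨k, hk⟩ := hlim (e / 2) (ENNReal.half_pos he.ne')
  have hk := hk k le_rfl
  set η' : ℝ := min (η / 2) (min (1 / ((k:ℝ) + 1)) 1) with hη'
  have hη'0 : 0 < η' := by positivity
  have hcl := close_before P ℱ W ε hε z0 hz0 ξ hξ q om hq lam hlam a ha t1 ((k:ℝ) + 1) η'
    (by exact_mod_cast ht1) (by positivity) hη'0
  rw [ENNReal.tendsto_atTop_zero] at hcl
  obtain ⟨N1, hN1⟩ := hcl (e / 2) (ENNReal.half_pos he.ne')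
  obtain ⟨N2, hN2⟩ := (hlam.eventually_gt_atTop ((k:ℝ) + 1)).exists_forall_of_atTop
  refine ⟨max N1 N2, fun n hn => ?_⟩
  have hn1 := hN1 n ((le_max_left _ _).trans hn)
  have hn2 := hN2 n ((le_max_right _ _).trans hn)
  calc _ ≤ P (({ω | Alive ε ξ t1 ω} \ one_E ε η t1 ξ k) ∪
        {ω | (∀ y : ℝ≥0, (y:ℝ) ≤ t1 + 1 → ‖ξ y ω‖ ≤ (k:ℝ) + 1) ∧
      ∃ l : ℕ, (l:ℝ) ≤ t1 * lam n ∧
        (∀ i < l, good ε ((k:ℝ) + 1) (lam n) (scheme q (lam n) W (a n)) ξ i ω) ∧
        η' < dist (sc (lam n) (scheme q (lam n) W (a n) l ω)) (ξ (gt (lam n) l) ω)}) := by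
        apply measure_mono
        rintro ω ⟨hω1, hω2⟩
        by_cases hE : ω ∈ one_E ε η t1 ξ k
        · right
          by_contra hB
          exact hω2 (one_det ε η t1 ξ (lam n) (scheme q (lam n) W (a n)) k hn2 η'
            (min_le_left _ _) ((min_le_right _ _).trans (min_le_left _ _))
            ((min_le_right _ _).trans (min_le_right _ _)) ω hE hB)
        · exact Or.inl ⟨hω1, hE⟩
    _ ≤ e / 2 + e / 2 := (measure_union_le _ _).trans (add_le_add hk hn1)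
    _ = e := ENNReal.add_halves e

end Pool.Agent.Helper7.Stuck
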