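import Pool.Agent.Helper7.Stuck.Defs

/-!
# The Skorokhod space `D([0, t1], ℝ³)`
-/

open MeasureTheory ProbabilityTheory Filter Topology
open scoped NNReal ENNReal

namespace Pool.Agent.Helper7.Stuck

/-- Càdlàg paths on `[0, t1]`: right-continuous with left limits. -/
def IsCadlag {t1 : ℝ} (x : Set.Icc (0:ℝ) t1 → E3) : Prop :=
  ∀ t, ContinuousWithinAt x (Set.Ici t) t ∧ ∃ l, Tendsto x (𝓝[<] t) (𝓝 l)

/-- The space `D([0, t1], ℝ³)` of càdlàg paths. -/
structure Dsp (t1 : ℝ) : Type where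
  /-- the path -/
  path : Set.Icc (0:ℝ) t1 → E3
  cadlag : IsCadlag path

/-- The Skorokhod (J1) distance: the infimum, over all increasing bijections `τ` of `[0, t1]`, of
`max (sup |τ t - t|) (sup |x t - y (τ t)|)`. -/
noncomputable instance (t1 : ℝ) : PseudoEMetricSpace (Dsp t1) where
  edist x y := ⨅ τ : Set.Icc (0:ℝ) t1 ≃o Set.Icc (0:ℝ) t1,
    ⨆ t, max (edist (τ t) t) (edist (x.path t) (y.path (τ t)))
  edist_self x := by
    refine le_antisymm ?_ bot_le
    refine (iInf_le _ (OrderIso.refl _)).trans ?_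
    simp
  edist_comm x y := by
    have key : ∀ x y : Dsp t1, (⨅ τ : Set.Icc (0:ℝ) t1 ≃o Set.Icc (0:ℝ) t1,
        ⨆ t, max (edist (τ t) t) (edist (x.path t) (y.path (τ t)))) ≤
        ⨅ τ : Set.Icc (0:ℝ) t1 ≃o Set.Icc (0:ℝ) t1,
        ⨆ t, max (edist (τ t) t) (edist (y.path t) (x.path (τ t))) := by
      intro x y
      refine le_iInf fun τ => (iInf_le _ τ.symm).trans ?_
      refine iSup_le fun t => ?_
      refine le_trans ?_ (le_iSup _ (τ.symm t))
      simp only [OrderIso.apply_symm_apply]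
      rw [edist_comm (τ.symm t) t, edist_comm (x.path t)]
    exact le_antisymm (key x y) (key y x)
  edist_triangle x y z := by
    rw [ENNReal.iInf_add]
    refine le_iInf fun τ₁ => ?_
    rw [ENNReal.add_iInf]
    refine le_iInf fun τ₂ => ?_
    refine (iInf_le _ (τ₁.trans τ₂)).trans ?_
    refine iSup_le fun t => ?_
    have h1 := le_iSup (fun t => max (edist (τ₁ t) t) (edist (x.path t) (y.path (τ₁ t)))) t
    have h2 := le_iSup (fun t => max (edist (τ₂ t) t) (edist (y.path t) (z.path (τ₂ t)))) (τ₁ t)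
    refine max_le ?_ ?_
    · refine (edist_triangle _ (τ₁ t) _).trans ?_
      rw [add_comm]
      exact add_le_add ((le_max_left _ _).trans h1) ((le_max_left _ _).trans h2)
    · refine (edist_triangle _ (y.path (τ₁ t)) _).trans ?_
      exact add_le_add ((le_max_right _ _).trans h1) ((le_max_right _ _).trans h2)

/-- Continuous paths are càdlàg. -/
def ofC {t1 : ℝ} (x : C(Set.Icc (0:ℝ) t1, E3)) : Dsp t1 :=
  ⟨x, fun t => ⟨x.continuous.continuousWithinAt,
    ⟨x t, (x.continuous.tendsto t).mono_left nhdsWithin_le_nhds⟩⟩⟩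

/-- The distance of `D([0, t1], ℝ³)` is at most the uniform distance. -/
theorem edist_le_sup {t1 : ℝ} (x y : Dsp t1) : edist x y ≤ ⨆ t, edist (x.path t) (y.path t) := by
  refine (iInf_le _ (OrderIso.refl _)).trans (iSup_le fun t => ?_)
  refine max_le (by simp) ?_
  exact le_iSup (fun t => edist (x.path t) (y.path t)) t

theorem continuous_ofC {t1 : ℝ} : Continuous (ofC (t1 := t1)) := by
  refine continuous_iff_continuousAt.2 fun x => ?_
  rw [ContinuousAt, tendsto_iff_edist_tendsto_0]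
  have h : Tendsto (fun y : C(Set.Icc (0:ℝ) t1, E3) => edist y x) (𝓝 x) (𝓝 0) := by
    have := (continuous_id.edist (continuous_const (y := x))).tendsto x
    simpa using this
  refine tendsto_of_tendsto_of_tendsto_of_le_of_le tendsto_const_nhds h (fun _ => bot_le) ?_
  intro y
  refine (edist_le_sup _ _).trans (iSup_le fun t => ?_)
  change edist (y t) (x t) ≤ edist y x
  rw [edist_dist, edist_dist]
  exact ENNReal.ofReal_le_ofReal (ContinuousMap.dist_apply_le_dist t)

/-- Rescaled step paths are càdlàg. -/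
theorem isCadlag_stepPath (t1 lam : ℝ) (hlam : 0 ≤ lam) (Z : ℕ → St) :
    IsCadlag (stepPath t1 lam Z) := by
  intro t
  have ht0 : 0 ≤ (t:ℝ) := t.2.1
  have hc : Continuous fun s : Set.Icc (0:ℝ) t1 => (s:ℝ) * lam := by fun_prop
  constructor
  · have h1 : ∀ᶠ s : Set.Icc (0:ℝ) t1 in 𝓝[Set.Ici t] t, stepPath t1 lam Z s = stepPath t1 lam Z t := by
      have h2 : ∀ᶠ s : Set.Icc (0:ℝ) t1 in 𝓝[Set.Ici t] t, (s:ℝ) * lam < ⌊(t:ℝ) * lam⌋₊ + 1 :=
        nhdsWithin_le_nhds ((hc.tendsto t).eventually_lt_const (Nat.lt_floor_add_one _))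
      filter_upwards [h2, self_mem_nhdsWithin] with s hs hst
      have hst' : (t:ℝ) ≤ s := hst
      unfold stepPath
      congr 2
      rw [Nat.floor_eq_iff (mul_nonneg s.2.1 hlam)]
      exact ⟨(Nat.floor_le (mul_nonneg ht0 hlam)).trans (mul_le_mul_of_nonneg_right hst' hlam), hs⟩
    exact (tendsto_const_nhds.congr' (h1.mono fun s hs => hs.symm))
  · rcases eq_or_lt_of_le (mul_nonneg ht0 hlam) with h0 | h0
    · refine ⟨stepPath t1 lam Z t, ?_⟩
      refine tendsto_const_nhds.congr' ?_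
      filter_upwards [self_mem_nhdsWithin] with s hs
      have hs' : (s:ℝ) < t := hs
      unfold stepPath
      congr 2
      have : (s:ℝ) * lam = (t:ℝ) * lam := by
        refine le_antisymm (mul_le_mul_of_nonneg_right hs'.le hlam) ?_
        rw [← h0]; exact mul_nonneg s.2.1 hlam
      rw [this]
    · refine ⟨sc lam (Z (⌈(t:ℝ) * lam⌉₊ - 1)), ?_⟩
      refine tendsto_const_nhds.congr' ?_
      have hpos : 0 < ⌈(t:ℝ) * lam⌉₊ := Nat.ceil_pos.2 h0
      have h2 : ∀ᶠ s : Set.Icc (0:ℝ) t1 in 𝓝[<] t, ((⌈(t:ℝ) * lam⌉₊ - 1 : ℕ) : ℝ) < (s:ℝ) * lam := by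
        refine nhdsWithin_le_nhds ((hc.tendsto t).eventually_const_lt ?_)
        exact (Nat.lt_ceil).1 (by omega)
      have hlp : 0 < lam := by
        rcases eq_or_lt_of_le hlam with h | h
        · rw [← h] at h0; simp at h0
        · exact h
      filter_upwards [h2, self_mem_nhdsWithin] with s hs hst
      have hst' : (s:ℝ) < t := hst
      unfold stepPath
      congr 2
      symm
      rw [Nat.floor_eq_iff (mul_nonneg s.2.1 hlam)]
      refine ⟨hs.le, ?_⟩
      have h3 : (s:ℝ) * lam < (t:ℝ) * lam := mul_lt_mul_of_pos_right hst' hlp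
      have h4 := Nat.le_ceil ((t:ℝ) * lam)
      have h5 : ((⌈(t:ℝ) * lam⌉₊ - 1 : ℕ) : ℝ) + 1 = ⌈(t:ℝ) * lam⌉₊ := by
        have : (⌈(t:ℝ) * lam⌉₊ - 1 : ℕ) + 1 = ⌈(t:ℝ) * lam⌉₊ := by omega
        exact_mod_cast this
      linarith

/-- The rescaled step path as an element of `D([0, t1], ℝ³)`. -/
noncomputable def stepD (t1 lam : ℝ) (hlam : 0 ≤ lam) (Z : ℕ → St) : Dsp t1 :=
  ⟨stepPath t1 lam Z, isCadlag_stepPath t1 lam hlam Z⟩

end Pool.Agent.Helper7.Stuck
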