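import Pool.Agent.Helper7.Stuck.Sko

open MeasureTheory ProbabilityTheory Filter Topology
open scoped NNReal ENNReal

namespace Pool.Agent.Helper7.Stuck

universe u

/-- Truncated uniform distance. -/
noncomputable def ud {t1 : ℝ} (x y : Set.Icc (0:ℝ) t1 → E3) : ℝ := ⨆ t, min 1 (dist (x t) (y t))

/-- Bump function around `y`, equal to `1` at distance `≤ 1/k` and `0` at distance `≥ 2/k`. -/
noncomputable def bump {t1 : ℝ} (y : C(Set.Icc (0:ℝ) t1, E3)) (k : ℕ)
    (x : Set.Icc (0:ℝ) t1 → E3) : ℝ := min 1 (max 0 (2 - k * ud x y))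

/-- The test functionals. -/
noncomputable def Phi {t1 : ℝ} (L : List (C(Set.Icc (0:ℝ) t1, E3) × ℕ))
    (x : Set.Icc (0:ℝ) t1 → E3) : ℝ := min 1 ((L.map fun p => bump p.1 p.2 x).sum)

private theorem ud_bdd {t1 : ℝ} (x y : Set.Icc (0:ℝ) t1 → E3) :
    BddAbove (Set.range fun t => min 1 (dist (x t) (y t))) := by
  refine ⟨1, ?_⟩
  rintro _ ⟨_, rfl⟩
  exact min_le_left _ _

private theorem ud_nonneg {t1 : ℝ} (x y : Set.Icc (0:ℝ) t1 → E3) : 0 ≤ ud x y :=
  Real.iSup_nonneg fun t => le_min zero_le_one dist_nonneg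

private theorem le_ud {t1 : ℝ} (x y : Set.Icc (0:ℝ) t1 → E3) (t : Set.Icc (0:ℝ) t1) :
    min 1 (dist (x t) (y t)) ≤ ud x y := le_ciSup (ud_bdd x y) t

private theorem ud_le_add {t1 : ℝ} (x y z : Set.Icc (0:ℝ) t1 → E3) (w : ℝ) (hw : 0 ≤ w)
    (h : ∀ t, dist (x t) (y t) ≤ w) : ud x z ≤ ud y z + w := by
  refine Real.iSup_le (fun t => ?_) (add_nonneg (ud_nonneg _ _) hw)
  have h1 := le_ud y z t
  have h2 := dist_triangle (x t) (y t) (z t)
  have h3 := h t
  rcases le_total 1 (dist (y t) (z t)) with h4 | h4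
  · rw [min_eq_left h4] at h1
    exact (min_le_left _ _).trans (by linarith)
  · rw [min_eq_right h4] at h1
    exact (min_le_right _ _).trans (by linarith)

private theorem abs_ud_sub {t1 : ℝ} (x y z : Set.Icc (0:ℝ) t1 → E3) (w : ℝ) (hw : 0 ≤ w)
    (h : ∀ t, dist (x t) (y t) ≤ w) : |ud x z - ud y z| ≤ w := by
  rw [abs_le]
  constructor
  · have := ud_le_add y x z w hw (fun t => by rw [dist_comm]; exact h t)
    linarith
  · have := ud_le_add x y z w hw h
    linarith

private theorem bump_nonneg {t1 : ℝ} (y : C(Set.Icc (0:ℝ) t1, E3)) (k : ℕ)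
    (x : Set.Icc (0:ℝ) t1 → E3) : 0 ≤ bump y k x :=
  le_min zero_le_one (le_max_left _ _)

private theorem bump_lip {t1 : ℝ} (y : C(Set.Icc (0:ℝ) t1, E3)) (k : ℕ)
    (x x' : Set.Icc (0:ℝ) t1 → E3) (w : ℝ) (hw : 0 ≤ w) (h : ∀ t, dist (x t) (x' t) ≤ w) :
    |bump y k x - bump y k x'| ≤ k * w := by
  have h1 := abs_ud_sub x x' y w hw h
  unfold bump
  refine (abs_min_sub_min_le_max _ _ _ _).trans ?_
  rw [sub_self, abs_zero]
  refine max_le (by positivity) ?_
  refine (abs_max_sub_max_le_max _ _ _ _).trans ?_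
  rw [sub_self, abs_zero]
  refine max_le (by positivity) ?_
  have : (2 - (k:ℝ) * ud x y - (2 - (k:ℝ) * ud x' y)) = -((k:ℝ) * (ud x y - ud x' y)) := by ring
  rw [this, abs_neg, abs_mul, Nat.abs_cast]
  exact mul_le_mul_of_nonneg_left h1 (Nat.cast_nonneg _)

private theorem sum_nonneg' {t1 : ℝ} (L : List (C(Set.Icc (0:ℝ) t1, E3) × ℕ))
    (x : Set.Icc (0:ℝ) t1 → E3) : 0 ≤ (L.map fun p => bump p.1 p.2 x).sum := by
  refine List.sum_nonneg ?_
  intro a ha
  obtain ⟨p, -, rfl⟩ := List.mem_map.1 ha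
  exact bump_nonneg _ _ _

private theorem Phi_nonneg {t1 : ℝ} (L : List (C(Set.Icc (0:ℝ) t1, E3) × ℕ))
    (x : Set.Icc (0:ℝ) t1 → E3) : 0 ≤ Phi L x := le_min zero_le_one (sum_nonneg' L x)

theorem Phi_bdd {t1 : ℝ} (L : List (C(Set.Icc (0:ℝ) t1, E3) × ℕ))
    (x : Set.Icc (0:ℝ) t1 → E3) : |Phi L x| ≤ 1 := by
  rw [abs_of_nonneg (Phi_nonneg L x)]
  exact min_le_left _ _

private theorem Phi_lip {t1 : ℝ} (L : List (C(Set.Icc (0:ℝ) t1, E3) × ℕ))
    (x x' : Set.Icc (0:ℝ) t1 → E3) (w : ℝ) (hw : 0 ≤ w) (h : ∀ t, dist (x t) (x' t) ≤ w) :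
    |Phi L x - Phi L x'| ≤ ((L.map fun p => (p.2 : ℝ)).sum) * w := by
  unfold Phi
  refine (abs_min_sub_min_le_max _ _ _ _).trans ?_
  rw [sub_self, abs_zero]
  have hs : 0 ≤ (L.map fun p => (p.2 : ℝ)).sum := by
    refine List.sum_nonneg ?_
    intro a ha
    obtain ⟨p, -, rfl⟩ := List.mem_map.1 ha
    positivity
  refine max_le (mul_nonneg hs hw) ?_
  clear hs
  induction L with
  | nil => simp
  | cons p L ih =>
    simp only [List.map_cons, List.sum_cons]
    have h1 := bump_lip p.1 p.2 x x' w hw h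
    have h2 : bump p.1 p.2 x + (L.map fun p => bump p.1 p.2 x).sum -
        (bump p.1 p.2 x' + (L.map fun p => bump p.1 p.2 x').sum) =
        (bump p.1 p.2 x - bump p.1 p.2 x') +
        ((L.map fun p => bump p.1 p.2 x).sum - (L.map fun p => bump p.1 p.2 x').sum) := by ring
    rw [h2, add_mul]
    exact (abs_add_le _ _).trans (add_le_add h1 ih)

theorem Phi_uc {t1 : ℝ} (L : List (C(Set.Icc (0:ℝ) t1, E3) × ℕ)) :
    ∀ η : ℝ, 0 < η → ∃ w : ℝ, 0 < w ∧ ∀ x y, (∀ t, dist (x t) (y t) ≤ w) →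
      |Phi L x - Phi L y| ≤ η := by
  intro η hη
  have hs : 0 ≤ (L.map fun p => (p.2 : ℝ)).sum := by
    refine List.sum_nonneg ?_
    intro a ha
    obtain ⟨p, -, rfl⟩ := List.mem_map.1 ha
    positivity
  refine ⟨η / ((L.map fun p => (p.2 : ℝ)).sum + 1), by positivity, ?_⟩
  intro x y h
  refine (Phi_lip L x y _ (by positivity) h).trans ?_
  rw [mul_div_assoc', div_le_iff₀ (by positivity)]
  nlinarith

private theorem Phi_cont {t1 : ℝ} (L : List (C(Set.Icc (0:ℝ) t1, E3) × ℕ)) :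
    Continuous fun x : C(Set.Icc (0:ℝ) t1, E3) => Phi L x := by
  rw [Metric.continuous_iff]
  intro b ε hε
  obtain ⟨w, hw, h⟩ := Phi_uc L (ε/2) (by positivity)
  refine ⟨w, hw, fun a ha => ?_⟩
  rw [Real.dist_eq]
  refine (h a b fun t => ?_).trans_lt (by linarith)
  exact (ContinuousMap.dist_apply_le_dist t).trans ha.le

private theorem bump_zero {t1 : ℝ} (y : C(Set.Icc (0:ℝ) t1, E3)) (k : ℕ) (hk : 0 < k)
    (x : Set.Icc (0:ℝ) t1 → E3) (h : 2 / (k:ℝ) ≤ ud x y) : bump y k x = 0 := by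
  unfold bump
  have hk' : (0:ℝ) < k := by exact_mod_cast hk
  rw [div_le_iff₀ hk'] at h
  rw [max_eq_left (by linarith), min_eq_right zero_le_one]

private theorem bump_one {t1 : ℝ} (y : C(Set.Icc (0:ℝ) t1, E3)) (k : ℕ) (hk : 0 < k)
    (x : Set.Icc (0:ℝ) t1 → E3) (h : ud x y ≤ 1 / (k:ℝ)) : bump y k x = 1 := by
  unfold bump
  have hk' : (0:ℝ) < k := by exact_mod_cast hk
  rw [le_div_iff₀ hk'] at h
  rw [max_eq_right (by linarith), min_eq_left (by linarith)]

private theorem key_int {Ω' : Type*} [MeasurableSpace Ω'] (ν : Measure Ω') [IsProbabilityMeasure ν]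
    (g s φ : Ω' → ℝ) (M e : ℝ) (hg : Integrable g ν) (hs : Integrable s ν) (hφ : Integrable φ ν)
    (h : ∀ ω, |g ω - s ω| ≤ M * (1 - φ ω) + e) :
    |∫ ω, g ω ∂ν - ∫ ω, s ω ∂ν| ≤ M * (1 - ∫ ω, φ ω ∂ν) + e := by
  rw [← integral_sub hg hs]
  refine (abs_integral_le_integral_abs).trans ?_
  have h1 : ∫ ω, (M * (1 - φ ω) + e) ∂ν = M * (1 - ∫ ω, φ ω ∂ν) + e := by
    have i1 : Integrable (fun ω => 1 - φ ω) ν := (integrable_const _).sub hφ
    rw [integral_add (i1.const_mul M) (integrable_const _),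
      integral_const_mul, integral_sub (integrable_const _) hφ]
    simp
  rw [← h1]
  refine integral_mono (hg.sub hs).abs
    ((((integrable_const _).sub hφ).const_mul M).add (integrable_const _)) h

private theorem list_sum_range (f : ℕ → ℝ) (N : ℕ) :
    ((List.range N).map f).sum = ∑ i ∈ Finset.range N, f i := by
  induction N with
  | zero => simp
  | succ N ih => simp [List.range_succ, Finset.sum_range_succ, ih]

/-- the admissible pairs -/
private def AdmP {t1 : ℝ} (d : ℕ → C(Set.Icc (0:ℝ) t1, E3))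
    (G : BoundedContinuousFunction (Dsp t1) ℝ) (e : ℝ) : Set (ℕ × ℕ) :=
  {p | 0 < p.2 ∧ ∀ x : Dsp t1, ud x.path (d p.1) < 2 / (p.2 : ℝ) → |G x - G (ofC (d p.1))| ≤ e}

private theorem cover {t1 : ℝ} (d : ℕ → C(Set.Icc (0:ℝ) t1, E3)) (hd : DenseRange d)
    (G : BoundedContinuousFunction (Dsp t1) ℝ) (e : ℝ) (he : 0 < e)
    (c : C(Set.Icc (0:ℝ) t1, E3)) : ∃ p ∈ AdmP d G e, ud c (d p.1) ≤ 1 / (p.2 : ℝ) := by
  have hG : ContinuousAt G (ofC c) := G.continuous.continuousAt
  rw [ContinuousAt, EMetric.tendsto_nhds_nhds] at hG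
  obtain ⟨δ, hδ, hδ'⟩ := hG (ENNReal.ofReal (e/2)) (by simpa using he)
  obtain ⟨r, hr, hr'⟩ : ∃ r : ℝ, 0 < r ∧ ENNReal.ofReal r < δ := by
    rcases eq_or_ne δ ⊤ with h | h
    · exact ⟨1, one_pos, by rw [h]; exact ENNReal.ofReal_lt_top⟩
    · refine ⟨δ.toReal / 2, half_pos (ENNReal.toReal_pos hδ.ne' h), ?_⟩
      rw [ENNReal.ofReal_lt_iff_lt_toReal (by positivity) h]
      exact half_lt_self (ENNReal.toReal_pos hδ.ne' h)
  obtain ⟨k, hk⟩ := exists_nat_gt (3 / r + 3)
  have hk0 : (0:ℝ) < k := lt_trans (by positivity) hk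
  have hk3 : (3:ℝ) < k := lt_of_le_of_lt (by have : 0 < 3 / r := by positivity
                                             linarith) hk
  have hkr : 3 / (k:ℝ) < r := by
    have : 3 / r < k := by linarith
    rw [div_lt_iff₀ hr] at this
    rw [div_lt_iff₀ hk0]
    linarith
  have hk0' : 0 < k := by exact_mod_cast hk0
  obtain ⟨i, hi⟩ := hd.exists_dist_lt c (show (0:ℝ) < 1 / k by positivity)
  have hci : ∀ t, dist (c t) (d i t) ≤ 1 / (k:ℝ) := fun t =>
    (ContinuousMap.dist_apply_le_dist t).trans hi.le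
  have main : ∀ x : Dsp t1, ud x.path (d i) < 2 / (k : ℝ) → |G x - G (ofC c)| < e / 2 := by
    intro x hx
    have h1 : edist x (ofC c) ≤ ENNReal.ofReal r := by
      refine (edist_le_sup _ _).trans (iSup_le fun t => ?_)
      change edist (x.path t) (c t) ≤ _
      rw [edist_dist]
      refine ENNReal.ofReal_le_ofReal ?_
      have h2 := le_ud x.path (d i) t
      have h3 : (2:ℝ) / k < 1 := by
        rw [div_lt_one hk0]; linarith
      have h4 : dist (x.path t) (d i t) < 2 / k := by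
        rcases le_total 1 (dist (x.path t) (d i t)) with h | h
        · rw [min_eq_left h] at h2
          linarith
        · rw [min_eq_right h] at h2
          linarith
      have h5 := dist_triangle (x.path t) (d i t) (c t)
      have h6 := hci t
      rw [dist_comm] at h6
      have h7 : (2:ℝ) / k + 1 / k = 3 / k := by ring
      linarith
    have h2 := hδ' (lt_of_le_of_lt h1 hr')
    rw [edist_dist, ENNReal.ofReal_lt_ofReal_iff (by positivity), Real.dist_eq] at h2
    exact h2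
  refine ⟨(i, k), ⟨hk0', ?_⟩, ?_⟩
  · intro x hx
    have h1 := main x hx
    have h2 := main (ofC (d i)) (by
      have : ud (ofC (d i)).path (d i) = 0 := by
        unfold ud ofC
        simp
      rw [this]; positivity)
    rw [abs_lt] at h1 h2
    rw [abs_le]
    constructor <;> linarith [h1.1, h1.2, h2.1, h2.2]
  · refine Real.iSup_le (fun t => ?_) (by positivity)
    exact (min_le_right _ _).trans (hci t)

theorem sko_limit {Ω : Type*} [MeasurableSpace Ω] (P : Measure Ω) [IsProbabilityMeasure P]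
    (t1 : ℝ) (ht1 : 0 < t1) (A : ℕ → Set Ω) (hA : ∀ n, MeasurableSet (A n))
    (hpos : ∀ᶠ n in atTop, 0 < P.real (A n)) (y : ℕ → Ω → Dsp t1)
    (hy : ∀ n (H : Dsp t1 → ℝ), Measurable (fun ω => H (y n ω)))
    (κ1 : Measure C(Set.Icc (0:ℝ) t1, E3)) [IsProbabilityMeasure κ1]
    (d : ℕ → C(Set.Icc (0:ℝ) t1, E3)) (hd : DenseRange d)
    (hlim : ∀ L : List (ℕ × ℕ), Tendsto (fun n =>
      (∫ ω in A n, Phi (L.map fun p => (d p.1, p.2)) (y n ω).path ∂P) / P.real (A n)) atTop
      (𝓝 (∫ x, Phi (L.map fun p => (d p.1, p.2)) x ∂κ1)))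
    (G : BoundedContinuousFunction (Dsp t1) ℝ) :
    Tendsto (fun n => (∫ ω in A n, G (y n ω) ∂P) / P.real (A n)) atTop
      (𝓝 (∫ x, G (ofC x) ∂κ1)) := by
  rw [Metric.tendsto_atTop']
  intro ε hε
  set e : ℝ := ε / 8 with he
  have he0 : 0 < e := by positivity
  -- enumeration of the admissible pairs
  obtain ⟨p, hp⟩ : ∃ p : ℕ → ℕ × ℕ, AdmP d G e = Set.range p := by
    refine Set.Countable.exists_eq_range (Set.to_countable _) ?_
    obtain ⟨q, hq, -⟩ := cover d hd G e he0 0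
    exact ⟨q, hq⟩
  have hpA : ∀ i, p i ∈ AdmP d G e := fun i => by rw [hp]; exact ⟨i, rfl⟩
  set LL : ℕ → List (ℕ × ℕ) := fun N => (List.range N).map p with hLL
  set PN : ℕ → (Set.Icc (0:ℝ) t1 → E3) → ℝ := fun N x =>
    Phi ((LL N).map fun p => (d p.1, p.2)) x with hPN
  have hPNs : ∀ N x, PN N x = min 1 (∑ i ∈ Finset.range N, bump (d (p i).1) (p i).2 x) := by
    intro N x
    simp only [hPN, hLL, Phi, List.map_map, Function.comp_def]
    rw [list_sum_range]
  have hPN0 : ∀ x, PN 0 x = 0 := by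
    intro x
    rw [hPNs]; simp
  have hψ0 : ∀ i x, 0 ≤ PN (i+1) x - PN i x := by
    intro i x
    rw [hPNs, hPNs, Finset.sum_range_succ, sub_nonneg]
    exact min_le_min le_rfl (le_add_of_nonneg_right (bump_nonneg _ _ _))
  have hψs : ∀ i x, 2 / ((p i).2 : ℝ) ≤ ud x (d (p i).1) → PN (i+1) x - PN i x = 0 := by
    intro i x hx
    rw [hPNs, hPNs, Finset.sum_range_succ, bump_zero _ _ (hpA i).1 _ hx, add_zero, sub_self]
  set a : ℕ → ℝ := fun i => G (ofC (d (p i).1)) with ha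
  set SN : ℕ → (Set.Icc (0:ℝ) t1 → E3) → ℝ := fun N x =>
    ∑ i ∈ Finset.range N, a i * (PN (i+1) x - PN i x) with hSN
  set M : ℝ := ‖G‖ with hM
  have hM0 : 0 ≤ M := norm_nonneg _
  have hest : ∀ N (x : Dsp t1), |G x - SN N x.path| ≤ M * (1 - PN N x.path) + e := by
    intro N x
    have h1 : ∑ i ∈ Finset.range N, (PN (i+1) x.path - PN i x.path) = PN N x.path := by
      rw [Finset.sum_range_sub (fun i => PN i x.path), hPN0, sub_zero]
    have h2 : G x - SN N x.path = G x * (1 - PN N x.path) +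
        ∑ i ∈ Finset.range N, (G x - a i) * (PN (i+1) x.path - PN i x.path) := by
      simp only [hSN, sub_mul (G x), Finset.sum_sub_distrib, ← Finset.mul_sum, h1]
      ring
    have h3 : PN N x.path ≤ 1 := by rw [hPNs]; exact min_le_left _ _
    have h3' : 0 ≤ PN N x.path := Phi_nonneg _ _
    rw [h2]
    refine (abs_add_le _ _).trans (add_le_add ?_ ?_)
    · rw [abs_mul, abs_of_nonneg (sub_nonneg.2 h3)]
      refine mul_le_mul_of_nonneg_right ?_ (sub_nonneg.2 h3)
      exact G.norm_coe_le_norm x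
    · refine (Finset.abs_sum_le_sum_abs _ _).trans ?_
      have h4 : ∀ i ∈ Finset.range N, |(G x - a i) * (PN (i+1) x.path - PN i x.path)| ≤
          e * (PN (i+1) x.path - PN i x.path) := by
        intro i _
        rw [abs_mul, abs_of_nonneg (hψ0 i x.path)]
        rcases lt_or_ge (ud x.path (d (p i).1)) (2 / ((p i).2 : ℝ)) with h | h
        · exact mul_le_mul_of_nonneg_right ((hpA i).2 x h) (hψ0 i x.path)
        · rw [hψs i _ h]; simp
      refine (Finset.sum_le_sum h4).trans ?_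
      rw [← Finset.mul_sum, h1]
      nlinarith
  -- choice of N
  have hN1 : Tendsto (fun N => ∫ x : C(Set.Icc (0:ℝ) t1, E3), PN N x ∂κ1) atTop
      (𝓝 (∫ x : C(Set.Icc (0:ℝ) t1, E3), (1:ℝ) ∂κ1)) := by
    refine tendsto_integral_of_dominated_convergence (fun _ => 1) ?_ (integrable_const _) ?_ ?_
    · intro N
      exact (Phi_cont _).aestronglyMeasurable
    · intro N
      exact Eventually.of_forall fun x => Phi_bdd _ _
    · refine Eventually.of_forall fun x => ?_
      obtain ⟨q, hq, hq'⟩ := cover d hd G e he0 x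
      rw [hp] at hq
      obtain ⟨i, rfl⟩ := hq
      refine tendsto_const_nhds.congr' ?_
      filter_upwards [eventually_gt_atTop i] with N hN
      rw [hPNs]
      symm
      refine min_eq_left ?_
      have h1 : bump (d (p i).1) (p i).2 x ≤
          ∑ j ∈ Finset.range N, bump (d (p j).1) (p j).2 x :=
        Finset.single_le_sum (f := fun j => bump (d (p j).1) (p j).2 x)
          (fun j _ => bump_nonneg _ _ _) (Finset.mem_range.2 hN)
      rwa [bump_one _ _ (hpA i).1 _ hq'] at h1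
  simp only [integral_const, probReal_univ, smul_eq_mul, mul_one] at hN1
  obtain ⟨N, hN⟩ : ∃ N, M * (1 - ∫ x : C(Set.Icc (0:ℝ) t1, E3), PN N x ∂κ1) < e := by
    have h1 : Tendsto (fun N => M * (1 - ∫ x : C(Set.Icc (0:ℝ) t1, E3), PN N x ∂κ1)) atTop
        (𝓝 (M * (1 - 1))) := (tendsto_const_nhds.sub hN1).const_mul M
    rw [sub_self, mul_zero] at h1
    exact (h1.eventually_lt_const he0).exists
  -- conditional measures
  set ν : ℕ → Measure Ω := fun n => (P (A n))⁻¹ • P.restrict (A n) with hν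
  have hνi : ∀ n (f : Ω → ℝ), (∫ ω in A n, f ω ∂P) / P.real (A n) = ∫ ω, f ω ∂(ν n) := by
    intro n f
    simp only [hν]
    rw [integral_smul_measure, ENNReal.toReal_inv, smul_eq_mul, div_eq_inv_mul, measureReal_def]
  have hνp : ∀ n, 0 < P.real (A n) → IsProbabilityMeasure (ν n) := by
    intro n hn
    refine ⟨?_⟩
    simp only [hν, Measure.smul_apply, Measure.restrict_apply MeasurableSet.univ, Set.univ_inter,
      smul_eq_mul]
    refine ENNReal.inv_mul_cancel ?_ (measure_ne_top _ _)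
    intro h
    rw [measureReal_def, h] at hn
    simp at hn
  simp only [hνi] at hlim ⊢
  have hPl : ∀ i, Tendsto (fun n => ∫ ω, PN i (y n ω).path ∂(ν n)) atTop
      (𝓝 (∫ x : C(Set.Icc (0:ℝ) t1, E3), PN i x ∂κ1)) := fun i => hlim (LL i)
  have hfin : ∀ n, IsFiniteMeasure (ν n) := by
    intro n
    by_cases hn : 0 < P.real (A n)
    · have := hνp n hn
      infer_instance
    · have h0 : P (A n) = 0 := by
        have h1 : P.real (A n) = 0 := le_antisymm (not_lt.1 hn) measureReal_nonneg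
        rw [measureReal_def, ENNReal.toReal_eq_zero_iff] at h1
        exact h1.resolve_right (measure_ne_top _ _)
      have h2 : ν n = 0 := by
        simp only [hν]
        rw [Measure.restrict_eq_zero.2 h0, smul_zero]
      rw [h2]
      infer_instance
  have hPi : ∀ i n, Integrable (fun ω => PN i (y n ω).path) (ν n) := by
    intro i n
    have := hfin n
    refine Integrable.of_bound (C := 1)
      ((hy n (fun x => PN i x.path)).aestronglyMeasurable) ?_
    exact Eventually.of_forall fun ω => Phi_bdd _ _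
  have hPk : ∀ i, Integrable (fun x : C(Set.Icc (0:ℝ) t1, E3) => PN i x) κ1 := by
    intro i
    refine Integrable.of_bound (C := 1) ((Phi_cont _).aestronglyMeasurable) ?_
    exact Eventually.of_forall fun ω => Phi_bdd _ _
  have hSi : ∀ n, Integrable (fun ω => SN N (y n ω).path) (ν n) := by
    intro n
    exact integrable_finsetSum _ fun i _ => ((hPi (i+1) n).sub (hPi i n)).const_mul _
  have hSk : Integrable (fun x : C(Set.Icc (0:ℝ) t1, E3) => SN N x) κ1 := by
    exact integrable_finsetSum _ fun i _ => ((hPk (i+1)).sub (hPk i)).const_mul _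
  have hSl : Tendsto (fun n => ∫ ω, SN N (y n ω).path ∂(ν n)) atTop
      (𝓝 (∫ x : C(Set.Icc (0:ℝ) t1, E3), SN N x ∂κ1)) := by
    have h1 : ∀ n, ∫ ω, SN N (y n ω).path ∂(ν n) = ∑ i ∈ Finset.range N,
        a i * (∫ ω, PN (i+1) (y n ω).path ∂(ν n) - ∫ ω, PN i (y n ω).path ∂(ν n)) := by
      intro n
      simp only [hSN]
      have i1 : ∀ i ∈ Finset.range N, Integrable
          (fun ω => a i * (PN (i+1) (y n ω).path - PN i (y n ω).path)) (ν n) :=
        fun i _ => ((hPi (i+1) n).sub (hPi i n)).const_mul _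
      rw [integral_finsetSum _ i1]
      refine Finset.sum_congr rfl fun i _ => ?_
      rw [integral_const_mul, integral_sub (hPi (i+1) n) (hPi i n)]
    have h2 : ∫ x : C(Set.Icc (0:ℝ) t1, E3), SN N x ∂κ1 = ∑ i ∈ Finset.range N,
        a i * (∫ x : C(Set.Icc (0:ℝ) t1, E3), PN (i+1) x ∂κ1 -
          ∫ x : C(Set.Icc (0:ℝ) t1, E3), PN i x ∂κ1) := by
      simp only [hSN]
      have i1 : ∀ i ∈ Finset.range N, Integrable
          (fun x : C(Set.Icc (0:ℝ) t1, E3) => a i * (PN (i+1) x - PN i x)) κ1 :=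
        fun i _ => ((hPk (i+1)).sub (hPk i)).const_mul _
      rw [integral_finsetSum _ i1]
      refine Finset.sum_congr rfl fun i _ => ?_
      rw [integral_const_mul, integral_sub (hPk (i+1)) (hPk i)]
    simp only [h1, h2]
    exact tendsto_finsetSum _ fun i _ => ((hPl (i+1)).sub (hPl i)).const_mul _
  have hGk : Integrable (fun x : C(Set.Icc (0:ℝ) t1, E3) => G (ofC x)) κ1 := by
    refine Integrable.of_bound (C := M)
      ((G.continuous.comp continuous_ofC).aestronglyMeasurable) ?_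
    exact Eventually.of_forall fun ω => G.norm_coe_le_norm _
  have hk : |∫ x, G (ofC x) ∂κ1 - ∫ x : C(Set.Icc (0:ℝ) t1, E3), SN N x ∂κ1| ≤
      M * (1 - ∫ x : C(Set.Icc (0:ℝ) t1, E3), PN N x ∂κ1) + e :=
    key_int κ1 _ _ _ M e hGk hSk (hPk N) fun x => hest N (ofC x)
  have h1 : ∀ᶠ n in atTop, M * (1 - ∫ ω, PN N (y n ω).path ∂(ν n)) < e := by
    have h2 : Tendsto (fun n => M * (1 - ∫ ω, PN N (y n ω).path ∂(ν n))) atTop
        (𝓝 (M * (1 - ∫ x : C(Set.Icc (0:ℝ) t1, E3), PN N x ∂κ1))) :=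
      (tendsto_const_nhds.sub (hPl N)).const_mul M
    exact h2.eventually_lt_const hN
  have h3 : ∀ᶠ n in atTop, |∫ ω, SN N (y n ω).path ∂(ν n) -
      ∫ x : C(Set.Icc (0:ℝ) t1, E3), SN N x ∂κ1| < e := by
    have := (Metric.tendsto_nhds.1 hSl) e he0
    simpa only [Real.dist_eq] using this
  obtain ⟨n0, hn0⟩ := eventually_atTop.1 (hpos.and (h1.and h3))
  refine ⟨n0, fun n hn => ?_⟩
  obtain ⟨hn1, hn2, hn3⟩ := hn0 n hn.le
  have := hνp n hn1
  have hGn : Integrable (fun ω => G (y n ω)) (ν n) := by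
    refine Integrable.of_bound (C := M) ((hy n G).aestronglyMeasurable) ?_
    exact Eventually.of_forall fun ω => G.norm_coe_le_norm _
  have hk2 : |∫ ω, G (y n ω) ∂(ν n) - ∫ ω, SN N (y n ω).path ∂(ν n)| ≤
      M * (1 - ∫ ω, PN N (y n ω).path ∂(ν n)) + e :=
    key_int (ν n) _ _ _ M e hGn (hSi n) (hPi N n) fun ω => hest N (y n ω)
  rw [Real.dist_eq]
  rw [abs_le] at hk hk2
  rw [abs_lt] at hn3 ⊢
  constructor <;> linarith [hk.1, hk.2, hk2.1, hk2.2, hn3.1, hn3.2]

end Pool.Agent.Helper7.Stuck
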