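import Pool.Agent.Helper7.Stuck.NB3
import Pool.Agent.Helper7.Stuck.Ctrl

open MeasureTheory ProbabilityTheory Filter Topology
open scoped NNReal ENNReal

namespace Pool.Agent.Helper7.Stuck

universe u

theorem three_int (m : ℕ) (g : ℤ → ℝ) (hg : ∀ x, |g x| ≤ 1) : Integrable g (nb m) :=
  Integrable.of_bound (Measurable.of_discrete).aestronglyMeasurable 1
    (Eventually.of_forall fun x => by rw [Real.norm_eq_abs]; exact hg x)

theorem three_abs (m : ℕ) (g : ℤ → ℝ) (c : ℝ) (hg : ∀ x, |g x| ≤ c) :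
    |∫ x, g x ∂(nb m)| ≤ c := by
  have h := norm_integral_le_of_norm_le_const (μ := nb m) (f := g) (C := c)
    (Eventually.of_forall fun x => by rw [Real.norm_eq_abs]; exact hg x)
  rw [Real.norm_eq_abs, measureReal_def, measure_univ, ENNReal.toReal_one, mul_one] at h
  exact h

theorem three_Tp_abs (V : ℤ → ℕ) (f : St → ℝ) (hf : ∀ z, |f z| ≤ 1) (z : St) :
    |Tp V f z| ≤ 1 := three_abs _ _ 1 fun _ => hf _

/-- one step of the coupling -/
theorem three_step (K : ℕ) (V : ℤ → ℕ) (hV : Adm K V) (f f' : St → ℝ) (hf : ∀ z, |f z| ≤ 1)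
    (hf' : ∀ z, |f' z| ≤ 1) (d : St) (h : ℤ) (e : ℝ)
    (he : ∀ w w', w - w' = (d.1 - h, d.2.1 + d.1, d.2.2 + d.2.1) → |f w - f' w'| ≤ e)
    (z z' : St) (hd : z - z' = d) :
    |Tp V f z - Tp V f' z'| ≤ e + 7 * |(h:ℝ)| / √K + 14 * |((d.2.1 + d.1 : ℤ) : ℝ)| / √K := by
  have hK : (0:ℝ) < √K := Real.sqrt_pos.2 (by exact_mod_cast hV.pos)
  obtain ⟨a, b, c⟩ := z
  obtain ⟨a', b', c'⟩ := z'
  subst hd
  simp only [Tp, Prod.mk_sub_mk] at he ⊢
  let g : ℤ → ℝ := fun x => f' (a' + x, b' + a', c' + b')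
  have hg : ∀ x, |g x| ≤ 1 := fun x => hf' _
  -- step A
  have hA : |∫ x, f (a + x, b + a, c + b) ∂(nb (V (b + a))) - ∫ x, g (x + h) ∂(nb (V (b + a)))|
      ≤ e := by
    rw [← integral_sub (three_int _ _ fun x => hf _) (three_int _ _ fun x => hg _)]
    apply three_abs
    intro x
    apply he
    simp only [Prod.mk_sub_mk, Prod.mk.injEq]
    refine ⟨by ring, by ring, by ring⟩
  -- step B
  have hB : |∫ x, g (x + h) ∂(nb (V (b + a))) - ∫ x, g x ∂(nb (V (b + a)))| ≤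
      7 * |(h:ℝ)| / √K := by
    refine (one_shift _ (hV.pos.trans (hV.ge _)) h g hg).trans ?_
    have h1 : √(K:ℝ) ≤ √(V (b + a) : ℝ) := Real.sqrt_le_sqrt (by exact_mod_cast hV.ge _)
    exact div_le_div_of_nonneg_left (by positivity) hK h1
  -- step C
  have hC : |∫ x, g x ∂(nb (V (b + a))) - ∫ x, g x ∂(nb (V (b' + a')))| ≤
      14 * |((b - b' + (a - a') : ℤ) : ℝ)| / √K := by
    refine (var_shift K hV.pos _ _ (hV.ge _) (hV.ge _) g hg).trans ?_
    have h1 : |((V (b + a) : ℝ)) - V (b' + a')| ≤ |((b - b' + (a - a') : ℤ) : ℝ)| := by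
      have h2 := hV.lip (b + a) (b' + a')
      rw [show b + a - (b' + a') = b - b' + (a - a') by ring] at h2
      exact_mod_cast h2
    gcongr
  have h1 := abs_le.1 hA
  have h2 := abs_le.1 hB
  have h3 := abs_le.1 hC
  have e1 : ∫ x, g x ∂(nb (V (b' + a'))) =
    ∫ x, f' (a' + x, b' + a', c' + b') ∂(nb (V (b' + a'))) := rfl
  rw [← e1, abs_le]
  constructor <;> linarith

theorem three (K : ℕ) (V : ℤ → ℕ) (hV : Adm K V) (M : ℝ) (z z' : St)
    (h1 : |((z - z').1:ℝ)| ≤ M) (h2 : |((z - z').2.1:ℝ)| ≤ M) (h3 : |((z - z').2.2:ℝ)| ≤ M)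
    (f : St → ℝ) (hf1 : ∀ z, |f z| ≤ 1) :
    |(Tp V)^[3] f z - (Tp V)^[3] f z'| ≤ 20000 * M / √K := by
  obtain ⟨h, hh, hb, h0⟩ := ctrl3 (z - z') M h1 h2 h3
  have hK : (0:ℝ) < √K := Real.sqrt_pos.2 (by exact_mod_cast hV.pos)
  have hM : 0 ≤ M := (abs_nonneg _).trans h1
  -- one step along the path
  have key : ∀ i, i < 3 → ∀ (g g' : St → ℝ) (e : ℝ), (∀ z, |g z| ≤ 1) → (∀ z, |g' z| ≤ 1) →
      (∀ w w', w - w' = dpath h (z - z') (i + 1) → |g w - g' w'| ≤ e) →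
      ∀ w w', w - w' = dpath h (z - z') i → |Tp V g w - Tp V g' w'| ≤ e + 5000 * M / √K := by
    intro i hi g g' e hg hg' he w w' hw
    have h4 := three_step K V hV g g' hg hg' (dpath h (z - z') i) (h i) e he w w' hw
    refine h4.trans ?_
    have h5 := hb (i + 1) (by omega)
    have h6 : ((dpath h (z - z') (i + 1)).2.1 : ℤ) =
      (dpath h (z - z') i).2.1 + (dpath h (z - z') i).1 := rfl
    rw [h6] at h5
    have h7 := hh i
    have h8 : 7 * |(h i : ℝ)| / √K ≤ 7 * (30 * M) / √K := by gcongr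
    have h9 : 14 * |(((dpath h (z - z') i).2.1 + (dpath h (z - z') i).1 : ℤ) : ℝ)| / √K ≤
      14 * (300 * M) / √K := by gcongr
    have h10 : 7 * (30 * M) / √K + 14 * (300 * M) / √K ≤ 5000 * M / √K := by
      rw [← add_div]
      gcongr
      linarith
    linarith
  have e3 : ∀ w w', w - w' = dpath h (z - z') 3 → |f w - f w'| ≤ 0 := by
    intro w w' hw
    rw [h0, sub_eq_zero] at hw
    rw [hw, sub_self, abs_zero]
  have e2 := key 2 (by norm_num) f f 0 hf1 hf1 e3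
  have hf2 := three_Tp_abs V f hf1
  have e1 := key 1 (by norm_num) _ _ _ hf2 hf2 e2
  have hf3 := three_Tp_abs V _ hf2
  have e0 := key 0 (by norm_num) _ _ _ hf3 hf3 e1 z z' rfl
  have e4 : |(Tp V)^[3] f z - (Tp V)^[3] f z'| ≤
    0 + 5000 * M / √K + 5000 * M / √K + 5000 * M / √K := e0
  refine e4.trans ?_
  rw [zero_add, ← add_div, ← add_div]
  gcongr
  linarith

end Pool.Agent.Helper7.Stuck
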