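import Pool.Agent.Helper7.Stuck.Ctrl
import Pool.Agent.Helper7.Stuck.Block
import Pool.Agent.Helper7.Stuck.Three

open MeasureTheory ProbabilityTheory Filter Topology
open scoped NNReal ENNReal

namespace Pool.Agent.Helper7.Stuck

universe u

theorem tvb_le2 {x y : ℝ} (hx : 0 ≤ x) (h : x ^ (1/2 : ℝ) ≤ y) : x ≤ y ^ 2 := by
  have h1 : (x ^ (1/2 : ℝ)) ^ 2 = x := by
    rw [← Real.rpow_natCast, ← Real.rpow_mul hx]; norm_num
  rw [← h1]
  exact pow_le_pow_left₀ (Real.rpow_nonneg hx _) h 2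

theorem tvb_le3 {x y : ℝ} (hx : 0 ≤ x) (h : x ^ (1/3 : ℝ) ≤ y) : x ≤ y ^ 3 := by
  have h1 : (x ^ (1/3 : ℝ)) ^ 3 = x := by
    rw [← Real.rpow_natCast, ← Real.rpow_mul hx]; norm_num
  rw [← h1]
  exact pow_le_pow_left₀ (Real.rpow_nonneg hx _) h 3

theorem tvb_le4 {x y : ℝ} (hx : 0 ≤ x) (h : x ^ (1/4 : ℝ) ≤ y) : x ≤ y ^ 4 := by
  have h1 : (x ^ (1/4 : ℝ)) ^ 4 = x := by
    rw [← Real.rpow_natCast, ← Real.rpow_mul hx]; norm_num
  rw [← h1]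
  exact pow_le_pow_left₀ (Real.rpow_nonneg hx _) h 4

theorem tvb_root2 {x y : ℝ} (hx : 0 ≤ x) (hy : 0 ≤ y) (h : x ≤ y ^ 2) : x ^ (1/2 : ℝ) ≤ y := by
  have h1 : (y ^ 2) ^ (1/2 : ℝ) = y := by
    rw [← Real.rpow_natCast, ← Real.rpow_mul hy]; norm_num
  rw [← h1]
  exact Real.rpow_le_rpow hx h (by norm_num)

theorem tvb_root3 {x y : ℝ} (hx : 0 ≤ x) (hy : 0 ≤ y) (h : x ≤ y ^ 3) : x ^ (1/3 : ℝ) ≤ y := by
  have h1 : (y ^ 3) ^ (1/3 : ℝ) = y := by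
    rw [← Real.rpow_natCast, ← Real.rpow_mul hy]; norm_num
  rw [← h1]
  exact Real.rpow_le_rpow hx h (by norm_num)

theorem tvb_root4 {x y : ℝ} (hx : 0 ≤ x) (hy : 0 ≤ y) (h : x ≤ y ^ 4) : x ^ (1/4 : ℝ) ≤ y := by
  have h1 : (y ^ 4) ^ (1/4 : ℝ) = y := by
    rw [← Real.rpow_natCast, ← Real.rpow_mul hy]; norm_num
  rw [← h1]
  exact Real.rpow_le_rpow hx h (by norm_num)

theorem tvb_rho_nonneg (d : St) : 0 ≤ rho d := by unfold rho; positivity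

theorem tvb_rho_bounds (d : St) : |(d.1:ℝ)| ≤ rho d ^ 2 ∧ |(d.2.1:ℝ)| ≤ rho d ^ 3 ∧
    |(d.2.2:ℝ)| ≤ (rho d / 512) ^ 4 := by
  have h1 : 0 ≤ |(d.1:ℝ)| ^ (1/2 : ℝ) := by positivity
  have h2 : 0 ≤ |(d.2.1:ℝ)| ^ (1/3 : ℝ) := by positivity
  have h3 : 0 ≤ |(d.2.2:ℝ)| ^ (1/4 : ℝ) := by positivity
  refine ⟨tvb_le2 (abs_nonneg _) ?_, tvb_le3 (abs_nonneg _) ?_, tvb_le4 (abs_nonneg _) ?_⟩
  · unfold rho; linarith
  · unfold rho; linarith
  · unfold rho; linarith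

theorem tvb_rho_one (d : St) (hd : d ≠ 0) : 1 ≤ rho d := by
  have h1 : 0 ≤ |(d.1:ℝ)| ^ (1/2 : ℝ) := by positivity
  have h2 : 0 ≤ |(d.2.1:ℝ)| ^ (1/3 : ℝ) := by positivity
  have h3 : 0 ≤ |(d.2.2:ℝ)| ^ (1/4 : ℝ) := by positivity
  have key : ∀ (a : ℤ) (p : ℝ), 0 ≤ p → a ≠ 0 → 1 ≤ |(a:ℝ)| ^ p := by
    intro a p hp ha
    apply Real.one_le_rpow _ hp
    rw [← Int.cast_abs]
    exact_mod_cast Int.one_le_abs ha
  unfold rho
  by_cases h4 : d.1 = 0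
  · by_cases h5 : d.2.1 = 0
    · by_cases h6 : d.2.2 = 0
      · exact absurd (Prod.ext h4 (Prod.ext h5 h6)) hd
      · have := key d.2.2 (1/4) (by norm_num) h6
        linarith
    · have := key d.2.1 (1/3) (by norm_num) h5
      linarith
  · have := key d.1 (1/2) (by norm_num) h4
    linarith

theorem tvb_Tp_abs (V : ℤ → ℕ) (φ : St → ℝ) (hφ : ∀ z, |φ z| ≤ 1) (j : ℕ) (z : St) :
    |(Tp V)^[j] φ z| ≤ 1 := by
  induction j generalizing z with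
  | zero => exact hφ z
  | succ j ih =>
    rw [Function.iterate_succ', Function.comp_apply]
    exact blk_abs_int _ _ _ fun _ => ih _

/-- the numerical heart of the large case -/
theorem tvb_large (K : ℕ) (V : ℤ → ℕ) (hV : Adm K V) (f : St → ℝ) (hf1 : ∀ z, |f z| ≤ 1)
    (k : ℝ) (hk : 0 ≤ k) (hf : ∀ z z', |f z - f z'| ≤ k * rho (z - z')) (z z' : St)
    (l : ℕ) (hl : 1 ≤ l) (hl1 : (l:ℝ) ≤ (1/2) ^ 40 * rho (z - z'))
    (hl2 : (1/2) ^ 40 * rho (z - z') / 2 ≤ l) (hρ : 1 ≤ rho (z - z'))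
    (q : ℝ) (hq0 : 0 < q) (hq3 : (K:ℝ) * q ^ 3 = 1) (hρq : rho (z - z') * q ≤ 1) :
    |(Tp V)^[3 * l] f z - (Tp V)^[3 * l] f z'| ≤
      k * (rho (z - z') / 8) + 7 * (2 ^ 100 * rho (z - z') * q) := by
  obtain ⟨R, hR⟩ : ∃ R, R = rho (z - z') := ⟨_, rfl⟩
  obtain ⟨ha, hb, hc⟩ := tvb_rho_bounds (z - z')
  rw [← hR] at hl1 hl2 hρ hρq ha hb hc ⊢
  have hR0 : 0 < R := by linarith
  have hl0 : (1:ℝ) ≤ l := by exact_mod_cast hl
  obtain ⟨μ, hμ⟩ : ∃ μ, μ = |((z - z').1:ℝ)| * (l:ℝ) ^ 2 + |((z - z').2.1:ℝ)| * l +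
    |((z - z').2.2:ℝ)| := ⟨_, rfl⟩
  have hμ0 : 0 ≤ μ := by rw [hμ]; positivity
  have hl1' : (l:ℝ) ^ 2 ≤ ((1/2) ^ 40 * R) ^ 2 := pow_le_pow_left₀ (by positivity) hl1 2
  have hl3' : (l:ℝ) ^ 3 ≤ ((1/2) ^ 40 * R) ^ 3 := pow_le_pow_left₀ (by positivity) hl1 3
  have hl4' : (l:ℝ) ^ 4 ≤ ((1/2) ^ 40 * R) ^ 4 := pow_le_pow_left₀ (by positivity) hl1 4
  have hμ1 : μ ≤ R ^ 2 * ((1/2) ^ 40 * R) ^ 2 + R ^ 3 * ((1/2) ^ 40 * R) + (R / 512) ^ 4 := by
    rw [hμ]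
    have h1 := mul_le_mul ha hl1' (by positivity) (by positivity)
    have h2 := mul_le_mul hb hl1 (by positivity) (by positivity)
    linarith
  obtain ⟨h, hh1, hh2, hh3, hh4, hh5⟩ := ctrl (z - z') l hl μ hμ
  have hR4 : 0 ≤ R ^ 4 := by positivity
  have hμ2 : μ ≤ R ^ 4 * (1.55 / 10 ^ 11) := by
    refine hμ1.trans ?_
    have : R ^ 2 * ((1/2) ^ 40 * R) ^ 2 + R ^ 3 * ((1/2) ^ 40 * R) + (R / 512) ^ 4 =
      R ^ 4 * ((1/2) ^ 80 + (1/2) ^ 40 + (1/2) ^ 36) := by ring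
    rw [this]
    apply mul_le_mul_of_nonneg_left _ hR4
    norm_num
  -- s
  obtain ⟨s, hs⟩ : ∃ s, s = 0.0012 * R ^ 2 := ⟨_, rfl⟩
  have hs0 : 0 < s := by rw [hs]; positivity
  have hs2 : 55 * (((3 * l : ℕ)) : ℝ) * (2 * (274 * μ / l + 9 / 4 * (l:ℝ) ^ 2) +
      4 * (((3 * l : ℕ)) : ℝ) ^ 3) ≤ s ^ 2 := by
    have h1 : 55 * (((3 * l : ℕ)) : ℝ) * (2 * (274 * μ / l + 9 / 4 * (l:ℝ) ^ 2) +
      4 * (((3 * l : ℕ)) : ℝ) ^ 3) = 90420 * μ + 742.5 * (l:ℝ) ^ 3 + 17820 * (l:ℝ) ^ 4 := by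
      push_cast
      field_simp
      ring
    rw [h1, hs]
    have h2 : (l:ℝ) ^ 3 ≤ (l:ℝ) ^ 4 := by
      have : 0 ≤ (l:ℝ) ^ 3 := by positivity
      nlinarith
    have h3 : ((1/2) ^ 40 * R) ^ 4 = R ^ 4 * (1/2) ^ 160 := by ring
    have h4 : (0.0012 * R ^ 2) ^ 2 = R ^ 4 * (1.44 / 10 ^ 6) := by ring
    have h5 : R ^ 4 * (1/2:ℝ) ^ 160 ≤ R ^ 4 * (1 / 10 ^ 20) := by
      apply mul_le_mul_of_nonneg_left _ hR4
      norm_num
    rw [h4]
    rw [h3] at hl4'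
    linarith
  have hblock := block K V hV (3 * l) (by omega) h (274 * μ / l + 9 / 4 * (l:ℝ) ^ 2) z z'
    hh2 f hf1 k hk hf s hs0 hs2
  -- bound of `rho (d_L)`
  have hrho : rho (dpath h (z - z') (3 * l)) ≤ 0.0072 * R := by
    have h1 : |((dpath h (z - z') (3 * l)).1 : ℝ)| ^ (1/2 : ℝ) ≤ 0.001 * R := by
      apply tvb_root2 (abs_nonneg _) (by positivity)
      refine hh3.trans ?_
      have : (1:ℝ) * R ≤ R * R := by nlinarith
      nlinarith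
    have h2 : |((dpath h (z - z') (3 * l)).2.1 : ℝ)| ^ (1/3 : ℝ) ≤ 0.001 * R := by
      apply tvb_root3 (abs_nonneg _) (by positivity)
      refine hh4.trans ?_
      have h3 : R ^ 2 ≤ R ^ 3 := by nlinarith [sq_nonneg R]
      have h4 : ((1/2) ^ 40 * R) ^ 2 = R ^ 2 * (1/2) ^ 80 := by ring
      have h5 : (0.001 * R) ^ 3 = R ^ 3 * (1 / 10 ^ 9) := by ring
      rw [h5]
      rw [h4] at hl1'
      have h6 : R ^ 2 * (1/2:ℝ) ^ 80 ≤ R ^ 2 * (1 / 10 ^ 10) := by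
        apply mul_le_mul_of_nonneg_left _ (by positivity)
        norm_num
      nlinarith
    have h3 : |((dpath h (z - z') (3 * l)).2.2 : ℝ)| ^ (1/4 : ℝ) ≤ 0.00001 * R := by
      apply tvb_root4 (abs_nonneg _) (by positivity)
      refine hh5.trans ?_
      have h3 : R ^ 3 ≤ R ^ 4 := by
        have : 0 ≤ R ^ 3 := by positivity
        nlinarith
      have h4 : ((1/2) ^ 40 * R) ^ 3 = R ^ 3 * (1/2) ^ 120 := by ring
      have h5 : (0.00001 * R) ^ 4 = R ^ 4 * (1 / 10 ^ 20) := by ring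
      rw [h5]
      rw [h4] at hl3'
      have h6 : R ^ 3 * (1/2:ℝ) ^ 120 ≤ R ^ 3 * (1 / 10 ^ 21) := by
        apply mul_le_mul_of_nonneg_left _ (by positivity)
        norm_num
      nlinarith
    unfold rho
    linarith
  have hQ1 : s ^ (1/2 : ℝ) ≤ 0.035 * R := by
    apply tvb_root2 hs0.le (by positivity)
    rw [hs]
    nlinarith [sq_nonneg R]
  have hL1 : (((3 * l : ℕ)) : ℝ) ≤ 3 * (1/2) ^ 40 * R := by
    push_cast
    linarith
  have hL0 : (0:ℝ) ≤ ((3 * l : ℕ) : ℝ) := Nat.cast_nonneg _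
  have hQ2 : (s * ((3 * l : ℕ) : ℝ)) ^ (1/3 : ℝ) ≤ 0.001 * R := by
    apply tvb_root3 (by positivity) (by positivity)
    have h1 := mul_le_mul_of_nonneg_left hL1 hs0.le
    refine h1.trans ?_
    rw [hs]
    have h2 : 0.0012 * R ^ 2 * (3 * (1/2) ^ 40 * R) = R ^ 3 * (0.0036 * (1/2) ^ 40) := by ring
    have h3 : (0.001 * R) ^ 3 = R ^ 3 * (1 / 10 ^ 9) := by ring
    rw [h2, h3]
    apply mul_le_mul_of_nonneg_left _ (by positivity)
    norm_num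
  have hQ3 : (s * ((3 * l : ℕ) : ℝ) ^ 2) ^ (1/4 : ℝ) ≤ 0.00001 * R := by
    apply tvb_root4 (by positivity) (by positivity)
    have h0 := pow_le_pow_left₀ hL0 hL1 2
    have h1 := mul_le_mul_of_nonneg_left h0 hs0.le
    refine h1.trans ?_
    rw [hs]
    have h2 : 0.0012 * R ^ 2 * (3 * (1/2) ^ 40 * R) ^ 2 = R ^ 4 * (0.0108 * (1/2) ^ 80) := by ring
    have h3 : (0.00001 * R) ^ 4 = R ^ 4 * (1 / 10 ^ 20) := by ring
    rw [h2, h3]
    apply mul_le_mul_of_nonneg_left _ (by positivity)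
    norm_num
  -- the noise cost
  have hhb : ∀ i, |(h i : ℝ)| ≤ 2 ^ 100 * R := by
    intro i
    refine (hh1 i).trans ?_
    have h1 : ((1/2) ^ 40 * R / 2) ^ 3 ≤ (l:ℝ) ^ 3 := pow_le_pow_left₀ (by positivity) hl2 3
    have h2 : ((1/2) ^ 40 * R / 2) ^ 3 = R ^ 3 * (1/2) ^ 123 := by ring
    have h3 : 30 * μ / (l:ℝ) ^ 3 ≤ 30 * (R ^ 4 * (1.55 / 10 ^ 11)) / (R ^ 3 * (1/2) ^ 123) := by
      rw [← h2]
      apply div_le_div₀ (by positivity) (by linarith) (by positivity) h1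
    have h4 : 30 * (R ^ 4 * (1.55 / 10 ^ 11)) / (R ^ 3 * (1/2) ^ 123) =
        R * (30 * (1.55 / 10 ^ 11) * 2 ^ 123) := by
      field_simp
    rw [h4] at h3
    have h5 : R * (30 * (1.55 / 10 ^ 11) * 2 ^ 123) ≤ R * (2 ^ 99) := by
      apply mul_le_mul_of_nonneg_left _ hR0.le
      norm_num
    nlinarith
  have hcost : √(∑ i ∈ Finset.range (3 * l), (h i : ℝ) ^ 2 / K) ≤ 2 ^ 100 * R * q := by
    have hK0 : (0:ℝ) < K := by exact_mod_cast hV.pos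
    rw [Real.sqrt_le_left (by positivity)]
    have h1 : ∑ i ∈ Finset.range (3 * l), (h i : ℝ) ^ 2 / K ≤
        ∑ i ∈ Finset.range (3 * l), (2 ^ 100 * R) ^ 2 / K := by
      apply Finset.sum_le_sum
      intro i _
      apply div_le_div_of_nonneg_right _ hK0.le
      rw [← sq_abs]
      exact pow_le_pow_left₀ (abs_nonneg _) (hhb i) 2
    rw [Finset.sum_const, Finset.card_range, nsmul_eq_mul] at h1
    refine h1.trans ?_
    have h2 : (((3 * l : ℕ)) : ℝ) ≤ R := by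
      refine hL1.trans ?_
      have : (3 * (1/2) ^ 40 * R : ℝ) = R * (3 * (1/2) ^ 40) := by ring
      rw [this]
      nlinarith
    have h3 : (((3 * l : ℕ)) : ℝ) * ((2 ^ 100 * R) ^ 2 / K) ≤ R * ((2 ^ 100 * R) ^ 2 / K) :=
      mul_le_mul_of_nonneg_right h2 (by positivity)
    refine h3.trans ?_
    have h4 : (1:ℝ) / K = q ^ 3 := by
      field_simp
      linarith
    have h5 : R * ((2 ^ 100 * R) ^ 2 / K) = (2 ^ 100) ^ 2 * R ^ 2 * q ^ 2 * (R * q) := by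
      rw [div_eq_mul_one_div, h4]
      ring
    rw [h5]
    have h6 : (2 ^ 100) ^ 2 * R ^ 2 * q ^ 2 * (R * q) ≤ (2 ^ 100) ^ 2 * R ^ 2 * q ^ 2 * 1 :=
      mul_le_mul_of_nonneg_left hρq (by positivity)
    refine h6.trans (le_of_eq (by ring))
  refine hblock.trans ?_
  have hfin : rho (dpath h (z - z') (3 * l)) + 2 * (s ^ (1/2 : ℝ) +
      (s * ((3 * l : ℕ) : ℝ)) ^ (1/3 : ℝ) + 512 * (s * ((3 * l : ℕ) : ℝ) ^ 2) ^ (1/4 : ℝ)) ≤
      R / 8 := by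
    linarith
  have h7 := mul_le_mul_of_nonneg_left hfin hk
  linarith

theorem tv_bound : ∃ κ : ℝ, 0 < κ ∧ ∀ (K : ℕ) (V : ℤ → ℕ), Adm K V → ∀ j : ℕ, 1 ≤ j →
    ∀ φ : St → ℝ, (∀ z, |φ z| ≤ 1) → ∀ z z',
    |(Tp V)^[j] φ z - (Tp V)^[j] φ z'| ≤
      κ * rho (z - z') * ((K:ℝ) ^ (-(1/3 : ℝ)) + 1 / j) := by
  refine ⟨2 ^ 200, by positivity, ?_⟩
  intro K V hV j
  have hK1 : (1:ℝ) ≤ K := by exact_mod_cast hV.pos
  have hK0 : (0:ℝ) < K := by linarith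
  obtain ⟨q, hq⟩ : ∃ q, q = (K:ℝ) ^ (-(1/3 : ℝ)) := ⟨_, rfl⟩
  have hq0 : 0 < q := by rw [hq]; positivity
  have hq3 : (K:ℝ) * q ^ 3 = 1 := by
    rw [hq, ← Real.rpow_natCast, ← Real.rpow_mul hK0.le]
    norm_num
    rw [Real.rpow_neg_one]
    field_simp
  have hq1 : q ≤ 1 := by
    by_contra hcon
    push Not at hcon
    have : 1 < q ^ 3 := by
      have h1 : 1 < q * q := by nlinarith
      have h2 : q ^ 3 = q * q * q := by ring
      rw [h2]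
      nlinarith
    nlinarith
  rw [← hq]
  induction j using Nat.strong_induction_on with
  | _ j ih =>
  intro hj φ hφ z z'
  have hj0 : (1:ℝ) ≤ j := by exact_mod_cast hj
  have hD2 : |(Tp V)^[j] φ z - (Tp V)^[j] φ z'| ≤ 2 := by
    have h1 := tvb_Tp_abs V φ hφ j z
    have h2 := tvb_Tp_abs V φ hφ j z'
    have h3 := abs_sub ((Tp V)^[j] φ z) ((Tp V)^[j] φ z')
    linarith
  by_cases hz : z = z'
  · subst hz
    simp only [sub_self, abs_zero]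
    have := tvb_rho_nonneg (0 : St)
    positivity
  have hρ1 : 1 ≤ rho (z - z') := tvb_rho_one _ (sub_ne_zero.mpr hz)
  obtain ⟨R, hR⟩ : ∃ R, R = rho (z - z') := ⟨_, rfl⟩
  rw [← hR] at hρ1 ⊢
  have hR0 : 0 < R := by linarith
  by_cases hbig : 2 ≤ 2 ^ 200 * R * (q + 1 / j)
  · exact hD2.trans hbig
  push Not at hbig
  have hj' : 0 < 1 / (j:ℝ) := by positivity
  have hRq : R * q * 2 ^ 200 ≤ 2 := by
    have h1 : 0 < 2 ^ 200 * R * (1 / (j:ℝ)) := by positivity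
    nlinarith
  have hRj : R * 2 ^ 200 ≤ 2 * j := by
    have h1 : 0 < 2 ^ 200 * R * q := by positivity
    have h2 : 2 ^ 200 * R * (1 / (j:ℝ)) ≤ 2 := by nlinarith
    have h3 : 2 ^ 200 * R * (1 / (j:ℝ)) * j = 2 ^ 200 * R := by field_simp
    nlinarith
  have hRq1 : R * q ≤ 1 := by nlinarith
  rcases le_or_gt (2 ^ 40) R with hcase | hcase
  · -- large distance
    obtain ⟨l, hl⟩ : ∃ l : ℕ, l = ⌊(1/2 : ℝ) ^ 40 * R⌋₊ := ⟨_, rfl⟩
    have hx1 : (1:ℝ) ≤ (1/2 : ℝ) ^ 40 * R := by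
      have : (1/2 : ℝ) ^ 40 * 2 ^ 40 ≤ (1/2 : ℝ) ^ 40 * R :=
        mul_le_mul_of_nonneg_left hcase (by positivity)
      norm_num at this ⊢
      linarith
    have hl1 : (l:ℝ) ≤ (1/2) ^ 40 * R := by
      rw [hl]
      exact Nat.floor_le (by positivity)
    have hl2 : (1/2) ^ 40 * R < l + 1 := by
      rw [hl]
      exact Nat.lt_floor_add_one _
    have hl0 : 1 ≤ l := by
      rw [hl]
      exact Nat.le_floor (by exact_mod_cast hx1)
    have hl0' : (1:ℝ) ≤ l := by exact_mod_cast hl0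
    have hL : 2 * (3 * l) ≤ j := by
      have h1 : (6:ℝ) * l ≤ j := by
        have h2 : (1/2 : ℝ) ^ 40 * R ≤ R * (1 / 10 ^ 3) := by
          have : (1/2 : ℝ) ^ 40 ≤ 1 / 10 ^ 3 := by norm_num
          nlinarith
        have h3 : R * 2 ^ 10 ≤ 2 * j := by
          refine le_trans ?_ hRj
          apply mul_le_mul_of_nonneg_left _ hR0.le
          norm_num
        nlinarith
      have h2 : ((6 * l : ℕ) : ℝ) ≤ (j : ℝ) := by push_cast; exact h1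
      have h3 : 6 * l ≤ j := by exact_mod_cast h2
      omega
    have hjL : 1 ≤ j - 3 * l := by omega
    obtain ⟨k, hk⟩ : ∃ k, k = 2 ^ 200 * (q + 1 / ((j - 3 * l : ℕ) : ℝ)) := ⟨_, rfl⟩
    have hjL' : (0:ℝ) < ((j - 3 * l : ℕ) : ℝ) := by exact_mod_cast hjL
    have hk0 : 0 ≤ k := by rw [hk]; positivity
    have hf : ∀ w w', |(Tp V)^[j - 3 * l] φ w - (Tp V)^[j - 3 * l] φ w'| ≤
        k * rho (w - w') := by
      intro w w'
      refine (ih (j - 3 * l) (by omega) hjL φ hφ w w').trans (le_of_eq ?_)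
      rw [hk]
      ring
    have hmain := tvb_large K V hV ((Tp V)^[j - 3 * l] φ) (tvb_Tp_abs V φ hφ _) k hk0 hf z z' l
      hl0 (by rw [← hR]; exact hl1) (by rw [← hR]; linarith) (by rw [← hR]; exact hρ1) q hq0 hq3
      (by rw [← hR]; exact hRq1)
    rw [← hR] at hmain
    have hsplit : ∀ w, (Tp V)^[j] φ w = (Tp V)^[3 * l] ((Tp V)^[j - 3 * l] φ) w := by
      intro w
      have hjj : j = 3 * l + (j - 3 * l) := by omega
      conv_lhs => rw [hjj, Function.iterate_add_apply]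
    rw [hsplit z, hsplit z']
    refine hmain.trans ?_
    have hkj : k ≤ 2 * (2 ^ 200 * (q + 1 / j)) := by
      rw [hk]
      have h1 : (j:ℝ) / 2 ≤ ((j - 3 * l : ℕ) : ℝ) := by
        have h2 : j ≤ 2 * (j - 3 * l) := by omega
        have h3 : (j:ℝ) ≤ ((2 * (j - 3 * l) : ℕ) : ℝ) := by exact_mod_cast h2
        push_cast at h3 ⊢
        linarith
      have h2 : 1 / ((j - 3 * l : ℕ) : ℝ) ≤ 1 / ((j:ℝ) / 2) :=
        one_div_le_one_div_of_le (by positivity) h1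
      have h3 : 1 / ((j:ℝ) / 2) = 2 * (1 / j) := by field_simp
      rw [h3] at h2
      nlinarith
    have h1 : k * (R / 8) ≤ 2 * (2 ^ 200 * (q + 1 / j)) * (R / 8) :=
      mul_le_mul_of_nonneg_right hkj (by positivity)
    have h2 : 7 * (2 ^ 100 * R * q) ≤ 2 ^ 200 * R * (q + 1 / j) / 2 := by
      have h3 : 7 * (2 ^ 100 * R * q) = R * q * (7 * 2 ^ 100) := by ring
      have h4 : 2 ^ 200 * R * (q + 1 / j) / 2 = R * q * 2 ^ 199 + 2 ^ 199 * R * (1 / j) := by ring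
      rw [h3, h4]
      have h5 : R * q * (7 * 2 ^ 100) ≤ R * q * 2 ^ 199 := by
        apply mul_le_mul_of_nonneg_left _ (by positivity)
        norm_num
      have h6 : 0 ≤ 2 ^ 199 * R * (1 / (j:ℝ)) := by positivity
      linarith
    have h3 : 0 ≤ 2 ^ 200 * R * (q + 1 / (j:ℝ)) := by positivity
    nlinarith
  · -- small distance
    have hj3 : 3 ≤ j := by
      have h1 : (3:ℝ) ≤ j := by
        have h3 : (1:ℝ) * 2 ^ 10 ≤ 2 * j := by
          refine le_trans ?_ hRj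
          nlinarith
        linarith
      exact_mod_cast h1
    obtain ⟨ha, hb, hc⟩ := tvb_rho_bounds (z - z')
    rw [← hR] at ha hb hc
    have hR160 : R ^ 4 ≤ 2 ^ 160 := by
      have := pow_le_pow_left₀ hR0.le hcase.le 4
      norm_num at this ⊢
      exact this
    have hR24 : R ^ 2 ≤ R ^ 4 := pow_le_pow_right₀ hρ1 (by norm_num)
    have hR34 : R ^ 3 ≤ R ^ 4 := pow_le_pow_right₀ hρ1 (by norm_num)
    have hc' : (R / 512) ^ 4 ≤ R ^ 4 := by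
      apply pow_le_pow_left₀ (by positivity)
      linarith
    have hthree := three K V hV (2 ^ 160) z z' (by linarith) (by linarith) (by linarith)
      ((Tp V)^[j - 3] φ) (tvb_Tp_abs V φ hφ _)
    have hsplit : ∀ w, (Tp V)^[j] φ w = (Tp V)^[3] ((Tp V)^[j - 3] φ) w := by
      intro w
      have hjj : j = 3 + (j - 3) := by omega
      conv_lhs => rw [hjj, Function.iterate_add_apply]
    rw [hsplit z, hsplit z']
    refine hthree.trans ?_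
    have hsq : 1 / √(K:ℝ) ≤ q := by
      have hsK : 0 < √(K:ℝ) := Real.sqrt_pos.mpr hK0
      rw [div_le_iff₀ hsK]
      have h1 : (q * √(K:ℝ)) ^ 2 = q ^ 2 * K := by
        rw [mul_pow, Real.sq_sqrt hK0.le]
      have h2 : 1 ≤ q ^ 2 * K := by
        have h3 : (K:ℝ) * q ^ 3 ≤ q ^ 2 * K := by
          have h4 : q ^ 3 ≤ q ^ 2 := pow_le_pow_of_le_one hq0.le hq1 (by norm_num)
          nlinarith
        linarith
      rw [← h1] at h2
      have h3 : 0 < q * √(K:ℝ) := by positivity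
      nlinarith
    have h1 : 20000 * (2:ℝ) ^ 160 / √K ≤ 20000 * 2 ^ 160 * q := by
      rw [div_eq_mul_one_div]
      exact mul_le_mul_of_nonneg_left hsq (by positivity)
    refine h1.trans ?_
    have h2 : 20000 * 2 ^ 160 * q ≤ 2 ^ 200 * R * q := by
      apply mul_le_mul_of_nonneg_right _ hq0.le
      have : (20000:ℝ) * 2 ^ 160 ≤ 2 ^ 200 * 1 := by norm_num
      nlinarith
    have h3 : 0 ≤ 2 ^ 200 * R * (1 / (j:ℝ)) := by positivity
    nlinarith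

/-- the involution exchanging `Rv` and `Tp` -/
def tvb_J (z : St) : St := (-z.1, z.2.1, -z.2.2)

theorem tvb_JJ (z : St) : tvb_J (tvb_J z) = z := by
  simp [tvb_J]

theorem tvb_Rv (V : ℤ → ℕ) (f : St → ℝ) (z : St) :
    Rv V f z = Tp V (fun y => f (tvb_J y)) (tvb_J z) := by
  unfold Rv Tp tvb_J
  simp only
  rw [← sub_eq_add_neg]
  refine integral_congr_ae (Filter.Eventually.of_forall fun x => ?_)
  simp only
  congr 1
  ext
  · simp only; ring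
  · simp only
  · simp only; ring

theorem tvb_Rv_iter (V : ℤ → ℕ) (f : St → ℝ) (j : ℕ) (z : St) :
    (Rv V)^[j] f z = (Tp V)^[j] (fun y => f (tvb_J y)) (tvb_J z) := by
  induction j generalizing z with
  | zero => simp [tvb_JJ]
  | succ j ih =>
    rw [Function.iterate_succ', Function.comp_apply, Function.iterate_succ',
      Function.comp_apply, tvb_Rv]
    congr 1
    funext y
    rw [ih, tvb_JJ]

theorem tvb_rho_J (z z' : St) : rho (tvb_J z - tvb_J z') = rho (z - z') := by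
  unfold rho tvb_J
  simp only [Prod.fst_sub, Prod.snd_sub]
  have h1 : ∀ a b : ℤ, |((-a - -b : ℤ) : ℝ)| = |((a - b : ℤ) : ℝ)| := by
    intro a b
    rw [show -a - -b = -(a - b) by ring, Int.cast_neg, abs_neg]
  rw [h1, h1]

theorem tv_bound_Rv : ∃ κ : ℝ, 0 < κ ∧ ∀ (K : ℕ) (V : ℤ → ℕ), Adm K V → ∀ j : ℕ, 1 ≤ j →
    ∀ φ : St → ℝ, (∀ z, |φ z| ≤ 1) → ∀ z z',
    |(Rv V)^[j] φ z - (Rv V)^[j] φ z'| ≤
      κ * rho (z - z') * ((K:ℝ) ^ (-(1/3 : ℝ)) + 1 / j) := by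
  obtain ⟨κ, hκ, h⟩ := tv_bound
  refine ⟨κ, hκ, fun K V hV j hj φ hφ z z' => ?_⟩
  rw [tvb_Rv_iter, tvb_Rv_iter, ← tvb_rho_J]
  exact h K V hV j hj _ (fun _ => hφ _) _ _

end Pool.Agent.Helper7.Stuck
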